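import Pool.Agent.H591R2.Ternary

/-!
# Three squares for `m = 3 mod 8` from an auxiliary prime
-/

namespace Pool.Agent.H591R2

open St

/-- The initial state of the reduction. -/
def init (q b c k l : ℤ) : St := ⟨2 * q, b, 0, c, k, l, 0, 0, 1⟩

theorem init_good {m q b c k l M : ℤ} (hm : 0 < m) (hq : 0 < q) (h1 : b ^ 2 + m = 2 * q * c)
    (h2 : 2 * q * k ^ 2 + 1 = m * l) (hqM : 2 * q ≤ M) (hcM : c ≤ M) (hlM : l ≤ M) :
    Good m M (init q b c k l) := by
  have e : 2 * q * c - b ^ 2 = m := by linarith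
  refine ⟨by simp [init]; exact hq, by simp only [D2, init]; rw [e]; exact hm, ?_, ?_, hqM, hcM, hlM⟩
  · simp only [det, init]
    have : 2 * q * c * l + 2 * b * 0 * k - 2 * q * k ^ 2 - b ^ 2 * l - 0 ^ 2 * c
      = (2 * q * c - b ^ 2) * l - 2 * q * k ^ 2 := by ring
    rw [this, e]; linarith
  · simp only [Q, init]; linarith

/-- The auxiliary prime makes `-m` a square modulo `q`. -/
theorem exists_root {m q : ℕ} (hm : m % 8 = 3) (hq : q.Prime) (hq2 : q ≠ 2)
    (hcop : Nat.Coprime q m) {u : ℤ} (hu : (m : ℤ) ∣ u ^ 2 + 2 * q) :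
    ∃ b : ℤ, (q : ℤ) ∣ b ^ 2 + m := by
  have : Fact q.Prime := ⟨hq⟩
  have hmodd : Odd m := Nat.odd_iff.2 (by omega)
  have hqodd : Odd q := hq.odd_of_ne_two hq2
  have hucop : u.gcd m = 1 := by
    rw [← Int.isCoprime_iff_gcd_eq_one]
    have h1 : IsCoprime (u ^ 2) (m : ℤ) := by
      have h2 : IsCoprime (-(2 * (q : ℤ))) (m : ℤ) := by
        rw [IsCoprime.neg_left_iff]
        apply IsCoprime.mul_left
        · rw [← Nat.cast_ofNat, Nat.isCoprime_iff_coprime]
          exact Nat.coprime_two_left.2 hmodd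
        · exact Nat.isCoprime_iff_coprime.2 hcop
      obtain ⟨t, ht⟩ := hu
      have e : u ^ 2 = -(2 * (q : ℤ)) + m * t := by linarith
      rw [e]
      exact (IsCoprime.add_mul_left_left_iff).2 h2
    exact (IsCoprime.pow_left_iff (by norm_num)).1 h1
  have h3 : jacobiSym (-(2 * (q : ℤ))) m = 1 := by
    have : jacobiSym (-(2 * (q : ℤ))) m = jacobiSym (u ^ 2) m := by
      apply jacobiSym.mod_left'
      apply Int.emod_eq_emod_iff_emod_sub_eq_zero.2
      apply Int.emod_eq_zero_of_dvd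
      have : -(2 * (q : ℤ)) - u ^ 2 = -(u ^ 2 + 2 * q) := by ring
      rw [this]
      exact (dvd_neg).2 hu
    rw [this]
    exact jacobiSym.sq_one' hucop
  have h4 : jacobiSym (-2) m = 1 := by
    rw [jacobiSym.at_neg_two hmodd]
    have : (m : ZMod 8) = 3 := by
      have : ((m % 8 : ℕ) : ZMod 8) = m := by simp
      rw [← this, hm]; rfl
    rw [this]; decide
  have h5 : jacobiSym q m = 1 := by
    have : -(2 * (q : ℤ)) = -2 * q := by ring
    rw [this, jacobiSym.mul_left, h4, one_mul] at h3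
    exact h3
  have h6 : jacobiSym (-(m : ℤ)) q = 1 := by
    rw [jacobiSym.neg _ hqodd]
    rcases Nat.odd_mod_four_iff.1 (Nat.odd_iff.1 hqodd) with h | h
    · rw [← jacobiSym.quadratic_reciprocity_one_mod_four h hmodd, h5, ZMod.χ₄_nat_one_mod_four h]
      rfl
    · rw [jacobiSym.quadratic_reciprocity_three_mod_four (by omega) h, h5,
        ZMod.χ₄_nat_three_mod_four h]
      rfl
  have h7 := ZMod.isSquare_of_jacobiSym_eq_one h6
  obtain ⟨r, hr⟩ := h7
  refine ⟨r.val, ?_⟩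
  rw [← ZMod.intCast_zmod_eq_zero_iff_dvd]
  push_cast
  rw [ZMod.natCast_zmod_val]
  push_cast at hr
  linear_combination -hr

/-- From an auxiliary prime to the data of the reduction. -/
theorem exists_good {m q : ℕ} (hm : m % 8 = 3) (hq : q.Prime) (hq2 : q ≠ 2)
    (hcop : Nat.Coprime q m) {u : ℤ} (hu : (m : ℤ) ∣ u ^ 2 + 2 * q) :
    ∃ s M, Good (m : ℤ) M s := by
  obtain ⟨b₀, hb₀⟩ := exists_root hm hq hq2 hcop hu
  have hqodd : Odd q := hq.odd_of_ne_two hq2
  have hmodd : Odd m := Nat.odd_iff.2 (by omega)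
  obtain ⟨b, hb, hbodd⟩ : ∃ b : ℤ, (q : ℤ) ∣ b ^ 2 + m ∧ Odd b := by
    rcases Int.even_or_odd b₀ with h | h
    · refine ⟨b₀ + q, ?_, h.add_odd (by exact_mod_cast hqodd)⟩
      have : (b₀ + q) ^ 2 + (m : ℤ) = (b₀ ^ 2 + m) + q * (2 * b₀ + q) := by ring
      rw [this]
      exact dvd_add hb₀ (dvd_mul_right _ _)
    · exact ⟨b₀, hb₀, h⟩
  have h2q : (2 * q : ℤ) ∣ b ^ 2 + m := by
    apply IsCoprime.mul_dvd _ _ hb
    · rw [← Nat.cast_ofNat, Nat.isCoprime_iff_coprime]
      exact Nat.coprime_two_left.2 hqodd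
    · rw [← even_iff_two_dvd]
      exact (hbodd.pow).add_odd (by exact_mod_cast hmodd)
  obtain ⟨c, hc⟩ := h2q
  have hucop : IsCoprime u (m : ℤ) := by
    have h1 : IsCoprime (u ^ 2) (m : ℤ) := by
      have h2 : IsCoprime (-(2 * (q : ℤ))) (m : ℤ) := by
        rw [IsCoprime.neg_left_iff]
        apply IsCoprime.mul_left
        · rw [← Nat.cast_ofNat, Nat.isCoprime_iff_coprime]
          exact Nat.coprime_two_left.2 hmodd
        · exact Nat.isCoprime_iff_coprime.2 hcop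
      obtain ⟨t, ht⟩ := hu
      have e : u ^ 2 = -(2 * (q : ℤ)) + m * t := by linarith
      rw [e]
      exact (IsCoprime.add_mul_left_left_iff).2 h2
    exact (IsCoprime.pow_left_iff (by norm_num)).1 h1
  obtain ⟨k, j, hkj⟩ := hucop
  have hl : (m : ℤ) ∣ 2 * q * k ^ 2 + 1 := by
    have e : 2 * q * k ^ 2 + 1 = (u ^ 2 + 2 * q) * k ^ 2 + m * (j * (1 + k * u)) := by
      have : (m : ℤ) * j = 1 - k * u := by linarith
      have e2 : (m : ℤ) * (j * (1 + k * u)) = (m * j) * (1 + k * u) := by ring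
      rw [e2, this]; ring
    rw [e]
    exact dvd_add (hu.mul_right _) (dvd_mul_right _ _)
  obtain ⟨l, hl⟩ := hl
  refine ⟨init q b c k l, max (2 * q) (max c l), init_good (by omega)
    (by exact_mod_cast hq.pos) hc hl (le_max_left _ _)
    ((le_max_left _ _).trans (le_max_right _ _)) ((le_max_right _ _).trans (le_max_right _ _))⟩

/-- Every positive integer `m = 3 mod 8` is a sum of three squares. -/
theorem three_squares {m : ℕ} (hm : m % 8 = 3) : ∃ x y z : ℤ, x ^ 2 + y ^ 2 + z ^ 2 = m := by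
  have : NeZero m := ⟨by omega⟩
  have hmodd : Odd m := Nat.odd_iff.2 (by omega)
  have h2 : IsUnit ((2 : ℕ) : ZMod m) := by
    rw [ZMod.isUnit_iff_coprime]
    exact Nat.coprime_two_left.2 hmodd
  obtain ⟨v, hv⟩ := h2
  obtain ⟨q, hqm, hq, hqv⟩ := Nat.forall_exists_prime_gt_and_eq_mod
    (a := -((v⁻¹ : (ZMod m)ˣ) : ZMod m)) (by rw [IsUnit.neg_iff]; exact Units.isUnit _) (m + 2)
  have hu : (m : ℤ) ∣ 1 ^ 2 + 2 * q := by
    rw [← ZMod.intCast_zmod_eq_zero_iff_dvd]
    push_cast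
    rw [hqv]
    have : (2 : ZMod m) = v := by rw [hv]; simp
    rw [this]
    simp
  obtain ⟨s, M, hs⟩ := exists_good hm hq (by omega)
    ((Nat.Prime.coprime_iff_not_dvd hq).2 fun h => by
      have := Nat.le_of_dvd (by omega) h
      omega) hu
  exact exists_sq hs

end Pool.Agent.H591R2
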