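import Pool.Agent.H591R2.Watson

/-!
# The algorithm
-/

namespace Pool.Agent.H591R2

/-! ### arithmetic subroutines -/

/-- one step of the extended Euclidean algorithm: state `(r₀, r₁, x₀, x₁)` -/
def egStep (m : ℕ) (s : ℕ × ℕ × ℕ × ℕ) : ℕ × ℕ × ℕ × ℕ :=
  if s.2.1 = 0 then s
  else (s.2.1, s.1 % s.2.1, s.2.2.2,
    (s.2.2.1 + (m - (s.1 / s.2.1 * s.2.2.2) % max m 1)) % max m 1)

/-- extended Euclid: `(g, x)` with `g = gcd (m, u)` and `x u = g` modulo `m` -/
def eg (m u : ℕ) : ℕ × ℕ :=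
  let s := (egStep m)^[2 * m.size + 1] (m, u % max m 1, 0, 1 % max m 1)
  (s.1, s.2.2.1)

/-- one step of binary search: state `(r, w)` -/
def bsStep (P : ℕ → Bool) (s : ℕ × ℕ) : ℕ × ℕ :=
  (if P (s.1 + s.2 / 2) then s.1 + s.2 / 2 else s.1, s.2 / 2)

/-- the largest `r < 2 ^ b` with `P r` (for a decreasing predicate) -/
def bs (P : ℕ → Bool) (b : ℕ) : ℕ := ((bsStep P)^[b] (0, 2 ^ b)).1

/-- multiplication of `r₀ + r₁ X` modulo `q` and `X ^ 2 + m` -/
def qmul (q m : ℕ) (x y : ℕ × ℕ) : ℕ × ℕ :=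
  ((x.1 * y.1 + m * (q - x.2 * y.2 % max q 1)) % max q 1, (x.1 * y.2 + x.2 * y.1) % max q 1)

/-- powers -/
def qpow (q m : ℕ) (g : ℕ × ℕ) (e : List Bool) : ℕ × ℕ :=
  e.foldr (fun b acc => if b then qmul q m (qmul q m acc acc) g else qmul q m acc acc)
    (1 % max q 1, 0)

/-- the list of primes up to `w` -/
def plist (w : ℕ) : List ℕ :=
  (List.range (w + 1)).filter fun p => decide (2 ≤ p) &&
    (List.range (w + 1)).all fun d => decide (d < 2) || decide (p ≤ d) || !decide (p % d = 0)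

/-- one step of the `3`-adic iteration -/
def t0Step (M c t : ℕ) : ℕ := (t ^ 3 + (M - (3 * t + c) % M)) % M

/-- approximate `3`-adic root of `t ^ 3 - 4 t = 24 n` -/
def t0 (n k : ℕ) : ℕ := (t0Step (3 ^ (k + 1)) (24 * n))^[k] 1

/-- step of the choice of the index `i` -/
def iStep (T S : ℕ) (s : ℕ × ℕ) (p : ℕ) : ℕ × ℕ :=
  (if (T + S * s.1) % p = 0 then s.1 + s.2 else s.1, s.2 * p)

/-- step of the choice of the residue of `e` -/
def aStep (C t e : ℕ) (s : ℕ × ℕ) (p : ℕ) : ℕ × ℕ :=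
  (if ¬ (C - t * (e + s.1) ^ 2) % p = 0 then s.1
   else if ¬ (C - t * (e + (s.1 + 2 * s.2)) ^ 2) % p = 0 then s.1 + 2 * s.2
   else s.1 + 4 * s.2, s.2 * p)

/-! ### deterministic parameters -/

/-- the scale -/
def scale (n : ℕ) : ℕ := Nat.size n / 1000

def sig (K : ℕ) : ℕ := 3 ^ (100 * K)

def sOf (K : ℕ) : ℕ := sig K ^ 2

/-- the smallest candidate for `t` -/
def T1 (n K : ℕ) : ℕ :=
  let r := bs (fun r => decide (r ^ 3 ≤ 7 * n)) n.size.succ.succ.succ
  let S := 3 * sOf K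
  r + 1 + (t0 n (200 * K) + (S - (r + 1) % S)) % S

/-- the odd part `8 n - s ^ 3 + 4 s` -/
def Rof (n K : ℕ) : ℕ := 8 * n + 4 * sOf K - sOf K ^ 3

def iW (n K : ℕ) : ℕ × ℕ :=
  ((plist (2 * K)).filter (fun p => decide (5 ≤ p))).foldl (iStep (T1 n K) (3 * sOf K)) (0, 1)

/-- candidates for `t` -/
def tCand (n K g : ℕ) : ℕ := T1 n K + 3 * sOf K * ((iW n K).1 + (iW n K).2 * g)

def tOf (n K : ℕ) : ℕ :=
  tCand n K (((List.range (4 * K)).filter (fun g => decide ((eg (tCand n K g) (Rof n K)).1 = 1))).headD 0)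

def COf (n K : ℕ) : ℕ :=
  (24 * n + 4 * tOf n K - tOf n K ^ 3) / (3 * sOf K) + 4 - sOf K ^ 2

def W2 (K : ℕ) : ℕ := ((plist (2 * K)).filter (fun p => decide (3 ≤ p))).prod

def E1 (n K : ℕ) : ℕ :=
  let E := bs (fun e => decide (tOf n K * e ^ 2 < COf n K)) n.size.succ.succ.succ
  let x := E - 2 * W2 K * (2 ^ (100 * K) + 1)
  x - (x + tOf n K) % 2

def E0 (n K : ℕ) : ℕ :=
  E1 n K + (((plist (2 * K)).filter (fun p => decide (3 ≤ p))).foldl
    (aStep (COf n K) (tOf n K) (E1 n K)) (0, 1)).1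

/-! ### one randomised trial -/

/-- the cap on the entries of the states -/
def St.cap (M : ℕ) (s : St) : Bool :=
  decide (s.a.natAbs ≤ M) && decide (s.b.natAbs ≤ M) && decide (s.c.natAbs ≤ M) &&
  decide (s.d.natAbs ≤ M) && decide (s.e.natAbs ≤ M) && decide (s.f.natAbs ≤ M) &&
  decide (s.x.natAbs ≤ M) && decide (s.y.natAbs ≤ M) && decide (s.z.natAbs ≤ M)

/-- reduction step with a cap -/
def St.cstep (M : ℕ) (s : St) : St := if St.cap M s.step then s.step else s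

/-- the initial state for the prime `q`, the root `b` and the inverse `k` -/
def iniSt (m q b k : ℕ) : St :=
  init q b ((b * b + m) / (2 * q) : ℕ) k ((2 * q * k * k + 1) / m : ℕ)

/-- the odd square root candidate -/
def rootOf (m q w : ℕ) : ℕ :=
  let β := (eg q (qpow q m (w % max q 1, 1 % max q 1) ((q - 1) / 2).bits).2).2
  if β % 2 = 1 then β else q - β

/-- the candidate for the auxiliary prime -/
def qOf (m u y : ℕ) : ℕ := m * (y / m) + (m - u * u * ((m + 1) / 2) % m) % m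

/-- three squares candidate for `m` -/
def three (K m u y w : ℕ) : ℕ × ℕ × ℕ :=
  let q := qOf m u y
  let s := (St.cstep (2 ^ (3000 * K)))^[7000 * K] (iniSt m q (rootOf m q w) (eg m u).2)
  (s.x.natAbs, s.y.natAbs, s.z.natAbs)

/-- validity test -/
def valid (n : ℕ) (L : List ℕ) : Bool :=
  decide (1 ≤ L.length) && decide (L.length ≤ 8) && L.all (fun m => decide (1 ≤ m)) &&
    decide ((L.map tet).sum = n)

/-- one trial, from the deterministic parameters and four random numbers -/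
def trialCore (n K t C e₀ V : ℕ) (ρ : ℕ × ℕ × ℕ × ℕ) : List ℕ :=
  let e := e₀ + V * (ρ.1 % 2 ^ (100 * K))
  let m := C - t * e ^ 2
  let d := three K m (ρ.2.1 % max m 1) (ρ.2.2.1 % 2 ^ (2000 * K + 1)) ρ.2.2.2
  (mk (sOf K) t (sig K * e) d.1 d.2.1 d.2.2).filter (fun m => decide (1 ≤ m))

/-- one trial -/
def trial (n : ℕ) (ρ : ℕ × ℕ × ℕ × ℕ) : Option (List ℕ) :=
  let K := scale n
  let L := trialCore n K (tOf n K) (COf n K) (E0 n K) (2 * W2 K) ρ
  if valid n L then some L else none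

theorem valid_iff (n : ℕ) (L : List ℕ) : valid n L = true ↔ IsRep n L := by
  unfold valid IsRep
  simp only [Bool.and_eq_true, decide_eq_true_eq, List.all_eq_true]
  tauto

theorem trial_sound {n : ℕ} {ρ : ℕ × ℕ × ℕ × ℕ} {L : List ℕ} (h : trial n ρ = some L) :
    IsRep n L := by
  unfold trial at h
  simp only at h
  split_ifs at h with hv
  · rw [Option.some.injEq] at h
    rw [← h]
    exact (valid_iff _ _).1 hv

end Pool.Agent.H591R2
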