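import Pool.Agent.H591R2.CoinCode
import Pool.Agent.NPC.Num

/-!
# Analysis of the Las Vegas machine
-/

namespace Pool.Agent.H591R2

open Turing Function NPC CoinMachine

/-! ### averages over coin tosses -/

/-- average over `j` coin tosses, recorded on a stack -/
noncomputable def avg : ℕ → (List Bool → ℝ) → List Bool → ℝ
  | 0, f, acc => f acc
  | j + 1, f, acc => (avg j f (false :: acc) + avg j f (true :: acc)) / 2

theorem avg_mono (j : ℕ) {f g : List Bool → ℝ} : ∀ acc : List Bool,
    (∀ l : List Bool, l.length = acc.length + j → f l ≤ g l) → avg j f acc ≤ avg j g acc := by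
  induction j with
  | zero => intro acc h; exact h acc rfl
  | succ j ih =>
    intro acc h
    have h1 := ih (false :: acc) (fun l hl => h l (by simp at hl; omega))
    have h2 := ih (true :: acc) (fun l hl => h l (by simp at hl; omega))
    unfold avg
    linarith

theorem sum_range_double (m : ℕ) (h : ℕ → ℝ) :
    ∑ R ∈ Finset.range (2 * m), h R = ∑ R ∈ Finset.range m, (h (2 * R) + h (2 * R + 1)) := by
  induction m with
  | zero => simp
  | succ m ih =>
    rw [show 2 * (m + 1) = 2 * m + 1 + 1 by ring, Finset.sum_range_succ, Finset.sum_range_succ, ih,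
      Finset.sum_range_succ]
    ring

theorem avg_num (j : ℕ) (g : ℕ → ℝ) : ∀ acc : List Bool,
    avg j (fun l => g (valB l.reverse)) acc =
      (∑ R ∈ Finset.range (2 ^ j), g (valB acc.reverse + 2 ^ acc.length * R)) / 2 ^ j := by
  induction j with
  | zero => intro acc; simp [avg]
  | succ j ih =>
    intro acc
    unfold avg
    rw [ih, ih, pow_succ 2 j, mul_comm (2 ^ j) 2, sum_range_double]
    have e : ∀ b : Bool, valB (b :: acc).reverse = valB acc.reverse +
        2 ^ acc.length * (if b then 1 else 0) := by
      intro b
      rw [List.reverse_cons, valB_append, List.length_reverse]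
      cases b <;> simp
    rw [e, e, Finset.sum_add_distrib]
    simp only [List.length_cons, Bool.false_eq_true, if_false, if_true, mul_zero, add_zero, mul_one]
    have e1 : ∀ R, valB acc.reverse + 2 ^ (acc.length + 1) * R =
        valB acc.reverse + 2 ^ acc.length * (2 * R) := by intro R; ring
    have e2 : ∀ R, valB acc.reverse + 2 ^ acc.length + 2 ^ (acc.length + 1) * R =
        valB acc.reverse + 2 ^ acc.length * (2 * R + 1) := by intro R; ring
    simp only [e1, e2]
    field_simp
    ring

section

variable {N₀ : ℕ} {cA cC : Cmd (Fin (N₀ + 2))} {x x' : List Bool} {k tA τ : ℕ}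
  {G : List Bool → List Bool}

/-- the loop head string -/
def head (k : ℕ) (x' : List Bool) : List Bool := List.replicate k true ++ false :: x'

/-- the second loop -/
theorem eT_two (N : ℕ) : ∀ v u : List Bool, eT N (cfg cA cC 2 u v) ≤ v.length + 1 +
    eT N (mkc cA cC (some (Sum.inr (Sum.inl cC.entry))) none
      (st2 (v.reverse.flatMap (fun b => [true, b]) ++ u) [])) := by
  intro v
  induction v with
  | nil =>
    intro u
    have := eT_step N (fun b => step_two_nil cA cC b u)
    simpa using this
  | cons a v ih =>
    intro u
    have h1 := eT_step N (fun b => step_two_cons cA cC b a u v)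
    have h2 := ih (true :: a :: u)
    have e : v.reverse.flatMap (fun b => [true, b]) ++ true :: a :: u =
        (a :: v).reverse.flatMap (fun b => [true, b]) ++ u := by simp
    rw [e] at h2
    push_cast [List.length_cons]
    linarith

theorem ok_two {Gd : (lvMachine cA cC).Conf → Prop} (m : ℕ) : ∀ v u : List Bool,
    OK Gd m (mkc cA cC (some (Sum.inr (Sum.inl cC.entry))) none
      (st2 (v.reverse.flatMap (fun b => [true, b]) ++ u) [])) → OK Gd m (cfg cA cC 2 u v) := by
  intro v
  induction v with
  | nil =>
    intro u h
    exact ok_coin' (fun b => step_two_nil cA cC b u) (fun _ => by simpa using h)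
  | cons a v ih =>
    intro u h
    have e : v.reverse.flatMap (fun b => [true, b]) ++ true :: a :: u =
        (a :: v).reverse.flatMap (fun b => [true, b]) ++ u := by simp
    exact ok_coin' (fun b => step_two_cons cA cC b a u v) (fun _ => ih _ (by rw [e]; exact h))

/-- the tossing loop -/
theorem eT_toss (N : ℕ) : ∀ (j : ℕ) (acc : List Bool),
    eT N (cfg cA cC 1 (head j x') acc) ≤
      j + avg j (fun l => eT N (cfg cA cC 1 (false :: x') l)) acc := by
  intro j
  induction j with
  | zero => intro acc; simp [head, avg]
  | succ j ih =>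
    intro acc
    have h1 := eT_coin N (fun b => step_one_true cA cC b (head j x') acc)
    have h2 := ih (false :: acc)
    have h3 := ih (true :: acc)
    have e : true :: head j x' = head (j + 1) x' := rfl
    rw [e] at h1
    unfold avg
    push_cast
    linarith

theorem ok_toss {Gd : (lvMachine cA cC).Conf → Prop} (m : ℕ) (j : ℕ) : ∀ acc : List Bool,
    (∀ l : List Bool, l.length = acc.length + j → OK Gd m (cfg cA cC 1 (false :: x') l)) →
    OK Gd m (cfg cA cC 1 (head j x') acc) := by
  induction j with
  | zero => intro acc h; exact h acc rfl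
  | succ j ih =>
    intro acc h
    exact ok_coin' (fun b => step_one_true cA cC b (head j x') acc)
      (fun b => ih (b :: acc) (fun l hl => h l (by simp at hl; omega)))

/-- the hypotheses on the two programs, for the input `x` -/
structure Spec (cA cC : Cmd (Fin (N₀ + 2))) (x x' : List Bool) (k tA τ : ℕ)
    (G : List Bool → Option (List Bool)) : Prop where
  runA : Run cA (inp x) (inp (head k x')) tA
  runC : ∀ r : List Bool, r.length = k → ∃ t ≤ τ, Run cC (inp (pairBits r x'))
    (inp (match G r with
      | some y => true :: y
      | none => false :: head k x')) t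

theorem inp_eq (u : List Bool) : (inp u : Fin (N₀ + 2) → List Bool) = st2 u [] := (st2_nil u).symm

/-- the main loop, from the entry of the main program, in case of success -/
theorem pairBits_eq (r x' : List Bool) :
    r.flatMap (fun b => [true, b]) ++ false :: x' = pairBits r x' := rfl

theorem eT_body {G : List Bool → Option (List Bool)} (h : Spec cA cC x x' k tA τ G) (N : ℕ)
    {l : List Bool} (hl : l.length = k) :
    eT N (cfg cA cC 1 (false :: x') l) ≤ k + 3 + τ +
      (if (G l.reverse).isSome then 0 else eT N (cfg cA cC 1 (head k x') [])) := by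
  have h1 := eT_step N (fun b => step_one_false cA cC b x' l)
  have h2 := eT_two (cA := cA) (cC := cC) N l (false :: x')
  rw [pairBits_eq, hl] at h2
  obtain ⟨t, ht, hrun⟩ := h.runC l.reverse (by simpa using hl)
  rw [inp_eq, inp_eq] at hrun
  obtain ⟨v', hseg⟩ := code_seg hrun (lvProg cA cC) (fun l => Sum.inr (Sum.inl l)) (ctl cA cC 3)
    (fun _ _ => rfl) none
  have h3 := eT_seg N t (seg_run cA cC hseg)
  have ht' : (t : ℝ) ≤ τ := by exact_mod_cast ht
  cases hG : G l.reverse with
  | some y =>
    rw [hG] at h3
    simp only at h3
    have h4 := eT_step N (fun b => step_three_true cA cC b v' y)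
    rw [eT_halt N (c := mkc cA cC none none (st2 y [])) rfl] at h4
    simp only [Option.isSome_some, if_true]
    linarith
  | none =>
    rw [hG] at h3
    simp only at h3
    have h4 := eT_step N (fun b => step_three_false cA cC b v' (head k x'))
    simp only [Option.isSome_none, Bool.false_eq_true, if_false]
    linarith

/-- The expected running time of the Las Vegas machine. -/
theorem lv_time {G : List Bool → Option (List Bool)} (h : Spec cA cC x x' k tA τ G)
    {g : ℕ → Bool} (hg : ∀ r : List Bool, r.length = k → (G r).isSome = g (valB r)) {D : ℕ}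
    (hD : 2 ^ k ≤ D * ((Finset.range (2 ^ k)).filter (fun R => g R = true)).card) (N : ℕ) :
    eT N ((lvMachine cA cC).start x) ≤ tA + 1 + D * (2 * k + 3 + τ) := by
  set S := eT N (cfg cA cC 1 (head k x') []) with hS
  have hS0 : 0 ≤ S := eT_nonneg _ _
  -- preparation
  obtain ⟨v', hseg⟩ := code_seg h.runA (lvProg cA cC) Sum.inl (ctl cA cC 0) (fun _ _ => rfl) none
  have h1 := eT_seg N tA (seg_run cA cC hseg)
  rw [inp_eq (head k x')] at h1
  have h2 := eT_step N (fun b => step_zero cA cC b v' (head k x'))
  rw [← hS] at h2
  -- the loop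
  have h3 := eT_toss (cA := cA) (cC := cC) (x' := x') N k []
  rw [← hS] at h3
  have h4 : avg k (fun l => eT N (cfg cA cC 1 (false :: x') l)) [] ≤
      (∑ R ∈ Finset.range (2 ^ k), (fun R => (k + 3 + τ : ℝ) + (if g R = true then 0 else S))
        (valB ([] : List Bool).reverse + 2 ^ ([] : List Bool).length * R)) / 2 ^ k := by
    refine le_trans ?_ (avg_num k (fun R => (k + 3 + τ : ℝ) + (if g R = true then 0 else S)) []).le
    apply avg_mono
    intro l hl
    have hl' : l.length = k := by simpa using hl
    have h5 := eT_body h N hl'
    rw [hg l.reverse (by simpa using hl')] at h5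
    exact h5
  simp only [List.reverse_nil, valB_nil, List.length_nil, pow_zero, one_mul, zero_add] at h4
  rw [Finset.sum_add_distrib, Finset.sum_const, Finset.card_range, nsmul_eq_mul] at h4
  have h6 : ∑ R ∈ Finset.range (2 ^ k), (if g R = true then (0 : ℝ) else S) =
      (2 ^ k - ((Finset.range (2 ^ k)).filter (fun R => g R = true)).card) * S := by
    have e : ∀ R, (if g R = true then (0 : ℝ) else S) = S - (if g R = true then 1 else 0) * S := by
      intro R; split_ifs <;> ring
    simp only [e]
    rw [Finset.sum_sub_distrib, Finset.sum_const, Finset.card_range, nsmul_eq_mul,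
      ← Finset.sum_mul, Finset.sum_boole]
    push_cast
    ring
  rw [h6] at h4
  set c := ((Finset.range (2 ^ k)).filter (fun R => g R = true)).card with hc
  have hk : (0 : ℝ) < 2 ^ k := by positivity
  have hD' : (2 : ℝ) ^ k ≤ D * c := by exact_mod_cast hD
  have h7 : S ≤ k + (((2 ^ k : ℕ) : ℝ) * (k + 3 + τ) + (2 ^ k - c) * S) / 2 ^ k := by linarith
  have h8 : c * S ≤ 2 ^ k * (2 * k + 3 + τ) := by
    have h9 : (((2 ^ k : ℕ) : ℝ) * (k + 3 + τ) + (2 ^ k - c) * S) / 2 ^ k =
        (k + 3 + τ) + S - c * S / 2 ^ k := by
      push_cast
      field_simp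
      ring
    rw [h9] at h7
    have h10 : c * S / 2 ^ k ≤ 2 * k + 3 + τ := by linarith
    rw [div_le_iff₀ hk] at h10
    linarith
  have h11 : S ≤ D * (2 * k + 3 + τ) := by
    have h12 : 2 ^ k * S ≤ 2 ^ k * (D * (2 * k + 3 + τ)) := by
      calc 2 ^ k * S ≤ (D * c) * S := mul_le_mul_of_nonneg_right hD' hS0
        _ = D * (c * S) := by ring
        _ ≤ D * (2 ^ k * (2 * k + 3 + τ)) := mul_le_mul_of_nonneg_left h8 (by positivity)
        _ = _ := by ring
    exact le_of_mul_le_mul_left h12 hk
  rw [start_eq]
  linarith

/-- Whenever the Las Vegas machine halts, its output is one of the good outputs. -/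
theorem lv_ok {G : List Bool → Option (List Bool)} (h : Spec cA cC x x' k tA τ G) (m : ℕ) :
    OK (fun c => ∃ r y, r.length = k ∧ G r = some y ∧
      c = mkc cA cC none none (update (fun _ => []) 0 y)) m
      ((lvMachine cA cC).start x) := by
  set Gd : (lvMachine cA cC).Conf → Prop := fun c => ∃ r y, r.length = k ∧ G r = some y ∧
      c = mkc cA cC none none (update (fun _ => []) 0 y) with hGd
  have key : ∀ m, OK Gd m (cfg cA cC 1 (head k x') []) := by
    intro m
    induction m with
    | zero => exact ok_zero _
    | succ m ih =>
      apply ok_toss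
      intro l hl
      have hl' : l.length = k := by simpa using hl
      refine ok_coin (fun b => step_one_false cA cC b x' l) (fun _ => ?_)
      apply ok_two
      rw [pairBits_eq]
      obtain ⟨t, ht, hrun⟩ := h.runC l.reverse (by simpa using hl')
      rw [inp_eq, inp_eq] at hrun
      obtain ⟨v', hseg⟩ := code_seg hrun (lvProg cA cC) (fun l => Sum.inr (Sum.inl l))
        (ctl cA cC 3) (fun _ _ => rfl) none
      refine ok_seg (seg_run cA cC hseg) ?_
      cases hG : G l.reverse with
      | some y =>
        simp only
        refine ok_coin' (fun b => step_three_true cA cC b v' y) (fun _ => ?_)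
        refine ok_halt m ⟨l.reverse, y, by simpa using hl', hG, ?_⟩ rfl
        rw [st2_nil]
      | none =>
        simp only
        exact ok_coin' (fun b => step_three_false cA cC b v' (head k x')) (fun _ => ih)
  obtain ⟨v', hseg⟩ := code_seg h.runA (lvProg cA cC) Sum.inl (ctl cA cC 0) (fun _ _ => rfl) none
  rw [start_eq]
  refine ok_seg (seg_run cA cC hseg) ?_
  rw [inp_eq (head k x')]
  exact ok_coin' (fun b => step_zero cA cC b v' (head k x')) (fun _ => key m)

end

end Pool.Agent.H591R2
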