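import Pool.Agent.NPC.Dec

/-!
# Raw output of lists of bits
-/

namespace Pool.Agent.NPC.R591

open Pool.Agent.NPC

/-- body of the decoding loop -/
def rob : Cmd ℕ := Cmd.cases 0 Cmd.skip (Cmd.pop 0) (Cmd.seq (Cmd.pop 0) (Cmd.cases 0 Cmd.skip
  (Cmd.seq (Cmd.pop 0) (Cmd.push 1 false))
  (Cmd.seq (Cmd.pop 0) (Cmd.seq (Cmd.pop 0) (Cmd.seq (Cmd.pop 0) (Cmd.push 1 true))))))

theorem rob_loop : ∀ (l acc : List Bool),
    Runs (Cmd.loop 0 rob) (st (bits l) acc []) (st [] (l.reverse ++ acc) []) (9 * l.length + 9) := by
  intro l
  induction l with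
  | nil =>
    intro acc
    have h1 : Runs rob (st (bits ([] : List Bool)) acc []) (st [] acc []) 2 :=
      (Runs.casesFalse (l := []) (by simp [bits, T.enc]) (Runs.pop _ 0)).conv rfl
        (by simp [bits, T.enc]) le_rfl
    have h2 : Runs (Cmd.loop 0 rob) (st [] acc []) (st [] acc []) 1 := Runs.loopNil (by simp)
    exact (Runs.loopCons (by simp [bits, T.enc]) h1 h2).conv rfl (by simp) (by simp)
  | cons b l ih =>
    intro acc
    have ih' := ih (b :: acc)
    have h1 : Runs rob (st (bits (b :: l)) acc []) (st (bits l) (b :: acc) []) 7 := by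
      cases b
      · have e : bits (false :: l) = true :: false :: bits l := by simp [bits, T.enc]
        refine (Runs.casesTrue (l := false :: bits l) (by simp [e]) ((Runs.pop _ 0).seq
          (Runs.casesFalse (l := bits l) (by simp [e]) ((Runs.pop _ 0).seq
            (Runs.push _ 1 false))))).conv rfl ?_ (by simp)
        simp [e]
      · have e : bits (true :: l) = true :: true :: false :: false :: bits l := by
          simp [bits, T.enc]
        refine (Runs.casesTrue (l := true :: false :: false :: bits l) (by simp [e])
          ((Runs.pop _ 0).seq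
          (Runs.casesTrue (l := false :: false :: bits l) (by simp [e]) ((Runs.pop _ 0).seq
            ((Runs.pop _ 0).seq ((Runs.pop _ 0).seq (Runs.push _ 1 true))))))).conv rfl ?_ (by simp)
        simp [e]
    refine (Runs.loopCons ?_ h1 ih').conv rfl (by simp) (by simp; omega)
    simp [bits, T.enc]

/-- From encoded lists of booleans to raw bit strings. -/
theorem rawOut : PC (bits : List Bool → List Bool) (fun x : List Bool => x) (fun x => x) := by
  refine ⟨Cmd.seq (Cmd.loop 0 rob) (mv 1 0),
    Polynomial.C 20 * Polynomial.X + Polynomial.C 20, fun x => ?_⟩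
  rw [inp_eq_st, inp_eq_st]
  have h1 := rob_loop x []
  have h2 := mv_runs (i := 1) (j := 0) (by decide) x.reverse (st [] (x.reverse ++ []) [])
    (st x [] []) (by simp) (by simp)
  refine (h1.seq h2).mono ?_
  have h3 := length_lt_sz x
  have h4 := bits_length x
  simp only [Polynomial.eval_add, Polynomial.eval_mul, Polynomial.eval_C, Polynomial.eval_X,
    List.length_reverse]
  omega

/-- Typed polynomial-time functions of bit strings are computed on raw bit strings. -/
theorem raw {f : List Bool → List Bool} (hf : Poly f) :
    ∃ (c : Cmd ℕ) (p : Polynomial ℕ), ∀ x, Runs c (inp x) (inp (f x)) (p.eval x.length) := by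
  have h1 : PC (fun x : List Bool => x) (bits : List Bool → List Bool) f :=
    PC.comp (g := f) (f := fun x => x) hf PC.rawIn
  have h2 : PC (fun x : List Bool => x) (fun x : List Bool => x) f :=
    PC.comp (g := fun x => x) (f := f) rawOut h1
  exact h2

end Pool.Agent.NPC.R591
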