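import Pool.Agent.H591R2.Poly3
import Pool.Agent.H591R2.RawOut
import Pool.Agent.H591R2.CoinRun

/-!
# The randomised algorithm for eight tetrahedral numbers
-/

namespace Pool.Agent.NPC.R591

open Pool.Agent.H591R2

/-- number of coins for one trial -/
def kOf (n : ℕ) : ℕ := 8004 * scale n

/-- four random numbers from one -/
def splitR (n R : ℕ) : ℕ × ℕ × ℕ × ℕ :=
  let N := 2 ^ (2001 * scale n)
  (R % N, R / N % N, R / N / N % N, R / N / N / N)

/-- one trial, with a table for small numbers -/
def trialF (K₀ : ℕ) (tab : List (List ℕ)) (n R : ℕ) : Option (List ℕ) :=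
  if scale n < K₀ then some (tab.getD n []) else trial n (splitR n R)

/-- preparation -/
def fA (x : List Bool) : List Bool := head (kOf (valB x)) x

/-- outcome of one trial as a bit string -/
def outF (o : Option (List ℕ)) (x : List Bool) : List Bool :=
  o.elim (false :: fA x) (fun L => true :: encList L)

/-- the body of the main loop -/
def fC (K₀ : ℕ) (tab : List (List ℕ)) (y : List Bool) : List Bool :=
  outF (trialF K₀ tab (valB (unpair y).2) (valB (unpair y).1)) (unpair y).2

section

variable {α : Type} [TEnc α]

theorem kOf_poly {n : α → ℕ} (hn : Poly n) : UPoly (fun a => kOf (n a)) := by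
  unfold kOf
  exact uMul 8004 (scale_poly hn)

theorem splitR_poly {n R : α → ℕ} (hn : Poly n) (hR : Poly R) :
    Poly (fun a => splitR (n a) (R a)) := by
  have hN : Poly (fun a => 2 ^ (2001 * scale (n a))) :=
    Poly.npow (Poly.const 2) (uMul 2001 (scale_poly hn))
  unfold splitR
  simp only
  have h1 := Poly.div hR hN
  have h2 := Poly.div h1 hN
  have h3 := Poly.div h2 hN
  exact Poly.pair (Poly.mod hR hN) (Poly.pair (Poly.mod h1 hN) (Poly.pair (Poly.mod h2 hN) h3))

theorem trialF_poly (K₀ : ℕ) (tab : List (List ℕ)) {n R : α → ℕ} (hn : Poly n) (hR : Poly R) :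
    Poly (fun a => trialF K₀ tab (n a) (R a)) := by
  unfold trialF
  have h1 := (scale_poly hn).toPoly
  exact Poly.ite (Poly.decide_lt h1 (Poly.const K₀))
    (Poly.some (Poly.getD (Poly.const tab) hn (Poly.const [])))
    (trial_poly hn (splitR_poly hn hR))

theorem head_poly {k : α → ℕ} {x : α → List Bool} (hk : UPoly k) (hx : Poly x) :
    Poly (fun a => head (k a) (x a)) := by
  unfold head
  have h1 : Poly (fun a => (List.replicate (k a) ()).map (fun _ => true)) :=
    Poly.map (F := fun _ _ => true) hk (Poly.const true)
  have h2 : Poly (fun a => List.replicate (k a) true) := h1.congr fun a => by simp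
  exact Poly.append h2 (Poly.cons (Poly.const false) hx)

theorem fA_poly {x : α → List Bool} (hx : Poly x) : Poly (fun a => fA (x a)) :=
  head_poly (kOf_poly (Poly.valBits hx)) hx

theorem encList_poly {L : α → List ℕ} (hL : Poly L) : Poly (fun a => encList (L a)) := by
  unfold encList
  apply Poly.flatMap (F := fun _ m => m.bits.flatMap (fun b => [true, b]) ++ [false]) hL
  have h1 : Poly (fun p : α × ℕ => p.2.bits) := Poly.natBits (Poly.snd Poly.id)
  have h2 : Poly (fun p : α × ℕ => p.2.bits.flatMap (fun b => [true, b])) :=
    Poly.flatMap (F := fun _ b => [true, b]) h1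
      (Poly.cons (Poly.const true) (Poly.cons (Poly.snd Poly.id) (Poly.const [])))
  exact Poly.append h2 (Poly.const [false])

theorem fC_poly (K₀ : ℕ) (tab : List (List ℕ)) : Poly (fC K₀ tab) := by
  have h0 : Poly (fun y : List Bool => unpair y) := poly_unpair
  have h1 : Poly (fun y : List Bool => (unpair y).1) := Poly.fst h0
  have h2 : Poly (fun y : List Bool => (unpair y).2) := Poly.snd h0
  have h3 := trialF_poly K₀ tab (Poly.valBits h2) (Poly.valBits h1)
  have h4 : Poly (fun y : List Bool => false :: fA (unpair y).2) :=
    Poly.cons (Poly.const false) (fA_poly h2)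
  unfold fC outF
  exact Poly.optElim (h := fun _ L => true :: encList L) h3 h4
    (Poly.cons (Poly.const true) (encList_poly (Poly.snd Poly.id)))

end

/-! ### counting -/

theorem sum_split (N M : ℕ) (h : ℕ → ℕ → ℕ) :
    ∑ R ∈ Finset.range (N * M), h (R % N) (R / N) =
      ∑ a ∈ Finset.range N, ∑ b ∈ Finset.range M, h a b := by
  rw [Finset.sum_comm]
  rcases Nat.eq_zero_or_pos N with rfl | hN
  · simp
  induction M with
  | zero => simp
  | succ M ih =>
    rw [Nat.mul_succ, Finset.sum_range_add, ih, Finset.sum_range_succ]
    congr 1
    apply Finset.sum_congr rfl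
    intro a ha
    rw [Finset.mem_range] at ha
    rw [Nat.mul_add_mod, Nat.mod_eq_of_lt ha, Nat.mul_add_div hN, Nat.div_eq_of_lt ha, add_zero]

theorem sum_split4 (N : ℕ) (P : ℕ × ℕ × ℕ × ℕ → Prop) [DecidablePred P] :
    ((Finset.range (N ^ 4)).filter (fun R => P (R % N, R / N % N, R / N / N % N, R / N / N / N))).card
      = ∑ a ∈ Finset.range N, ∑ b ∈ Finset.range N, ∑ c ∈ Finset.range N,
        ((Finset.range N).filter (fun d => P (a, b, c, d))).card := by
  simp only [Finset.card_filter]
  rw [show N ^ 4 = N * (N * (N * N)) by ring]
  rw [sum_split N (N * (N * N)) (fun a R => if P (a, R % N, R / N % N, R / N / N) then 1 else 0)]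
  apply Finset.sum_congr rfl
  intro a _
  rw [sum_split N (N * N) (fun b R => if P (a, b, R % N, R / N) then 1 else 0)]
  apply Finset.sum_congr rfl
  intro b _
  rw [sum_split N N (fun c d => if P (a, b, c, d) then 1 else 0)]

theorem scale_le_size (n : ℕ) : scale n ≤ n.size := by unfold scale; omega

/-- The randomised algorithm: it always gives a correct answer, and its expected running time is
polynomial. -/
theorem las_vegas : ∃ (M : CoinMachine) (p : Polynomial ℕ), ∀ n : ℕ, 1 ≤ n →
    (∀ (w : List Bool) (c : M.Conf), M.run (M.start n.bits) w = some c → c.l = none →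
      ∃ L : List ℕ, IsRep n L ∧ M.HaltsWith n.bits w (encList L)) ∧
    M.expectedTime n.bits ≤ (p.eval n.size : ℕ) := by
  classical
  obtain ⟨K₀, hK₀, hprob⟩ := prob
  -- the table
  set tab : List (List ℕ) := (List.range (2 ^ (1000 * K₀))).map
    (fun n => if h : 1 ≤ n then (watson h).choose else []) with htab
  have htabs : ∀ n, 1 ≤ n → scale n < K₀ → IsRep n (tab.getD n []) := by
    intro n hn hs
    have h1 : n < 2 ^ (1000 * K₀) := by
      have h2 := scale_upper n
      calc n < 2 ^ n.size := Nat.lt_size_self n
        _ ≤ 2 ^ (1000 * K₀) := Nat.pow_le_pow_right (by norm_num) (by omega)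
    have h3 : tab.getD n [] = (watson hn).choose := by
      rw [htab, List.getD_eq_getElem?_getD, List.getElem?_map, List.getElem?_range h1]
      simp [hn]
    rw [h3]
    exact (watson hn).choose_spec
  -- the programs
  obtain ⟨cmA, pA, hA⟩ := raw (fA_poly (Poly.id (α := List Bool)))
  obtain ⟨cmC, pC, hC⟩ := raw (fC_poly K₀ tab)
  set N₀ := max cmA.bd cmC.bd with hN₀
  set cA : Cmd (Fin (N₀ + 2)) := cmA.map (Fin.ofNat (N₀ + 1 + 1)) with hcA
  set cC : Cmd (Fin (N₀ + 2)) := cmC.map (Fin.ofNat (N₀ + 1 + 1)) with hcC
  have hinp : ∀ x : List Bool, (fun i : Fin (N₀ + 1 + 1) => (inp x : ℕ → List Bool) i) =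
      (inp x : Fin (N₀ + 2) → List Bool) := by
    intro x
    funext i
    by_cases hi : i = 0
    · subst hi; simp [inp]
    · have : (i : ℕ) ≠ 0 := fun h => hi (Fin.ext h)
      simp [inp, hi, this]
  refine ⟨lvMachine cA cC, pA + 1 + Polynomial.C 256000 * (Polynomial.X + 1) *
    (Polynomial.C 16008 * Polynomial.X + 3 + pC.comp (Polynomial.C 16009 * Polynomial.X + 1)),
    fun n hn => ?_⟩
  -- the specification
  set k := kOf n with hk
  set g : ℕ → Bool := fun R => (trialF K₀ tab n R).isSome with hg
  have hsc : scale n ≤ n.size := scale_le_size n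
  have hlen : n.bits.length = n.size := Nat.size_eq_bits_len n
  set τ := pC.eval (2 * k + 1 + n.size) with hτ
  obtain ⟨tA, htA, hrunA⟩ := hA n.bits
  have hspec : Spec cA cC n.bits n.bits k tA τ
      (fun r => (trialF K₀ tab n (valB r)).map encList) := by
    refine ⟨?_, ?_⟩
    · have h1 := hrunA.restrict (n := N₀ + 1) (by omega)
      rw [hinp, hinp] at h1
      have h2 : fA n.bits = head k n.bits := by
        unfold fA
        rw [valB_bits]
      rw [← h2]
      exact h1
    · intro r hr
      obtain ⟨t, ht, hrunC⟩ := hC (pairBits r n.bits)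
      have h1 := hrunC.restrict (n := N₀ + 1) (by omega)
      rw [hinp, hinp] at h1
      have hlenp : (pairBits r n.bits).length = 2 * k + 1 + n.size := by
        unfold pairBits
        simp only [List.length_append, List.length_flatMap, List.length_cons, hlen]
        simp only [List.length_nil, List.map_const', List.sum_replicate, hr, smul_eq_mul]
        ring
      rw [hlenp] at ht
      refine ⟨t, ht, ?_⟩
      have h2 : fC K₀ tab (pairBits r n.bits) =
          (match (trialF K₀ tab n (valB r)).map encList with
            | some y => true :: y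
            | none => false :: head k n.bits) := by
        unfold fC outF
        rw [unpair_pairBits, valB_bits]
        cases trialF K₀ tab n (valB r) with
        | none =>
          simp only [Option.elim_none, Option.map_none]
          unfold fA
          rw [valB_bits]
        | some L => rfl
      rw [h2] at h1
      exact h1
  constructor
  · -- correctness
    intro w c hw hc
    obtain ⟨r, y, hr, hy, hcy⟩ := lv_ok hspec (w.length + 1) w c (Nat.lt_succ_self _) hw hc
    simp only [Option.map_eq_some_iff] at hy
    obtain ⟨L, hL, rfl⟩ := hy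
    refine ⟨L, ?_, none, ?_⟩
    · unfold trialF at hL
      split_ifs at hL with hs
      · rw [Option.some.injEq] at hL
        rw [← hL]
        exact htabs n hn hs
      · exact trial_sound hL
    · rw [hw, hcy]
      rfl
  · -- expected time
    have hD : 2 ^ k ≤ (256000 * (scale n + 1)) *
        ((Finset.range (2 ^ k)).filter (fun R => g R = true)).card := by
      by_cases hs : scale n < K₀
      · have : (Finset.range (2 ^ k)).filter (fun R => g R = true) = Finset.range (2 ^ k) := by
          rw [Finset.filter_true_of_mem]
          intro R _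
          rw [hg]
          simp only
          unfold trialF
          rw [if_pos hs]
          rfl
        rw [this, Finset.card_range]
        exact Nat.le_mul_of_pos_left _ (by positivity)
      · push Not at hs
        have h1 := hprob n (scale n) rfl hs
        have h2 : (2 ^ bB (scale n)) ^ 4 = 2 ^ k := by
          rw [← pow_mul, hk]
          congr 1
          unfold bB kOf
          ring
        have h3 := sum_split4 (2 ^ bB (scale n)) (fun ρ => (trial n ρ).isSome = true)
        rw [← h3, h2] at h1
        have h4 : (Finset.range (2 ^ k)).filter (fun R => g R = true) =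
            (Finset.range (2 ^ k)).filter (fun R => (trial n (R % 2 ^ bB (scale n),
              R / 2 ^ bB (scale n) % 2 ^ bB (scale n),
              R / 2 ^ bB (scale n) / 2 ^ bB (scale n) % 2 ^ bB (scale n),
              R / 2 ^ bB (scale n) / 2 ^ bB (scale n) / 2 ^ bB (scale n))).isSome = true) := by
          apply Finset.filter_congr
          intro R _
          rw [hg]
          simp only
          unfold trialF
          rw [if_neg (by omega)]
          rfl
        rw [h4]
        refine h1.trans (Nat.mul_le_mul_right _ ?_)
        omega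
    apply CoinMachine.expectedTime_le
    intro N
    have h1 := lv_time hspec (g := g) (fun r _ => by rw [hg]; simp) hD N
    refine h1.trans ?_
    have h2 : tA + 1 + (256000 * (scale n + 1)) * (2 * k + 3 + τ) ≤
        (pA + 1 + Polynomial.C 256000 * (Polynomial.X + 1) *
    (Polynomial.C 16008 * Polynomial.X + 3 +
      pC.comp (Polynomial.C 16009 * Polynomial.X + 1))).eval n.size := by
      simp only [Polynomial.eval_add, Polynomial.eval_mul, Polynomial.eval_C, Polynomial.eval_X,
        Polynomial.eval_one, Polynomial.eval_comp, Polynomial.eval_ofNat]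
      have e1 : tA ≤ pA.eval n.size := by rw [← hlen]; exact htA
      have e2 : 2 * k ≤ 16008 * n.size := by rw [hk]; unfold kOf; omega
      have e3 : τ ≤ pC.eval (16009 * n.size + 1) := by
        rw [hτ]
        exact eval_mono pC (by omega)
      have e4 : 256000 * (scale n + 1) ≤ 256000 * (n.size + 1) := by omega
      have e5 : 2 * k + 3 + τ ≤ 16008 * n.size + 3 + pC.eval (16009 * n.size + 1) := by omega
      have e6 := Nat.mul_le_mul e4 e5
      omega
    exact_mod_cast h2

end Pool.Agent.NPC.R591
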