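import Mathlib

/-!
# Counting square roots modulo an odd number
-/

namespace Pool.Agent.H591R2

open Finset

/-- number of solutions of `t y ^ 2 = c` modulo `N` -/
noncomputable def sol (N : ℕ) (t c : ℤ) : ℕ := Nat.card {y : ZMod N // (t : ZMod N) * y ^ 2 = c}

theorem sol_mul {a b : ℕ} (h : Nat.Coprime a b) (t c : ℤ) :
    sol (a * b) t c = sol a t c * sol b t c := by
  unfold sol
  rw [← Nat.card_prod]
  apply Nat.card_congr
  let e := ZMod.chineseRemainder h
  have he : ∀ y : ZMod (a * b), ((t : ZMod (a * b)) * y ^ 2 = c ↔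
      (t : ZMod a) * (e y).1 ^ 2 = c ∧ (t : ZMod b) * (e y).2 ^ 2 = c) := by
    intro y
    rw [← e.injective.eq_iff]
    rw [map_mul, map_pow, map_intCast, map_intCast, Prod.ext_iff]
    rfl
  exact {
    toFun := fun y => (⟨(e y.1).1, ((he y.1).1 y.2).1⟩, ⟨(e y.1).2, ((he y.1).1 y.2).2⟩)
    invFun := fun z => ⟨e.symm (z.1.1, z.2.1), (he _).2 (by
      rw [RingEquiv.apply_symm_apply]; exact ⟨z.1.2, z.2.2⟩)⟩
    left_inv := fun y => by ext; simp
    right_inv := fun z => by ext <;> simp }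

theorem sol_one (t c : ℤ) : sol 1 t c = 1 := by
  unfold sol
  have : Unique {y : ZMod 1 // (t : ZMod 1) * y ^ 2 = c} :=
    ⟨⟨⟨0, Subsingleton.elim _ _⟩⟩, fun _ => Subsingleton.elim _ _⟩
  exact Nat.card_unique

/-! ### upper bound -/

theorem sol_prime_le {p : ℕ} (hp : p.Prime) {t c : ℤ} (ht : ¬ (p : ℤ) ∣ t) : sol p t c ≤ 2 := by
  have hfp : Fact p.Prime := ⟨hp⟩
  have ht' : (t : ZMod p) ≠ 0 := fun h => ht ((ZMod.intCast_zmod_eq_zero_iff_dvd t p).1 h)
  unfold sol
  rcases isEmpty_or_nonempty {y : ZMod p // (t : ZMod p) * y ^ 2 = c} with h | ⟨⟨y₀, hy₀⟩⟩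
  · simp
  · have hsub : {y : ZMod p | (t : ZMod p) * y ^ 2 = c} ⊆ (({y₀, -y₀} : Finset (ZMod p)) : Set (ZMod p)) := by
      intro y hy
      simp only [Set.mem_setOf_eq] at hy
      have h1 : y ^ 2 = y₀ ^ 2 := mul_left_cancel₀ ht' (hy.trans hy₀.symm)
      rcases sq_eq_sq_iff_eq_or_eq_neg.1 h1 with h | h <;> simp [h]
    calc Nat.card {y : ZMod p // (t : ZMod p) * y ^ 2 = c}
        ≤ Nat.card (({y₀, -y₀} : Finset (ZMod p)) : Set (ZMod p)) :=
          Nat.card_mono (Finset.finite_toSet _) hsub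
      _ ≤ 2 := by
          rw [Nat.card_coe_set_eq, Set.ncard_coe_finset]
          exact Finset.card_le_two

theorem sol_le (d : ℕ) : ∀ (t c : ℤ), Squarefree d → IsCoprime t (d : ℤ) →
    sol d t c ≤ 2 ^ d.primeFactors.card := by
  induction d using Nat.recOnPosPrimePosCoprime with
  | zero => intro t c h; exact absurd rfl h.ne_zero
  | one => intro t c _ _; rw [sol_one]; simp
  | prime_pow p n hp hn =>
    intro t c hs ht
    have h1 : n = 1 := by
      have := (Nat.squarefree_pow_iff hp.ne_one (by omega)).1 hs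
      exact this.2
    subst h1
    rw [pow_one] at *
    rw [hp.primeFactors, Finset.card_singleton, pow_one]
    apply sol_prime_le hp
    intro hdvd
    have := ht.isUnit_of_dvd' hdvd dvd_rfl
    rw [Int.isUnit_iff] at this
    have := hp.two_le
    omega
  | coprime a b ha hb hab iha ihb =>
    intro t c hs ht
    rw [sol_mul hab, Nat.Coprime.primeFactors_mul hab, Finset.card_union_of_disjoint
      hab.disjoint_primeFactors, pow_add]
    push_cast at ht
    exact Nat.mul_le_mul (iha t c (Squarefree.of_mul_left hs) (IsCoprime.of_mul_right_left ht))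
      (ihb t c (Squarefree.of_mul_right hs) (IsCoprime.of_mul_right_right ht))

/-! ### lower bound -/

theorem exists_sqrt_pow {p : ℕ} (hp : p.Prime) (hp2 : p ≠ 2) {c : ℤ} (hc : ¬ (p : ℤ) ∣ c)
    (hu : ∃ u : ℤ, (p : ℤ) ∣ u ^ 2 - c) (k : ℕ) : ∃ u : ℤ, (p : ℤ) ^ (k + 1) ∣ u ^ 2 - c := by
  have hpz : Prime (p : ℤ) := Nat.prime_iff_prime_int.1 hp
  induction k with
  | zero => simpa using hu
  | succ k ih =>
    obtain ⟨u, a, ha⟩ := ih
    have hpu : ¬ (p : ℤ) ∣ 2 * u := by
      intro h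
      rcases hpz.dvd_or_dvd h with h | h
      · have h2 : p ∣ 2 := by exact_mod_cast h
        exact hp2 ((Nat.prime_dvd_prime_iff_eq hp Nat.prime_two).1 h2)
      · apply hc
        have h1 : (p : ℤ) ∣ u ^ 2 - c := by
          rw [ha, pow_succ]; exact Dvd.intro_left (↑p ^ k * a) (by ring)
        have h2 : (p : ℤ) ∣ u ^ 2 := dvd_pow h (by norm_num)
        have := dvd_sub h2 h1
        simpa using this
    have hcop : IsCoprime (2 * u) (p : ℤ) := ((Prime.coprime_iff_not_dvd hpz).2 hpu).symm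
    obtain ⟨x, y, hxy⟩ := hcop
    -- v = -a x : 2 u v = - a + a p y
    refine ⟨u + p ^ (k + 1) * (-a * x), ?_⟩
    have e : (u + p ^ (k + 1) * (-a * x)) ^ 2 - c = (u ^ 2 - c) - p ^ (k + 1) * a * (x * (2 * u))
      + p ^ (k + 1) * p ^ (k + 1) * (a * x) ^ 2 := by ring
    have h3 : x * (2 * u) = 1 - y * p := by linarith
    rw [e, ha, h3]
    have e2 : (p : ℤ) ^ (k + 1) * a - ↑p ^ (k + 1) * a * (1 - y * ↑p)
        + ↑p ^ (k + 1) * ↑p ^ (k + 1) * (a * x) ^ 2
      = p ^ (k + 1 + 1) * (a * y + p ^ k * (a * x) ^ 2) := by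
      rw [pow_succ (p : ℤ) (k + 1)]
      have : (p : ℤ) ^ (k + 1) = p ^ k * p := pow_succ _ _
      rw [this]; ring
    rw [e2]
    exact dvd_mul_right _ _

theorem sol_prime_pow_ge {p : ℕ} (hp : p.Prime) (hp2 : p ≠ 2) {c : ℤ} (hc : ¬ (p : ℤ) ∣ c)
    {n : ℕ} (hn : 0 < n) : 1 + jacobiSym c p ≤ (sol (p ^ n) 1 c : ℤ) := by
  have hfp : Fact p.Prime := ⟨hp⟩
  rcases jacobiSym.trichotomy c p with h | h | h
  · exfalso
    rw [jacobiSym.eq_zero_iff] at h
    apply h.2
    rw [← Int.isCoprime_iff_gcd_eq_one]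
    exact ((Prime.coprime_iff_not_dvd (Nat.prime_iff_prime_int.1 hp)).2 hc).symm
  · rw [h]
    obtain ⟨r, hr⟩ := ZMod.isSquare_of_jacobiSym_eq_one h
    obtain ⟨k, rfl⟩ : ∃ k, n = k + 1 := ⟨n - 1, by omega⟩
    obtain ⟨u, hu⟩ := exists_sqrt_pow hp hp2 hc ⟨r.val, by
      rw [← ZMod.intCast_zmod_eq_zero_iff_dvd]
      push_cast
      rw [ZMod.natCast_zmod_val, hr]; ring⟩ k
    have hpk : 1 < p ^ (k + 1) := Nat.one_lt_pow (by omega) hp.one_lt
    have hf : Fact (1 < p ^ (k + 1)) := ⟨hpk⟩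
    have hne0 : NeZero (p ^ (k + 1)) := ⟨by omega⟩
    have h1 : ((u : ZMod (p ^ (k + 1))) ^ 2 = c) := by
      have h2 : ((u ^ 2 - c : ℤ) : ZMod (p ^ (k + 1))) = 0 := by
        rw [ZMod.intCast_zmod_eq_zero_iff_dvd]
        push_cast; exact hu
      push_cast at h2
      linear_combination h2
    have hcu : IsUnit (c : ZMod (p ^ (k + 1))) := by
      rw [ZMod.coe_int_isUnit_iff_isCoprime]
      push_cast
      apply IsCoprime.symm
      exact (IsCoprime.pow_right
        ((Prime.coprime_iff_not_dvd (Nat.prime_iff_prime_int.1 hp)).2 hc).symm)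
    have h2u : IsUnit (2 : ZMod (p ^ (k + 1))) := by
      have : IsUnit ((2 : ℕ) : ZMod (p ^ (k + 1))) := by
        rw [ZMod.isUnit_iff_coprime]
        exact Nat.Coprime.pow_right _ (Nat.coprime_two_left.2 (hp.odd_of_ne_two hp2))
      simpa using this
    have huu : IsUnit (u : ZMod (p ^ (k + 1))) := by
      rw [← h1] at hcu
      exact (isUnit_pow_iff (by norm_num)).1 hcu
    have hne : (u : ZMod (p ^ (k + 1))) ≠ -u := by
      intro h
      have h3 : (2 : ZMod (p ^ (k + 1))) * u = 0 := by linear_combination h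
      have h4 := (h2u.mul huu)
      rw [h3] at h4
      exact not_isUnit_zero h4
    have h5 : 1 < sol (p ^ (k + 1)) 1 c := by
      unfold sol
      rw [Finite.one_lt_card_iff_nontrivial]
      exact ⟨⟨u, by simpa using h1⟩, ⟨-u, by simpa using h1⟩, fun h => hne (congrArg Subtype.val h)⟩
    omega
  · rw [h]; simp

theorem sol_ge (m : ℕ) (c : ℤ) : Odd m → IsCoprime c (m : ℤ) →
    ∏ p ∈ m.primeFactors, (1 + jacobiSym c p) ≤ (sol m 1 c : ℤ) := by
  induction m using Nat.recOnPosPrimePosCoprime with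
  | zero => intro h; simp at h
  | one => intro _ _; rw [sol_one]; simp
  | prime_pow p n hp hn =>
    intro ho hc
    rw [Nat.primeFactors_prime_pow hn.ne' hp, Finset.prod_singleton]
    apply sol_prime_pow_ge hp _ _ hn
    · rintro rfl
      have : Even (2 ^ n) := Even.pow_of_ne_zero even_two hn.ne'
      exact (Nat.not_odd_iff_even.2 this) ho
    · intro hdvd
      have h1 : (p : ℤ) ∣ ((p ^ n : ℕ) : ℤ) := by
        push_cast; exact dvd_pow_self _ hn.ne'
      have := hc.isUnit_of_dvd' hdvd h1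
      rw [Int.isUnit_iff] at this
      have := hp.two_le
      omega
  | coprime a b ha hb hab iha ihb =>
    intro ho hc
    rw [sol_mul hab, Nat.Coprime.primeFactors_mul hab, Finset.prod_union
      hab.disjoint_primeFactors]
    push_cast at hc ⊢
    have hoa : Odd a := Nat.Odd.of_mul_left ho
    have hob : Odd b := Nat.Odd.of_mul_right ho
    apply mul_le_mul (iha hoa (IsCoprime.of_mul_right_left hc))
      (ihb hob (IsCoprime.of_mul_right_right hc))
    · apply Finset.prod_nonneg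
      intro p _
      rcases jacobiSym.trichotomy c p with h | h | h <;> rw [h] <;> norm_num
    · positivity

theorem jacobi_prod (c : ℤ) (s : Finset ℕ) (hs : ∀ p ∈ s, p ≠ 0) :
    jacobiSym c (∏ p ∈ s, p) = ∏ p ∈ s, jacobiSym c p := by
  induction s using Finset.induction_on with
  | empty => simp [jacobiSym.one_right]
  | insert a s ha ih =>
    rw [Finset.prod_insert ha, Finset.prod_insert ha, jacobiSym.mul_right' _
      (hs a (Finset.mem_insert_self _ _)) (Finset.prod_ne_zero_iff.2 fun p hp =>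
        hs p (Finset.mem_insert_of_mem hp)), ih fun p hp => hs p (Finset.mem_insert_of_mem hp)]

/-- the squarefree divisors, as products of sets of primes -/
theorem sum_sqfree_divisors {m : ℕ} (hm : m ≠ 0) (f : ℕ → ℤ) :
    ∑ d ∈ m.divisors with Squarefree d, f d = ∑ T ∈ m.primeFactors.powerset, f (∏ p ∈ T, p) := by
  symm
  apply Finset.sum_bij (fun T _ => ∏ p ∈ T, p)
  · intro T hT
    rw [Finset.mem_powerset] at hT
    rw [Finset.mem_filter, Nat.mem_divisors]
    refine ⟨⟨(Finset.prod_dvd_prod_of_subset _ _ _ hT).trans (Nat.prod_primeFactors_dvd m), hm⟩, ?_⟩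
    have h1 : Squarefree (∏ p ∈ m.primeFactors, p) := by
      rw [← Nat.radical_eq_prod_primeFactors]
      exact UniqueFactorizationMonoid.squarefree_radical
    exact h1.squarefree_of_dvd (Finset.prod_dvd_prod_of_subset _ _ _ hT)
  · intro T hT T' hT' h
    rw [Finset.mem_powerset] at hT hT'
    have h1 : (∏ p ∈ T, p).primeFactors = T :=
      Nat.primeFactors_prod fun p hp => Nat.prime_of_mem_primeFactors (hT hp)
    have h2 : (∏ p ∈ T', p).primeFactors = T' :=
      Nat.primeFactors_prod fun p hp => Nat.prime_of_mem_primeFactors (hT' hp)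
    rw [← h1, ← h2, h]
  · intro d hd
    rw [Finset.mem_filter, Nat.mem_divisors] at hd
    exact ⟨d.primeFactors, Finset.mem_powerset.2 (Nat.primeFactors_mono hd.1.1 hm),
      Nat.prod_primeFactors_of_squarefree hd.2⟩
  · intro T _
    rfl

theorem sol_ge_sum {m : ℕ} (hm : Odd m) {c : ℤ} (hc : IsCoprime c (m : ℤ)) :
    ∑ d ∈ m.divisors with Squarefree d, jacobiSym c d ≤ (sol m 1 c : ℤ) := by
  have hm0 : m ≠ 0 := by rintro rfl; simp at hm
  refine le_trans (le_of_eq ?_) (sol_ge m c hm hc)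
  rw [sum_sqfree_divisors hm0, Finset.prod_one_add]
  apply Finset.sum_congr rfl
  intro T hT
  rw [Finset.mem_powerset] at hT
  exact jacobi_prod c T fun p hp => (Nat.prime_of_mem_primeFactors (hT hp)).ne_zero

end Pool.Agent.H591R2
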