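import Pool.Agent.H591R2.Char
import Pool.Agent.H591R2.Roots

/-!
# The average number of auxiliary primes
-/

namespace Pool.Agent.H591R2

open Finset

/-- few members of a short interval in a residue class -/
theorem card_residue_le (F d : ℕ) (hd : 0 < d) (a : ZMod d) :
    #((range F).filter (fun f : ℕ => (f : ZMod d) = a)) ≤ F / d + 1 := by
  have : #((range F).filter (fun f : ℕ => (f : ZMod d) = a)) ≤ #(range (F / d + 1)) := by
    apply card_le_card_of_injOn (fun f => f / d)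
    · intro f hf
      simp only [coe_filter, mem_range, Set.mem_ofPred_eq] at hf
      simp only [coe_range, Set.mem_Iio]
      exact Nat.lt_succ_of_le (Nat.div_le_div_right hf.1.le)
    · intro f hf g hg h
      simp only [coe_filter, mem_range, Set.mem_ofPred_eq] at hf hg
      have h1 : (f : ZMod d) = g := hf.2.trans hg.2.symm
      have h2 : f % d = g % d := (ZMod.natCast_eq_natCast_iff' f g d).1 h1
      have h3 := Nat.div_add_mod f d
      have h4 := Nat.div_add_mod g d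
      simp only at h
      rw [← h3, ← h4, h, h2]
  simpa using this

/-- the number of members of the quadratic family divisible by `d` -/
theorem count_le {F d : ℕ} {t C e W : ℤ} (hs : Squarefree d) (ht : IsCoprime t (d : ℤ))
    (hW : IsCoprime W (d : ℤ)) {m : ℕ → ℕ}
    (hm : ∀ f ∈ range F, (m f : ℤ) = C - t * (e + W * f) ^ 2) :
    #{f ∈ range F | d ∣ m f} ≤ 2 ^ d.primeFactors.card * (F / d + 1) := by
  have hd0 : 0 < d := Nat.pos_of_ne_zero hs.ne_zero
  have : NeZero d := ⟨hd0.ne'⟩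
  classical
  set R : Finset (ZMod d) := univ.filter (fun y : ZMod d => (t : ZMod d) * y ^ 2 = C) with hR
  have hRc : #R = sol d t C := by
    unfold sol
    rw [Nat.card_eq_fintype_card, Fintype.card_subtype]
  have hWu : IsUnit (W : ZMod d) := by
    rw [ZMod.coe_int_isUnit_iff_isCoprime]; exact hW.symm
  have h1 : {f ∈ range F | d ∣ m f} ⊆ R.biUnion (fun y => (range F).filter (fun f : ℕ =>
      (f : ZMod d) = Ring.inverse (W : ZMod d) * (y - e))) := by
    intro f hf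
    rw [mem_filter] at hf
    rw [mem_biUnion]
    refine ⟨(e : ZMod d) + W * f, ?_, ?_⟩
    · rw [hR, mem_filter]
      refine ⟨mem_univ _, ?_⟩
      have h2 : ((m f : ℤ) : ZMod d) = 0 := by
        rw [ZMod.intCast_zmod_eq_zero_iff_dvd]; exact_mod_cast hf.2
      rw [hm f hf.1] at h2
      push_cast at h2
      linear_combination -h2
    · rw [mem_filter]
      refine ⟨hf.1, ?_⟩
      rw [add_sub_cancel_left, ← mul_assoc, Ring.inverse_mul_cancel _ hWu, one_mul]
  calc #{f ∈ range F | d ∣ m f} ≤ #(R.biUnion (fun y => (range F).filter (fun f : ℕ =>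
      (f : ZMod d) = Ring.inverse (W : ZMod d) * (y - e)))) := card_le_card h1
    _ ≤ ∑ y ∈ R, #((range F).filter (fun f : ℕ =>
      (f : ZMod d) = Ring.inverse (W : ZMod d) * (y - e))) := card_biUnion_le
    _ ≤ ∑ y ∈ R, (F / d + 1) := sum_le_sum fun y _ => card_residue_le F d hd0 _
    _ = #R * (F / d + 1) := by rw [sum_const, smul_eq_mul]
    _ ≤ 2 ^ d.primeFactors.card * (F / d + 1) := by
        rw [hRc]
        exact Nat.mul_le_mul_right _ (sol_le d t C hs ht)

/-- the moduli of the quadratic characters that matter -/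
def Dset (w Y : ℕ) (t : ℤ) : Finset ℕ :=
  {d ∈ Icc 2 Y | Squarefree d ∧ Odd d ∧ (∀ p ∈ d.primeFactors, w < p) ∧ t.gcd d = 1}

/-- number of members of the family divisible by `d` -/
def Nd (F : ℕ) (m : ℕ → ℕ) (d : ℕ) : ℕ := #{f ∈ range F | d ∣ m f}

/-- On average over the family, there are as many auxiliary primes as expected. -/
theorem average {F Y w x : ℕ} {t : ℤ} {m : ℕ → ℕ} (hY : Y ^ 3 ≤ x)
    (hodd : ∀ f ∈ range F, Odd (m f)) (hmY : ∀ f ∈ range F, m f ≤ Y)
    (hw : ∀ f ∈ range F, ∀ p ∈ (m f).primeFactors, w < p)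
    (ht : ∀ f ∈ range F, IsCoprime t (m f : ℤ))
    (P : Finset ℕ) (hP : ∀ q ∈ P, q.Prime ∧ Y < q ∧ q < x)
    (hN : 8 * x * ∑ d ∈ Dset w Y t, Nd F m d ^ 2 ≤ F ^ 2 * #P) :
    F * #P ≤ 2 * ∑ f ∈ range F, ∑ q ∈ P, sol (m f) 1 (-(2 * (q : ℤ))) := by
  classical
  set S : ℕ → ℤ := fun d => ∑ q ∈ P, jacobiSym q d with hS
  set D := Dset w Y t with hD
  -- first inequality: expand in Jacobi symbols
  have h1 : ∀ f ∈ range F, (#P : ℤ) - ∑ d ∈ D with d ∣ m f, |S d| ≤
      ∑ q ∈ P, (sol (m f) 1 (-(2 * (q : ℤ))) : ℤ) := by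
    intro f hf
    have hm0 : m f ≠ 0 := by
      intro h; have := hodd f hf; rw [h] at this; simp at this
    have h2 : ∀ q ∈ P, ∑ d ∈ (m f).divisors with Squarefree d, jacobiSym (-(2 * (q : ℤ))) d ≤
        (sol (m f) 1 (-(2 * (q : ℤ))) : ℤ) := by
      intro q hq
      apply sol_ge_sum (hodd f hf)
      rw [IsCoprime.neg_left_iff]
      apply IsCoprime.mul_left
      · rw [← Nat.cast_ofNat, Nat.isCoprime_iff_coprime]
        exact Nat.coprime_two_left.2 (hodd f hf)
      · rw [Nat.isCoprime_iff_coprime, Nat.Prime.coprime_iff_not_dvd (hP q hq).1]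
        intro h
        have h3 := Nat.le_of_dvd (Nat.pos_of_ne_zero hm0) h
        have h4 := (hP q hq).2.1
        have h5 := hmY f hf
        omega
    refine le_trans ?_ (sum_le_sum h2)
    rw [sum_comm]
    have h3 : ∀ d, ∑ q ∈ P, jacobiSym (-(2 * (q : ℤ))) d = jacobiSym (-2) d * S d := by
      intro d
      rw [hS]
      simp only
      rw [mul_sum]
      apply sum_congr rfl
      intro q _
      rw [← jacobiSym.mul_left]
      congr 1
    simp_rw [h3]
    have h4 : (1 : ℕ) ∈ {d ∈ (m f).divisors | Squarefree d} := by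
      rw [mem_filter, Nat.mem_divisors]
      exact ⟨⟨one_dvd _, hm0⟩, squarefree_one⟩
    rw [← add_sum_erase _ _ h4]
    have h5 : jacobiSym (-2) 1 * S 1 = #P := by
      rw [jacobiSym.one_right, one_mul, hS]
      simp [jacobiSym.one_right]
    rw [h5]
    have h6 : ({d ∈ (m f).divisors | Squarefree d}.erase 1) ⊆ {d ∈ D | d ∣ m f} := by
      intro d hd
      rw [mem_erase, mem_filter, Nat.mem_divisors] at hd
      rw [mem_filter]
      refine ⟨?_, hd.2.1.1⟩
      rw [hD, Dset, mem_filter, mem_Icc]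
      have hd0 : d ≠ 0 := hd.2.2.ne_zero
      refine ⟨⟨?_, (Nat.le_of_dvd (Nat.pos_of_ne_zero hm0) hd.2.1.1).trans (hmY f hf)⟩, hd.2.2,
        Odd.of_dvd_nat (hodd f hf) hd.2.1.1, ?_, ?_⟩
      · have := hd.1; omega
      · intro p hp
        exact hw f hf p (Nat.primeFactors_mono hd.2.1.1 hm0 hp)
      · rw [← Int.isCoprime_iff_gcd_eq_one]
        exact IsCoprime.of_isCoprime_of_dvd_right (ht f hf) (by exact_mod_cast hd.2.1.1)
    have h7 : -(∑ d ∈ {d ∈ D | d ∣ m f}, |S d|) ≤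
        ∑ d ∈ ({d ∈ (m f).divisors | Squarefree d}.erase 1), jacobiSym (-2) d * S d := by
      have h8 : ∑ d ∈ ({d ∈ (m f).divisors | Squarefree d}.erase 1), |S d| ≤
          ∑ d ∈ {d ∈ D | d ∣ m f}, |S d| :=
        sum_le_sum_of_subset_of_nonneg h6 fun _ _ _ => abs_nonneg _
      have h9 : -(∑ d ∈ ({d ∈ (m f).divisors | Squarefree d}.erase 1), |S d|) ≤
          ∑ d ∈ ({d ∈ (m f).divisors | Squarefree d}.erase 1), jacobiSym (-2) d * S d := by
        rw [← sum_neg_distrib]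
        apply sum_le_sum
        intro d _
        have h10 := abs_le.1 (le_refl |S d|)
        rcases jacobiSym.trichotomy (-2) d with h | h | h <;> rw [h]
        · have := abs_nonneg (S d); linarith
        · linarith [neg_abs_le (S d)]
        · linarith [le_abs_self (S d)]
      linarith
    linarith
  -- second step: exchange the sums
  have h2 : (F : ℤ) * #P - ∑ d ∈ D, (Nd F m d : ℤ) * |S d| ≤
      ∑ f ∈ range F, ∑ q ∈ P, (sol (m f) 1 (-(2 * (q : ℤ))) : ℤ) := by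
    refine le_trans (le_of_eq ?_) (sum_le_sum h1)
    rw [sum_sub_distrib, sum_const, card_range, nsmul_eq_mul]
    congr 1
    simp_rw [sum_filter]
    rw [sum_comm]
    apply sum_congr rfl
    intro d _
    rw [← sum_filter, sum_const, nsmul_eq_mul, Nd]
  -- Cauchy-Schwarz
  have h3 : (∑ d ∈ D, (Nd F m d : ℤ) * |S d|) ^ 2 ≤ (∑ d ∈ D, (Nd F m d : ℤ) ^ 2) *
      ∑ d ∈ D, |S d| ^ 2 := sum_mul_sq_le_sq_mul_sq _ _ _
  have hDc : (#D : ℤ) * Y ^ 2 ≤ x := by
    have h4 : #D ≤ Y := by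
      calc #D ≤ #(Icc 2 Y) := card_filter_le _ _
        _ ≤ Y := by rw [Nat.card_Icc]; omega
    calc (#D : ℤ) * Y ^ 2 ≤ (Y : ℤ) * Y ^ 2 := by
          apply mul_le_mul_of_nonneg_right _ (by positivity)
          exact_mod_cast h4
      _ = (Y : ℤ) ^ 3 := by ring
      _ ≤ x := by exact_mod_cast hY
  have h4 : ∑ d ∈ D, |S d| ^ 2 ≤ (#P : ℤ) * (2 * x) := by
    simp_rw [sq_abs]
    refine (large_sieve D P x Y ?_ fun q hq => (hP q hq).2.2).trans ?_
    · intro d hd
      rw [hD, Dset, mem_filter, mem_Icc] at hd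
      exact ⟨hd.2.2.1, hd.2.1, hd.1.2⟩
    · apply mul_le_mul_of_nonneg_left _ (by positivity)
      linarith
  have h5 : (∑ d ∈ D, (Nd F m d : ℤ) * |S d|) ^ 2 * 4 ≤ ((F : ℤ) * #P) ^ 2 := by
    have hN' : 8 * (x : ℤ) * ∑ d ∈ D, (Nd F m d : ℤ) ^ 2 ≤ F ^ 2 * #P := by exact_mod_cast hN
    have h6 : (0 : ℤ) ≤ ∑ d ∈ D, (Nd F m d : ℤ) ^ 2 := by positivity
    calc (∑ d ∈ D, (Nd F m d : ℤ) * |S d|) ^ 2 * 4
        ≤ (∑ d ∈ D, (Nd F m d : ℤ) ^ 2) * (∑ d ∈ D, |S d| ^ 2) * 4 := by linarith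
      _ ≤ (∑ d ∈ D, (Nd F m d : ℤ) ^ 2) * ((#P : ℤ) * (2 * x)) * 4 := by
          have := mul_le_mul_of_nonneg_left h4 h6
          linarith
      _ = (8 * (x : ℤ) * ∑ d ∈ D, (Nd F m d : ℤ) ^ 2) * #P := by ring
      _ ≤ (F ^ 2 * #P) * #P := mul_le_mul_of_nonneg_right hN' (by positivity)
      _ = ((F : ℤ) * #P) ^ 2 := by ring
  have h6 : 2 * ∑ d ∈ D, (Nd F m d : ℤ) * |S d| ≤ (F : ℤ) * #P := by
    have h7 : (2 * ∑ d ∈ D, (Nd F m d : ℤ) * |S d|) ^ 2 ≤ ((F : ℤ) * #P) ^ 2 := by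
      calc _ = (∑ d ∈ D, (Nd F m d : ℤ) * |S d|) ^ 2 * 4 := by ring
        _ ≤ _ := h5
    exact le_of_sq_le_sq h7 (by positivity)
  have h7 : (F : ℤ) * #P ≤ 2 * ∑ f ∈ range F, ∑ q ∈ P, (sol (m f) 1 (-(2 * (q : ℤ))) : ℤ) := by
    linarith
  exact_mod_cast h7

end Pool.Agent.H591R2
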