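import Mathlib

/-!
# Jacobi symbols: sums over periods, and a duality bound over squarefree moduli
-/

namespace Pool.Agent.H591R2

open Finset

theorem exists_jacobi_neg_one {N p r : ℕ} (hodd : Odd N) (hp : p.Prime) (hN : N = p * r)
    (hcop : Nat.Coprime p r) : ∃ a : ℕ, Nat.Coprime a N ∧ jacobiSym a N = -1 := by
  have hfp : Fact p.Prime := ⟨hp⟩
  have hr0 : r ≠ 0 := by rintro rfl; simp at hN; subst hN; simp at hodd
  have hp2 : p ≠ 2 := by
    rintro rfl
    rw [hN] at hodd
    exact (Nat.not_odd_iff_even.2 (even_two_mul r)) hodd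
  obtain ⟨b, hb⟩ := FiniteField.exists_nonsquare (F := ZMod p) (by rw [ZMod.ringChar_zmod_n]; exact hp2)
  obtain ⟨a, ha1, ha2⟩ := Nat.chineseRemainder hcop b.val 1
  have h1 : jacobiSym a p = -1 := by
    rw [← jacobiSym.legendreSym.to_jacobiSym, legendreSym.eq_neg_one_iff]
    have : ((a : ℤ) : ZMod p) = b := by
      have := (ZMod.natCast_eq_natCast_iff a b.val p).2 ha1
      push_cast
      rw [this, ZMod.natCast_zmod_val]
    rwa [this]
  have h2 : jacobiSym a r = 1 := by
    have : jacobiSym a r = jacobiSym (1 : ℤ) r := by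
      apply jacobiSym.mod_left'
      exact_mod_cast ha2
    rw [this, jacobiSym.one_left]
  have h3 : jacobiSym a N = -1 := by
    rw [hN, jacobiSym.mul_right' _ hp.ne_zero hr0, h1, h2]; norm_num
  refine ⟨a, ?_, h3⟩
  by_contra hc
  have : jacobiSym a N = 0 := by
    rw [jacobiSym.eq_zero_iff]
    refine ⟨?_, ?_⟩
    · rintro rfl; simp at hodd
    · rw [Int.gcd_natCast_natCast]; exact hc
  rw [h3] at this
  norm_num at this

theorem sum_period {N a : ℕ} (hN : N ≠ 0) (ha : Nat.Coprime a N) (h : jacobiSym a N = -1) :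
    ∑ x ∈ range N, jacobiSym x N = 0 := by
  have : NeZero N := ⟨hN⟩
  have e1 : ∑ x ∈ range N, jacobiSym x N = ∑ x : ZMod N, jacobiSym (x.val : ℤ) N := by
    rw [← Fin.sum_univ_eq_sum_range (fun x => jacobiSym (x : ℤ) N)]
    apply (Fintype.sum_equiv (ZMod.finEquiv N).toEquiv _ _ _)
    intro x
    congr 1
    cases N with
    | zero => exact absurd rfl hN
    | succ N => rfl
  have hu : IsUnit (a : ZMod N) := (ZMod.isUnit_iff_coprime a N).2 ha
  obtain ⟨u, hu⟩ := hu
  have e2 : ∑ x : ZMod N, jacobiSym (x.val : ℤ) N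
      = ∑ x : ZMod N, jacobiSym (((u : ZMod N) * x).val : ℤ) N := by
    exact (Fintype.sum_equiv (Units.mulLeft u) _ _ (fun x => by simp)).symm
  have e3 : ∀ x : ZMod N, jacobiSym (((u : ZMod N) * x).val : ℤ) N
      = - jacobiSym (x.val : ℤ) N := by
    intro x
    have : jacobiSym (((u : ZMod N) * x).val : ℤ) N = jacobiSym ((a : ℤ) * x.val) N := by
      apply jacobiSym.mod_left'
      have h5 : ((((u : ZMod N) * x).val : ℤ) : ZMod N) = (((a : ℤ) * x.val : ℤ) : ZMod N) := by
        push_cast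
        rw [ZMod.natCast_zmod_val, ZMod.natCast_zmod_val, hu]
      exact (ZMod.intCast_eq_intCast_iff _ _ _).1 h5
    rw [this, jacobiSym.mul_left, h]
    ring
  simp_rw [e3, sum_neg_distrib] at e2
  rw [e1]
  linarith

theorem partial_sum {N : ℕ} (hN : N ≠ 0) (h : ∑ x ∈ range N, jacobiSym x N = 0) (x : ℕ) :
    |∑ n ∈ range x, jacobiSym n N| ≤ N := by
  induction x using Nat.strong_induction_on with
  | _ x ih =>
    rcases lt_or_ge x N with hx | hx
    · calc |∑ n ∈ range x, jacobiSym n N| ≤ ∑ n ∈ range x, |jacobiSym n N| :=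
            abs_sum_le_sum_abs _ _
        _ ≤ ∑ n ∈ range x, 1 := by
            apply sum_le_sum
            intro n _
            rcases jacobiSym.trichotomy n N with h | h | h <;> rw [h] <;> simp
        _ ≤ N := by simp; exact_mod_cast hx.le
    · obtain ⟨y, rfl⟩ : ∃ y, x = N + y := ⟨x - N, by omega⟩
      rw [sum_range_add, h, zero_add]
      have : ∀ i : ℕ, jacobiSym ((N + i : ℕ) : ℤ) N = jacobiSym i N := by
        intro i
        apply jacobiSym.mod_left'
        push_cast
        simp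
      simp_rw [this]
      exact ih y (by omega)

/-- For different odd squarefree `d, d'` the product character is non-principal. -/
theorem partial_sum_mul {d d' : ℕ} (hd : Odd d) (hd' : Odd d') (hs : Squarefree d)
    (hs' : Squarefree d') (hne : d ≠ d') (x : ℕ) :
    |∑ n ∈ range x, jacobiSym n d * jacobiSym n d'| ≤ d * d' := by
  have hd0 : d ≠ 0 := hs.ne_zero
  have hd0' : d' ≠ 0 := hs'.ne_zero
  have h1 : ∀ n : ℕ, jacobiSym n d * jacobiSym n d' = jacobiSym n (d * d') := by
    intro n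
    rw [jacobiSym.mul_right' _ hd0 hd0']
  simp_rw [h1]
  have key : ∃ p r, p.Prime ∧ d * d' = p * r ∧ Nat.Coprime p r := by
    -- a prime dividing exactly one of `d`, `d'`
    have h2 : ∃ p, p.Prime ∧ ((p ∣ d ∧ ¬ p ∣ d') ∨ (p ∣ d' ∧ ¬ p ∣ d)) := by
      by_contra hc
      push Not at hc
      apply hne
      rw [← Nat.prod_primeFactors_of_squarefree hs, ← Nat.prod_primeFactors_of_squarefree hs']
      congr 1
      ext p
      simp only [Nat.mem_primeFactors]
      constructor
      · rintro ⟨hp, hpd, _⟩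
        exact ⟨hp, (hc p hp).1 hpd, hd0'⟩
      · rintro ⟨hp, hpd, _⟩
        exact ⟨hp, (hc p hp).2 hpd, hd0⟩
    obtain ⟨p, hp, h | h⟩ := h2
    · obtain ⟨r, hr⟩ := h.1
      refine ⟨p, r * d', hp, by rw [hr]; ring, ?_⟩
      refine Nat.Coprime.mul_right ?_ ((Nat.Prime.coprime_iff_not_dvd hp).2 h.2)
      rw [hr] at hs
      exact Nat.coprime_of_squarefree_mul hs
    · obtain ⟨r, hr⟩ := h.1
      refine ⟨p, r * d, hp, by rw [hr]; ring, ?_⟩
      refine Nat.Coprime.mul_right ?_ ((Nat.Prime.coprime_iff_not_dvd hp).2 h.2)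
      rw [hr] at hs'
      exact Nat.coprime_of_squarefree_mul hs'
  obtain ⟨p, r, hp, hN, hcop⟩ := key
  obtain ⟨a, ha, hja⟩ := exists_jacobi_neg_one (hd.mul hd') hp hN hcop
  have h0 : d * d' ≠ 0 := mul_ne_zero hd0 hd0'
  have := partial_sum h0 (sum_period h0 ha hja) x
  push_cast at this
  exact this

/-- The duality bound (a large sieve inequality for quadratic characters). -/
theorem large_sieve (D P : Finset ℕ) (x Y : ℕ)
    (hD : ∀ d ∈ D, Odd d ∧ Squarefree d ∧ d ≤ Y) (hP : ∀ q ∈ P, q < x) :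
    ∑ d ∈ D, (∑ q ∈ P, jacobiSym q d) ^ 2 ≤ (P.card : ℤ) * (x + D.card * Y ^ 2) := by
  set S : ℕ → ℤ := fun d => ∑ q ∈ P, jacobiSym q d with hS
  set T : ℤ := ∑ d ∈ D, S d ^ 2 with hT
  set g : ℕ → ℤ := fun n => ∑ d ∈ D, S d * jacobiSym n d with hg
  have hT0 : 0 ≤ T := sum_nonneg fun d _ => sq_nonneg _
  have h1 : T = ∑ q ∈ P, g q := by
    rw [hT, hg]
    simp only
    rw [sum_comm]
    apply sum_congr rfl
    intro d _
    rw [← mul_sum, pow_two]
  have h2 : T ^ 2 ≤ P.card * ∑ n ∈ range x, g n ^ 2 := by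
    have h3 : T ^ 2 ≤ P.card * ∑ q ∈ P, g q ^ 2 := by
      rw [h1]; exact sq_sum_le_card_mul_sum_sq
    refine h3.trans (mul_le_mul_of_nonneg_left ?_ (by positivity))
    exact sum_le_sum_of_subset_of_nonneg (fun q hq => mem_range.2 (hP q hq))
      fun _ _ _ => sq_nonneg _
  have h4 : ∑ n ∈ range x, g n ^ 2 = ∑ d ∈ D, ∑ d' ∈ D, S d * S d' *
      ∑ n ∈ range x, jacobiSym n d * jacobiSym n d' := by
    have : ∀ n, g n ^ 2 = ∑ d ∈ D, ∑ d' ∈ D, S d * S d' * (jacobiSym n d * jacobiSym n d') := by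
      intro n
      rw [pow_two, hg]
      simp only
      rw [sum_mul_sum]
      apply sum_congr rfl; intro d _
      apply sum_congr rfl; intro d' _
      ring
    simp_rw [this]
    rw [sum_comm]
    apply sum_congr rfl; intro d _
    rw [sum_comm]
    apply sum_congr rfl; intro d' _
    rw [← mul_sum]
  have h5 : ∑ n ∈ range x, g n ^ 2 ≤ (x + D.card * Y ^ 2) * T := by
    rw [h4]
    have h6 : ∀ d ∈ D, ∀ d' ∈ D, S d * S d' * ∑ n ∈ range x, jacobiSym n d * jacobiSym n d'
        ≤ (if d = d' then S d ^ 2 * x else 0) + |S d| * |S d'| * Y ^ 2 := by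
      intro d hd d' hd'
      by_cases h : d = d'
      · subst h
        rw [if_pos rfl]
        have h7 : ∑ n ∈ range x, jacobiSym n d * jacobiSym n d ≤ x := by
          calc ∑ n ∈ range x, jacobiSym n d * jacobiSym n d ≤ ∑ n ∈ range x, 1 := by
                apply sum_le_sum
                intro n _
                rcases jacobiSym.trichotomy n d with h | h | h <;> rw [h] <;> simp
            _ = x := by simp
        have h8 : S d * S d * ∑ n ∈ range x, jacobiSym n d * jacobiSym n d ≤ S d ^ 2 * x := by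
          rw [← pow_two]
          exact mul_le_mul_of_nonneg_left h7 (sq_nonneg _)
        have h9 : 0 ≤ |S d| * |S d| * (Y : ℤ) ^ 2 := by positivity
        linarith
      · rw [if_neg h, zero_add]
        have h7 := partial_sum_mul (hD d hd).1 (hD d' hd').1 (hD d hd).2.1 (hD d' hd').2.1 h x
        have h8 : ((d : ℤ) * d') ≤ Y ^ 2 := by
          have := Nat.mul_le_mul (hD d hd).2.2 (hD d' hd').2.2
          rw [pow_two]
          exact_mod_cast this
        calc S d * S d' * ∑ n ∈ range x, jacobiSym n d * jacobiSym n d'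
            ≤ |S d * S d' * ∑ n ∈ range x, jacobiSym n d * jacobiSym n d'| := le_abs_self _
          _ = |S d| * |S d'| * |∑ n ∈ range x, jacobiSym n d * jacobiSym n d'| := by
              rw [abs_mul, abs_mul]
          _ ≤ |S d| * |S d'| * Y ^ 2 := by
              apply mul_le_mul_of_nonneg_left (h7.trans h8) (by positivity)
    calc ∑ d ∈ D, ∑ d' ∈ D, S d * S d' * ∑ n ∈ range x, jacobiSym n d * jacobiSym n d'
        ≤ ∑ d ∈ D, ∑ d' ∈ D, ((if d = d' then S d ^ 2 * x else 0) + |S d| * |S d'| * Y ^ 2) :=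
          sum_le_sum fun d hd => sum_le_sum fun d' hd' => h6 d hd d' hd'
      _ = T * x + (∑ d ∈ D, |S d|) ^ 2 * Y ^ 2 := by
          simp_rw [sum_add_distrib]
          congr 1
          · rw [hT, sum_mul]
            apply sum_congr rfl
            intro d hd
            rw [sum_ite_eq, if_pos hd]
          · have h20 : (∑ d ∈ D, |S d|) ^ 2 = ∑ d ∈ D, ∑ d' ∈ D, |S d| * |S d'| := by
              rw [pow_two, sum_mul_sum]
            rw [h20, sum_mul]
            apply sum_congr rfl; intro d _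
            rw [sum_mul]
      _ ≤ T * x + (D.card * T) * Y ^ 2 := by
          have : (∑ d ∈ D, |S d|) ^ 2 ≤ D.card * T := by
            have h10 : (∑ d ∈ D, |S d|) ^ 2 ≤ D.card * ∑ d ∈ D, |S d| ^ 2 :=
              sq_sum_le_card_mul_sum_sq
            simpa [sq_abs] using h10
          have h11 : (0 : ℤ) ≤ (Y : ℤ) ^ 2 := by positivity
          nlinarith
      _ = (x + D.card * Y ^ 2) * T := by ring
  rcases hT0.lt_or_eq with h | h
  · have h12 : T * T ≤ ((P.card : ℤ) * (x + D.card * Y ^ 2)) * T := by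
      calc T * T = T ^ 2 := by ring
        _ ≤ P.card * ∑ n ∈ range x, g n ^ 2 := h2
        _ ≤ P.card * ((x + D.card * Y ^ 2) * T) := mul_le_mul_of_nonneg_left h5 (by positivity)
        _ = _ := by ring
    exact le_of_mul_le_mul_right h12 h
  · rw [← h]; positivity

end Pool.Agent.H591R2
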