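import Pool.Agent.H591R2.Defs

/-!
# Expected running time of coin-tossing stack machines
-/

namespace Pool.Agent.H591R2

open Turing Function

namespace CoinMachine

variable (M : CoinMachine)

/-! ### truncated expected time -/

variable {M}

theorem run_nil (c : M.Conf) : M.run c [] = some c := rfl

theorem foldl_none (w : List Bool) :
    w.foldl (fun o b => o.bind (M.step b)) (none : Option M.Conf) = none := by
  induction w with
  | nil => rfl
  | cons b w ih => exact ih

theorem run_cons (c : M.Conf) (b : Bool) (w : List Bool) :
    M.run c (b :: w) = (M.step b c).bind (fun c' => M.run c' w) := by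
  unfold run
  rw [List.foldl_cons]
  cases h : (some c).bind (M.step b) with
  | none =>
    have h' : M.step b c = none := h
    rw [foldl_none, h']
    rfl
  | some c' =>
    have h' : M.step b c = some c' := h
    rw [h']
    rfl

theorem run_append (c : M.Conf) (w w' : List Bool) :
    M.run c (w ++ w') = (M.run c w).bind (fun c' => M.run c' w') := by
  induction w generalizing c with
  | nil => rfl
  | cons b w ih =>
    rw [List.cons_append, run_cons, run_cons]
    cases M.step b c with
    | none => rfl
    | some c' => exact ih c'

theorem step_none (b : Bool) {c : M.Conf} (h : c.l = none) : M.step b c = none := by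
  obtain ⟨l, v, S⟩ := c
  simp only at h
  subst h
  rfl

theorem step_some (b : Bool) {c : M.Conf} (h : c.l ≠ none) : ∃ c', M.step b c = some c' := by
  obtain ⟨l, v, S⟩ := c
  cases l with
  | none => exact absurd rfl h
  | some l => exact ⟨_, rfl⟩

open Classical in
/-- expected number of steps, truncated after `N` steps -/
noncomputable def eT : ℕ → M.Conf → ℝ
  | 0, _ => 0
  | N + 1, c => if c.l = none then 0 else
      1 + ((M.step false c).elim 0 (eT N) + (M.step true c).elim 0 (eT N)) / 2

theorem eT_nonneg (N : ℕ) : ∀ c : M.Conf, 0 ≤ eT N c := by
  induction N with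
  | zero => intro c; exact le_rfl
  | succ N ih =>
    intro c
    unfold eT
    split_ifs
    · exact le_rfl
    · have h : ∀ b, 0 ≤ (M.step b c).elim 0 (eT N) := by
        intro b
        cases M.step b c with
        | none => exact le_rfl
        | some c' => exact ih c'
      have h1 := h false
      have h2 := h true
      positivity

theorem eT_mono (N : ℕ) : ∀ c : M.Conf, eT N c ≤ eT (N + 1) c := by
  induction N with
  | zero => intro c; exact eT_nonneg 1 c
  | succ N ih =>
    intro c
    rw [eT, eT]
    split_ifs
    · exact le_rfl
    · have h : ∀ b, (M.step b c).elim 0 (eT N) ≤ (M.step b c).elim 0 (eT (N + 1)) := by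
        intro b
        cases M.step b c with
        | none => exact le_rfl
        | some c' => exact ih c'
      have h1 := h false
      have h2 := h true
      linarith

theorem eT_halt (N : ℕ) {c : M.Conf} (h : c.l = none) : eT N c = 0 := by
  cases N with
  | zero => rfl
  | succ N => rw [eT, if_pos h]

/-- a coin toss -/
theorem eT_coin (N : ℕ) {c : M.Conf} {d : Bool → M.Conf} (h : ∀ b, M.step b c = some (d b)) :
    eT N c ≤ 1 + (eT N (d false) + eT N (d true)) / 2 := by
  cases N with
  | zero => simp only [eT]; norm_num
  | succ N =>
    rw [eT]
    split_ifs with hc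
    · have h1 := eT_nonneg (N + 1) (d false)
      have h2 := eT_nonneg (N + 1) (d true)
      positivity
    · rw [h, h]
      simp only [Option.elim_some]
      have h1 := eT_mono N (d false)
      have h2 := eT_mono N (d true)
      linarith

/-- a deterministic step -/
theorem eT_step (N : ℕ) {c d : M.Conf} (h : ∀ b, M.step b c = some d) : eT N c ≤ 1 + eT N d := by
  have := eT_coin N (d := fun _ => d) h
  linarith

/-- a deterministic segment -/
theorem eT_seg (N t : ℕ) : ∀ {c d : M.Conf}, (∀ w : List Bool, w.length = t → M.run c w = some d) →
    eT N c ≤ t + eT N d := by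
  induction t with
  | zero =>
    intro c d h
    have := h [] rfl
    rw [run_nil, Option.some.injEq] at this
    rw [this]; simp
  | succ t ih =>
    intro c d h
    by_cases hc : c.l = none
    · rw [eT_halt N hc]
      have := eT_nonneg N d
      positivity
    · obtain ⟨c0, h0⟩ := step_some (M := M) false hc
      obtain ⟨c1, h1⟩ := step_some (M := M) true hc
      have i0 : eT N c0 ≤ t + eT N d := ih fun w hw => by
        have := h (false :: w) (by simp [hw])
        rw [run_cons, h0] at this
        exact this
      have i1 : eT N c1 ≤ t + eT N d := ih fun w hw => by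
        have := h (true :: w) (by simp [hw])
        rw [run_cons, h1] at this
        exact this
      have := eT_coin N (c := c) (d := fun b => if b then c1 else c0) (by
        intro b; cases b
        · simpa using h0
        · simpa using h1)
      simp only [Bool.false_eq_true, if_false, if_true] at this
      push_cast
      linarith

/-- the finite set of coin sequences of given length after which the machine is running -/
theorem ncard_running_zero (c : M.Conf) :
    {w : List Bool | w.length = 0 ∧ M.Running c w}.ncard = if c.l = none then 0 else 1 := by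
  split_ifs with h
  · have : {w : List Bool | w.length = 0 ∧ M.Running c w} = ∅ := by
      ext w
      simp only [Set.mem_ofPred_eq, Set.mem_empty_iff_false, iff_false, not_and]
      intro hw
      rw [List.length_eq_zero_iff] at hw
      subst hw
      rintro ⟨c', h1, h2⟩
      rw [run_nil, Option.some.injEq] at h1
      subst h1
      exact h2 h
    rw [this, Set.ncard_empty]
  · have : {w : List Bool | w.length = 0 ∧ M.Running c w} = {[]} := by
      ext w
      simp only [Set.mem_ofPred_eq, Set.mem_singleton_iff]
      constructor
      · exact fun hw => List.length_eq_zero_iff.1 hw.1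
      · rintro rfl
        exact ⟨rfl, c, rfl, h⟩
    rw [this, Set.ncard_singleton]

theorem finite_len (i : ℕ) (P : List Bool → Prop) : {w : List Bool | w.length = i ∧ P w}.Finite :=
  (List.finite_length_eq Bool i).subset fun _ h => h.1

theorem ncard_running_succ (c : M.Conf) (i : ℕ) :
    ({w : List Bool | w.length = i + 1 ∧ M.Running c w}.ncard : ℝ) =
      (M.step false c).elim 0 (fun c' => ({w : List Bool | w.length = i ∧ M.Running c' w}.ncard : ℝ))
      + (M.step true c).elim 0
        (fun c' => ({w : List Bool | w.length = i ∧ M.Running c' w}.ncard : ℝ)) := by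
  have key : ∀ b, (M.step b c).elim 0
      (fun c' => ({w : List Bool | w.length = i ∧ M.Running c' w}.ncard : ℝ)) =
      ({w : List Bool | w.length = i ∧ M.Running c (b :: w)}.ncard : ℝ) := by
    intro b
    cases h : M.step b c with
    | none =>
      have : {w : List Bool | w.length = i ∧ M.Running c (b :: w)} = ∅ := by
        ext w
        simp only [Set.mem_ofPred_eq, Set.mem_empty_iff_false, iff_false, not_and]
        rintro _ ⟨c', h1, _⟩
        rw [run_cons, h] at h1
        simp at h1
      rw [this]
      simp
    | some c' =>
      simp only [Option.elim_some]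
      congr 2
      ext w
      simp only [Set.mem_ofPred_eq]
      unfold Running
      rw [run_cons, h]
      rfl
  rw [key, key]
  have e : {w : List Bool | w.length = i + 1 ∧ M.Running c w} =
      (fun w => false :: w) '' {w : List Bool | w.length = i ∧ M.Running c (false :: w)} ∪
      (fun w => true :: w) '' {w : List Bool | w.length = i ∧ M.Running c (true :: w)} := by
    ext w
    simp only [Set.mem_ofPred_eq, Set.mem_union, Set.mem_image]
    constructor
    · rintro ⟨h1, h2⟩
      cases w with
      | nil => simp at h1
      | cons b w =>
        have h3 : w.length = i := by simpa using h1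
        cases b
        · left; exact ⟨w, ⟨h3, h2⟩, rfl⟩
        · right; exact ⟨w, ⟨h3, h2⟩, rfl⟩
    · rintro (⟨w', ⟨h1, h2⟩, rfl⟩ | ⟨w', ⟨h1, h2⟩, rfl⟩)
      · exact ⟨by simp [h1], h2⟩
      · exact ⟨by simp [h1], h2⟩
  have hdis : Disjoint
      ((fun w => false :: w) '' {w : List Bool | w.length = i ∧ M.Running c (false :: w)})
      ((fun w => true :: w) '' {w : List Bool | w.length = i ∧ M.Running c (true :: w)}) := by
    rw [Set.disjoint_left]
    rintro w ⟨w1, _, rfl⟩ ⟨w2, _, h⟩
    simp at h
  rw [e, Set.ncard_union_eq hdis ((finite_len i _).image _) ((finite_len i _).image _),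
    Set.ncard_image_of_injective _ (fun a b h => by simpa using h),
    Set.ncard_image_of_injective _ (fun a b h => by simpa using h)]
  push_cast; ring

theorem sum_eq_eT (N : ℕ) : ∀ c : M.Conf,
    ∑ i ∈ Finset.range N, ({w : List Bool | w.length = i ∧ M.Running c w}.ncard : ℝ) / 2 ^ i =
      eT N c := by
  induction N with
  | zero => intro c; rfl
  | succ N ih =>
    intro c
    rw [Finset.sum_range_succ', ncard_running_zero, eT]
    by_cases hc : c.l = none
    · rw [if_pos hc, if_pos hc]
      have : ∀ i, ({w : List Bool | w.length = i + 1 ∧ M.Running c w}.ncard : ℝ) / 2 ^ (i + 1) = 0 := by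
        intro i
        rw [ncard_running_succ, step_none _ hc, step_none _ hc]
        simp
      rw [Finset.sum_congr rfl (fun i _ => this i)]
      simp
    · rw [if_neg hc, if_neg hc]
      obtain ⟨c0, h0⟩ := step_some (M := M) false hc
      obtain ⟨c1, h1⟩ := step_some (M := M) true hc
      rw [h0, h1]
      simp only [Option.elim_some]
      rw [← ih c0, ← ih c1, ← Finset.sum_add_distrib, Finset.sum_div]
      rw [add_comm]
      congr 1
      · norm_num
      · apply Finset.sum_congr rfl
        intro i _
        rw [ncard_running_succ, h0, h1]
        simp only [Option.elim_some]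
        rw [pow_succ]
        field_simp

theorem expectedTime_le {x : List Bool} {B : ℕ} (h : ∀ N, eT N (M.start x) ≤ B) :
    M.expectedTime x ≤ B := by
  unfold expectedTime
  apply ENNReal.tsum_le_of_sum_range_le
  intro N
  have h1 := h N
  rw [← sum_eq_eT] at h1
  have h2 : (∑ i ∈ Finset.range N,
      ({w : List Bool | w.length = i ∧ M.Running (M.start x) w}.ncard : ENNReal) / 2 ^ i) =
      ENNReal.ofReal (∑ i ∈ Finset.range N,
      ({w : List Bool | w.length = i ∧ M.Running (M.start x) w}.ncard : ℝ) / 2 ^ i) := by
    rw [ENNReal.ofReal_sum_of_nonneg (fun i _ => by positivity)]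
    apply Finset.sum_congr rfl
    intro i _
    rw [ENNReal.ofReal_div_of_pos (by positivity), ENNReal.ofReal_natCast,
      ENNReal.ofReal_pow (by norm_num)]
    simp
  rw [h2]
  calc ENNReal.ofReal _ ≤ ENNReal.ofReal (B : ℝ) := ENNReal.ofReal_le_ofReal h1
    _ = B := ENNReal.ofReal_natCast B

/-! ### correctness -/

/-- all halted configurations reached in fewer than `m` steps are good -/
def OK (G : M.Conf → Prop) (m : ℕ) (c : M.Conf) : Prop :=
  ∀ w c', w.length < m → M.run c w = some c' → c'.l = none → G c'

theorem OK.mono {G : M.Conf → Prop} {m m' : ℕ} (h : m' ≤ m) {c : M.Conf} (hc : OK G m c) :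
    OK G m' c := fun w c' hw => hc w c' (by omega)

theorem ok_zero {G : M.Conf → Prop} (c : M.Conf) : OK G 0 c := fun w c' hw => by omega

theorem ok_halt {G : M.Conf → Prop} {c : M.Conf} (m : ℕ) (h : G c) (hl : c.l = none) : OK G m c := by
  intro w c' _ h1 _
  cases w with
  | nil =>
    rw [run_nil, Option.some.injEq] at h1
    exact h1 ▸ h
  | cons b w =>
    rw [run_cons, step_none b hl] at h1
    simp at h1

theorem ok_coin {G : M.Conf → Prop} {c : M.Conf} {d : Bool → M.Conf} {m : ℕ}
    (h : ∀ b, M.step b c = some (d b)) (hd : ∀ b, OK G m (d b)) : OK G (m + 1) c := by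
  intro w c' hw h1 h2
  cases w with
  | nil =>
    rw [run_nil, Option.some.injEq] at h1
    subst h1
    have := h false
    rw [step_none _ h2] at this
    simp at this
  | cons b w =>
    rw [run_cons, h] at h1
    exact hd b w c' (by simpa using hw) h1 h2

theorem ok_coin' {G : M.Conf → Prop} {c : M.Conf} {d : Bool → M.Conf} {m : ℕ}
    (h : ∀ b, M.step b c = some (d b)) (hd : ∀ b, OK G m (d b)) : OK G m c :=
  (ok_coin h hd).mono (Nat.le_succ m)

theorem ok_seg {G : M.Conf → Prop} {c d : M.Conf} {m t : ℕ}
    (h : ∀ w : List Bool, w.length = t → M.run c w = some d) (hd : OK G m d) : OK G m c := by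
  intro w c' hw h1 h2
  by_cases hwt : t ≤ w.length
  · have e : w = w.take t ++ w.drop t := (List.take_append_drop t w).symm
    rw [e, run_append, h (w.take t) (by simp; omega)] at h1
    exact hd (w.drop t) c' (by simp; omega) h1 h2
  · push Not at hwt
    have h3 := h (w ++ List.replicate (t - w.length) false) (by simp; omega)
    rw [run_append, h1] at h3
    simp only [Option.bind_some] at h3
    obtain ⟨k, hk⟩ : ∃ k, t - w.length = k + 1 := ⟨t - w.length - 1, by omega⟩
    rw [hk, List.replicate_succ, run_cons, step_none _ h2] at h3
    simp at h3

end CoinMachine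

end Pool.Agent.H591R2
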