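import Pool.Agent.H591R2.Coin
import Pool.Agent.NPC.Cmd

/-!
# Compiled programs inside coin-tossing machines
-/

namespace Pool.Agent.H591R2

open Turing Function NPC

section

variable {K : Type} [DecidableEq K] {L : Type}

/-- running a pair of programs along a sequence of coins -/
def runP (P : Bool → L → Cmd.Stm K L) (c : TM2.Cfg (fun _ : K => Bool) L (Option Bool))
    (w : List Bool) : Option (TM2.Cfg (fun _ : K => Bool) L (Option Bool)) :=
  w.foldl (fun o b => o.bind (TM2.step (P b))) (some c)

theorem runP_append {P : Bool → L → Cmd.Stm K L} {a b c} {w w' : List Bool}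
    (h : runP P a w = some b) (h' : runP P b w' = some c) : runP P a (w ++ w') = some c := by
  unfold runP at *
  rw [List.foldl_append, h, h']

/-- deterministic segments: the same for all sequences of coins of length `n` -/
def Seg (P : Bool → L → Cmd.Stm K L) (n : ℕ)
    (a b : TM2.Cfg (fun _ : K => Bool) L (Option Bool)) : Prop :=
  ∀ w : List Bool, w.length = n → runP P a w = some b

theorem Seg.trans {P : Bool → L → Cmd.Stm K L} {m n : ℕ} {a b c} (h₁ : Seg P m a b)
    (h₂ : Seg P n b c) : Seg P (m + n) a c := by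
  intro w hw
  rw [← List.take_append_drop m w]
  exact runP_append (h₁ _ (by simp; omega)) (h₂ _ (by simp; omega))

theorem Seg.one {P : Bool → L → Cmd.Stm K L} {a b} (h : ∀ x, TM2.step (P x) a = some b) :
    Seg P 1 a b := by
  intro w hw
  obtain ⟨x, rfl⟩ := List.length_eq_one_iff.1 hw
  exact h x

theorem code_seg {c : Cmd K} {s s' : K → List Bool} {t : ℕ} (h : Run c s s' t) :
    ∀ (P : Bool → L → Cmd.Stm K L) (emb : c.Lbl → L) (exit : L),
      (∀ x l, P x (emb l) = c.code emb exit l) →
      ∀ v, ∃ v', Seg P t ⟨some (emb c.entry), v, s⟩ ⟨some exit, v', s'⟩ := by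
  induction h with
  | skip s =>
    intro P emb exit hP v
    refine ⟨v, Seg.one fun x => ?_⟩
    simp [TM2.step, hP, Cmd.code]
  | push s k b =>
    intro P emb exit hP v
    refine ⟨v, Seg.one fun x => ?_⟩
    simp [TM2.step, hP, Cmd.code]
  | pop s k =>
    intro P emb exit hP v
    refine ⟨v, Seg.one fun x => ?_⟩
    simp [TM2.step, hP, Cmd.code]
  | @seq c d s s' s'' t t' _ _ ih₁ ih₂ =>
    intro P emb exit hP v
    obtain ⟨v₁, h₁⟩ := ih₁ P (fun x => emb (Sum.inl x)) (emb (Sum.inr d.entry))
      (fun x l => hP x (Sum.inl l)) v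
    obtain ⟨v₂, h₂⟩ := ih₂ P (fun x => emb (Sum.inr x)) exit (fun x l => hP x (Sum.inr l)) v₁
    exact ⟨v₂, h₁.trans h₂⟩
  | @casesNil k c₀ cf ct s s' t hk _ ih =>
    intro P emb exit hP v
    obtain ⟨v₁, h₁⟩ := ih P (fun x => emb (some (Sum.inl x))) exit
      (fun x l => hP x (some (Sum.inl l))) none
    refine ⟨v₁, ?_⟩
    rw [add_comm]
    refine Seg.trans (Seg.one fun x => ?_) h₁
    have : P x (emb none) = _ := hP x none
    simp [TM2.step, Cmd.entry, this, Cmd.code, hk]
  | @casesFalse k c₀ cf ct s s' t l hk _ ih =>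
    intro P emb exit hP v
    obtain ⟨v₁, h₁⟩ := ih P (fun x => emb (some (Sum.inr (Sum.inl x)))) exit
      (fun x l => hP x (some (Sum.inr (Sum.inl l)))) (some false)
    refine ⟨v₁, ?_⟩
    rw [add_comm]
    refine Seg.trans (Seg.one fun x => ?_) h₁
    have : P x (emb none) = _ := hP x none
    simp [TM2.step, Cmd.entry, this, Cmd.code, hk]
  | @casesTrue k c₀ cf ct s s' t l hk _ ih =>
    intro P emb exit hP v
    obtain ⟨v₁, h₁⟩ := ih P (fun x => emb (some (Sum.inr (Sum.inr x)))) exit
      (fun x l => hP x (some (Sum.inr (Sum.inr l)))) (some true)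
    refine ⟨v₁, ?_⟩
    rw [add_comm]
    refine Seg.trans (Seg.one fun x => ?_) h₁
    have : P x (emb none) = _ := hP x none
    simp [TM2.step, Cmd.entry, this, Cmd.code, hk]
  | @loopNil k c s hk =>
    intro P emb exit hP v
    refine ⟨none, Seg.one fun x => ?_⟩
    have : P x (emb none) = _ := hP x none
    simp [TM2.step, Cmd.entry, this, Cmd.code, hk]
  | @loopCons k c s s' s'' t t' hk _ _ ih₁ ih₂ =>
    intro P emb exit hP v
    obtain ⟨b, l, hl⟩ := List.exists_cons_of_ne_nil hk
    obtain ⟨v₁, h₁⟩ := ih₁ P (fun x => emb (some x)) (emb none)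
      (fun x l => hP x (some l)) (some b)
    obtain ⟨v₂, h₂⟩ := ih₂ P emb exit hP v₁
    refine ⟨v₂, ?_⟩
    have e : t + t' + 1 = 1 + (t + t') := by ring
    rw [e]
    refine Seg.trans (Seg.one fun x => ?_) (h₁.trans h₂)
    have : P x (emb none) = _ := hP x none
    simp [TM2.step, Cmd.entry, this, Cmd.code, hl]

end

/-! ### the Las Vegas machine -/

section Machine

variable {N : ℕ} (cA cC : Cmd (Fin (N + 2)))

/-- labels: preparation program, main program, four control labels -/
abbrev LV : Type := cA.Lbl ⊕ (cC.Lbl ⊕ Fin 4)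

/-- the control label `i` -/
abbrev ctl (i : Fin 4) : LV cA cC := Sum.inr (Sum.inr i)

/-- program of the machine, when the coin shows `x` -/
def lvProg (x : Bool) (l : LV cA cC) : Cmd.Stm (Fin (N + 2)) (LV cA cC) :=
  match l with
  | Sum.inl l => cA.code Sum.inl (ctl cA cC 0) l
  | Sum.inr (Sum.inl l) => cC.code (fun l => Sum.inr (Sum.inl l)) (ctl cA cC 3) l
  | Sum.inr (Sum.inr 0) => TM2.Stmt.load (fun _ => none) (TM2.Stmt.goto fun _ => ctl cA cC 1)
  | Sum.inr (Sum.inr 1) => TM2.Stmt.peek 0 (fun _ a => a) (TM2.Stmt.branch (fun v => v == some true)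
      (TM2.Stmt.pop 0 (fun v _ => v) (TM2.Stmt.push 1 (fun _ => x) (TM2.Stmt.load (fun _ => none)
        (TM2.Stmt.goto fun _ => ctl cA cC 1))))
      (TM2.Stmt.load (fun _ => none) (TM2.Stmt.goto fun _ => ctl cA cC 2)))
  | Sum.inr (Sum.inr 2) => TM2.Stmt.pop 1 (fun _ a => a) (TM2.Stmt.branch (fun v => v.isSome)
      (TM2.Stmt.push 0 (fun v => v.getD false) (TM2.Stmt.push 0 (fun _ => true)
        (TM2.Stmt.load (fun _ => none) (TM2.Stmt.goto fun _ => ctl cA cC 2))))
      (TM2.Stmt.load (fun _ => none) (TM2.Stmt.goto fun _ => Sum.inr (Sum.inl cC.entry))))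
  | Sum.inr (Sum.inr 3) => TM2.Stmt.pop 0 (fun _ a => a) (TM2.Stmt.branch (fun v => v == some true)
      (TM2.Stmt.load (fun _ => none) TM2.Stmt.halt)
      (TM2.Stmt.load (fun _ => none) (TM2.Stmt.goto fun _ => ctl cA cC 1)))

/-- the Las Vegas machine -/
def lvMachine : CoinMachine where
  K := Fin (N + 2)
  decK := inferInstance
  finK := inferInstance
  inp := 0
  out := 0
  Lab := LV cA cC
  finLab := inferInstance
  State := Option Bool
  finState := inferInstance
  main := Sum.inl cA.entry
  init := none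
  prog := lvProg cA cC

/-- stacks with `u` on stack `0` and `v` on stack `1` -/
def st2 (u v : List Bool) : Fin (N + 2) → List Bool := update (update (fun _ => []) 1 v) 0 u

theorem st2_zero (u v : List Bool) : (st2 u v : Fin (N + 2) → List Bool) 0 = u := by simp [st2]

theorem st2_one (u v : List Bool) : (st2 u v : Fin (N + 2) → List Bool) 1 = v := by simp [st2]

theorem st2_upd_zero (u u' v : List Bool) :
    update (st2 u v : Fin (N + 2) → List Bool) 0 u' = st2 u' v := by
  unfold st2; simp

theorem st2_upd_one (u v v' : List Bool) :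
    update (st2 u v : Fin (N + 2) → List Bool) 1 v' = st2 u v' := by
  unfold st2
  rw [update_comm (by simp : (0 : Fin (N + 2)) ≠ 1), update_idem]

theorem st2_nil (u : List Bool) : (st2 u [] : Fin (N + 2) → List Bool) = update (fun _ => []) 0 u := by
  unfold st2
  congr 1
  funext i
  by_cases h : i = 1
  · subst h; simp
  · simp [update_of_ne h]

/-- a configuration -/
def mkc (l : Option (LV cA cC)) (v : Option Bool) (S : Fin (N + 2) → List Bool) :
    (lvMachine cA cC).Conf := ⟨l, v, S⟩

/-- configuration at a control label -/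
def cfg (i : Fin 4) (u v : List Bool) : (lvMachine cA cC).Conf :=
  mkc cA cC (some (ctl cA cC i)) none (st2 u v)

theorem step_one_true (x : Bool) (u v : List Bool) :
    (lvMachine cA cC).step x (cfg cA cC 1 (true :: u) v) = some (cfg cA cC 1 u (x :: v)) := by
  change TM2.step (lvProg cA cC x) (⟨some (ctl cA cC 1), none, st2 (true :: u) v⟩ :
    TM2.Cfg (fun _ : Fin (N + 2) => Bool) (LV cA cC) (Option Bool)) = some
      ⟨some (ctl cA cC 1), none, st2 u (x :: v)⟩
  simp [TM2.step, lvProg, st2_zero, st2_one, st2_upd_zero, st2_upd_one]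

theorem step_one_false (x : Bool) (u v : List Bool) :
    (lvMachine cA cC).step x (cfg cA cC 1 (false :: u) v) = some (cfg cA cC 2 (false :: u) v) := by
  change TM2.step (lvProg cA cC x) (⟨some (ctl cA cC 1), none, st2 (false :: u) v⟩ :
    TM2.Cfg (fun _ : Fin (N + 2) => Bool) (LV cA cC) (Option Bool)) = some
      ⟨some (ctl cA cC 2), none, st2 (false :: u) v⟩
  simp [TM2.step, lvProg, st2_zero]

theorem step_two_cons (x a : Bool) (u v : List Bool) :
    (lvMachine cA cC).step x (cfg cA cC 2 u (a :: v)) = some (cfg cA cC 2 (true :: a :: u) v) := by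
  change TM2.step (lvProg cA cC x) (⟨some (ctl cA cC 2), none, st2 u (a :: v)⟩ :
    TM2.Cfg (fun _ : Fin (N + 2) => Bool) (LV cA cC) (Option Bool)) = some
      ⟨some (ctl cA cC 2), none, st2 (true :: a :: u) v⟩
  simp [TM2.step, lvProg, st2_zero, st2_one, st2_upd_zero, st2_upd_one]

theorem step_two_nil (x : Bool) (u : List Bool) :
    (lvMachine cA cC).step x (cfg cA cC 2 u []) =
      some (mkc cA cC (some (Sum.inr (Sum.inl cC.entry))) none (st2 u [])) := by
  change TM2.step (lvProg cA cC x) (⟨some (ctl cA cC 2), none, st2 u []⟩ :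
    TM2.Cfg (fun _ : Fin (N + 2) => Bool) (LV cA cC) (Option Bool)) = some
      ⟨some (Sum.inr (Sum.inl cC.entry)), none, st2 u []⟩
  simp [TM2.step, lvProg, st2_one, st2_upd_one]

theorem step_three_true (x : Bool) (v : Option Bool) (u : List Bool) :
    (lvMachine cA cC).step x (mkc cA cC (some (ctl cA cC 3)) v (st2 (true :: u) [])) =
      some (mkc cA cC none none (st2 u [])) := by
  change TM2.step (lvProg cA cC x) (⟨some (ctl cA cC 3), v, st2 (true :: u) []⟩ :
    TM2.Cfg (fun _ : Fin (N + 2) => Bool) (LV cA cC) (Option Bool)) = some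
      ⟨none, none, st2 u []⟩
  simp [TM2.step, lvProg, st2_zero, st2_upd_zero]

theorem step_three_false (x : Bool) (v : Option Bool) (u : List Bool) :
    (lvMachine cA cC).step x (mkc cA cC (some (ctl cA cC 3)) v (st2 (false :: u) [])) =
      some (cfg cA cC 1 u []) := by
  change TM2.step (lvProg cA cC x) (⟨some (ctl cA cC 3), v, st2 (false :: u) []⟩ :
    TM2.Cfg (fun _ : Fin (N + 2) => Bool) (LV cA cC) (Option Bool)) = some
      ⟨some (ctl cA cC 1), none, st2 u []⟩
  simp [TM2.step, lvProg, st2_zero, st2_upd_zero]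

theorem step_zero (x : Bool) (v : Option Bool) (u : List Bool) :
    (lvMachine cA cC).step x (mkc cA cC (some (ctl cA cC 0)) v (st2 u [])) =
      some (cfg cA cC 1 u []) := by
  change TM2.step (lvProg cA cC x) (⟨some (ctl cA cC 0), v, st2 u []⟩ :
    TM2.Cfg (fun _ : Fin (N + 2) => Bool) (LV cA cC) (Option Bool)) = some
      ⟨some (ctl cA cC 1), none, st2 u []⟩
  simp [TM2.step, lvProg]

theorem start_eq (x : List Bool) : (lvMachine cA cC).start x =
    mkc cA cC (some (Sum.inl cA.entry)) none (inp x) := rfl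

theorem seg_run {n : ℕ} {l l' : Option (LV cA cC)} {v v' : Option Bool}
    {S S' : Fin (N + 2) → List Bool} (h : Seg (lvProg cA cC) n ⟨l, v, S⟩ ⟨l', v', S'⟩) :
    ∀ w : List Bool, w.length = n →
      (lvMachine cA cC).run (mkc cA cC l v S) w = some (mkc cA cC l' v' S') := h

end Machine

end Pool.Agent.H591R2
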