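import Mathlib

/-!
# Definitions for the statement about eight tetrahedral numbers

Representations by tetrahedral numbers, and coin-tossing stack machines with their expected running
time.  The machines are Mathlib's multi-stack machines `Turing.TM2`, with two programs instead of
one: before each step a fair coin decides which of the two programs makes the step (the usual
definition of a probabilistic Turing machine by two transition functions).
-/

namespace Pool.Agent.H591R2

/-- The `m`-th tetrahedral number. -/
def tet (m : ℕ) : ℕ := m * (m + 1) * (m + 2) / 6

/-- `L` is a representation of `n` by at most eight tetrahedral numbers: a list of one to eight
positive integers whose tetrahedral numbers add up to `n`. -/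
def IsRep (n : ℕ) (L : List ℕ) : Prop :=
  1 ≤ L.length ∧ L.length ≤ 8 ∧ (∀ m ∈ L, 1 ≤ m) ∧ (L.map tet).sum = n

/-- A standard code of lists of natural numbers by bit strings: each binary digit `b` of an entry
(least significant digit first) becomes `1 b`, and each entry is followed by `0`. -/
def encList (L : List ℕ) : List Bool :=
  L.flatMap (fun m => m.bits.flatMap (fun b => [true, b]) ++ [false])

open Turing Function

/-- A probabilistic machine with finitely many binary stacks, finitely many labels and finitely
many internal states: two programs in the language of Mathlib's `Turing.TM2`, indexed by the
outcome of a coin. -/
structure CoinMachine where
  /-- the stacks -/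
  K : Type
  /-- the stacks can be compared -/
  decK : DecidableEq K
  /-- there are finitely many stacks -/
  finK : Fintype K
  /-- the input stack -/
  inp : K
  /-- the output stack -/
  out : K
  /-- the labels -/
  Lab : Type
  /-- there are finitely many labels -/
  finLab : Fintype Lab
  /-- the internal states -/
  State : Type
  /-- there are finitely many internal states -/
  finState : Fintype State
  /-- the initial label -/
  main : Lab
  /-- the initial internal state -/
  init : State
  /-- the two programs -/
  prog : Bool → Lab → TM2.Stmt (fun _ : K => Bool) Lab State

namespace CoinMachine

variable (M : CoinMachine)

/-- Configurations: current label (`none` when the machine has halted), internal state, contents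
of the stacks. -/
abbrev Conf : Type := TM2.Cfg (fun _ : M.K => Bool) M.Lab M.State

/-- One step, when the coin shows `b`.  A halted configuration has no next configuration. -/
def step (b : Bool) (c : M.Conf) : Option M.Conf :=
  letI := M.decK
  TM2.step (M.prog b) c

/-- The initial configuration: the input string on the input stack, all other stacks empty. -/
def start (x : List Bool) : M.Conf :=
  letI := M.decK
  ⟨some M.main, M.init, update (fun _ => []) M.inp x⟩

/-- The configuration reached from `c` with the sequence `w` of coin tosses (one toss for each
step); `none` if the machine halts before the end of the sequence. -/
def run (c : M.Conf) (w : List Bool) : Option M.Conf :=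
  w.foldl (fun o b => o.bind (M.step b)) (some c)

/-- With the sequence `w` of coin tosses, the machine started at `c` is still running after
`w.length` steps. -/
def Running (c : M.Conf) (w : List Bool) : Prop := ∃ c', M.run c w = some c' ∧ c'.l ≠ none

/-- With the sequence `w` of coin tosses, the machine on input `x` halts after exactly
`w.length` steps, with output `y` (all other stacks being empty). -/
def HaltsWith (x w y : List Bool) : Prop :=
  letI := M.decK
  ∃ v, M.run (M.start x) w = some ⟨none, v, update (fun _ => []) M.out y⟩

/-- The expected number of steps on input `x`: the sum over all `i` of the probability (over `i`
fair coin tosses) that the machine is still running after `i` steps. -/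
noncomputable def expectedTime (x : List Bool) : ENNReal :=
  ∑' i : ℕ, ({w : List Bool | w.length = i ∧ M.Running (M.start x) w}.ncard : ENNReal) / 2 ^ i

end CoinMachine

end Pool.Agent.H591R2
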