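import Pool.Agent.H591R2.Prob
import Pool.Agent.H671R2.PolyAuto
import Pool.Agent.H687R2.IntPoly

/-!
# The subroutines run in polynomial time
-/

namespace Pool.Agent.NPC.R591

open Pool.Agent.H591R2

section Helpers

variable {α β γ σ : Type} [TEnc α] [TEnc β] [TEnc γ] [TEnc σ]

theorem iterU {n : α → ℕ} {s : α → σ} {F : α → σ → σ} {b : α → β} (hn : UPoly n) (hs : Poly s)
    (hF : Poly (fun p : α × σ => F p.1 p.2)) (hb : Poly b) (C : ℕ)
    (hq : ∀ a, ∀ k ≤ n a, sz ((F a)^[k] (s a)) ≤ C * sz (b a)) :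
    Poly (fun a => (F a)^[n a] (s a)) := by
  obtain ⟨r, hr⟩ := hb.sz_le
  refine (Poly.iterLen (l := fun a => List.replicate (n a) ()) hn hs hF (Polynomial.C C * r)
    ?_).congr fun a => by simp
  intro a k hk
  rw [List.length_replicate] at hk
  refine (hq a k hk).trans ?_
  rw [Polynomial.eval_mul, Polynomial.eval_C]
  exact Nat.mul_le_mul_left _ (hr a)

theorem foldlU {l : α → List γ} {s : α → σ} {F : α → σ → γ → σ} {b : α → β} (hl : Poly l)
    (hs : Poly s) (hF : Poly (fun p : α × σ × γ => F p.1 p.2.1 p.2.2)) (hb : Poly b) (C : ℕ)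
    (hq : ∀ a, ∀ k ≤ (l a).length, sz (((l a).take k).foldl (F a) (s a)) ≤ C * sz (b a)) :
    Poly (fun a => (l a).foldl (F a) (s a)) := by
  obtain ⟨r, hr⟩ := hb.sz_le
  refine Poly.foldl hl hs hF (Polynomial.C C * r) ?_
  intro a k hk
  refine (hq a k hk).trans ?_
  rw [Polynomial.eval_mul, Polynomial.eval_C]
  exact Nat.mul_le_mul_left _ (hr a)

theorem foldrU {l : α → List γ} {s : α → σ} {F : α → γ → σ → σ} {b : α → β} (hl : Poly l)
    (hs : Poly s) (hF : Poly (fun p : α × γ × σ => F p.1 p.2.1 p.2.2)) (hb : Poly b) (C : ℕ)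
    (hq : ∀ a, ∀ k ≤ (l a).length, sz (((l a).drop k).foldr (F a) (s a)) ≤ C * sz (b a)) :
    Poly (fun a => (l a).foldr (F a) (s a)) := by
  obtain ⟨r, hr⟩ := hb.sz_le
  refine Poly.foldr hl hs hF (Polynomial.C C * r) ?_
  intro a k hk
  refine (hq a k hk).trans ?_
  rw [Polynomial.eval_mul, Polynomial.eval_C]
  exact Nat.mul_le_mul_left _ (hr a)

theorem uSize {n : α → ℕ} (hn : Poly n) : UPoly (fun a => (n a).size) :=
  (UPoly.length (Poly.natBits hn)).congr fun a => by simp only [Nat.size_eq_bits_len]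

theorem sz2 {x m : ℕ} (h : x ≤ m) : sz x ≤ 2 * sz m := sz_nat_mono_le h

end Helpers

attribute [fun_prop] Poly.iadd Poly.isub Poly.imul Poly.ineg Poly.ilt Poly.ile Poly.idiv
  Poly.natAbs

section

variable {α : Type} [TEnc α]

theorem egStep_poly : Poly (fun p : ℕ × ℕ × ℕ × ℕ × ℕ => egStep p.1 p.2) := by
  unfold egStep
  fun_prop

theorem eg_poly {m u : α → ℕ} (hm : Poly m) (hu : Poly u) : Poly (fun a => eg (m a) (u a)) := by
  have h1 : Poly (fun a => (egStep (m a))^[2 * (m a).size + 1]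
      (m a, u a % max (m a) 1, 0, 1 % max (m a) 1)) := by
    apply iterU (F := fun a s => egStep (m a) s) (b := m)
      (((UPoly.const 2).mul (uSize hm)).add (UPoly.const 1)) (by fun_prop)
      (egStep_poly.comp (f := fun p : α × ℕ × ℕ × ℕ × ℕ => (m p.1, p.2)) (by fun_prop)) hm 11
    intro a k _
    have h := eg_bound (m a) (u a) k
    simp only at h
    obtain ⟨h1, h2, h3, h4⟩ := h
    generalize (egStep (m a))^[k] (m a, u a % max (m a) 1, 0, 1 % max (m a) 1) = s at h1 h2 h3 h4 ⊢
    obtain ⟨s1, s2, s3, s4⟩ := s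
    simp only at h1 h2 h3 h4
    have := sz2 h1
    have := sz2 h2
    have := sz2 h3
    have := sz2 h4
    have := sz_pos (m a)
    simp only [sz_pair]
    omega
  exact (Poly.pair (Poly.fst h1) (Poly.fst (Poly.snd (Poly.snd h1)))).congr fun a => rfl

theorem bsStep_le (P : ℕ → Bool) (s : ℕ × ℕ) : (bsStep P s).1 + (bsStep P s).2 ≤ s.1 + s.2 := by
  unfold bsStep
  split_ifs <;> simp only <;> omega

theorem bs_poly {P : α → ℕ → Bool} {b : α → ℕ} (hP : Poly (fun p : α × ℕ => P p.1 p.2))
    (hb : UPoly b) : Poly (fun a => bs (P a) (b a)) := by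
  have hpow : Poly (fun a => 2 ^ b a) := Poly.npow (Poly.const 2) hb
  have hF : Poly (fun p : α × ℕ × ℕ => bsStep (P p.1) p.2) := by
    unfold bsStep
    have h1 : Poly (fun p : α × ℕ × ℕ => P p.1 (p.2.1 + p.2.2 / 2)) :=
      hP.comp (f := fun p : α × ℕ × ℕ => (p.1, p.2.1 + p.2.2 / 2)) (by fun_prop)
    exact Poly.pair (Poly.ite (Poly.decide_bool h1) (by fun_prop) (by fun_prop)) (by fun_prop)
  have h1 : Poly (fun a => (bsStep (P a))^[b a] (0, 2 ^ b a)) := by
    apply iterU (F := fun a s => bsStep (P a) s) (b := fun a => 2 ^ b a) hb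
      (Poly.pair (Poly.const 0) hpow) hF hpow 5
    intro a k _
    have key : ∀ k, ((bsStep (P a))^[k] (0, 2 ^ b a)).1 + ((bsStep (P a))^[k] (0, 2 ^ b a)).2 ≤
        2 ^ b a := by
      intro k
      induction k with
      | zero => simp
      | succ k ih =>
        rw [Function.iterate_succ_apply']
        exact (bsStep_le _ _).trans ih
    have h := key k
    generalize (bsStep (P a))^[k] (0, 2 ^ b a) = s at h ⊢
    obtain ⟨s1, s2⟩ := s
    simp only at h
    have := sz2 (show s1 ≤ 2 ^ b a by omega)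
    have := sz2 (show s2 ≤ 2 ^ b a by omega)
    have := sz_pos (2 ^ b a)
    simp only [sz_pair]
    omega
  exact Poly.fst h1

theorem qmul_poly {q m : α → ℕ} {x y : α → ℕ × ℕ} (hq : Poly q) (hm : Poly m) (hx : Poly x)
    (hy : Poly y) : Poly (fun a => qmul (q a) (m a) (x a) (y a)) := by
  unfold qmul
  fun_prop

theorem qmul_le (q m : ℕ) (x y : ℕ × ℕ) : (qmul q m x y).1 ≤ max q 1 ∧ (qmul q m x y).2 ≤ max q 1 := by
  have h : max q 1 > 0 := by omega
  exact ⟨(Nat.mod_lt _ h).le, (Nat.mod_lt _ h).le⟩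

theorem qpow_poly {q m : α → ℕ} {g : α → ℕ × ℕ} {e : α → List Bool} (hq : Poly q) (hm : Poly m)
    (hg : Poly g) (he : Poly e) : Poly (fun a => qpow (q a) (m a) (g a) (e a)) := by
  unfold qpow
  have hb : Poly (fun a => max (q a) 1) := by fun_prop
  apply foldrU (F := fun a b acc => if b then qmul (q a) (m a) (qmul (q a) (m a) acc acc) (g a)
    else qmul (q a) (m a) acc acc) (b := fun a => max (q a) 1) he (by fun_prop) ?_ hb 5
  · intro a k _
    have key : ∀ l : List Bool,
        (l.foldr (fun b acc => if b then qmul (q a) (m a) (qmul (q a) (m a) acc acc) (g a)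
          else qmul (q a) (m a) acc acc) (1 % max (q a) 1, 0)).1 ≤ max (q a) 1 ∧
        (l.foldr (fun b acc => if b then qmul (q a) (m a) (qmul (q a) (m a) acc acc) (g a)
          else qmul (q a) (m a) acc acc) (1 % max (q a) 1, 0)).2 ≤ max (q a) 1 := by
      intro l
      cases l with
      | nil =>
        have h : max (q a) 1 > 0 := by omega
        exact ⟨(Nat.mod_lt _ h).le, Nat.zero_le _⟩
      | cons b l =>
        rw [List.foldr_cons]
        split_ifs
        · exact qmul_le _ _ _ _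
        · exact qmul_le _ _ _ _
    have h := key ((e a).drop k)
    generalize (((e a).drop k).foldr (fun b acc => if b then
      qmul (q a) (m a) (qmul (q a) (m a) acc acc) (g a)
          else qmul (q a) (m a) acc acc) (1 % max (q a) 1, 0)) = s at h ⊢
    obtain ⟨s1, s2⟩ := s
    simp only at h
    have := sz2 h.1
    have := sz2 h.2
    have := sz_pos (max (q a) 1)
    simp only [sz_pair]
    omega
  · have h1 : Poly (fun p : α × Bool × ℕ × ℕ => qmul (q p.1) (m p.1) p.2.2 p.2.2) :=
      qmul_poly (by fun_prop) (by fun_prop) (by fun_prop) (by fun_prop)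
    have h2 : Poly (fun p : α × Bool × ℕ × ℕ => qmul (q p.1) (m p.1)
        (qmul (q p.1) (m p.1) p.2.2 p.2.2) (g p.1)) :=
      qmul_poly (by fun_prop) (by fun_prop) h1 (by fun_prop)
    exact Poly.ite (Poly.decide_bool (by fun_prop)) h2 h1

theorem plist_poly {w : α → ℕ} (hw : UPoly w) : Poly (fun a => plist (w a)) := by
  have hr : Poly (fun a => List.range (w a + 1)) := (hw.add (UPoly.const 1)).range
  have h : Poly (fun R : List ℕ => R.filter fun p => decide (2 ≤ p) &&
      R.all fun d => decide (d < 2) || decide (p ≤ d) || !decide (p % d = 0)) := by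
    fun_prop
  exact h.comp hr

theorem t0_poly {n k : α → ℕ} (hn : Poly n) (hk : UPoly k) : Poly (fun a => t0 (n a) (k a)) := by
  have hpow : Poly (fun a => 3 ^ (k a + 1)) := Poly.npow (Poly.const 3) (hk.add (UPoly.const 1))
  unfold t0
  apply iterU (F := fun a s => t0Step (3 ^ (k a + 1)) (24 * n a) s)
    (b := fun a => 3 ^ (k a + 1)) hk (Poly.const 1) ?_ hpow 2
  · intro a j _
    apply sz2
    cases j with
    | zero =>
      simp only [Function.iterate_zero, id_eq]
      exact Nat.one_le_pow _ _ (by norm_num)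
    | succ j =>
      rw [Function.iterate_succ_apply']
      exact (Nat.mod_lt _ (by positivity)).le
  · have h : Poly (fun p : ℕ × ℕ × ℕ => t0Step p.1 p.2.1 p.2.2) := by
      unfold t0Step
      have h3 : Poly (fun p : ℕ × ℕ × ℕ => p.2.2 ^ 3) :=
        Poly.npow (by fun_prop) (UPoly.const 3)
      fun_prop
    exact h.comp (f := fun p : α × ℕ => (3 ^ (k p.1 + 1), 24 * n p.1, p.2))
      (Poly.pair (hpow.comp (Poly.fst Poly.id)) (by fun_prop))

end

end Pool.Agent.NPC.R591
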