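import Pool.Agent.H591R2.Tet
import Pool.Agent.H591R2.ThreeSq

/-!
# The quadratic family of three-square problems attached to `n`
-/

namespace Pool.Agent.H591R2

/-- a pair of tetrahedral numbers with given sum and difference of the (shifted) indices -/
theorem pair_tet {s d : ℕ} (h : d ≤ s) (hp : s % 2 = d % 2) :
    (24 : ℤ) * (tet ((s + d) / 2 - 1) + tet ((s - d) / 2 - 1)) = s ^ 3 + 3 * s * d ^ 2 - 4 * s := by
  have h1 := six_tet_pred ((s + d) / 2)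
  have h2 := six_tet_pred ((s - d) / 2)
  have e1 : ((s + d) / 2 : ℕ) * 2 = s + d := Nat.div_mul_cancel (by omega)
  have e2 : ((s - d) / 2 : ℕ) * 2 = s - d := Nat.div_mul_cancel (by omega)
  set x := (s + d) / 2
  set y := (s - d) / 2
  have f1 : (s : ℤ) = x + y := by omega
  have f2 : (d : ℤ) = x - y := by omega
  have : (24 : ℤ) * (tet (x - 1) + tet (y - 1)) = 4 * (6 * tet (x - 1)) + 4 * (6 * tet (y - 1)) := by
    ring
  rw [this, h1, h2, f1, f2]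
  ring

/-- the list of indices built from the parameters -/
def mk (s t d d₁ d₂ d₃ : ℕ) : List ℕ :=
  [(s + d₁) / 2 - 1, (s - d₁) / 2 - 1, (s + d₂) / 2 - 1, (s - d₂) / 2 - 1,
    (s + d₃) / 2 - 1, (s - d₃) / 2 - 1, (t + d) / 2 - 1, (t - d) / 2 - 1]

theorem mk_sum {n s t d d₁ d₂ d₃ : ℕ} (h1 : d₁ ≤ s) (h2 : d₂ ≤ s) (h3 : d₃ ≤ s) (hd : d ≤ t)
    (p1 : s % 2 = d₁ % 2) (p2 : s % 2 = d₂ % 2) (p3 : s % 2 = d₃ % 2) (pd : t % 2 = d % 2)
    (h : (24 : ℤ) * n = 3 * s * (s ^ 2 - 4 + (d₁ ^ 2 + d₂ ^ 2 + d₃ ^ 2)) +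
      t * (t ^ 2 - 4 + 3 * d ^ 2)) : ((mk s t d d₁ d₂ d₃).map tet).sum = n := by
  have e1 := pair_tet h1 p1
  have e2 := pair_tet h2 p2
  have e3 := pair_tet h3 p3
  have e4 := pair_tet hd pd
  have : (24 : ℤ) * (((mk s t d d₁ d₂ d₃).map tet).sum : ℕ) = 24 * n := by
    rw [h]
    simp only [mk, List.map_cons, List.map_nil, List.sum_cons, List.sum_nil]
    push_cast
    linarith
  have h24 : (24 : ℤ) ≠ 0 := by norm_num
  exact_mod_cast mul_left_cancel₀ h24 this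

/-- properties of the members of the family -/
theorem fam {n s σ t e : ℕ} {m : ℤ} (hn : 1 ≤ n) (hs : s = σ ^ 2) (hσ : σ % 2 = 1)
    (hm : (3 : ℤ) * s * (s ^ 2 - 4 + m + t * e ^ 2) = 24 * n - t ^ 3 + 4 * t)
    (he : t % 2 = e % 2) (hm0 : 0 < m) (ht : 7 * n ≤ t ^ 3) (htn : t ≤ n) :
    m % 8 = 3 ∧ σ * e ≤ t ∧ t % 2 = (σ * e) % 2 := by
  have hpar : t % 2 = (σ * e) % 2 := by
    rw [Nat.mul_mod, hσ, one_mul, Nat.mod_mod, he]
  have hs1 : 1 ≤ s := by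
    rw [hs]; exact Nat.one_le_pow _ _ (by omega)
  have h3 : (1 : ℤ) ≤ (s : ℤ) ^ 2 := by
    have : (1 : ℤ) ≤ s := by exact_mod_cast hs1
    nlinarith
  have hsodd : s % 8 = 1 := by
    rw [hs]
    have : σ % 8 = 1 ∨ σ % 8 = 3 ∨ σ % 8 = 5 ∨ σ % 8 = 7 := by omega
    rcases this with h | h | h | h <;> simp [Nat.pow_mod, h]
  have hse : (s : ℤ) = (σ : ℤ) ^ 2 := by rw [hs]; push_cast; ring
  -- size of `σ e`
  have key : σ * e ≤ t ∧ m % 8 = 3 := by
    -- first a weak form: `m ≥ 1` suffices for `s ^ 2 - 4 + m ≥ -2`; treat `σ = 1` separately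
    have h4 : 3 * (s : ℤ) * (t * e ^ 2) = 24 * n - t ^ 3 + 4 * t - 3 * s * (s ^ 2 - 4 + m) := by
      linarith
    have hle : σ * e ≤ t := by
      by_contra hc
      push Not at hc
      have hc' : (t : ℤ) + 1 ≤ σ * e := by exact_mod_cast hc
      have ht0 : (0 : ℤ) ≤ t := by positivity
      have h5 : ((t : ℤ) + 1) ^ 2 ≤ s * e ^ 2 := by
        rw [hse]
        have : (σ : ℤ) ^ 2 * e ^ 2 = (σ * e) ^ 2 := by ring
        rw [this]
        exact pow_le_pow_left₀ (by positivity) hc' 2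
      have h6 : 3 * (t : ℤ) * (t + 1) ^ 2 ≤ 24 * n - t ^ 3 + 4 * t - 3 * s * (s ^ 2 - 4 + m) := by
        rw [← h4]; nlinarith
      have h7 : 7 * (n : ℤ) ≤ (t : ℤ) ^ 3 := by exact_mod_cast ht
      have h8 : (t : ℤ) ≤ n := by exact_mod_cast htn
      have h9 : -6 * (s : ℤ) ≤ 3 * s * (s ^ 2 - 4 + m) := by
        have : (-2 : ℤ) ≤ s ^ 2 - 4 + m := by linarith
        have hs0 : (0 : ℤ) ≤ s := by positivity
        nlinarith
      -- use `s ^ 3` dominating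
      rcases eq_or_lt_of_le hs1 with h1 | h1
      · have hs' : (s : ℤ) = 1 := by exact_mod_cast h1.symm
        rw [hs'] at h6
        have ht2 : (2 : ℤ) ≤ t := by
          by_contra hc
          push Not at hc
          have h10 : t ≤ 1 := by
            have : (t : ℤ) ≤ 1 := by omega
            exact_mod_cast this
          interval_cases t <;> omega
        nlinarith
      · have hs' : (2 : ℤ) ≤ s := by exact_mod_cast h1
        have h10 : (0 : ℤ) ≤ 3 * s * (s ^ 2 - 4 + m) := by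
          have : (0 : ℤ) ≤ s ^ 2 - 4 + m := by nlinarith
          positivity
        nlinarith
    refine ⟨hle, ?_⟩
    have hp := pair_tet hle hpar
    push_cast at hp
    have h5 : (s : ℤ) * (s ^ 2 - 4 + m) = 8 * (n - (tet ((t + σ * e) / 2 - 1)
        + tet ((t - σ * e) / 2 - 1))) := by
      have e2 : (t : ℤ) ^ 3 + 3 * t * (σ * e) ^ 2 - 4 * t = t ^ 3 - 4 * t + 3 * s * (t * e ^ 2) := by
        rw [hse]; ring
      rw [e2] at hp
      linarith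
    set N : ℤ := n - (tet ((t + σ * e) / 2 - 1) + tet ((t - σ * e) / 2 - 1))
    have h6 : (s : ℤ) % 8 = 1 := by exact_mod_cast hsodd
    have h7 : (s * (s ^ 2 - 4 + m)) % 8 = 0 := by rw [h5]; simp
    have h8 : ((s : ℤ) * (s ^ 2 - 4 + m)) % 8 = (1 - 4 + m) % 8 := by
      have : (s : ℤ) * (s ^ 2 - 4 + m) ≡ 1 * (1 ^ 2 - 4 + m) [ZMOD 8] := by
        have hs8 : (s : ℤ) ≡ 1 [ZMOD 8] := h6
        gcongr
      simpa [Int.ModEq] using this
    omega
  exact ⟨key.2, key.1, hpar⟩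

/-- Odd squares adding to `m = 3 mod 8`. -/
theorem odd_of_sum {m x y z : ℤ} (hm : m % 8 = 3) (h : x ^ 2 + y ^ 2 + z ^ 2 = m) :
    x % 2 = 1 ∧ y % 2 = 1 ∧ z % 2 = 1 := by
  have key : ∀ w : ℤ, (w % 2 = 0 ∧ w ^ 2 % 4 = 0) ∨ (w % 2 = 1 ∧ w ^ 2 % 8 = 1) := by
    intro w
    rcases Int.emod_two_eq_zero_or_one w with hw | hw
    · left
      refine ⟨hw, ?_⟩
      obtain ⟨v, rfl⟩ : ∃ v, w = 2 * v := ⟨w / 2, by omega⟩
      have : (2 * v) ^ 2 = 4 * v ^ 2 := by ring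
      rw [this]; simp
    · right
      refine ⟨hw, ?_⟩
      have : w % 8 = 1 ∨ w % 8 = 3 ∨ w % 8 = 5 ∨ w % 8 = 7 := by omega
      rcases this with h | h | h | h <;> simp [pow_two, Int.mul_emod, h]
  have hx := key x
  have hy := key y
  have hz := key z
  omega

theorem natAbs_odd (w : ℤ) (hw : w % 2 = 1) : w.natAbs % 2 = 1 := by
  have h := Int.natAbs_odd (n := w)
  rw [Nat.odd_iff, Int.odd_iff] at h
  exact h.2 hw

/-- the family yields representations -/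
theorem fam_rep {n s σ t e : ℕ} {m : ℤ} (hn : 1 ≤ n) (hs : s = σ ^ 2) (hσ : σ % 2 = 1)
    (hm : (3 : ℤ) * s * (s ^ 2 - 4 + m + t * e ^ 2) = 24 * n - t ^ 3 + 4 * t)
    (he : t % 2 = e % 2) (hm0 : 0 < m) (hm1 : m ≤ s ^ 2) (ht : 7 * n ≤ t ^ 3) (htn : t ≤ n)
    {x y z : ℤ} (h : x ^ 2 + y ^ 2 + z ^ 2 = m) :
    IsRep n ((mk s t (σ * e) x.natAbs y.natAbs z.natAbs).filter (fun m => 1 ≤ m)) := by
  obtain ⟨h1, h2, h3⟩ := fam hn hs hσ hm he hm0 ht htn
  obtain ⟨px, py, pz⟩ := odd_of_sum h1 h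
  have hsodd : s % 2 = 1 := by rw [hs, Nat.pow_mod, hσ]
  have hle : ∀ w : ℤ, w ^ 2 ≤ m → w.natAbs ≤ s := by
    intro w hw
    have : w ^ 2 ≤ (s : ℤ) ^ 2 := hw.trans hm1
    have h4 := abs_le_of_sq_le_sq this (by positivity)
    rw [Int.abs_eq_natAbs] at h4
    exact_mod_cast h4
  have hpar : ∀ w : ℤ, w % 2 = 1 → s % 2 = w.natAbs % 2 := by
    intro w hw
    rw [hsodd, natAbs_odd w hw]
  refine isRep_filter hn (by simp [mk]) (mk_sum (hle x ?_) (hle y ?_) (hle z ?_) h2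
    (hpar x px) (hpar y py) (hpar z pz) h3 ?_)
  · nlinarith [sq_nonneg y, sq_nonneg z]
  · nlinarith [sq_nonneg x, sq_nonneg z]
  · nlinarith [sq_nonneg x, sq_nonneg y]
  · push_cast
    rw [sq_abs, sq_abs, sq_abs, h]
    have hse : (s : ℤ) = (σ : ℤ) ^ 2 := by rw [hs]; push_cast; ring
    have : (3 : ℤ) * s * (s ^ 2 - 4 + m) + t * (t ^ 2 - 4 + 3 * (σ * e) ^ 2)
      = 3 * s * (s ^ 2 - 4 + m + t * e ^ 2) + t ^ 3 - 4 * t := by rw [hse]; ring
    linarith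

/-- the `3`-adic iteration -/
theorem hensel (c : ℤ) (hc : 3 ∣ c) (k : ℕ) :
    ∃ t : ℤ, t % 3 = 1 ∧ (3 : ℤ) ^ (k + 1) ∣ t ^ 3 - 4 * t - c := by
  induction k with
  | zero =>
    refine ⟨1, by norm_num, ?_⟩
    simp only [zero_add, pow_one]
    omega
  | succ k ih =>
    obtain ⟨t, ht, h⟩ := ih
    obtain ⟨c', hc'⟩ := hc
    refine ⟨t ^ 3 - 3 * t - c, ?_, ?_⟩
    · have h3 : t ^ 3 % 3 = 1 := by simp [pow_succ, Int.mul_emod, ht]
      omega
    · have e : (t ^ 3 - 3 * t - c) ^ 3 - 4 * (t ^ 3 - 3 * t - c) - c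
        = (t ^ 3 - 4 * t - c) * (3 * (t ^ 2 - 1 + t * (t ^ 3 - 4 * t - c)) +
          (t ^ 3 - 4 * t - c) ^ 2) := by ring
      rw [e, pow_succ (3 : ℤ) (k + 1)]
      apply mul_dvd_mul h
      apply dvd_add (dvd_mul_right _ _)
      have : (3 : ℤ) ∣ t ^ 3 - 4 * t - c := (dvd_pow_self 3 (by omega)).trans h
      exact this.trans (dvd_pow_self _ (by norm_num))

end Pool.Agent.H591R2
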