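import Pool.Agent.H591R2.Numeric

/-!
# Many auxiliary primes on average over the family
-/

namespace Pool.Agent.H591R2

open Finset Real Filter Topology

/-- the auxiliary primes -/
def PK (K : ℕ) : Finset ℕ := (Ioo (2 ^ (640 * K)) (2 ^ (2000 * K))).filter Nat.Prime

theorem PK_card (K : ℕ) (hK : 1 ≤ K) : (2 : ℝ) ^ (2000 * K) ≤ 4000 * K * #(PK K) := by
  have h1 : Nat.primeCounting (2 ^ (2000 * K)) ≤ #(PK K) + (2 ^ (640 * K) + 2) := by
    rw [← Nat.primesLE_card_eq_primeCounting]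
    have h2 : Nat.primesLE (2 ^ (2000 * K)) ⊆ PK K ∪ (range (2 ^ (640 * K) + 1) ∪
        {2 ^ (2000 * K)}) := by
      intro p hp
      rw [Nat.mem_primesLE] at hp
      rw [mem_union, mem_union, PK, mem_filter, mem_Ioo, mem_range, mem_singleton]
      by_cases h : p ≤ 2 ^ (640 * K)
      · right; left; omega
      · by_cases h' : p = 2 ^ (2000 * K)
        · right; right; exact h'
        · left
          exact ⟨⟨by omega, lt_of_le_of_ne hp.1 h'⟩, hp.2⟩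
    calc #(Nat.primesLE (2 ^ (2000 * K))) ≤ _ := card_le_card h2
      _ ≤ #(PK K) + (#(range (2 ^ (640 * K) + 1)) + #({2 ^ (2000 * K)} : Finset ℕ)) :=
          (card_union_le _ _).trans (Nat.add_le_add_left (card_union_le _ _) _)
      _ = _ := by rw [card_range, card_singleton]
  have h2 := Chebyshev.pi_ge (2 ^ (2000 * K))
  have hlog2 : 0 < log 2 := log_pos (by norm_num)
  have hK0 : (0 : ℝ) < K := by exact_mod_cast hK
  have hlogx : log ((2 ^ (2000 * K) : ℕ) : ℝ) = 2000 * K * log 2 := by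
    push_cast; rw [log_pow]; push_cast; ring
  have hx1 : (1 : ℝ) ≤ (2 : ℝ) ^ (2000 * K) := one_le_pow₀ (by norm_num)
  have hlogx1 : log (((2 ^ (2000 * K) : ℕ) : ℝ) + 1) ≤ 2 * (2000 * K * log 2) := by
    rw [← hlogx]
    push_cast
    rw [← Nat.cast_ofNat (R := ℝ), ← log_pow]
    apply log_le_log (by positivity)
    push_cast
    have : (2 : ℝ) ≤ (2 : ℝ) ^ (2000 * K) := by
      calc (2 : ℝ) = 2 ^ 1 := by norm_num
        _ ≤ 2 ^ (2000 * K) := pow_le_pow_right₀ (by norm_num) (by omega)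
    nlinarith
  have h3 : (2 : ℝ) ^ (2000 * K) / (2000 * K) - 2 ≤ Nat.primeCounting (2 ^ (2000 * K)) := by
    refine le_trans ?_ h2
    rw [hlogx, le_div_iff₀ (by positivity)]
    push_cast at hlogx1 ⊢
    have : ((2 : ℝ) ^ (2000 * K) / (2000 * K) - 2) * (2000 * K * log 2) =
        2 ^ (2000 * K) * log 2 - 2 * (2000 * K * log 2) := by field_simp
    rw [this]
    linarith
  have h4 : (Nat.primeCounting (2 ^ (2000 * K)) : ℝ) ≤ #(PK K) + (2 ^ (640 * K) + 2) := by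
    exact_mod_cast h1
  have h5 : 4000 * K * (2 ^ (640 * K) + 4) ≤ 2 ^ (2000 * K) := by
    have h6 : 4000 * K ≤ 2 ^ 12 * 2 ^ K := by
      have : K < 2 ^ K := Nat.lt_two_pow_self
      nlinarith
    have h7 : 2 ^ (640 * K) + 4 ≤ 2 * 2 ^ (640 * K) := by
      have : 4 ≤ 2 ^ (640 * K) := by
        calc 4 = 2 ^ 2 := by norm_num
          _ ≤ 2 ^ (640 * K) := Nat.pow_le_pow_right (by norm_num) (by omega)
      omega
    calc 4000 * K * (2 ^ (640 * K) + 4) ≤ (2 ^ 12 * 2 ^ K) * (2 * 2 ^ (640 * K)) :=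
          Nat.mul_le_mul h6 h7
      _ = 2 ^ (12 + K + 1 + 640 * K) := by
          rw [show (2 : ℕ) ^ 12 * 2 ^ K * (2 * 2 ^ (640 * K)) =
            2 ^ 12 * 2 ^ K * (2 ^ 1 * 2 ^ (640 * K)) by norm_num]
          rw [← pow_add, ← pow_add, ← pow_add]
          congr 1; ring
      _ ≤ 2 ^ (2000 * K) := Nat.pow_le_pow_right (by norm_num) (by omega)
  have h6 : (4000 : ℝ) * K * (2 ^ (640 * K) + 4) ≤ 2 ^ (2000 * K) := by exact_mod_cast h5
  have h7 : (2 : ℝ) ^ (2000 * K) / (2000 * K) - 2 ≤ #(PK K) + (2 ^ (640 * K) + 2) := h3.trans h4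
  have h8 : (4000 : ℝ) * K * (2 ^ (2000 * K) / (2000 * K) - 2) ≤
      4000 * K * (#(PK K) + (2 ^ (640 * K) + 2)) := mul_le_mul_of_nonneg_left h7 (by positivity)
  have h9 : (4000 : ℝ) * K * (2 ^ (2000 * K) / (2000 * K) - 2) =
      2 * 2 ^ (2000 * K) - 8000 * K := by field_simp; ring
  rw [h9] at h8
  nlinarith

theorem eventually_small : ∀ᶠ K : ℕ in atTop, (256 * log 4 / log ((2 * K : ℕ) : ℝ) +
    64 / sqrt ((2 * K : ℕ) : ℝ)) + 8 * ((K : ℝ) / 2 ^ K) ≤ 1 / 4000 := by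
  have h2K : Tendsto (fun K : ℕ => ((2 * K : ℕ) : ℝ)) atTop atTop :=
    tendsto_natCast_atTop_atTop.comp (tendsto_id.const_mul_atTop' (by norm_num))
  have h1 : Tendsto (fun K : ℕ => 256 * log 4 / log ((2 * K : ℕ) : ℝ)) atTop (𝓝 0) :=
    (tendsto_log_atTop.comp h2K).const_div_atTop _
  have h2 : Tendsto (fun K : ℕ => 64 / sqrt ((2 * K : ℕ) : ℝ)) atTop (𝓝 0) :=
    (tendsto_sqrt_atTop.comp h2K).const_div_atTop _
  have h3 : Tendsto (fun K : ℕ => 8 * ((K : ℝ) / 2 ^ K)) atTop (𝓝 (8 * 0)) := by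
    apply Tendsto.const_mul
    have := tendsto_pow_const_div_const_pow_of_one_lt 1 (r := (2 : ℝ)) (by norm_num)
    simpa using this
  have h4 := (h1.add h2).add h3
  simp only [mul_zero, add_zero] at h4
  exact (h4.eventually (ge_mem_nhds (by norm_num : (0 : ℝ) < 1 / 4000)))

theorem coprime_of_primeFactors {W : ℤ} {d w : ℕ} (hd : Odd d) (hd0 : d ≠ 0)
    (hdw : ∀ p ∈ d.primeFactors, w < p)
    (hW : ∀ p : ℕ, p.Prime → (p : ℤ) ∣ W → p ≤ w ∨ p = 2) : IsCoprime W (d : ℤ) := by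
  rw [Int.isCoprime_iff_gcd_eq_one]
  by_contra hc
  obtain ⟨p, hp, hpd⟩ := Nat.exists_prime_and_dvd hc
  have h1 : (p : ℤ) ∣ W := (Int.natCast_dvd_natCast.2 hpd).trans (Int.gcd_dvd_left _ _)
  have h2 : p ∣ d := by
    have : (p : ℤ) ∣ (d : ℤ) := (Int.natCast_dvd_natCast.2 hpd).trans (Int.gcd_dvd_right _ _)
    exact_mod_cast this
  rcases hW p hp h1 with h | h
  · have := hdw p (Nat.mem_primeFactors.2 ⟨hp, h2, hd0⟩)
    omega
  · subst h
    exact (Nat.not_odd_iff_even.2 (even_iff_two_dvd.2 h2)) hd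

/-- The main analytic statement: on average over the members of the family, a proportion at
least `1 / (8000 K)` of the pairs (residue, integer below `2 ^ (2000 K)`) is good. -/
theorem many_pairs : ∃ K₀ : ℕ, ∀ K ≥ K₀, ∀ (m : ℕ → ℕ) (t C e W : ℤ),
    (∀ f ∈ range (2 ^ (100 * K)), (m f : ℤ) = C - t * (e + W * f) ^ 2 ∧ Odd (m f) ∧
      m f ≤ 2 ^ (640 * K) ∧ (∀ p ∈ (m f).primeFactors, 2 * K < p) ∧ IsCoprime t (m f : ℤ)) →
    (∀ p : ℕ, p.Prime → (p : ℤ) ∣ W → p ≤ 2 * K ∨ p = 2) →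
    2 ^ (100 * K) * 2 ^ (2000 * K) ≤ 8000 * K *
      ∑ f ∈ range (2 ^ (100 * K)), ∑ q ∈ PK K, sol (m f) 1 (-(2 * (q : ℤ))) := by
  obtain ⟨K₁, hK₁⟩ := eventually_atTop.1 eventually_small
  refine ⟨max K₁ (2 ^ 31), fun K hK m t C e W hm hW => ?_⟩
  have hKK : K₁ ≤ K := (le_max_left _ _).trans hK
  have hK31 : 2 ^ 31 ≤ K := (le_max_right _ _).trans hK
  have hK1 : 1 ≤ K := le_trans (by norm_num) hK31
  have hw : 2 ^ 32 ≤ 2 * K := by omega
  set F := 2 ^ (100 * K) with hF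
  set Y := 2 ^ (640 * K) with hY
  set x := 2 ^ (2000 * K) with hx
  set B := 2 ^ (20 * K) with hB
  have hF1 : 1 ≤ F := Nat.one_le_two_pow
  have hB32 : Y ≤ B ^ 32 := by
    rw [hB, hY, ← pow_mul]
    exact Nat.pow_le_pow_right (by norm_num) (by omega)
  have hYx : Y ^ 3 ≤ x := by
    rw [hx, hY, ← pow_mul]
    exact Nat.pow_le_pow_right (by norm_num) (by omega)
  have hN : ∀ d ∈ Dset (2 * K) Y t, Nd F m d ≤ 2 ^ d.primeFactors.card * (F / d + 1) := by
    intro d hd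
    rw [Dset, mem_filter, mem_Icc] at hd
    apply count_le hd.2.1 (Int.isCoprime_iff_gcd_eq_one.2 hd.2.2.2.2)
      (coprime_of_primeFactors hd.2.2.1 (by omega) hd.2.2.2.1 hW) (C := C) (e := e)
    intro f hf
    exact (hm f hf).1
  have hsm := second_moment (t := t) (m := m) (w := 2 * K) (Y := Y) (B := B) (F := F) hw hB32 hF1
    (fun f hf h => by have := (hm f hf).2.1; rw [h] at this; simp at this)
    (fun f hf => (hm f hf).2.2.1) (fun f hf => (hm f hf).2.2.2.1) hN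
  have hPK := PK_card K hK1
  have hK0 : (0 : ℝ) < K := by exact_mod_cast hK1
  have hF0 : (0 : ℝ) < F := by exact_mod_cast hF1
  have hlog : 0 < log ((2 * K : ℕ) : ℝ) := log_pos (by exact_mod_cast (by omega : 1 < 2 * K))
  have hsq : 0 < sqrt ((2 * K : ℕ) : ℝ) := sqrt_pos.2 (by exact_mod_cast (by omega : 0 < 2 * K))
  have hmain : 8 * x * ∑ d ∈ Dset (2 * K) Y t, Nd F m d ^ 2 ≤ F ^ 2 * #(PK K) := by
    have h1 : (8 : ℝ) * x * ∑ d ∈ Dset (2 * K) Y t, (Nd F m d : ℝ) ^ 2 ≤ (F : ℝ) ^ 2 * #(PK K) := by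
      have h2 : (8 : ℝ) * x * ∑ d ∈ Dset (2 * K) Y t, (Nd F m d : ℝ) ^ 2 ≤
          (F : ℝ) ^ 2 * (x * (8 * (16 * (4 * log 4 / (((2 * K : ℕ) : ℝ) * log ((2 * K : ℕ) : ℝ))) +
            16 / (((2 * K : ℕ) : ℝ) * sqrt ((2 * K : ℕ) : ℝ)) + (B : ℝ) ^ 2 / F))) := by
        calc (8 : ℝ) * x * ∑ d ∈ Dset (2 * K) Y t, (Nd F m d : ℝ) ^ 2
            ≤ 8 * x * _ := mul_le_mul_of_nonneg_left hsm (by positivity)
          _ = _ := by ring
      refine h2.trans (mul_le_mul_of_nonneg_left ?_ (by positivity))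
      have h3 : (8 : ℝ) * (16 * (4 * log 4 / (((2 * K : ℕ) : ℝ) * log ((2 * K : ℕ) : ℝ))) +
            16 / (((2 * K : ℕ) : ℝ) * sqrt ((2 * K : ℕ) : ℝ)) + (B : ℝ) ^ 2 / F) ≤
            1 / (4000 * K) := by
        have h4 := hK₁ K hKK
        have h5 : (B : ℝ) ^ 2 / F ≤ 1 / 2 ^ K := by
          rw [hB, hF]; push_cast
          rw [div_le_div_iff₀ (by positivity) (by positivity), one_mul, ← pow_mul, ← pow_add]
          exact pow_le_pow_right₀ (by norm_num) (by omega)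
        have h6 : (8 : ℝ) * (16 * (4 * log 4 / (((2 * K : ℕ) : ℝ) * log ((2 * K : ℕ) : ℝ))) +
            16 / (((2 * K : ℕ) : ℝ) * sqrt ((2 * K : ℕ) : ℝ)) + (B : ℝ) ^ 2 / F) ≤
            (1 / K) * ((256 * log 4 / log ((2 * K : ℕ) : ℝ) +
              64 / sqrt ((2 * K : ℕ) : ℝ)) + 8 * ((K : ℝ) / 2 ^ K)) := by
          have e1 : (8 : ℝ) * (16 * (4 * log 4 / (((2 * K : ℕ) : ℝ) * log ((2 * K : ℕ) : ℝ))) +
            16 / (((2 * K : ℕ) : ℝ) * sqrt ((2 * K : ℕ) : ℝ)) + 1 / 2 ^ K) =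
            (1 / K) * ((256 * log 4 / log ((2 * K : ℕ) : ℝ) +
              64 / sqrt ((2 * K : ℕ) : ℝ)) + 8 * ((K : ℝ) / 2 ^ K)) := by
            set lg := log ((2 * K : ℕ) : ℝ)
            set sq := sqrt ((2 * K : ℕ) : ℝ)
            push_cast
            field_simp
            ring
          rw [← e1]
          linarith
        refine h6.trans ?_
        calc (1 / (K : ℝ)) * _ ≤ (1 / K) * (1 / 4000) :=
              mul_le_mul_of_nonneg_left h4 (by positivity)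
          _ = 1 / (4000 * K) := by field_simp
      calc (x : ℝ) * _ ≤ x * (1 / (4000 * K)) := mul_le_mul_of_nonneg_left h3 (by positivity)
        _ ≤ #(PK K) := by
            rw [mul_one_div, div_le_iff₀ (by positivity)]
            rw [hx]; push_cast
            linarith
    exact_mod_cast h1
  have hav := average hYx (fun f hf => (hm f hf).2.1) (fun f hf => (hm f hf).2.2.1)
    (fun f hf => (hm f hf).2.2.2.1) (fun f hf => (hm f hf).2.2.2.2) (PK K)
    (fun q hq => by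
      rw [PK, mem_filter, mem_Ioo] at hq
      exact ⟨hq.2, hq.1.1, hq.1.2⟩) hmain
  have hPKn : x ≤ 4000 * K * #(PK K) := by exact_mod_cast hPK
  calc F * x ≤ F * (4000 * K * #(PK K)) := Nat.mul_le_mul_left _ hPKn
    _ = 4000 * K * (F * #(PK K)) := by ring
    _ ≤ 4000 * K * (2 * ∑ f ∈ range F, ∑ q ∈ PK K, sol (m f) 1 (-(2 * (q : ℤ)))) :=
        Nat.mul_le_mul_left _ hav
    _ = _ := by ring

end Pool.Agent.H591R2
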