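import Pool.Agent.H591R2.Average

/-!
# Numerical bounds for the second moment
-/

namespace Pool.Agent.H591R2

open Finset Real

theorem block_card (a : ℕ) (ha : 1 ≤ a) :
    (#((Ioc a (2 * a)).filter Nat.Prime) : ℝ) * log a ≤ 2 * log 4 * a := by
  have h1 : (#((Ioc a (2 * a)).filter Nat.Prime) : ℝ) * log a ≤
      ∑ p ∈ (Ioc a (2 * a)).filter Nat.Prime, log p := by
    rw [← nsmul_eq_mul, ← sum_const]
    apply sum_le_sum
    intro p hp
    rw [mem_filter, mem_Ioc] at hp
    apply log_le_log (by exact_mod_cast ha)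
    exact_mod_cast hp.1.1.le
  have h2 : ∑ p ∈ (Ioc a (2 * a)).filter Nat.Prime, log p ≤ Chebyshev.theta ((2 * a : ℕ) : ℝ) := by
    unfold Chebyshev.theta
    rw [Nat.floor_natCast]
    apply sum_le_sum_of_subset_of_nonneg
    · intro p hp
      rw [mem_filter, mem_Ioc] at hp ⊢
      exact ⟨⟨by omega, hp.1.2⟩, hp.2⟩
    · intro p hp _
      rw [mem_filter] at hp
      exact log_nonneg (by exact_mod_cast hp.2.one_lt.le)
  have h3 := Chebyshev.theta_le_log4_mul_x (x := ((2 * a : ℕ) : ℝ)) (by positivity)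
  push_cast at h3
  push_cast at h2
  linarith

theorem prime_sq_sum_aux (w : ℕ) (hw : 2 ≤ w) (k : ℕ) :
    ∑ p ∈ (Ioc w (2 ^ k * w)).filter Nat.Prime, (1 : ℝ) / p ^ 2 ≤
      4 * log 4 / (w * log w) * (1 - 1 / 2 ^ k) := by
  have hw0 : (0 : ℝ) < w := by positivity
  have hlog : 0 < log w := log_pos (by exact_mod_cast (by omega : 1 < w))
  induction k with
  | zero => simp
  | succ k ih =>
    have hk : 1 ≤ 2 ^ k := Nat.one_le_two_pow
    have h1 : (Ioc w (2 ^ (k + 1) * w)).filter Nat.Prime = (Ioc w (2 ^ k * w)).filter Nat.Prime ∪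
        (Ioc (2 ^ k * w) (2 * (2 ^ k * w))).filter Nat.Prime := by
      rw [← filter_union, Ioc_union_Ioc_eq_Ioc (by nlinarith) (by omega)]
      congr 2
      ring
    have h2 : Disjoint ((Ioc w (2 ^ k * w)).filter Nat.Prime)
        ((Ioc (2 ^ k * w) (2 * (2 ^ k * w))).filter Nat.Prime) := by
      rw [disjoint_left]
      intro p hp hp'
      rw [mem_filter, mem_Ioc] at hp hp'
      omega
    rw [h1, sum_union h2]
    have h3 : ∑ p ∈ (Ioc (2 ^ k * w) (2 * (2 ^ k * w))).filter Nat.Prime, (1 : ℝ) / p ^ 2 ≤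
        2 * log 4 / (w * log w) * (1 / 2 ^ k) := by
      have h4 := block_card (2 ^ k * w) (by nlinarith)
      have h5 : log w ≤ log ((2 ^ k * w : ℕ) : ℝ) := by
        apply log_le_log hw0
        exact_mod_cast (by nlinarith : w ≤ 2 ^ k * w)
      set B := (Ioc (2 ^ k * w) (2 * (2 ^ k * w))).filter Nat.Prime with hB
      have h6 : (#B : ℝ) * log w ≤ 2 * log 4 * (2 ^ k * w : ℕ) :=
        le_trans (mul_le_mul_of_nonneg_left h5 (by positivity)) h4
      have h7 : ∑ p ∈ B, (1 : ℝ) / p ^ 2 ≤ #B * (1 / ((2 ^ k * w : ℕ) : ℝ) ^ 2) := by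
        rw [← nsmul_eq_mul, ← sum_const]
        apply sum_le_sum
        intro p hp
        rw [hB, mem_filter, mem_Ioc] at hp
        have : ((2 ^ k * w : ℕ) : ℝ) ≤ p := by exact_mod_cast hp.1.1.le
        have h0 : (0 : ℝ) < ((2 ^ k * w : ℕ) : ℝ) := by positivity
        gcongr
      refine h7.trans ?_
      have h8 : (#B : ℝ) ≤ 2 * log 4 * (2 ^ k * w : ℕ) / log w := by
        rw [le_div_iff₀ hlog]; exact h6
      have h9 : (0 : ℝ) ≤ 1 / ((2 ^ k * w : ℕ) : ℝ) ^ 2 := by positivity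
      refine (mul_le_mul_of_nonneg_right h8 h9).trans (le_of_eq ?_)
      push_cast
      field_simp
    have h10 : 4 * log 4 / (w * log w) * (1 - 1 / 2 ^ (k + 1)) =
        4 * log 4 / (w * log w) * (1 - 1 / 2 ^ k) + 2 * log 4 / (w * log w) * (1 / 2 ^ k) := by
      rw [pow_succ]; field_simp; ring
    rw [h10]
    exact add_le_add ih h3

theorem prime_sq_sum (w X : ℕ) (hw : 2 ≤ w) :
    ∑ p ∈ (Ioc w X).filter Nat.Prime, (1 : ℝ) / p ^ 2 ≤ 4 * log 4 / (w * log w) := by
  have h0 : (0 : ℝ) ≤ 4 * log 4 / (w * log w) := by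
    have : 0 ≤ log (w : ℝ) := log_natCast_nonneg w
    have : 0 ≤ log (4 : ℝ) := log_nonneg (by norm_num)
    positivity
  have hX : X ≤ 2 ^ X * w := by
    have : X < 2 ^ X := Nat.lt_two_pow_self
    nlinarith
  calc ∑ p ∈ (Ioc w X).filter Nat.Prime, (1 : ℝ) / p ^ 2
      ≤ ∑ p ∈ (Ioc w (2 ^ X * w)).filter Nat.Prime, (1 : ℝ) / p ^ 2 := by
        apply sum_le_sum_of_subset_of_nonneg
        · intro p hp
          rw [mem_filter, mem_Ioc] at hp ⊢
          exact ⟨⟨hp.1.1, hp.1.2.trans hX⟩, hp.2⟩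
        · intro p _ _; positivity
    _ ≤ 4 * log 4 / (w * log w) * (1 - 1 / 2 ^ X) := prime_sq_sum_aux w hw X
    _ ≤ 4 * log 4 / (w * log w) * 1 := by
        apply mul_le_mul_of_nonneg_left _ h0
        have : (0 : ℝ) ≤ 1 / 2 ^ X := by positivity
        linarith
    _ = _ := mul_one _

/-- tail of the series `∑ d ^ (-3/2)` -/
theorem tail_sum (A B : ℕ) (hA : 1 ≤ A) :
    ∑ d ∈ Ioc A B, (1 : ℝ) / (d * sqrt d) ≤ 2 / sqrt A := by
  rcases lt_or_ge B A with h | h
  · rw [Ioc_eq_empty (by omega)]; simp; positivity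
  · have key : ∑ d ∈ Ioc A B, (1 : ℝ) / (d * sqrt d) ≤ 2 / sqrt A - 2 / sqrt B := by
      induction B, h using Nat.le_induction with
      | base => simp
      | succ B hB ih =>
        rw [sum_Ioc_succ_top hB]
        have hB0 : (0 : ℝ) < B := by exact_mod_cast (by omega : 0 < B)
        have h1 : (1 : ℝ) / (((B + 1 : ℕ) : ℝ) * sqrt ((B + 1 : ℕ) : ℝ)) ≤
            2 / sqrt B - 2 / sqrt ((B + 1 : ℕ) : ℝ) := by
          push_cast
          set a := sqrt (B : ℝ) with ha
          set b := sqrt ((B : ℝ) + 1) with hb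
          have ha0 : 0 < a := sqrt_pos.2 hB0
          have hb0 : 0 < b := sqrt_pos.2 (by positivity)
          have ha2 : a ^ 2 = B := sq_sqrt hB0.le
          have hb2 : b ^ 2 = B + 1 := sq_sqrt (by positivity)
          have hab : a ≤ b := sqrt_le_sqrt (by linarith)
          rw [← hb2, div_sub_div _ _ ha0.ne' hb0.ne', div_le_div_iff₀ (by positivity) (by positivity)]
          have h2 : (b - a) * (b + a) = 1 := by nlinarith
          have h3 : 1 ≤ (b - a) * (2 * b) := by
            rw [← h2]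
            apply mul_le_mul_of_nonneg_left _ (by linarith)
            linarith
          -- goal : 1 * (a * b) ≤ (2 * b - a * 2) * (b ^ 2 * b)
          have h4 : a * b ≤ b ^ 2 := by nlinarith
          have h5 : b ^ 2 ≤ b ^ 2 * ((b - a) * (2 * b)) := by nlinarith [sq_nonneg b]
          nlinarith
        linarith
    have : 0 ≤ 2 / sqrt (B : ℝ) := by positivity
    linarith

theorem pow_card_le {w d : ℕ} (hs : Squarefree d) (hw : ∀ p ∈ d.primeFactors, w < p) :
    w ^ d.primeFactors.card ≤ d := by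
  calc w ^ d.primeFactors.card ≤ ∏ p ∈ d.primeFactors, p := by
        rw [← prod_const]
        exact prod_le_prod' fun p hp => (hw p hp).le
    _ = d := Nat.prod_primeFactors_of_squarefree hs

theorem pow_card_le' {w d : ℕ} (hd : d ≠ 0) (hw : ∀ p ∈ d.primeFactors, w < p) :
    w ^ d.primeFactors.card ≤ d := by
  calc w ^ d.primeFactors.card ≤ ∏ p ∈ d.primeFactors, p := by
        rw [← prod_const]
        exact prod_le_prod' fun p hp => (hw p hp).le
    _ ≤ d := Nat.le_of_dvd (Nat.pos_of_ne_zero hd) (Nat.prod_primeFactors_dvd d)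

/-- squarefree numbers with at least two prime factors -/
theorem two_le_card {d : ℕ} (hd : 2 ≤ d) (hs : Squarefree d) (hp : ¬ d.Prime) :
    2 ≤ d.primeFactors.card := by
  by_contra hc
  push Not at hc
  have h1 : d.primeFactors.card = 0 ∨ d.primeFactors.card = 1 := by omega
  rcases h1 with h | h
  · rw [Finset.card_eq_zero, Nat.primeFactors_eq_empty] at h
    omega
  · rw [Finset.card_eq_one] at h
    obtain ⟨p, hp'⟩ := h
    have h2 := Nat.prod_primeFactors_of_squarefree hs
    rw [hp', prod_singleton] at h2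
    apply hp
    rw [← h2]
    exact Nat.prime_of_mem_primeFactors (n := d) (by rw [hp']; simp)

theorem key_ineq {w d : ℕ} (hw : 2 ^ 32 ≤ w) (hd : 2 ≤ d) (hs : Squarefree d) (hp : ¬ d.Prime)
    (hwd : ∀ p ∈ d.primeFactors, w < p) : 16 ^ d.primeFactors.card * w ≤ d ∧ w ^ 2 ≤ d := by
  have h1 := pow_card_le hs hwd
  have h2 := two_le_card hd hs hp
  obtain ⟨k, hk⟩ : ∃ k, d.primeFactors.card = k + 2 := ⟨d.primeFactors.card - 2, by omega⟩
  rw [hk] at h1 ⊢
  constructor
  · have h3 : 16 ^ (k + 2) ≤ w ^ (k + 1) := by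
      calc 16 ^ (k + 2) ≤ (2 ^ 32) ^ (k + 1) := by
            rw [show (16 : ℕ) = 2 ^ 4 by norm_num, ← pow_mul, ← pow_mul]
            exact Nat.pow_le_pow_right (by norm_num) (by omega)
        _ ≤ w ^ (k + 1) := Nat.pow_le_pow_left hw _
    calc 16 ^ (k + 2) * w ≤ w ^ (k + 1) * w := Nat.mul_le_mul_right _ h3
      _ = w ^ (k + 2) := (pow_succ _ _).symm
      _ ≤ d := h1
  · calc w ^ 2 ≤ w ^ (k + 2) := Nat.pow_le_pow_right (by omega) (by omega)
      _ ≤ d := h1

/-- few squarefree divisors -/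
theorem two_pow_card_le {w d Y B : ℕ} (hw : 2 ^ 32 ≤ w) (hd : d ≠ 0)
    (hwd : ∀ p ∈ d.primeFactors, w < p) (hY : d ≤ Y) (hB : Y ≤ B ^ 32) :
    2 ^ d.primeFactors.card ≤ B := by
  have h1 := pow_card_le' hd hwd
  have h2 : (2 ^ d.primeFactors.card) ^ 32 ≤ B ^ 32 := by
    calc (2 ^ d.primeFactors.card) ^ 32 = (2 ^ 32) ^ d.primeFactors.card := by
          rw [← pow_mul, ← pow_mul, mul_comm]
      _ ≤ w ^ d.primeFactors.card := Nat.pow_le_pow_left hw _
      _ ≤ B ^ 32 := h1.trans (hY.trans hB)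
  exact le_of_pow_le_pow_left₀ (by norm_num) (Nat.zero_le _) h2

/-- The second moment of the divisor counts. -/
theorem second_moment {F Y w B : ℕ} {t : ℤ} {m : ℕ → ℕ} (hw : 2 ^ 32 ≤ w) (hB : Y ≤ B ^ 32)
    (hF : 1 ≤ F)
    (hm0 : ∀ f ∈ range F, m f ≠ 0)
    (hmY : ∀ f ∈ range F, m f ≤ Y)
    (hwm : ∀ f ∈ range F, ∀ p ∈ (m f).primeFactors, w < p)
    (hN : ∀ d ∈ Dset w Y t, Nd F m d ≤ 2 ^ d.primeFactors.card * (F / d + 1)) :
    ∑ d ∈ Dset w Y t, (Nd F m d : ℝ) ^ 2 ≤ (F : ℝ) ^ 2 *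
      (16 * (4 * log 4 / (w * log w)) + 16 / (w * sqrt w) + (B : ℝ) ^ 2 / F) := by
  have hF0 : (0 : ℝ) < F := by exact_mod_cast hF
  have hw0 : (0 : ℝ) < w := by
    have : 0 < w := lt_of_lt_of_le (by norm_num) hw
    exact_mod_cast this
  set D := Dset w Y t with hD
  have hDm : ∀ d ∈ D, 2 ≤ d ∧ d ≤ Y ∧ Squarefree d ∧ (∀ p ∈ d.primeFactors, w < p) := by
    intro d hd
    rw [hD, Dset, mem_filter, mem_Icc] at hd
    exact ⟨hd.1.1, hd.1.2, hd.2.1, hd.2.2.2.1⟩
  -- split
  have hsplit : ∑ d ∈ D, (Nd F m d : ℝ) ^ 2 =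
      (∑ d ∈ (D.filter (· ≤ F)).filter Nat.Prime, (Nd F m d : ℝ) ^ 2 +
      ∑ d ∈ (D.filter (· ≤ F)).filter (fun d => ¬ d.Prime), (Nd F m d : ℝ) ^ 2) +
      ∑ d ∈ D.filter (fun d => ¬ d ≤ F), (Nd F m d : ℝ) ^ 2 := by
    rw [sum_filter_add_sum_filter_not, sum_filter_add_sum_filter_not]
  have hreal : ∀ d ∈ D, d ≤ F → (Nd F m d : ℝ) ≤ 2 ^ d.primeFactors.card * (2 * F / d) := by
    intro d hd hdF
    have h1 := hN d hd
    have hd0 : (0 : ℝ) < d := by
      have := (hDm d hd).1
      exact_mod_cast (by omega : 0 < d)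
    have h2 : ((F / d : ℕ) : ℝ) ≤ F / d := Nat.cast_div_le
    have h3 : (1 : ℝ) ≤ F / d := by
      rw [le_div_iff₀ hd0]; simpa using (by exact_mod_cast hdF : (d : ℝ) ≤ F)
    calc (Nd F m d : ℝ) ≤ ((2 ^ d.primeFactors.card * (F / d + 1) : ℕ) : ℝ) := by exact_mod_cast h1
      _ = 2 ^ d.primeFactors.card * (((F / d : ℕ) : ℝ) + 1) := by push_cast; ring
      _ ≤ 2 ^ d.primeFactors.card * (2 * F / d) := by
          apply mul_le_mul_of_nonneg_left _ (by positivity)
          have : (2 : ℝ) * F / d = F / d + F / d := by ring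
          linarith
  -- primes
  have h1 : ∑ d ∈ (D.filter (· ≤ F)).filter Nat.Prime, (Nd F m d : ℝ) ^ 2 ≤
      (F : ℝ) ^ 2 * (16 * (4 * log 4 / (w * log w))) := by
    calc ∑ d ∈ (D.filter (· ≤ F)).filter Nat.Prime, (Nd F m d : ℝ) ^ 2
        ≤ ∑ d ∈ (D.filter (· ≤ F)).filter Nat.Prime, (16 * (F : ℝ) ^ 2) * (1 / d ^ 2) := by
          apply sum_le_sum
          intro d hd
          rw [mem_filter, mem_filter] at hd
          have h2 := hreal d hd.1.1 hd.1.2
          rw [hd.2.primeFactors, card_singleton, pow_one] at h2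
          have h3 : (Nd F m d : ℝ) ^ 2 ≤ (2 * (2 * F / d)) ^ 2 := pow_le_pow_left₀ (by positivity) h2 2
          refine h3.trans (le_of_eq ?_)
          ring
      _ = (16 * (F : ℝ) ^ 2) * ∑ d ∈ (D.filter (· ≤ F)).filter Nat.Prime, (1 : ℝ) / d ^ 2 := by
          rw [mul_sum]
      _ ≤ (16 * (F : ℝ) ^ 2) * ∑ d ∈ (Ioc w F).filter Nat.Prime, (1 : ℝ) / d ^ 2 := by
          apply mul_le_mul_of_nonneg_left _ (by positivity)
          apply sum_le_sum_of_subset_of_nonneg
          · intro d hd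
            rw [mem_filter, mem_filter] at hd
            rw [mem_filter, mem_Ioc]
            refine ⟨⟨?_, hd.1.2⟩, hd.2⟩
            exact (hDm d hd.1.1).2.2.2 d (by rw [hd.2.primeFactors]; simp)
          · intro _ _ _; positivity
      _ ≤ (16 * (F : ℝ) ^ 2) * (4 * log 4 / (w * log w)) := by
          apply mul_le_mul_of_nonneg_left _ (by positivity)
          exact prime_sq_sum w F (le_trans (by norm_num) hw)
      _ = _ := by ring
  -- composite
  have h2 : ∑ d ∈ (D.filter (· ≤ F)).filter (fun d => ¬ d.Prime), (Nd F m d : ℝ) ^ 2 ≤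
      (F : ℝ) ^ 2 * (16 / (w * sqrt w)) := by
    calc ∑ d ∈ (D.filter (· ≤ F)).filter (fun d => ¬ d.Prime), (Nd F m d : ℝ) ^ 2
        ≤ ∑ d ∈ (D.filter (· ≤ F)).filter (fun d => ¬ d.Prime),
          (4 * (F : ℝ) ^ 2 / sqrt w) * (1 / (d * sqrt d)) := by
          apply sum_le_sum
          intro d hd
          rw [mem_filter, mem_filter] at hd
          obtain ⟨g1, g2, g3, g4⟩ := hDm d hd.1.1
          have h2 := hreal d hd.1.1 hd.1.2
          have h3 : (Nd F m d : ℝ) ^ 2 ≤ (2 ^ d.primeFactors.card * (2 * F / d)) ^ 2 :=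
            pow_le_pow_left₀ (by positivity) h2 2
          refine h3.trans ?_
          have hk := (key_ineq hw g1 g3 hd.2 g4).1
          have hd0 : (0 : ℝ) < d := by exact_mod_cast (by omega : 0 < d)
          have h4 : (4 : ℝ) ^ d.primeFactors.card * sqrt w ≤ sqrt d := by
            apply le_sqrt_of_sq_le
            rw [mul_pow, sq_sqrt hw0.le, ← pow_mul, mul_comm _ 2, pow_mul]
            norm_num
            exact_mod_cast hk
          have h5 : (4 : ℝ) ^ d.primeFactors.card ≤ sqrt d / sqrt w := by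
            rw [le_div_iff₀ (sqrt_pos.2 hw0)]; exact h4
          have hsd : sqrt (d : ℝ) * sqrt d = d := mul_self_sqrt hd0.le
          have hsd0 : 0 < sqrt (d : ℝ) := sqrt_pos.2 hd0
          calc ((2 : ℝ) ^ d.primeFactors.card * (2 * F / d)) ^ 2
              = 4 ^ d.primeFactors.card * (4 * F ^ 2 / d ^ 2) := by
                rw [mul_pow, ← pow_mul, mul_comm _ 2, pow_mul]; norm_num; ring
            _ ≤ (sqrt d / sqrt w) * (4 * F ^ 2 / d ^ 2) := by
                apply mul_le_mul_of_nonneg_right h5 (by positivity)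
            _ = (4 * (F : ℝ) ^ 2 / sqrt w) * (1 / (d * sqrt d)) := by
                have hd2 : (d : ℝ) ^ 2 = d * (sqrt d * sqrt d) := by rw [hsd]; ring
                rw [hd2]
                field_simp
      _ = (4 * (F : ℝ) ^ 2 / sqrt w) *
          ∑ d ∈ (D.filter (· ≤ F)).filter (fun d => ¬ d.Prime), (1 : ℝ) / (d * sqrt d) := by
          rw [mul_sum]
      _ ≤ (4 * (F : ℝ) ^ 2 / sqrt w) * ∑ d ∈ Ioc (w ^ 2 - 1) F, (1 : ℝ) / (d * sqrt d) := by
          apply mul_le_mul_of_nonneg_left _ (by positivity)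
          apply sum_le_sum_of_subset_of_nonneg
          · intro d hd
            rw [mem_filter, mem_filter] at hd
            obtain ⟨g1, g2, g3, g4⟩ := hDm d hd.1.1
            have hk := (key_ineq hw g1 g3 hd.2 g4).2
            rw [mem_Ioc]
            have : 0 < w ^ 2 := by positivity
            exact ⟨by omega, hd.1.2⟩
          · intro _ _ _; positivity
      _ ≤ (4 * (F : ℝ) ^ 2 / sqrt w) * (2 / sqrt ((w ^ 2 - 1 : ℕ) : ℝ)) := by
          apply mul_le_mul_of_nonneg_left _ (by positivity)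
          apply tail_sum
          have : 4 ≤ w ^ 2 := by nlinarith
          omega
      _ ≤ (4 * (F : ℝ) ^ 2 / sqrt w) * (2 / (w / 2)) := by
          apply mul_le_mul_of_nonneg_left _ (by positivity)
          apply div_le_div_of_nonneg_left (by norm_num) (by positivity)
          apply le_sqrt_of_sq_le
          have h1 : 1 ≤ w ^ 2 := Nat.one_le_pow _ _ (by omega)
          push_cast [Nat.cast_sub h1]
          have h2 : (2 : ℝ) ≤ w := by exact_mod_cast (le_trans (by norm_num) hw : 2 ≤ w)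
          nlinarith
      _ = _ := by field_simp; norm_num
  -- large
  have h3 : ∑ d ∈ D.filter (fun d => ¬ d ≤ F), (Nd F m d : ℝ) ^ 2 ≤
      (F : ℝ) ^ 2 * ((B : ℝ) ^ 2 / F) := by
    have h4 : ∀ d ∈ D.filter (fun d => ¬ d ≤ F), (Nd F m d : ℝ) ≤ B := by
      intro d hd
      rw [mem_filter] at hd
      obtain ⟨g1, g2, g3, g4⟩ := hDm d hd.1
      have h5 := hN d hd.1
      rw [Nat.div_eq_of_lt (by omega), zero_add, mul_one] at h5
      exact_mod_cast h5.trans (two_pow_card_le hw (by omega) g4 g2 hB)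
    have h5 : ∑ d ∈ D, (Nd F m d : ℝ) ≤ F * B := by
      have h6 : ∑ d ∈ D, Nd F m d ≤ F * B := by
        have h7 : ∑ d ∈ D, Nd F m d = ∑ f ∈ range F, #(D.filter (· ∣ m f)) := by
          unfold Nd
          simp_rw [card_filter]
          rw [sum_comm]
        rw [h7]
        calc ∑ f ∈ range F, #(D.filter (· ∣ m f)) ≤ ∑ f ∈ range F, B := by
              apply sum_le_sum
              intro f hf
              have h8 : D.filter (· ∣ m f) ⊆ (m f).divisors.filter Squarefree := by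
                intro d hd
                rw [mem_filter] at hd
                rw [mem_filter, Nat.mem_divisors]
                exact ⟨⟨hd.2, hm0 f hf⟩, (hDm d hd.1).2.2.1⟩
              have h9 : #((m f).divisors.filter Squarefree) = 2 ^ (m f).primeFactors.card := by
                have := sum_sqfree_divisors (hm0 f hf) (fun _ => 1)
                simp only [sum_const, nsmul_eq_mul, mul_one, card_powerset] at this
                exact_mod_cast this
              calc #(D.filter (· ∣ m f)) ≤ #((m f).divisors.filter Squarefree) := card_le_card h8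
                _ = 2 ^ (m f).primeFactors.card := h9
                _ ≤ B := two_pow_card_le hw (hm0 f hf) (hwm f hf) (hmY f hf) hB
          _ = F * B := by simp
      exact_mod_cast h6
    calc ∑ d ∈ D.filter (fun d => ¬ d ≤ F), (Nd F m d : ℝ) ^ 2
        ≤ ∑ d ∈ D.filter (fun d => ¬ d ≤ F), (B : ℝ) * Nd F m d := by
          apply sum_le_sum
          intro d hd
          rw [pow_two]
          exact mul_le_mul_of_nonneg_right (h4 d hd) (by positivity)
      _ = B * ∑ d ∈ D.filter (fun d => ¬ d ≤ F), (Nd F m d : ℝ) := by rw [mul_sum]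
      _ ≤ B * ∑ d ∈ D, (Nd F m d : ℝ) := by
          apply mul_le_mul_of_nonneg_left _ (by positivity)
          apply sum_le_sum_of_subset_of_nonneg (filter_subset _ _)
          intro _ _ _; positivity
      _ ≤ B * (F * B) := mul_le_mul_of_nonneg_left h5 (by positivity)
      _ = (F : ℝ) ^ 2 * ((B : ℝ) ^ 2 / F) := by field_simp
  rw [hsplit]
  linarith

end Pool.Agent.H591R2
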