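import Pool.Agent.H591R2.Poly1

/-!
# The deterministic parameters are computed in polynomial time
-/

namespace Pool.Agent.NPC.R591

open Pool.Agent.H591R2

section

variable {α : Type} [TEnc α] {n K : α → ℕ}

theorem scale_poly (hn : Poly n) : UPoly (fun a => scale (n a)) := by
  have h1 := uSize hn
  refine UPoly.of_le (n := fun a => (n a).size) ?_ h1 ?_
  · unfold scale
    have := h1.toPoly
    fun_prop
  · intro a
    unfold scale
    omega

theorem uMul (c : ℕ) (hK : UPoly K) : UPoly (fun a => c * K a) := (UPoly.const c).mul hK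

theorem sOf_poly (hK : UPoly K) : Poly (fun a => sOf (K a)) := by
  have h : Poly (fun a => 3 ^ (200 * K a)) := Poly.npow (Poly.const 3) (uMul 200 hK)
  exact h.congr fun a => (sOf_eq _).symm

theorem sig_poly (hK : UPoly K) : Poly (fun a => sig (K a)) :=
  Poly.npow (Poly.const 3) (uMul 100 hK)

theorem rt_poly (hn : Poly n) : Poly (fun a => rt (n a)) := by
  unfold rt
  apply bs_poly (P := fun a r => decide (r ^ 3 ≤ 7 * n a))
  · have h3 : Poly (fun p : α × ℕ => p.2 ^ 3) := Poly.npow (by fun_prop) (UPoly.const 3)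
    fun_prop
  · exact (((uSize hn).add (UPoly.const 1)).add (UPoly.const 1)).add (UPoly.const 1)

theorem T1_poly (hn : Poly n) (hK : UPoly K) : Poly (fun a => T1 (n a) (K a)) := by
  have h1 := rt_poly hn
  have h2 := sOf_poly hK
  have h3 : Poly (fun a => t0 (n a) (200 * K a)) := t0_poly hn (uMul 200 hK)
  have h4 : Poly (fun a => rt (n a) + 1 + (t0 (n a) (200 * K a) +
      (3 * sOf (K a) - (rt (n a) + 1) % (3 * sOf (K a)))) % (3 * sOf (K a))) := by
    fun_prop
  exact h4.congr fun a => (T1_eq _ _).symm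

theorem Rof_poly (hn : Poly n) (hK : UPoly K) : Poly (fun a => Rof (n a) (K a)) := by
  have h2 := sOf_poly hK
  have h3 : Poly (fun a => sOf (K a) ^ 3) := Poly.npow h2 (UPoly.const 3)
  unfold Rof
  fun_prop

theorem pl_poly (hK : UPoly K) (c : ℕ) :
    Poly (fun a => (plist (2 * K a)).filter (fun p => decide (c ≤ p))) := by
  have h := plist_poly (uMul 2 hK)
  fun_prop

theorem prod_poly_bound (K c : ℕ) (k : ℕ) :
    (((plist (2 * K)).filter (fun p => decide (c ≤ p))).take k).prod ≤ 2 ^ (4 * K) := by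
  have h1 : (((plist (2 * K)).filter (fun p => decide (c ≤ p))).take k).prod ∣
      ((plist (2 * K)).filter (fun p => decide (c ≤ p))).prod :=
    (List.take_sublist _ _).prod_dvd_prod
  have hpos : 0 < ((plist (2 * K)).filter (fun p => decide (c ≤ p))).prod := by
    apply List.prod_pos
    intro p hp
    rw [List.mem_filter, mem_plist] at hp
    exact hp.1.2.pos
  refine (Nat.le_of_dvd hpos h1).trans ((prod_le_primorial _ _).trans (le_of_eq ?_))
  rw [show (4 : ℕ) = 2 ^ 2 by norm_num, ← pow_mul]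
  congr 1
  rw [show (2 : ℕ) ^ 2 = 4 by norm_num]; ring

theorem iFold_bound (T S : ℕ) : ∀ (l : List ℕ) (s : ℕ × ℕ), (∀ p ∈ l, 2 ≤ p) → s.1 ≤ s.2 →
    (l.foldl (iStep T S) s).2 = s.2 * l.prod ∧
      (l.foldl (iStep T S) s).1 ≤ (l.foldl (iStep T S) s).2 := by
  intro l
  induction l with
  | nil => intro s _ h; simpa using h
  | cons p l ih =>
    intro s hl h
    have hp := hl p List.mem_cons_self
    obtain ⟨i1, i2⟩ := ih (iStep T S s p) (fun q hq => hl q (List.mem_cons_of_mem _ hq)) (by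
      unfold iStep
      simp only
      split_ifs <;> nlinarith)
    rw [List.foldl_cons, List.prod_cons]
    refine ⟨?_, i2⟩
    rw [i1]
    unfold iStep
    simp only
    ring

theorem iW_poly (hn : Poly n) (hK : UPoly K) : Poly (fun a => iW (n a) (K a)) := by
  unfold iW
  have hpow : Poly (fun a => 2 ^ (4 * K a)) := Poly.npow (Poly.const 2) (uMul 4 hK)
  apply foldlU (F := fun a s p => iStep (T1 (n a) (K a)) (3 * sOf (K a)) s p)
    (b := fun a => 2 ^ (4 * K a)) (pl_poly hK 5) (Poly.const _) ?_ hpow 5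
  · intro a k _
    have h1 := prod_poly_bound (K a) 5 k
    obtain ⟨i1, i2⟩ := iFold_bound (T1 (n a) (K a)) (3 * sOf (K a))
      (((plist (2 * K a)).filter (fun p => decide (5 ≤ p))).take k) (0, 1) (by
        intro p hp
        have := List.mem_of_mem_take hp
        rw [List.mem_filter, mem_plist] at this
        exact this.1.2.two_le) (by norm_num)
    rw [one_mul] at i1
    generalize ((((plist (2 * K a)).filter (fun p => decide (5 ≤ p))).take k).foldl
      (iStep (T1 (n a) (K a)) (3 * sOf (K a))) (0, 1)) = s at i1 i2 ⊢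
    obtain ⟨s1, s2⟩ := s
    simp only at i1 i2
    have := sz2 (show s1 ≤ 2 ^ (4 * K a) by omega)
    have := sz2 (show s2 ≤ 2 ^ (4 * K a) by omega)
    have := sz_pos (2 ^ (4 * K a))
    simp only [sz_pair]
    omega
  · have h : Poly (fun p : (ℕ × ℕ) × (ℕ × ℕ) × ℕ => iStep p.1.1 p.1.2 p.2.1 p.2.2) := by
      unfold iStep
      fun_prop
    have h1 := T1_poly hn hK
    have h2 := sOf_poly hK
    exact h.comp (f := fun p : α × (ℕ × ℕ) × ℕ => ((T1 (n p.1) (K p.1), 3 * sOf (K p.1)), p.2))
      (Poly.pair ((Poly.pair h1 (Poly.mul (Poly.const 3) h2)).comp (Poly.fst Poly.id))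
        (Poly.snd Poly.id))

theorem tCand_poly {g : α → ℕ} (hn : Poly n) (hK : UPoly K) (hg : Poly g) :
    Poly (fun a => tCand (n a) (K a) (g a)) := by
  have h1 := T1_poly hn hK
  have h2 := sOf_poly hK
  have h3 := iW_poly hn hK
  unfold tCand
  fun_prop

theorem tOf_poly (hn : Poly n) (hK : UPoly K) : Poly (fun a => tOf (n a) (K a)) := by
  have hr : Poly (fun a => List.range (4 * K a)) := (uMul 4 hK).range
  have hn' : Poly (fun p : α × ℕ => n p.1) := hn.comp (Poly.fst Poly.id)
  have hK' : UPoly (fun p : α × ℕ => K p.1) := hK.comp (Poly.fst Poly.id)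
  have h1 : Poly (fun p : α × ℕ => tCand (n p.1) (K p.1) p.2) :=
    tCand_poly hn' hK' (Poly.snd Poly.id)
  have h2 : Poly (fun p : α × ℕ => Rof (n p.1) (K p.1)) := Rof_poly hn' hK'
  have h3 : Poly (fun p : α × ℕ => eg (tCand (n p.1) (K p.1) p.2) (Rof (n p.1) (K p.1))) :=
    eg_poly h1 h2
  have h4 : Poly (fun p : α × ℕ => decide ((eg (tCand (n p.1) (K p.1) p.2)
      (Rof (n p.1) (K p.1))).1 = 1)) := by fun_prop
  have h5 : Poly (fun a => (List.range (4 * K a)).filter (fun g =>
      decide ((eg (tCand (n a) (K a) g) (Rof (n a) (K a))).1 = 1))) :=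
    Poly.filter (p := fun a g => decide ((eg (tCand (n a) (K a) g) (Rof (n a) (K a))).1 = 1)) hr h4
  have h6 : Poly (fun a => (((List.range (4 * K a)).filter (fun g =>
      decide ((eg (tCand (n a) (K a) g) (Rof (n a) (K a))).1 = 1))).head?).getD 0) :=
    Poly.optGetD (Poly.head? h5) (Poly.const 0)
  have h7 := tCand_poly hn hK h6
  exact h7.congr fun a => by
    unfold tOf
    rw [List.headD_eq_head?_getD]

theorem COf_poly (hn : Poly n) (hK : UPoly K) : Poly (fun a => COf (n a) (K a)) := by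
  have h1 := tOf_poly hn hK
  have h2 := sOf_poly hK
  have h3 : Poly (fun a => sOf (K a) ^ 2) := Poly.npow h2 (UPoly.const 2)
  have h4 : Poly (fun a => tOf (n a) (K a) ^ 3) := Poly.npow h1 (UPoly.const 3)
  unfold COf
  fun_prop

theorem W2_poly (hK : UPoly K) : Poly (fun a => W2 (K a)) := by
  have hpow : Poly (fun a => 2 ^ (4 * K a)) := Poly.npow (Poly.const 2) (uMul 4 hK)
  have h : Poly (fun a => ((plist (2 * K a)).filter (fun p => decide (3 ≤ p))).foldl
      (fun s p => s * p) 1) := by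
    apply foldlU (F := fun _ s p => s * p) (b := fun a => 2 ^ (4 * K a)) (pl_poly hK 3)
      (Poly.const _) (by fun_prop) hpow 2
    intro a k _
    apply sz2
    rw [← List.prod_eq_foldl]
    exact prod_poly_bound (K a) 3 k
  exact h.congr fun a => by rw [← List.prod_eq_foldl]; rfl

theorem Ee_poly (hn : Poly n) (hK : UPoly K) : Poly (fun a => Ee (n a) (K a)) := by
  unfold Ee
  have h1 := (tOf_poly hn hK).comp (Poly.fst (Poly.id (α := α × ℕ)))
  have h2 := (COf_poly hn hK).comp (Poly.fst (Poly.id (α := α × ℕ)))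
  apply bs_poly (P := fun a e => decide (tOf (n a) (K a) * e ^ 2 < COf (n a) (K a)))
  · have h3 : Poly (fun p : α × ℕ => p.2 ^ 2) := Poly.npow (by fun_prop) (UPoly.const 2)
    exact Poly.decide_lt (Poly.mul h1 h3) h2
  · exact (((uSize hn).add (UPoly.const 1)).add (UPoly.const 1)).add (UPoly.const 1)

theorem E1_poly (hn : Poly n) (hK : UPoly K) : Poly (fun a => E1 (n a) (K a)) := by
  have h1 := Ee_poly hn hK
  have h2 := W2_poly hK
  have h3 : Poly (fun a => 2 ^ (100 * K a)) := Poly.npow (Poly.const 2) (uMul 100 hK)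
  have h4 := tOf_poly hn hK
  have h5 : Poly (fun a => (Ee (n a) (K a) - 2 * W2 (K a) * (2 ^ (100 * K a) + 1)) -
    ((Ee (n a) (K a) - 2 * W2 (K a) * (2 ^ (100 * K a) + 1)) + tOf (n a) (K a)) % 2) := by
    fun_prop
  exact h5.congr fun a => (E1_eq _ _).symm

theorem aFold_bound (C t e : ℕ) : ∀ (l : List ℕ) (s : ℕ × ℕ), (∀ p ∈ l, 3 ≤ p) → s.1 ≤ 2 * s.2 →
    (l.foldl (aStep C t e) s).2 = s.2 * l.prod ∧
      (l.foldl (aStep C t e) s).1 ≤ 2 * (l.foldl (aStep C t e) s).2 := by
  intro l
  induction l with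
  | nil => intro s _ h; simpa using h
  | cons p l ih =>
    intro s hl h
    have hp := hl p List.mem_cons_self
    obtain ⟨i1, i2⟩ := ih (aStep C t e s p) (fun q hq => hl q (List.mem_cons_of_mem _ hq)) (by
      unfold aStep
      simp only
      split_ifs <;> nlinarith)
    rw [List.foldl_cons, List.prod_cons]
    refine ⟨?_, i2⟩
    rw [i1]
    unfold aStep
    simp only
    ring

theorem E0_poly (hn : Poly n) (hK : UPoly K) : Poly (fun a => E0 (n a) (K a)) := by
  have hpow : Poly (fun a => 2 * 2 ^ (4 * K a)) :=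
    Poly.mul (Poly.const 2) (Poly.npow (Poly.const 2) (uMul 4 hK))
  have hC := COf_poly hn hK
  have ht := tOf_poly hn hK
  have hE := E1_poly hn hK
  have h1 : Poly (fun a => ((plist (2 * K a)).filter (fun p => decide (3 ≤ p))).foldl
    (aStep (COf (n a) (K a)) (tOf (n a) (K a)) (E1 (n a) (K a))) (0, 1)) := by
    apply foldlU (F := fun a s p => aStep (COf (n a) (K a)) (tOf (n a) (K a)) (E1 (n a) (K a)) s p)
      (b := fun a => 2 * 2 ^ (4 * K a)) (pl_poly hK 3) (Poly.const _) ?_ hpow 5
    · intro a k _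
      have h1 := prod_poly_bound (K a) 3 k
      obtain ⟨i1, i2⟩ := aFold_bound (COf (n a) (K a)) (tOf (n a) (K a)) (E1 (n a) (K a))
        (((plist (2 * K a)).filter (fun p => decide (3 ≤ p))).take k) (0, 1) (by
          intro p hp
          have := List.mem_of_mem_take hp
          rw [List.mem_filter, decide_eq_true_eq] at this
          exact this.2) (by norm_num)
      rw [one_mul] at i1
      generalize ((((plist (2 * K a)).filter (fun p => decide (3 ≤ p))).take k).foldl
        (aStep (COf (n a) (K a)) (tOf (n a) (K a)) (E1 (n a) (K a))) (0, 1)) = s at i1 i2 ⊢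
      obtain ⟨s1, s2⟩ := s
      simp only at i1 i2
      have := sz2 (show s1 ≤ 2 * 2 ^ (4 * K a) by omega)
      have := sz2 (show s2 ≤ 2 * 2 ^ (4 * K a) by omega)
      have := sz_pos (2 * 2 ^ (4 * K a))
      simp only [sz_pair]
      omega
    · have h : Poly (fun p : (ℕ × ℕ × ℕ) × (ℕ × ℕ) × ℕ =>
          aStep p.1.1 p.1.2.1 p.1.2.2 p.2.1 p.2.2) := by
        unfold aStep
        have h3 : Poly (fun p : (ℕ × ℕ × ℕ) × (ℕ × ℕ) × ℕ => (p.1.2.2 + p.2.1.1) ^ 2) :=
          Poly.npow (by fun_prop) (UPoly.const 2)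
        have h4 : Poly (fun p : (ℕ × ℕ × ℕ) × (ℕ × ℕ) × ℕ =>
            (p.1.2.2 + (p.2.1.1 + 2 * p.2.1.2)) ^ 2) :=
          Poly.npow (by fun_prop) (UPoly.const 2)
        fun_prop
      exact h.comp (f := fun p : α × (ℕ × ℕ) × ℕ => ((COf (n p.1) (K p.1), tOf (n p.1) (K p.1),
        E1 (n p.1) (K p.1)), p.2))
        (Poly.pair ((Poly.pair hC (Poly.pair ht hE)).comp (Poly.fst Poly.id))
          (Poly.snd Poly.id))
  exact (Poly.add hE (Poly.fst h1)).congr fun a => rfl

end

end Pool.Agent.NPC.R591
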