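import Pool.Agent.H591R2.Poly2

/-!
# The lattice reduction and one trial run in polynomial time
-/

namespace Pool.Agent.NPC.R591

open Pool.Agent.H591R2

/-- states are coded as nine-tuples of integers -/
instance : TEnc St :=
  ⟨fun s => toT (s.a, s.b, s.c, s.d, s.e, s.f, s.x, s.y, s.z), fun s s' h => by
    have h1 := TEnc.inj h
    simp only [Prod.mk.injEq] at h1
    obtain ⟨h1, h2, h3, h4, h5, h6, h7, h8, h9⟩ := h1
    cases s; cases s'
    simp only at h1 h2 h3 h4 h5 h6 h7 h8 h9
    subst h1 h2 h3 h4 h5 h6 h7 h8 h9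
    rfl⟩

section

variable {α : Type} [TEnc α]

theorem st_tuple {s : α → St} (h : Poly s) : Poly (fun x =>
    ((s x).a, (s x).b, (s x).c, (s x).d, (s x).e, (s x).f, (s x).x, (s x).y, (s x).z)) := h

theorem st_mk {a b c d e f x y z : α → ℤ} (ha : Poly a) (hb : Poly b) (hc : Poly c) (hd : Poly d)
    (he : Poly e) (hf : Poly f) (hx : Poly x) (hy : Poly y) (hz : Poly z) :
    Poly (fun v => St.mk (a v) (b v) (c v) (d v) (e v) (f v) (x v) (y v) (z v)) := by
  have h : Poly (fun v => (a v, b v, c v, d v, e v, f v, x v, y v, z v)) := by fun_prop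
  exact h

theorem st_a {s : α → St} (h : Poly s) : Poly (fun x => (s x).a) := by
  have := st_tuple h; exact Poly.fst this
theorem st_b {s : α → St} (h : Poly s) : Poly (fun x => (s x).b) := by
  have := st_tuple h; exact Poly.fst (Poly.snd this)
theorem st_c {s : α → St} (h : Poly s) : Poly (fun x => (s x).c) := by
  have := st_tuple h; exact Poly.fst (Poly.snd (Poly.snd this))
theorem st_d {s : α → St} (h : Poly s) : Poly (fun x => (s x).d) := by
  have := st_tuple h; exact Poly.fst (Poly.snd (Poly.snd (Poly.snd this)))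
theorem st_e {s : α → St} (h : Poly s) : Poly (fun x => (s x).e) := by
  have := st_tuple h; exact Poly.fst (Poly.snd (Poly.snd (Poly.snd (Poly.snd this))))
theorem st_f {s : α → St} (h : Poly s) : Poly (fun x => (s x).f) := by
  have := st_tuple h; exact Poly.fst (Poly.snd (Poly.snd (Poly.snd (Poly.snd (Poly.snd this)))))
theorem st_x {s : α → St} (h : Poly s) : Poly (fun x => (s x).x) := by
  have := st_tuple h
  exact Poly.fst (Poly.snd (Poly.snd (Poly.snd (Poly.snd (Poly.snd (Poly.snd this))))))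
theorem st_y {s : α → St} (h : Poly s) : Poly (fun x => (s x).y) := by
  have := st_tuple h
  exact Poly.fst (Poly.snd (Poly.snd (Poly.snd (Poly.snd (Poly.snd (Poly.snd (Poly.snd this)))))))
theorem st_z {s : α → St} (h : Poly s) : Poly (fun x => (s x).z) := by
  have := st_tuple h
  exact Poly.snd (Poly.snd (Poly.snd (Poly.snd (Poly.snd (Poly.snd (Poly.snd (Poly.snd this)))))))

attribute [fun_prop] st_mk st_a st_b st_c st_d st_e st_f st_x st_y st_z

/-- division of integers -/
theorem idivZ {f g : α → ℤ} (hf : Poly f) (hg : Poly g) : Poly (fun a => f a / g a) := by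
  have h1 : Poly (fun a => f a / (((g a).natAbs : ℕ) : ℤ)) := Poly.idiv hf (Poly.natAbs hg)
  refine (Poly.cond (Poly.isNeg hg) (Poly.ineg h1) h1).congr fun a => ?_
  by_cases h : g a < 0
  · simp only [h, decide_true, cond_true]
    have e : g a = -((g a).natAbs : ℤ) := by omega
    conv_rhs => rw [e, Int.ediv_neg]
  · simp only [h, decide_false, cond_false]
    have e : g a = ((g a).natAbs : ℤ) := by omega
    conv_rhs => rw [e]

theorem rnd_poly {u v : α → ℤ} (hu : Poly u) (hv : Poly v) : Poly (fun a => St.rnd (u a) (v a)) := by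
  unfold St.rnd
  exact idivZ (by fun_prop) (by fun_prop)

theorem zsq {f : α → ℤ} (hf : Poly f) : Poly (fun a => f a ^ 2) := Poly.ipow hf (UPoly.const 2)

attribute [fun_prop] rnd_poly zsq

theorem red12_poly {s : α → St} {t : α → ℤ} (hs : Poly s) (ht : Poly t) :
    Poly (fun a => (s a).red12 (t a)) := by
  unfold St.red12
  fun_prop

theorem red23_poly {s : α → St} {t : α → ℤ} (hs : Poly s) (ht : Poly t) :
    Poly (fun a => (s a).red23 (t a)) := by
  unfold St.red23
  fun_prop

theorem red13_poly {s : α → St} {t : α → ℤ} (hs : Poly s) (ht : Poly t) :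
    Poly (fun a => (s a).red13 (t a)) := by
  unfold St.red13
  fun_prop

theorem swap12_poly {s : α → St} (hs : Poly s) : Poly (fun a => (s a).swap12) := by
  unfold St.swap12
  fun_prop

theorem swap23_poly {s : α → St} (hs : Poly s) : Poly (fun a => (s a).swap23) := by
  unfold St.swap23
  fun_prop

theorem D2_poly {s : α → St} (hs : Poly s) : Poly (fun a => (s a).D2) := by
  unfold St.D2
  fun_prop

attribute [fun_prop] red12_poly red23_poly red13_poly swap12_poly swap23_poly D2_poly

theorem s1_poly {s : α → St} (hs : Poly s) : Poly (fun a => (s a).s1) := by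
  unfold St.s1
  fun_prop

theorem s2_poly {s : α → St} (hs : Poly s) : Poly (fun a => (s a).s2) := by
  unfold St.s2
  have h : Poly (fun a => ((s a).red23
      (St.rnd ((s a).e * (s a).a - (s a).b * (s a).c) (s a).D2))) := by fun_prop
  simp only
  exact red13_poly h (rnd_poly (st_c h) (st_a h))

attribute [fun_prop] s1_poly s2_poly

theorem step_poly : Poly (fun s : St => s.step) := by
  have h1 : Poly (fun s : St => s.s1) := by fun_prop
  have h2 : Poly (fun s : St => s.s1.s2) := s2_poly h1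
  have h3 : Poly (fun s : St => if 4 * s.s1.d < 3 * s.s1.a then s.s1.swap12
      else if 4 * (s.s1.s2.a * s.s1.s2.f - s.s1.s2.c ^ 2) < 3 * s.s1.s2.D2 then s.s1.s2.swap23
        else s.s1.s2) := by
    apply Poly.ite
    · exact Poly.ilt (by fun_prop) (by fun_prop)
    · exact swap12_poly h1
    · apply Poly.ite
      · exact Poly.ilt (by fun_prop) (by fun_prop)
      · exact swap23_poly h2
      · exact h2
  exact h3.congr fun s => rfl

theorem cap_poly {s : α → St} {M : α → ℕ} (hs : Poly s) (hM : Poly M) :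
    Poly (fun a => St.cap (M a) (s a)) := by
  unfold St.cap
  fun_prop

theorem cstep_poly : Poly (fun p : ℕ × St => St.cstep p.1 p.2) := by
  have h1 : Poly (fun p : ℕ × St => p.2.step) := step_poly.comp (Poly.snd Poly.id)
  have h2 : Poly (fun p : ℕ × St => St.cap p.1 p.2.step) := cap_poly h1 (Poly.fst Poly.id)
  unfold St.cstep
  exact Poly.ite (Poly.decide_bool h2) h1 (Poly.snd Poly.id)

theorem sz_st (s : St) : sz s = sz (s.a, s.b, s.c, s.d, s.e, s.f, s.x, s.y, s.z) := rfl

theorem sz_int_cap {z : ℤ} {M : ℕ} (h : z.natAbs ≤ M) : sz z ≤ 6 * sz M := by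
  have h1 := sz_int_le z
  have h2 := Nat.size_le_size h
  have h3 := size_le_sz M
  omega

theorem sz_cap {s : St} {M : ℕ} (h : St.cap M s = true) : sz s ≤ 62 * sz M := by
  unfold St.cap at h
  simp only [Bool.and_eq_true, decide_eq_true_eq] at h
  obtain ⟨⟨⟨⟨⟨⟨⟨⟨h1, h2⟩, h3⟩, h4⟩, h5⟩, h6⟩, h7⟩, h8⟩, h9⟩ := h
  rw [sz_st]
  simp only [sz_pair]
  have := sz_int_cap h1
  have := sz_int_cap h2
  have := sz_int_cap h3
  have := sz_int_cap h4
  have := sz_int_cap h5
  have := sz_int_cap h6
  have := sz_int_cap h7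
  have := sz_int_cap h8
  have := sz_int_cap h9
  have := sz_pos M
  omega

theorem citer_poly {s : α → St} {M N : α → ℕ} (hs : Poly s) (hM : Poly M) (hN : UPoly N) :
    Poly (fun a => (St.cstep (M a))^[N a] (s a)) := by
  have hb : Poly (fun a => (s a, M a)) := Poly.pair hs hM
  apply iterU (F := fun a x => St.cstep (M a) x) (b := fun a => (s a, M a)) hN hs
    (cstep_poly.comp (f := fun p : α × St => (M p.1, p.2)) (by fun_prop)) hb 62
  intro a k _
  have key : ∀ k, sz ((St.cstep (M a))^[k] (s a)) ≤ 62 * sz (M a) ∨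
      (St.cstep (M a))^[k] (s a) = s a := by
    intro k
    induction k with
    | zero => right; rfl
    | succ k ih =>
      rw [Function.iterate_succ_apply']
      unfold St.cstep
      split_ifs with h
      · left; exact sz_cap h
      · exact ih
  rw [sz_pair]
  change sz ((St.cstep (M a))^[k] (s a)) ≤ _
  rcases key k with h | h
  · omega
  · rw [h]; omega

theorem ini_poly {m q b k : α → ℕ} (hm : Poly m) (hq : Poly q) (hb : Poly b) (hk : Poly k) :
    Poly (fun a => iniSt (m a) (q a) (b a) (k a)) := by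
  unfold iniSt Pool.Agent.H591R2.init
  have h1 : Poly (fun a => (((b a * b a + m a) / (2 * q a) : ℕ) : ℤ)) :=
    Poly.natCast_int (by fun_prop)
  have h2 : Poly (fun a => (((2 * q a * k a * k a + 1) / m a : ℕ) : ℤ)) :=
    Poly.natCast_int (by fun_prop)
  have h3 : Poly (fun a => ((b a : ℕ) : ℤ)) := Poly.natCast_int (by fun_prop)
  have h4 : Poly (fun a => ((k a : ℕ) : ℤ)) := Poly.natCast_int (by fun_prop)
  have h5 : Poly (fun a => 2 * ((q a : ℕ) : ℤ)) := by fun_prop
  exact st_mk h5 h3 (Poly.const 0) h1 h4 h2 (Poly.const 0) (Poly.const 0) (Poly.const 1)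

theorem root_poly {m q w : α → ℕ} (hm : Poly m) (hq : Poly q) (hw : Poly w) :
    Poly (fun a => rootOf (m a) (q a) (w a)) := by
  have h1 : Poly (fun a => ((q a - 1) / 2).bits) := Poly.natBits (by fun_prop)
  have h2 : Poly (fun a => qpow (q a) (m a) (w a % max (q a) 1, 1 % max (q a) 1)
      ((q a - 1) / 2).bits) := qpow_poly hq hm (by fun_prop) h1
  have h3 : Poly (fun a => (eg (q a) (qpow (q a) (m a) (w a % max (q a) 1, 1 % max (q a) 1)
      ((q a - 1) / 2).bits).2).2) := Poly.snd (eg_poly hq (Poly.snd h2))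
  unfold rootOf
  simp only
  exact Poly.ite (Poly.dec_eq (Poly.mod h3 (Poly.const 2)) (Poly.const 1)) h3 (Poly.sub hq h3)

theorem qOf_poly {m u y : α → ℕ} (hm : Poly m) (hu : Poly u) (hy : Poly y) :
    Poly (fun a => qOf (m a) (u a) (y a)) := by
  unfold qOf
  fun_prop

theorem three_poly {K m u y w : α → ℕ} (hK : UPoly K) (hm : Poly m) (hu : Poly u) (hy : Poly y)
    (hw : Poly w) : Poly (fun a => three (K a) (m a) (u a) (y a) (w a)) := by
  have hq := qOf_poly hm hu hy
  have hr := root_poly hm hq hw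
  have hk := Poly.snd (eg_poly hm hu)
  have hi := ini_poly hm hq hr hk
  have hM : Poly (fun a => 2 ^ (3000 * K a)) := Poly.npow (Poly.const 2) (uMul 3000 hK)
  have hs := citer_poly hi hM (uMul 7000 hK)
  unfold three
  simp only
  exact Poly.pair (Poly.natAbs (st_x hs)) (Poly.pair (Poly.natAbs (st_y hs))
    (Poly.natAbs (st_z hs)))

theorem tet_poly {m : α → ℕ} (hm : Poly m) : Poly (fun a => tet (m a)) := by
  unfold tet
  fun_prop

theorem valid_poly {n : α → ℕ} {L : α → List ℕ} (hn : Poly n) (hL : Poly L) :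
    Poly (fun a => valid (n a) (L a)) := by
  unfold valid
  have h1 : Poly (fun a => (L a).map tet) :=
    Poly.map (F := fun _ m => tet m) hL (tet_poly (Poly.snd Poly.id))
  have h2 := Poly.sum h1
  fun_prop

theorem mk_poly {s t d d₁ d₂ d₃ : α → ℕ} (hs : Poly s) (ht : Poly t) (hd : Poly d) (h1 : Poly d₁)
    (h2 : Poly d₂) (h3 : Poly d₃) : Poly (fun a => mk (s a) (t a) (d a) (d₁ a) (d₂ a) (d₃ a)) := by
  unfold mk
  fun_prop

theorem core_poly {n K t C e₀ V : α → ℕ} {ρ : α → ℕ × ℕ × ℕ × ℕ} (hK : UPoly K)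
    (ht : Poly t) (hC : Poly C) (he : Poly e₀) (hV : Poly V) (hρ : Poly ρ) :
    Poly (fun a => trialCore (n a) (K a) (t a) (C a) (e₀ a) (V a) (ρ a)) := by
  have hF : Poly (fun a => 2 ^ (100 * K a)) := Poly.npow (Poly.const 2) (uMul 100 hK)
  have hX : Poly (fun a => 2 ^ (2000 * K a + 1)) :=
    Poly.npow (Poly.const 2) ((uMul 2000 hK).add (UPoly.const 1))
  have h1 : Poly (fun a => e₀ a + V a * ((ρ a).1 % 2 ^ (100 * K a))) := by fun_prop
  have h2 : Poly (fun a => (e₀ a + V a * ((ρ a).1 % 2 ^ (100 * K a))) ^ 2) :=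
    Poly.npow h1 (UPoly.const 2)
  have h3 : Poly (fun a => C a - t a * (e₀ a + V a * ((ρ a).1 % 2 ^ (100 * K a))) ^ 2) := by
    fun_prop
  have h4 : Poly (fun a => (ρ a).2.1 %
      max (C a - t a * (e₀ a + V a * ((ρ a).1 % 2 ^ (100 * K a))) ^ 2) 1) := by fun_prop
  have h5 : Poly (fun a => (ρ a).2.2.1 % 2 ^ (2000 * K a + 1)) := by fun_prop
  have h6 : Poly (fun a => (ρ a).2.2.2) := by fun_prop
  have h7 := three_poly hK h3 h4 h5 h6
  have h8 := sOf_poly hK
  have h9 := sig_poly hK
  have h10 := mk_poly h8 ht (Poly.mul h9 h1) (Poly.fst h7) (Poly.fst (Poly.snd h7))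
    (Poly.snd (Poly.snd h7))
  unfold trialCore
  simp only
  exact Poly.filter (p := fun _ m => decide (1 ≤ m)) h10 (by fun_prop)

theorem trial_poly {n : α → ℕ} {ρ : α → ℕ × ℕ × ℕ × ℕ} (hn : Poly n) (hρ : Poly ρ) :
    Poly (fun a => trial (n a) (ρ a)) := by
  have hK := scale_poly hn
  have h1 := core_poly (n := n) hK (tOf_poly hn hK) (COf_poly hn hK) (E0_poly hn hK)
    (Poly.mul (Poly.const 2) (W2_poly hK)) hρ
  unfold trial
  simp only
  exact Poly.ite (Poly.decide_bool (valid_poly hn h1)) (Poly.some h1) (Poly.const none)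

end

end Pool.Agent.NPC.R591
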