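import Pool.Agent.H591R2.ThreeSpec
import Pool.Agent.H591R2.Main1

/-!
# The success probability of one trial
-/

namespace Pool.Agent.H591R2

open Finset

/-- the member of the family with index `f` -/
def mOf (n K f : ℕ) : ℕ := COf n K - tOf n K * (E0 n K + 2 * W2 K * f) ^ 2

/-- properties of the members of the family -/
structure MSpec (n K f : ℕ) : Prop where
  cast : (mOf n K f : ℤ) = (COf n K : ℤ) - tOf n K * (E0 n K + 2 * W2 K * f : ℕ) ^ 2
  pos : 0 < mOf n K f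
  mod8 : mOf n K f % 8 = 3
  le_s : mOf n K f ≤ sOf K ^ 2
  le : mOf n K f ≤ 2 ^ (640 * K)
  big : ∀ p ∈ (mOf n K f).primeFactors, 2 * K < p
  cop : IsCoprime (tOf n K : ℤ) (mOf n K f : ℤ)
  fam : (3 : ℤ) * sOf K * (sOf K ^ 2 - 4 + mOf n K f +
    tOf n K * (E0 n K + 2 * W2 K * f : ℕ) ^ 2) = 24 * n - tOf n K ^ 3 + 4 * tOf n K

theorem sig_odd (K : ℕ) : sig K % 2 = 1 := by
  unfold sig
  rw [Nat.pow_mod]; simp

theorem n_pos {n K : ℕ} (h : Large n K) : 1 ≤ n := by
  have h1 := n_lower h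
  have h2 : 1 ≤ 2 ^ (1000 * K) := Nat.one_le_two_pow
  omega

theorem mOf_spec {n K f : ℕ} (h : Large n K) (hf : f < 2 ^ (100 * K)) : MSpec n K f := by
  obtain ⟨e1, e2, e3, e4⟩ := E0_ESpec h
  obtain ⟨c1, c2, c3, c4, c5, c6, c7, c8, c9⟩ := tOf_TSpec h
  obtain ⟨d1, d2, d3⟩ := COf_CSpec h
  have hn := n_pos h
  have hK := h.pos
  have hlt := e2 f hf
  have hle := e3 f hf
  have hcast : (mOf n K f : ℤ) = (COf n K : ℤ) - tOf n K * (E0 n K + 2 * W2 K * f : ℕ) ^ 2 := by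
    unfold mOf
    rw [Nat.cast_sub hlt.le]
    push_cast; ring
  have hpos : 0 < mOf n K f := by unfold mOf; omega
  have hle616 : mOf n K f ≤ 2 ^ (616 * K) := by unfold mOf; omega
  have hfam : (3 : ℤ) * sOf K * (sOf K ^ 2 - 4 + mOf n K f +
    tOf n K * (E0 n K + 2 * W2 K * f : ℕ) ^ 2) = 24 * n - tOf n K ^ 3 + 4 * tOf n K := by
    rw [hcast, ← d1]; ring
  have hpar := e1 f
  obtain ⟨f1, f2, f3⟩ := Pool.Agent.H591R2.fam hn (rfl : sOf K = sig K ^ 2) (sig_odd K) hfam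
    hpar.symm (by exact_mod_cast hpos) c1 c5
  have hmod : mOf n K f % 8 = 3 := by omega
  refine ⟨hcast, hpos, hmod, ?_, ?_, ?_, ?_, hfam⟩
  · calc mOf n K f ≤ 2 ^ (616 * K) := hle616
      _ ≤ 2 ^ (316 * K * 2) := pow2_le (by omega)
      _ = (2 ^ (316 * K)) ^ 2 := by rw [pow_mul]
      _ ≤ sOf K ^ 2 := Nat.pow_le_pow_left (sOf_ge K) 2
  · exact hle616.trans (pow2_le (by omega))
  · intro p hp
    rw [Nat.mem_primeFactors] at hp
    by_contra hc
    push Not at hc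
    have hp2 : p ≠ 2 := by
      rintro rfl
      omega
    have hp3 : 3 ≤ p := by have := hp.1.two_le; omega
    apply e4 p hp.1 hp3 hc f
    rw [← hcast]
    exact Int.natCast_dvd_natCast.2 hp.2.1
  · rw [hcast]
    exact coprime_t h _

/-- a trial with good random choices succeeds -/
theorem trial_succ {n K : ℕ} (h : Large n K) {ρ : ℕ × ℕ × ℕ × ℕ} {m u y : ℕ}
    (hm : m = mOf n K (ρ.1 % 2 ^ (100 * K))) (hu : u = ρ.2.1 % m)
    (hy : y = ρ.2.2.1 % 2 ^ (2000 * K + 1)) (hq : qOf m u y ∈ PK K)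
    (hw : GoodRoot m (qOf m u y) ρ.2.2.2) : (trial n ρ).isSome = true := by
  have hf : ρ.1 % 2 ^ (100 * K) < 2 ^ (100 * K) := Nat.mod_lt _ (by positivity)
  obtain ⟨m1, m2, m3, m4, m5, m6, m7, m8⟩ := mOf_spec h hf
  rw [← hm] at m1 m2 m3 m4 m5 m6 m7 m8
  rw [PK, mem_filter, mem_Ioo] at hq
  obtain ⟨a, b, c, habc, hthree⟩ := three_spec h.pos m3 m5 hq.2 hq.1.1 hq.1.2 hw
  obtain ⟨e1, e2, e3, e4⟩ := E0_ESpec h
  obtain ⟨c1, c2, c3, c4, c5, c6, c7, c8, c9⟩ := tOf_TSpec h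
  have hrep := fam_rep (n_pos h) (rfl : sOf K = sig K ^ 2) (sig_odd K) m8
    (e1 _).symm (by exact_mod_cast m2) (by exact_mod_cast m4) c1 c5 habc
  have hmax : max m 1 = m := max_eq_left (by omega)
  have hcore : trialCore n K (tOf n K) (COf n K) (E0 n K) (2 * W2 K) ρ =
      (mk (sOf K) (tOf n K) (sig K * (E0 n K + 2 * W2 K * (ρ.1 % 2 ^ (100 * K))))
        a.natAbs b.natAbs c.natAbs).filter (fun m => 1 ≤ m) := by
    have e : trialCore n K (tOf n K) (COf n K) (E0 n K) (2 * W2 K) ρ =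
      (mk (sOf K) (tOf n K) (sig K * (E0 n K + 2 * W2 K * (ρ.1 % 2 ^ (100 * K))))
        (three K (mOf n K (ρ.1 % 2 ^ (100 * K))) (ρ.2.1 % max (mOf n K (ρ.1 % 2 ^ (100 * K))) 1)
          (ρ.2.2.1 % 2 ^ (2000 * K + 1)) ρ.2.2.2).1
        (three K (mOf n K (ρ.1 % 2 ^ (100 * K))) (ρ.2.1 % max (mOf n K (ρ.1 % 2 ^ (100 * K))) 1)
          (ρ.2.2.1 % 2 ^ (2000 * K + 1)) ρ.2.2.2).2.1
        (three K (mOf n K (ρ.1 % 2 ^ (100 * K))) (ρ.2.1 % max (mOf n K (ρ.1 % 2 ^ (100 * K))) 1)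
          (ρ.2.2.1 % 2 ^ (2000 * K + 1)) ρ.2.2.2).2.2).filter (fun m => 1 ≤ m) := rfl
    rw [e, ← hm, hmax, ← hu, ← hy, hthree]
  unfold trial
  simp only
  rw [h.eq, hcore, (valid_iff _ _).2 hrep]
  rfl

/-! ### counting lemmas -/

theorem sum_mod_ge (N m : ℕ) (g : ℕ → ℕ) :
    (N / m) * ∑ u ∈ range m, g u ≤ ∑ b ∈ range N, g (b % m) := by
  rcases Nat.eq_zero_or_pos m with rfl | hm
  · simp
  have key : ∀ j, ∑ b ∈ range (m * j), g (b % m) = j * ∑ u ∈ range m, g u := by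
    intro j
    induction j with
    | zero => simp
    | succ j ih =>
      rw [Nat.mul_succ, sum_range_add, ih, Nat.succ_mul]
      congr 1
      apply sum_congr rfl
      intro u hu
      rw [mem_range] at hu
      rw [Nat.mul_add_mod, Nat.mod_eq_of_lt hu]
  rw [← key]
  apply sum_le_sum_of_subset
  intro b hb
  rw [mem_range] at hb ⊢
  exact lt_of_lt_of_le hb (Nat.mul_div_le N m)

theorem qOf_eq {m u q y : ℕ} (hm : m % 2 = 1) (hq : (m : ℤ) ∣ (u : ℤ) ^ 2 + 2 * q)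
    (hy : y / m = q / m) : qOf m u y = q := by
  have hm0 : 0 < m := by omega
  have h1 := qOf_dvd (u := u) hm y
  have h2 : (m : ℤ) ∣ 2 * ((qOf m u y : ℤ) - q) := by
    have e : (2 : ℤ) * ((qOf m u y : ℤ) - q) = ((u : ℤ) ^ 2 + 2 * qOf m u y) -
      ((u : ℤ) ^ 2 + 2 * q) := by ring
    rw [e]
    exact dvd_sub h1 hq
  have h3 : (m : ℤ) ∣ (qOf m u y : ℤ) - q := by
    apply IsCoprime.dvd_of_dvd_mul_left _ h2
    rw [← Nat.cast_ofNat, Nat.isCoprime_iff_coprime, Nat.coprime_comm]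
    exact Nat.coprime_two_left.2 (Nat.odd_iff.2 hm)
  have h4 : qOf m u y % m = q % m := by
    have := (Int.modEq_iff_dvd.2 h3)
    exact (Int.natCast_modEq_iff.1 this).symm
  have h5 : qOf m u y / m = q / m := by
    unfold qOf
    rw [Nat.mul_add_div hm0, Nat.div_eq_of_lt (Nat.mod_lt _ hm0), add_zero, hy]
  have h6 := Nat.div_add_mod (qOf m u y) m
  have h7 := Nat.div_add_mod q m
  rw [h5, h4, h7] at h6
  exact h6.symm

theorem card_y {m u X : ℕ} (hm : m % 2 = 1) (Q : Finset ℕ) (hQ : ∀ q ∈ Q, q + m ≤ X) :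
    m * #(Q.filter (fun q : ℕ => (m : ℤ) ∣ (u : ℤ) ^ 2 + 2 * q)) ≤
      #((range X).filter (fun y => qOf m u y ∈ Q)) := by
  classical
  have hm0 : 0 < m := by omega
  rw [mul_comm, ← card_range m, ← card_product, card_range]
  apply card_le_card_of_injOn (fun p : ℕ × ℕ => m * (p.1 / m) + p.2)
  · rintro ⟨q, j⟩ hp
    rw [mem_coe, mem_product, mem_filter, mem_range] at hp
    rw [mem_coe, mem_filter, mem_range]
    obtain ⟨⟨h1, h2⟩, h3⟩ := hp
    simp only at h1 h2 h3 ⊢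
    have h4 := hQ q h1
    have h5 := Nat.mul_div_le q m
    refine ⟨by omega, ?_⟩
    rw [qOf_eq hm h2 (by rw [Nat.mul_add_div hm0, Nat.div_eq_of_lt h3, add_zero])]
    exact h1
  · rintro ⟨q, j⟩ hp ⟨q', j'⟩ hp' he
    rw [mem_coe, mem_product, mem_filter, mem_range] at hp hp'
    obtain ⟨⟨h1, h2⟩, h3⟩ := hp
    obtain ⟨⟨h1', h2'⟩, h3'⟩ := hp'
    simp only at h1 h2 h3 h1' h2' h3' he
    have h5 : (m * (q / m) + j) / m = q / m := by
      rw [Nat.mul_add_div hm0, Nat.div_eq_of_lt h3, add_zero]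
    have h6 : (m * (q' / m) + j') / m = q' / m := by
      rw [Nat.mul_add_div hm0, Nat.div_eq_of_lt h3', add_zero]
    have h7 : q / m = q' / m := by rw [← h5, ← h6, he]
    rw [h7] at he
    have hj : j = j' := by omega
    have hq : q = q' := by
      rw [← qOf_eq hm h2 (rfl : q / m = q / m), ← qOf_eq hm h2' h7]
    rw [hq, hj]

theorem sum_sol {m : ℕ} (hm : 0 < m) (Q : Finset ℕ) :
    ∑ u ∈ range m, #(Q.filter (fun q : ℕ => (m : ℤ) ∣ (u : ℤ) ^ 2 + 2 * q)) =
      ∑ q ∈ Q, sol m 1 (-(2 * (q : ℤ))) := by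
  classical
  have : NeZero m := ⟨hm.ne'⟩
  simp_rw [card_filter]
  rw [sum_comm]
  apply sum_congr rfl
  intro q _
  rw [← card_filter]
  unfold sol
  rw [Nat.card_eq_fintype_card, Fintype.card_subtype]
  apply card_nbij' (fun u : ℕ => (u : ZMod m)) (fun z : ZMod m => z.val)
  · intro u hu
    rw [mem_coe, mem_filter, mem_range] at hu
    rw [mem_coe, mem_filter]
    refine ⟨mem_univ _, ?_⟩
    have := (ZMod.intCast_zmod_eq_zero_iff_dvd _ _).2 hu.2
    push_cast at this ⊢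
    linear_combination this
  · intro z hz
    rw [mem_coe, mem_filter] at hz
    rw [mem_coe, mem_filter, mem_range]
    refine ⟨ZMod.val_lt z, ?_⟩
    rw [← ZMod.intCast_zmod_eq_zero_iff_dvd]
    push_cast
    rw [ZMod.natCast_zmod_val]
    have := hz.2
    push_cast at this
    linear_combination this
  · intro u hu
    rw [mem_coe, mem_filter, mem_range] at hu
    exact ZMod.val_cast_of_lt hu.1
  · intro z _
    exact ZMod.natCast_zmod_val z

/-- number of bits of each of the four random numbers of a trial -/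
def bB (K : ℕ) : ℕ := 2001 * K

/-- the number of good choices of the last random number -/
theorem card_d {n K : ℕ} (h : Large n K) {a b c : ℕ} {m u y : ℕ}
    (hm : m = mOf n K (a % 2 ^ (100 * K))) (hu : u = b % m)
    (hy : y = c % 2 ^ (2000 * K + 1)) (hq : qOf m u y ∈ PK K) :
    2 ^ bB K ≤ 8 * #((range (2 ^ bB K)).filter (fun d => (trial n (a, b, c, d)).isSome = true)) := by
  have hf : a % 2 ^ (100 * K) < 2 ^ (100 * K) := Nat.mod_lt _ (by positivity)
  obtain ⟨m1, m2, m3, m4, m5, m6, m7, m8⟩ := mOf_spec h hf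
  rw [← hm] at m1 m2 m3 m4 m5 m6 m7 m8
  have hq' := hq
  rw [PK, mem_filter, mem_Ioo] at hq'
  obtain ⟨⟨q1, q2⟩, q3⟩ := hq'
  have hK := h.pos
  have hq2 : qOf m u y ≠ 2 := by
    have : 2 ^ 1 ≤ 2 ^ (640 * K) := pow2_le (by omega)
    omega
  have hnd : ¬ qOf m u y ∣ m := fun hd => by
    have := Nat.le_of_dvd m2 hd
    omega
  obtain ⟨r, hr⟩ := exists_root m3 q3 hq2 ((Nat.Prime.coprime_iff_not_dvd q3).2 hnd)
    (qOf_dvd (by omega) y)
  have hr2 : ((r : ZMod (qOf m u y))) ^ 2 = -(m : ZMod (qOf m u y)) := by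
    have := (ZMod.intCast_zmod_eq_zero_iff_dvd _ _).2 hr
    push_cast at this
    linear_combination this
  have hr0 : (r : ZMod (qOf m u y)) ≠ 0 := by
    intro h0
    rw [h0] at hr2
    apply hnd
    rw [← ZMod.natCast_eq_zero_iff]
    linear_combination hr2
  apply card_goodRoot q3 hq2 hr2 hr0
  · calc qOf m u y ≤ 2 ^ (2000 * K) := q2.le
      _ ≤ 2 ^ bB K := pow2_le (by unfold bB; omega)
  · intro w hw
    exact trial_succ h hm hu hy hq hw

/-- The number of good random choices for one trial. -/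
theorem prob : ∃ K₀ : ℕ, 2 ^ 600 ≤ K₀ ∧ ∀ n K, scale n = K → K₀ ≤ K →
    (2 ^ bB K) ^ 4 ≤ 256000 * K * ∑ a ∈ range (2 ^ bB K), ∑ b ∈ range (2 ^ bB K),
      ∑ c ∈ range (2 ^ bB K), #((range (2 ^ bB K)).filter
        (fun d => (trial n (a, b, c, d)).isSome = true)) := by
  classical
  obtain ⟨K₁, hK₁⟩ := many_pairs
  refine ⟨max K₁ (2 ^ 600), le_max_right _ _, fun n K hnK hK => ?_⟩
  have h : Large n K := ⟨hnK, (le_max_right _ _).trans hK⟩
  have hK1 : K₁ ≤ K := (le_max_left _ _).trans hK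
  have hKpos := h.pos
  set N := 2 ^ bB K with hN
  set X := 2 ^ (2000 * K + 1) with hX
  set F := 2 ^ (100 * K) with hF
  have hNX : X * (N / X) = N := Nat.mul_div_cancel' (Nat.pow_dvd_pow 2 (by unfold bB; omega))
  have hNF : F * (N / F) = N := Nat.mul_div_cancel' (Nat.pow_dvd_pow 2 (by unfold bB; omega))
  have hms : ∀ f ∈ range F, MSpec n K f := fun f hf => mOf_spec h (mem_range.1 hf)
  have hmain := hK₁ K hK1 (fun f => mOf n K f) (tOf n K) (COf n K) (E0 n K) (2 * W2 K)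
    (fun f hf => by
      obtain ⟨m1, m2, m3, m4, m5, m6, m7, m8⟩ := hms f hf
      refine ⟨?_, ?_, m5, m6, m7⟩
      · rw [m1]; push_cast; ring
      · rw [Nat.odd_iff]; omega)
    (fun p hp hd => by
      have hd' : p ∣ 2 * W2 K := by exact_mod_cast hd
      rcases (Nat.Prime.dvd_mul hp).1 hd' with hd | hd
      · right
        exact (Nat.prime_dvd_prime_iff_eq hp Nat.prime_two).1 hd
      · left
        exact (W2_dvd hp hd).2)
  rw [← hF] at hmain
  -- step 1 : the last random number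
  have s1 : ∀ a b c, N * (if qOf (mOf n K (a % F)) (b % mOf n K (a % F)) (c % X) ∈ PK K then 1 else 0)
      ≤ 8 * #((range N).filter (fun d => (trial n (a, b, c, d)).isSome = true)) := by
    intro a b c
    split_ifs with hq
    · rw [mul_one]; exact card_d h rfl rfl rfl hq
    · simp
  -- step 2 : the third
  have s2 : ∀ a b, N * ((N / X) * (mOf n K (a % F) * #((PK K).filter (fun q : ℕ =>
      ((mOf n K (a % F) : ℕ) : ℤ) ∣ ((b % mOf n K (a % F) : ℕ) : ℤ) ^ 2 + 2 * q)))) ≤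
      8 * ∑ c ∈ range N, #((range N).filter (fun d => (trial n (a, b, c, d)).isSome = true)) := by
    intro a b
    have hf : a % F ∈ range F := mem_range.2 (Nat.mod_lt _ (by positivity))
    obtain ⟨m1, m2, m3, m4, m5, m6, m7, m8⟩ := hms _ hf
    set m := mOf n K (a % F)
    set u := b % m
    have h1 : m * #((PK K).filter (fun q : ℕ => (m : ℤ) ∣ (u : ℤ) ^ 2 + 2 * q)) ≤
        #((range X).filter (fun y => qOf m u y ∈ PK K)) := by
      apply card_y (by omega)
      intro q hq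
      rw [PK, mem_filter, mem_Ioo] at hq
      have : 2 ^ (640 * K) ≤ 2 ^ (2000 * K) := pow2_le (by omega)
      rw [hX, pow_succ]
      omega
    have h2 : (N / X) * #((range X).filter (fun y => qOf m u y ∈ PK K)) ≤
        ∑ c ∈ range N, (if qOf m u (c % X) ∈ PK K then 1 else 0) := by
      have := sum_mod_ge N X (fun y => if qOf m u y ∈ PK K then 1 else 0)
      rw [card_filter]
      exact this
    calc N * ((N / X) * (m * #((PK K).filter (fun q : ℕ => (m : ℤ) ∣ (u : ℤ) ^ 2 + 2 * q)))) ≤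
        N * ∑ c ∈ range N, (if qOf m u (c % X) ∈ PK K then 1 else 0) :=
          Nat.mul_le_mul_left _ ((Nat.mul_le_mul_left _ h1).trans h2)
      _ = ∑ c ∈ range N, N * (if qOf m u (c % X) ∈ PK K then 1 else 0) := by rw [mul_sum]
      _ ≤ ∑ c ∈ range N, 8 * #((range N).filter (fun d => (trial n (a, b, c, d)).isSome = true)) :=
          sum_le_sum fun c _ => s1 a b c
      _ = _ := by rw [mul_sum]
  -- step 3 : the second
  have s3 : ∀ a, N * ((N / X) * (N * ∑ q ∈ PK K, sol (mOf n K (a % F)) 1 (-(2 * (q : ℤ))))) ≤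
      16 * ∑ b ∈ range N, ∑ c ∈ range N,
        #((range N).filter (fun d => (trial n (a, b, c, d)).isSome = true)) := by
    intro a
    have hf : a % F ∈ range F := mem_range.2 (Nat.mod_lt _ (by positivity))
    obtain ⟨m1, m2, m3, m4, m5, m6, m7, m8⟩ := hms _ hf
    have h2 := s2 a
    set m := mOf n K (a % F)
    have h3 := sum_mod_ge N m (fun u => #((PK K).filter (fun q : ℕ =>
      (m : ℤ) ∣ (u : ℤ) ^ 2 + 2 * q)))
    rw [sum_sol m2] at h3
    have hmN : m ≤ N := m5.trans (pow2_le (by unfold bB; omega))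
    have h4 : N ≤ 2 * (m * (N / m)) := by
      have h5 := Nat.div_add_mod N m
      have h6 := Nat.mod_lt N (show m > 0 by omega)
      have h7 : 1 ≤ N / m := Nat.div_pos hmN m2
      nlinarith
    calc N * ((N / X) * (N * ∑ q ∈ PK K, sol m 1 (-(2 * (q : ℤ))))) ≤
        N * ((N / X) * ((2 * (m * (N / m))) * ∑ q ∈ PK K, sol m 1 (-(2 * (q : ℤ))))) := by
          gcongr
      _ = 2 * (N * ((N / X) * (m * ((N / m) * ∑ q ∈ PK K, sol m 1 (-(2 * (q : ℤ))))))) := by ring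
      _ ≤ 2 * (N * ((N / X) * (m * ∑ b ∈ range N, #((PK K).filter (fun q : ℕ =>
            (m : ℤ) ∣ ((b % m : ℕ) : ℤ) ^ 2 + 2 * q))))) := by gcongr
      _ = 2 * ∑ b ∈ range N, N * ((N / X) * (m * #((PK K).filter (fun q : ℕ =>
            (m : ℤ) ∣ ((b % m : ℕ) : ℤ) ^ 2 + 2 * q)))) := by
          rw [mul_sum, mul_sum, mul_sum]
      _ ≤ 2 * ∑ b ∈ range N, 8 * ∑ c ∈ range N,
            #((range N).filter (fun d => (trial n (a, b, c, d)).isSome = true)) :=
          Nat.mul_le_mul_left _ (sum_le_sum fun b _ => h2 b)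
      _ = _ := by rw [← mul_sum]; ring
  -- step 4 : the first
  set G := ∑ a ∈ range N, ∑ b ∈ range N, ∑ c ∈ range N,
        #((range N).filter (fun d => (trial n (a, b, c, d)).isSome = true)) with hG
  set S := ∑ f ∈ range F, ∑ q ∈ PK K, sol (mOf n K f) 1 (-(2 * (q : ℤ))) with hS
  have s4 : N * ((N / X) * (N * ((N / F) * S))) ≤ 16 * G := by
    have h1 := sum_mod_ge N F (fun f => ∑ q ∈ PK K, sol (mOf n K f) 1 (-(2 * (q : ℤ))))
    rw [← hS] at h1
    calc N * ((N / X) * (N * ((N / F) * S))) ≤ N * ((N / X) * (N * ∑ a ∈ range N, ∑ q ∈ PK K,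
          sol (mOf n K (a % F)) 1 (-(2 * (q : ℤ))))) := by gcongr
      _ = ∑ a ∈ range N, N * ((N / X) * (N * ∑ q ∈ PK K,
          sol (mOf n K (a % F)) 1 (-(2 * (q : ℤ))))) := by rw [mul_sum, mul_sum, mul_sum]
      _ ≤ ∑ a ∈ range N, 16 * ∑ b ∈ range N, ∑ c ∈ range N,
        #((range N).filter (fun d => (trial n (a, b, c, d)).isSome = true)) :=
          sum_le_sum fun a _ => s3 a
      _ = _ := by rw [← mul_sum]
  -- conclusion
  have hXF : X = 2 * 2 ^ (2000 * K) := by rw [hX, pow_succ]; ring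
  have hXpos : 0 < X := by positivity
  have hFpos : 0 < F := by positivity
  have h5 : X * F * N ^ 4 ≤ X * F * (256000 * K * G) := by
    have h6 : F * 2 ^ (2000 * K) ≤ 8000 * K * S := hmain
    calc X * F * N ^ 4 = 2 * (F * 2 ^ (2000 * K)) * N ^ 4 := by rw [hXF]; ring
      _ ≤ 2 * (8000 * K * S) * N ^ 4 := by gcongr
      _ = 16000 * K * (N * N * (X * (N / X)) * (F * (N / F)) * S) := by rw [hNX, hNF]; ring
      _ = X * F * (16000 * K) * (N * ((N / X) * (N * ((N / F) * S)))) := by ring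
      _ ≤ X * F * (16000 * K) * (16 * G) := Nat.mul_le_mul_left _ s4
      _ = _ := by ring
  exact Nat.le_of_mul_le_mul_left h5 (Nat.mul_pos hXpos hFpos)

end Pool.Agent.H591R2
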