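import Pool.Agent.H591R2.Spec4
import Pool.Agent.NPC.Num

/-!
# Square roots modulo a prime by a random choice
-/

namespace Pool.Agent.H591R2

open NPC (valB valB_bits)

/-! ### the ring `ZMod q [X] / (X ^ 2 + m)` evaluated at a root -/

/-- evaluation at `X = r` -/
def ev {q : ℕ} (r : ZMod q) (x : ℕ × ℕ) : ZMod q := x.1 + x.2 * r

theorem ev_qmul {q m : ℕ} (hq : 0 < q) {r : ZMod q} (hr : r ^ 2 = -(m : ZMod q)) (x y : ℕ × ℕ) :
    ev r (qmul q m x y) = ev r x * ev r y := by
  unfold ev qmul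
  have hmax : max q 1 = q := max_eq_left hq
  rw [hmax]
  have h1 : x.2 * y.2 % q ≤ q := (Nat.mod_lt _ hq).le
  simp only
  rw [ZMod.natCast_mod, ZMod.natCast_mod, Nat.cast_add, Nat.cast_mul, Nat.cast_mul,
    Nat.cast_sub h1, ZMod.natCast_mod, ZMod.natCast_self]
  push_cast
  linear_combination (-(x.2 : ZMod q) * y.2) * hr

theorem ev_qpow {q m : ℕ} (hq : 0 < q) {r : ZMod q} (hr : r ^ 2 = -(m : ZMod q)) (g : ℕ × ℕ)
    (e : List Bool) : ev r (qpow q m g e) = ev r g ^ valB e := by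
  induction e with
  | nil =>
    unfold qpow ev
    simp only [List.foldr_nil, NPC.valB_nil, pow_zero]
    rw [max_eq_left hq, ZMod.natCast_mod]
    simp
  | cons b e ih =>
    have e1 : qpow q m g (b :: e) = if b then qmul q m (qmul q m (qpow q m g e) (qpow q m g e)) g
      else qmul q m (qpow q m g e) (qpow q m g e) := rfl
    rw [e1, NPC.valB_cons]
    cases b
    · simp only [Bool.false_eq_true, if_false]
      rw [ev_qmul hq hr, ih, zero_add, two_mul, pow_add]
    · simp only [if_true]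
      rw [ev_qmul hq hr, ev_qmul hq hr, ih, pow_add, pow_one, two_mul, pow_add]
      ring

/-- the element `w` leads to a square root -/
def GoodRoot (m q w : ℕ) : Prop :=
  (q ∣ rootOf m q w ^ 2 + m) ∧ rootOf m q w % 2 = 1 ∧ rootOf m q w ≤ q

theorem rootOf_spec {m q w : ℕ} (hq : q.Prime) (hq2 : q ≠ 2) {r : ZMod q}
    (hr : r ^ 2 = -(m : ZMod q))
    (h1 : ((w : ZMod q) + r) ^ ((q - 1) / 2) = -((w : ZMod q) - r) ^ ((q - 1) / 2))
    (h2 : (w : ZMod q) + r ≠ 0) : GoodRoot m q w := by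
  have hfp : Fact q.Prime := ⟨hq⟩
  have hq0 := hq.pos
  have hodd : q % 2 = 1 := Nat.odd_iff.1 (hq.odd_of_ne_two hq2)
  have hmax : max q 1 = q := max_eq_left hq0
  have hr' : (-r) ^ 2 = -(m : ZMod q) := by rw [neg_sq]; exact hr
  set P := qpow q m (w % max q 1, 1 % max q 1) ((q - 1) / 2).bits with hP
  have e1 : ev r P = ((w : ZMod q) + r) ^ ((q - 1) / 2) := by
    rw [hP, ev_qpow hq0 hr, valB_bits]
    congr 1
    unfold ev
    simp [hmax, ZMod.natCast_mod]
  have e2 : ev (-r) P = ((w : ZMod q) - r) ^ ((q - 1) / 2) := by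
    rw [hP, ev_qpow hq0 hr', valB_bits]
    congr 1
    unfold ev
    simp [hmax, ZMod.natCast_mod, sub_eq_add_neg]
  set z := ((w : ZMod q) + r) ^ ((q - 1) / 2) with hz
  have hz2 : z ^ 2 = 1 := by
    rw [hz, ← pow_mul, show (q - 1) / 2 * 2 = q - 1 by omega]
    exact ZMod.pow_card_sub_one_eq_one h2
  have h2' : (2 : ZMod q) ≠ 0 := by
    intro h
    have : ((2 : ℕ) : ZMod q) = 0 := by exact_mod_cast h
    rw [ZMod.natCast_eq_zero_iff] at this
    exact hq2 ((Nat.prime_dvd_prime_iff_eq hq Nat.prime_two).1 this)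
  unfold ev at e1 e2
  have ha : (P.1 : ZMod q) = 0 := by
    have : (2 : ZMod q) * P.1 = 0 := by linear_combination e1 + e2 + h1
    rcases mul_eq_zero.1 this with h | h
    · exact absurd h h2'
    · exact h
  rw [ha, zero_add] at e1
  have hb0 : (P.2 : ZMod q) ≠ 0 := by
    intro h
    rw [h, zero_mul] at e1
    rw [← e1] at hz2
    simp at hz2
  have hcop : Nat.gcd q P.2 = 1 := by
    rw [← Nat.Coprime, Nat.Prime.coprime_iff_not_dvd hq]
    intro h
    exact hb0 ((ZMod.natCast_eq_zero_iff _ _).2 h)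
  obtain ⟨_, i2, i3⟩ := eg_spec (m := q) (u := P.2) hq0
  rw [hcop] at i3
  set β := (eg q P.2).2 with hβ
  have hβ2 : (β : ZMod q) ^ 2 = -m := by
    push_cast at i3
    have hb2 : (P.2 : ZMod q) ^ 2 * r ^ 2 = 1 := by
      rw [← mul_pow, e1, hz2]
    have h3 : (β : ZMod q) ^ 2 * ((P.2 : ZMod q) ^ 2 * r ^ 2) = r ^ 2 := by
      have : (β : ZMod q) ^ 2 * ((P.2 : ZMod q) ^ 2 * r ^ 2) = (β * P.2 : ZMod q) ^ 2 * r ^ 2 := by ring
      rw [this, i3]; ring
    rw [hb2, mul_one, hr] at h3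
    exact h3
  have hroot : rootOf m q w = if β % 2 = 1 then β else q - β := rfl
  have key : ∀ b : ℕ, (b : ZMod q) ^ 2 = -m → q ∣ b ^ 2 + m := by
    intro b hb
    rw [← ZMod.natCast_eq_zero_iff]
    push_cast
    rw [hb]; ring
  unfold GoodRoot
  rw [hroot]
  split_ifs with hp
  · exact ⟨key β hβ2, hp, i2.le⟩
  · refine ⟨key _ ?_, by omega, by omega⟩
    rw [Nat.cast_sub i2.le, ZMod.natCast_self, zero_sub, neg_sq]
    exact hβ2

/-- the number of nonresidues -/
theorem card_nonres {q : ℕ} (hq : q.Prime) (hq2 : q ≠ 2) :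
    (q - 1) / 2 ≤ Nat.card {z : ZMod q // z ^ ((q - 1) / 2) = -1} := by
  classical
  have hfp : Fact q.Prime := ⟨hq⟩
  have hodd : q % 2 = 1 := Nat.odd_iff.1 (hq.odd_of_ne_two hq2)
  have h2 := hq.two_le
  have h1 : Fintype.card {z : ZMod q // z ^ ((q - 1) / 2) = 1} ≤ (q - 1) / 2 := by
    have hsub : (Finset.univ.filter (fun z : ZMod q => z ^ ((q - 1) / 2) = 1)) ⊆
        (Polynomial.nthRoots ((q - 1) / 2) (1 : ZMod q)).toFinset := by
      intro z hz
      rw [Finset.mem_filter] at hz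
      rw [Multiset.mem_toFinset, Polynomial.mem_nthRoots (by omega)]
      exact hz.2
    rw [Fintype.card_subtype]
    calc _ ≤ _ := Finset.card_le_card hsub
      _ ≤ _ := Multiset.toFinset_card_le _
      _ ≤ _ := Polynomial.card_nthRoots _ _
  have h3 : Fintype.card {z : ZMod q // z ≠ 0} ≤
      Fintype.card {z : ZMod q // z ^ ((q - 1) / 2) = 1} +
      Fintype.card {z : ZMod q // z ^ ((q - 1) / 2) = -1} := by
    rw [Fintype.card_subtype, Fintype.card_subtype, Fintype.card_subtype]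
    refine le_trans (Finset.card_le_card ?_) (Finset.card_union_le _ _)
    intro z hz
    rw [Finset.mem_filter] at hz
    rw [Finset.mem_union, Finset.mem_filter, Finset.mem_filter]
    have h4 : z ^ ((q - 1) / 2) = 1 ∨ z ^ ((q - 1) / 2) = -1 := by
      rw [← sq_eq_one_iff, ← pow_mul, show (q - 1) / 2 * 2 = q - 1 by omega]
      exact ZMod.pow_card_sub_one_eq_one hz.2
    rcases h4 with h | h
    · left; exact ⟨Finset.mem_univ _, h⟩
    · right; exact ⟨Finset.mem_univ _, h⟩
  have h5 : Fintype.card {z : ZMod q // z ≠ 0} = q - 1 := by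
    rw [Fintype.card_subtype_compl, ZMod.card, Fintype.card_subtype_eq]
  rw [Nat.card_eq_fintype_card]
  omega

/-- the element attached to a nonresidue -/
theorem w_of_nonres {q : ℕ} [hfp : Fact q.Prime] (hq2 : q ≠ 2) {r z : ZMod q} (hr0 : r ≠ 0)
    (hz : z ^ ((q - 1) / 2) = -1) (w : ZMod q) (hw : w = r + 2 * r / (z - 1)) :
    (w + r) ^ ((q - 1) / 2) = -(w - r) ^ ((q - 1) / 2) ∧ w + r ≠ 0 ∧
      (w - r ≠ 0 ∧ z = (w + r) / (w - r)) := by
  have hq : q.Prime := hfp.out
  have hodd : q % 2 = 1 := Nat.odd_iff.1 (hq.odd_of_ne_two hq2)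
  have h2' : (2 : ZMod q) ≠ 0 := by
    intro h
    have : ((2 : ℕ) : ZMod q) = 0 := by exact_mod_cast h
    rw [ZMod.natCast_eq_zero_iff] at this
    exact hq2 ((Nat.prime_dvd_prime_iff_eq hq Nat.prime_two).1 this)
  have h2 := hq.two_le
  have hz1 : z - 1 ≠ 0 := by
    intro h
    have : z = 1 := by linear_combination h
    rw [this, one_pow] at hz
    apply h2'
    linear_combination hz
  have hz0 : z ≠ 0 := by
    rintro rfl
    rw [zero_pow (by omega)] at hz
    exact one_ne_zero (α := ZMod q) (by linear_combination hz)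
  have e1 : w - r = 2 * r / (z - 1) := by rw [hw]; ring
  have e2 : w + r = z * (2 * r / (z - 1)) := by rw [hw]; field_simp; ring
  have h3 : 2 * r / (z - 1) ≠ 0 := div_ne_zero (mul_ne_zero h2' hr0) hz1
  refine ⟨?_, ?_, ?_, ?_⟩
  · rw [e1, e2, mul_pow, hz]; ring
  · rw [e2]; exact mul_ne_zero hz0 h3
  · rw [e1]; exact h3
  · rw [e1, e2]; field_simp

theorem card_goodRoot_lt {m q : ℕ} [hfp : Fact q.Prime] (hq2 : q ≠ 2) {r : ZMod q}
    (hr : r ^ 2 = -(m : ZMod q)) (hr0 : r ≠ 0) : ∀ j : ℕ,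
    (q - 1) / 2 ≤ Nat.card {w : Fin q // GoodRoot m q (q * j + w)} := by
  classical
  intro j
  have hq : q.Prime := hfp.out
  refine (card_nonres hq hq2).trans ?_
  let g : {z : ZMod q // z ^ ((q - 1) / 2) = -1} → {w : Fin q // GoodRoot m q (q * j + w)} :=
    fun z => ⟨⟨(r + 2 * r / ((z : ZMod q) - 1)).val, ZMod.val_lt _⟩, by
      obtain ⟨h1, h2, _⟩ := w_of_nonres hq2 hr0 z.2 _ rfl
      have e : ((q * j + (r + 2 * r / ((z : ZMod q) - 1)).val : ℕ) : ZMod q) =
          r + 2 * r / ((z : ZMod q) - 1) := by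
        push_cast
        rw [ZMod.natCast_zmod_val, ZMod.natCast_self]
        ring
      apply rootOf_spec hq hq2 hr
      · simp only
        rw [e]; exact h1
      · simp only
        rw [e]; exact h2⟩
  apply Nat.card_le_card_of_injective g
  intro z z' h
  have h1 : (r + 2 * r / ((z : ZMod q) - 1)).val = (r + 2 * r / ((z' : ZMod q) - 1)).val :=
    congrArg (fun w => (w.1 : ℕ)) h
  have h2 : r + 2 * r / ((z : ZMod q) - 1) = r + 2 * r / ((z' : ZMod q) - 1) :=
    ZMod.val_injective q h1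
  obtain ⟨_, _, _, h3⟩ := w_of_nonres hq2 hr0 z.2 _ rfl
  obtain ⟨_, _, _, h4⟩ := w_of_nonres hq2 hr0 z'.2 _ rfl
  apply Subtype.ext
  rw [h3, h4, h2]

open Finset in
theorem card_goodRoot {m q N : ℕ} (hq : q.Prime) (hq2 : q ≠ 2) {r : ZMod q}
    (hr : r ^ 2 = -(m : ZMod q)) (hr0 : r ≠ 0) (hN : q ≤ N) (P : ℕ → Prop) [DecidablePred P]
    (hP : ∀ w, GoodRoot m q w → P w) : N ≤ 8 * #((range N).filter P) := by
  classical
  have hfp : Fact q.Prime := ⟨hq⟩
  have h2 := hq.two_le
  have h1 : (N / q) * ((q - 1) / 2) ≤ #((range N).filter P) := by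
    have hcard : (N / q) * ((q - 1) / 2) ≤ #((range (N / q)).sigma (fun j =>
          (univ : Finset (Fin q)).filter (fun w : Fin q => GoodRoot m q (q * j + (w : ℕ))))) := by
      rw [card_sigma]
      calc (N / q) * ((q - 1) / 2) = ∑ _j ∈ range (N / q), (q - 1) / 2 := by
            rw [sum_const, card_range, smul_eq_mul]
        _ ≤ _ := by
            apply sum_le_sum
            intro j _
            have := card_goodRoot_lt hq2 hr hr0 j
            rwa [Nat.card_eq_fintype_card, Fintype.card_subtype] at this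
    refine hcard.trans ?_
    apply card_le_card_of_injOn (fun x : (_ : ℕ) × Fin q => q * x.1 + (x.2 : ℕ))
    · rintro ⟨j, w⟩ hx
      simp only [mem_coe, mem_sigma, mem_range, mem_filter, mem_univ, true_and] at hx
      simp only [mem_coe, mem_filter, mem_range]
      refine ⟨?_, hP _ hx.2⟩
      have h3 := w.2
      have h4 : q * (j + 1) ≤ q * (N / q) := Nat.mul_le_mul_left _ hx.1
      have h5 := Nat.mul_div_le N q
      have h6 : q * (j + 1) = q * j + q := by ring
      omega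
    · rintro ⟨j, w⟩ hx ⟨j', w'⟩ hx' h
      simp only at h
      have h3 := w.2
      have h4 := w'.2
      have h5 : (q * j + (w : ℕ)) / q = j := by
        rw [Nat.mul_add_div (by omega), Nat.div_eq_of_lt h3, add_zero]
      have h6 : (q * j' + (w' : ℕ)) / q = j' := by
        rw [Nat.mul_add_div (by omega), Nat.div_eq_of_lt h4, add_zero]
      have hj : j = j' := by rw [← h5, ← h6, h]
      subst hj
      have hw : w = w' := Fin.ext (by omega)
      subst hw
      rfl
  have hodd : q % 2 = 1 := Nat.odd_iff.1 (hq.odd_of_ne_two hq2)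
  have h3 : 2 * q ≤ 8 * ((q - 1) / 2) := by omega
  have h4 : 1 ≤ N / q := Nat.div_pos hN (by omega)
  have h5 : N < q * (N / q) + q := by
    have := Nat.div_add_mod N q
    have := Nat.mod_lt N (show q > 0 by omega)
    omega
  calc N ≤ (N / q) * (2 * q) := by nlinarith
    _ ≤ (N / q) * (8 * ((q - 1) / 2)) := Nat.mul_le_mul_left _ h3
    _ = 8 * ((N / q) * ((q - 1) / 2)) := by ring
    _ ≤ _ := Nat.mul_le_mul_left _ h1

end Pool.Agent.H591R2
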