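import Pool.Agent.H591R2.Alg

/-!
# Specifications of the arithmetic subroutines
-/

namespace Pool.Agent.H591R2

/-! ### extended Euclid -/

/-- invariant of the extended Euclidean algorithm -/
structure EgInv (m u : ℕ) (s : ℕ × ℕ × ℕ × ℕ) : Prop where
  pos : 0 < s.1
  lt : s.2.1 ≤ s.1
  gcd : Nat.gcd s.1 s.2.1 = Nat.gcd m u
  c0 : ((s.2.2.1 * u : ℕ) : ZMod m) = s.1
  c1 : ((s.2.2.2 * u : ℕ) : ZMod m) = s.2.1
  b0 : s.2.2.1 < m
  b1 : s.2.2.2 < m
  le0 : s.1 ≤ m

theorem egStep_inv {m u : ℕ} (hm : 0 < m) {s : ℕ × ℕ × ℕ × ℕ} (h : EgInv m u s) :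
    EgInv m u (egStep m s) := by
  obtain ⟨r0, r1, x0, x1⟩ := s
  obtain ⟨hp, hlt, hg, hc0, hc1, hb0, hb1, hle⟩ := h
  simp only at hp hlt hg hc0 hc1 hb0 hb1 hle
  unfold egStep
  simp only
  split_ifs with h0
  · exact ⟨hp, hlt, hg, hc0, hc1, hb0, hb1, hle⟩
  · have hmax : max m 1 = m := max_eq_left hm
    refine ⟨by simp only; omega, ?_, ?_, hc1, ?_, hb1, ?_, by simp only; omega⟩
    · simp only
      exact (Nat.mod_lt _ (by omega)).le
    · simp only
      rw [← hg, Nat.gcd_comm r1, ← Nat.gcd_rec, Nat.gcd_comm]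
    · simp only
      rw [hmax]
      have h1 : r0 % r1 + r1 * (r0 / r1) = r0 := Nat.mod_add_div r0 r1
      have h2 : ((r0 % r1 : ℕ) : ZMod m) = r0 - r1 * (r0 / r1 : ℕ) := by
        rw [eq_sub_iff_add_eq]
        exact_mod_cast congrArg (Nat.cast (R := ZMod m)) h1
      rw [h2]
      have hmod : ((r0 / r1 * x1) % m : ℕ) ≤ m := (Nat.mod_lt _ hm).le
      push_cast at hc0 hc1 ⊢
      rw [ZMod.natCast_mod, Nat.cast_add, Nat.cast_sub hmod, ZMod.natCast_mod, ZMod.natCast_self]
      push_cast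
      rw [← hc0, ← hc1]
      ring
    · simp only
      rw [hmax]
      exact Nat.mod_lt _ hm

theorem egStep_prod {m : ℕ} {s : ℕ × ℕ × ℕ × ℕ} (hlt : s.2.1 ≤ s.1) (h0 : s.2.1 ≠ 0) :
    2 * ((egStep m s).1 * (egStep m s).2.1) ≤ s.1 * s.2.1 := by
  obtain ⟨r0, r1, x0, x1⟩ := s
  simp only at hlt h0
  unfold egStep
  simp only [h0, if_false]
  have h1 : r0 % r1 + r1 * (r0 / r1) = r0 := Nat.mod_add_div r0 r1
  have h2 : 1 ≤ r0 / r1 := Nat.div_pos hlt (by omega)
  have h3 : r0 % r1 < r1 := Nat.mod_lt _ (by omega)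
  have h4 : 2 * (r0 % r1) ≤ r0 := by nlinarith
  nlinarith

theorem egStep_zero {m : ℕ} {s : ℕ × ℕ × ℕ × ℕ} (h0 : s.2.1 = 0) : egStep m s = s := by
  unfold egStep; simp [h0]

theorem eg_iter {m u : ℕ} (hm : 0 < m) (k : ℕ) : ∀ {s : ℕ × ℕ × ℕ × ℕ}, EgInv m u s →
    s.1 * s.2.1 < 2 ^ k →
    EgInv m u ((egStep m)^[k] s) ∧ ((egStep m)^[k] s).2.1 = 0 := by
  induction k with
  | zero =>
    intro s h hk
    refine ⟨h, ?_⟩
    have := h.pos
    simp only [pow_zero, Nat.lt_one_iff, mul_eq_zero] at hk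
    rcases hk with hk | hk
    · omega
    · exact hk
  | succ k ih =>
    intro s h hk
    rw [Function.iterate_succ_apply]
    apply ih (egStep_inv hm h)
    by_cases h0 : s.2.1 = 0
    · rw [egStep_zero h0, h0]
      simp
    · have := egStep_prod (m := m) h.lt h0
      rw [pow_succ] at hk
      omega

theorem eg_inv0 {m u : ℕ} (hm : 0 < m) : EgInv m u (m, u % max m 1, 0, 1 % max m 1) := by
  have hmax : max m 1 = m := max_eq_left hm
  rw [hmax]
  refine ⟨hm, (Nat.mod_lt _ hm).le, ?_, ?_, ?_, hm, Nat.mod_lt _ hm, le_rfl⟩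
  · simp only
    rw [Nat.gcd_comm m (u % m), ← Nat.gcd_rec]
  · simp
  · simp only
    push_cast
    rw [ZMod.natCast_mod, ZMod.natCast_mod]
    simp

theorem eg_spec {m u : ℕ} (hm : 0 < m) :
    (eg m u).1 = Nat.gcd m u ∧ (eg m u).2 < m ∧
      (((eg m u).2 * u : ℕ) : ZMod m) = (Nat.gcd m u : ℕ) := by
  have h0 := eg_inv0 (u := u) hm
  have hb : m * (u % max m 1) < 2 ^ (2 * m.size + 1) := by
    have h1 : m < 2 ^ m.size := Nat.lt_size_self m
    have h2 : u % max m 1 ≤ m := by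
      rw [max_eq_left hm]; exact (Nat.mod_lt _ hm).le
    calc m * (u % max m 1) ≤ m * m := Nat.mul_le_mul_left _ h2
      _ ≤ 2 ^ m.size * 2 ^ m.size := Nat.mul_le_mul h1.le h1.le
      _ = 2 ^ (2 * m.size) := by rw [← pow_add]; congr 1; ring
      _ < 2 ^ (2 * m.size + 1) := Nat.pow_lt_pow_right (by norm_num) (by omega)
  obtain ⟨h1, h2⟩ := eg_iter hm (2 * m.size + 1) h0 hb
  have hg := h1.gcd
  rw [h2, Nat.gcd_zero_right] at hg
  unfold eg
  simp only
  refine ⟨hg, h1.b0, ?_⟩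
  rw [h1.c0, hg]

theorem eg_bound (m u : ℕ) : ∀ k, let s := (egStep m)^[k] (m, u % max m 1, 0, 1 % max m 1)
    s.1 ≤ m ∧ s.2.1 ≤ m ∧ s.2.2.1 ≤ m ∧ s.2.2.2 ≤ m := by
  intro k
  rcases Nat.eq_zero_or_pos m with rfl | hm
  · have : (egStep 0)^[k] (0, u % max 0 1, 0, 1 % max 0 1) = (0, u % max 0 1, 0, 1 % max 0 1) := by
      apply Function.iterate_fixed
      apply egStep_zero
      simp [Nat.mod_one]
    rw [this]
    simp [Nat.mod_one]
  · have key : EgInv m u ((egStep m)^[k] (m, u % max m 1, 0, 1 % max m 1)) := by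
      induction k with
      | zero => exact eg_inv0 hm
      | succ k ih => rw [Function.iterate_succ_apply']; exact egStep_inv hm ih
    exact ⟨key.le0, key.lt.trans key.le0, key.b0.le, key.b1.le⟩

/-! ### binary search -/

theorem bs_iter (P : ℕ → Bool) (b : ℕ) : ∀ r, P r = true → P (r + 2 ^ b) = false →
    P ((bsStep P)^[b] (r, 2 ^ b)).1 = true ∧ P (((bsStep P)^[b] (r, 2 ^ b)).1 + 1) = false := by
  induction b with
  | zero => intro r h1 h2; simpa using ⟨h1, h2⟩
  | succ b ih =>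
    intro r h1 h2
    rw [Function.iterate_succ_apply]
    have e : bsStep P (r, 2 ^ (b + 1)) = (if P (r + 2 ^ b) then r + 2 ^ b else r, 2 ^ b) := by
      unfold bsStep
      simp [pow_succ]
    rw [e]
    split_ifs with h
    · apply ih _ h
      rw [show r + 2 ^ b + 2 ^ b = r + 2 ^ (b + 1) by rw [pow_succ]; ring]
      exact h2
    · exact ih _ h1 (by simpa using h)

theorem bs_spec (P : ℕ → Bool) (b : ℕ) (h0 : P 0 = true) (hb : P (2 ^ b) = false) :
    P (bs P b) = true ∧ P (bs P b + 1) = false :=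
  bs_iter P b 0 h0 (by simpa using hb)

/-! ### primes -/

theorem mem_plist {w p : ℕ} : p ∈ plist w ↔ p ≤ w ∧ p.Prime := by
  unfold plist
  rw [List.mem_filter, List.mem_range, Bool.and_eq_true, decide_eq_true_eq, List.all_eq_true]
  constructor
  · rintro ⟨h1, h2, h3⟩
    refine ⟨by omega, ?_⟩
    rw [Nat.prime_def_lt]
    refine ⟨h2, fun d hd hdp => ?_⟩
    have := h3 d (List.mem_range.2 (by omega))
    simp only [Bool.or_eq_true, decide_eq_true_eq, Bool.not_eq_true', decide_eq_false_iff_not] at this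
    rcases this with (h | h) | h
    · have : d ≠ 0 := by rintro rfl; rw [zero_dvd_iff] at hdp; omega
      omega
    · omega
    · exact absurd (Nat.mod_eq_zero_of_dvd hdp) h
  · rintro ⟨h1, h2⟩
    refine ⟨by omega, h2.two_le, fun d _ => ?_⟩
    simp only [Bool.or_eq_true, decide_eq_true_eq, Bool.not_eq_true', decide_eq_false_iff_not]
    by_cases hd : d < 2
    · left; left; exact hd
    by_cases hp : p ≤ d
    · left; right; exact hp
    · right
      intro h
      rcases (Nat.dvd_prime h2).1 (Nat.dvd_of_mod_eq_zero h) with h | h <;> omega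

theorem nodup_plist (w : ℕ) : (plist w).Nodup := List.Nodup.filter _ List.nodup_range

theorem prod_le_primorial (w : ℕ) (P : ℕ → Bool) : ((plist w).filter P).prod ≤ 4 ^ w := by
  refine le_trans ?_ (primorial_le_four_pow w)
  have hn : ((plist w).filter P).Nodup := (nodup_plist w).filter _
  have e := List.prod_toFinset (fun p : ℕ => p) hn
  rw [List.map_id'] at e
  rw [← e]
  unfold primorial
  apply Finset.prod_le_prod_of_subset_of_one_le'
  · intro p hp
    rw [List.mem_toFinset, List.mem_filter, mem_plist] at hp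
    rw [Finset.mem_filter, Finset.mem_range]
    exact ⟨by omega, hp.1.2⟩
  · intro p hp _
    rw [Finset.mem_filter] at hp
    exact hp.2.one_lt.le

end Pool.Agent.H591R2
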