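import Pool.Agent.H591R2.Spec1

/-!
# Specifications of the choice of the parameters
-/

namespace Pool.Agent.H591R2

/-! ### the `3`-adic root -/

theorem t0Step_cast (M c t : ℕ) (hM : 0 < M) :
    ((t0Step M c t : ℕ) : ℤ) ≡ (t : ℤ) ^ 3 - 3 * t - c [ZMOD M] := by
  unfold t0Step
  have h1 : (3 * t + c) % M ≤ M := (Nat.mod_lt _ hM).le
  push_cast [Nat.cast_sub h1]
  have h2 : ((t : ℤ) ^ 3 + (M - (3 * t + c) % M)) % M ≡ (t : ℤ) ^ 3 + (M - (3 * t + c) % M) [ZMOD M] :=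
    Int.mod_modEq _ _
  refine h2.trans ?_
  have h3 : ((3 * t + c : ℤ) % M) ≡ 3 * t + c [ZMOD M] := Int.mod_modEq _ _
  have h4 : (M : ℤ) ≡ 0 [ZMOD M] := by simp [Int.ModEq]
  calc (t : ℤ) ^ 3 + (M - (3 * t + c) % M) ≡ (t : ℤ) ^ 3 + (0 - (3 * t + c)) [ZMOD M] := by
        gcongr
    _ = (t : ℤ) ^ 3 - 3 * t - c := by ring

theorem t0_iter (k c : ℕ) (hc : 3 ∣ c) : ∀ j ≤ k,
    ((((t0Step (3 ^ (k + 1)) c)^[j] 1 : ℕ) : ℤ) % 3 = 1 ∧
      (3 : ℤ) ^ (j + 1) ∣ (((t0Step (3 ^ (k + 1)) c)^[j] 1 : ℕ) : ℤ) ^ 3 -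
        4 * ((t0Step (3 ^ (k + 1)) c)^[j] 1 : ℕ) - c) := by
  intro j
  induction j with
  | zero =>
    intro _
    refine ⟨by simp, ?_⟩
    obtain ⟨d, rfl⟩ := hc
    simp only [Function.iterate_zero, id_eq, zero_add, pow_one]
    refine ⟨-1 - d, by push_cast; ring⟩
  | succ j ih =>
    intro hj
    obtain ⟨h1, h2⟩ := ih (by omega)
    rw [Function.iterate_succ_apply']
    set t := (t0Step (3 ^ (k + 1)) c)^[j] 1
    have hst := t0Step_cast (3 ^ (k + 1)) c t (by positivity)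
    set t' := t0Step (3 ^ (k + 1)) c t
    have h3 : (3 : ℤ) ∣ (t : ℤ) ^ 3 - 4 * t - c := (dvd_pow_self 3 (by omega)).trans h2
    have hst3 : (t' : ℤ) ≡ (t : ℤ) ^ 3 - 3 * t - c [ZMOD 3] :=
      hst.of_dvd (by push_cast; exact dvd_pow_self 3 (by omega))
    have hstj : (t' : ℤ) ≡ (t : ℤ) ^ 3 - 3 * t - c [ZMOD 3 ^ (j + 2)] :=
      hst.of_dvd (by push_cast; exact pow_dvd_pow 3 (by omega))
    refine ⟨?_, ?_⟩
    · unfold Int.ModEq at hst3
      omega
    · have e : ((t : ℤ) ^ 3 - 3 * t - c) ^ 3 - 4 * ((t : ℤ) ^ 3 - 3 * t - c) - c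
        = ((t : ℤ) ^ 3 - 4 * t - c) * (3 * ((t : ℤ) ^ 2 - 1 + t * ((t : ℤ) ^ 3 - 4 * t - c)) +
          ((t : ℤ) ^ 3 - 4 * t - c) ^ 2) := by ring
      have h4 : (3 : ℤ) ^ (j + 2) ∣ ((t : ℤ) ^ 3 - 3 * t - c) ^ 3 -
          4 * ((t : ℤ) ^ 3 - 3 * t - c) - c := by
        rw [e, pow_succ (3 : ℤ) (j + 1)]
        apply mul_dvd_mul h2
        apply dvd_add (dvd_mul_right _ _)
        exact h3.trans (dvd_pow_self _ (by norm_num))
      have h5 : (t' : ℤ) ^ 3 - 4 * t' - c ≡ ((t : ℤ) ^ 3 - 3 * t - c) ^ 3 -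
          4 * ((t : ℤ) ^ 3 - 3 * t - c) - c [ZMOD 3 ^ (j + 2)] := by
        gcongr
      exact (Int.ModEq.dvd_iff h5).2 h4

theorem t0_spec (n k : ℕ) : t0 n k % 3 = 1 ∧
    (3 : ℤ) ^ (k + 1) ∣ (t0 n k : ℤ) ^ 3 - 4 * t0 n k - 24 * n := by
  obtain ⟨h1, h2⟩ := t0_iter k (24 * n) ⟨8 * n, by ring⟩ k le_rfl
  unfold t0
  refine ⟨by omega, ?_⟩
  push_cast at h2 ⊢
  exact h2

/-! ### avoiding small primes -/

theorem iStep_fold (T S : ℕ) : ∀ (l : List ℕ) (s : ℕ × ℕ), l.Nodup → (∀ p ∈ l, p.Prime) →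
    (∀ p ∈ l, ¬ p ∣ S) → (∀ p ∈ l, ¬ p ∣ s.2) → 0 < s.2 → s.1 < s.2 →
    (l.foldl (iStep T S) s).2 = s.2 * l.prod ∧ (l.foldl (iStep T S) s).1 < s.2 * l.prod ∧
      (∀ p ∈ l, (T + S * (l.foldl (iStep T S) s).1) % p ≠ 0) ∧
      (l.foldl (iStep T S) s).1 ≡ s.1 [MOD s.2] := by
  intro l
  induction l with
  | nil =>
    intro s _ _ _ _ _ h
    simp only [List.foldl_nil, List.prod_nil, mul_one, List.not_mem_nil, false_imp_iff,
      implies_true, true_and]
    exact ⟨h, rfl⟩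
  | cons p l ih =>
    intro s hn hp hS hs h0 h
    rw [List.nodup_cons] at hn
    have hpp := hp p List.mem_cons_self
    have hpS := hS p List.mem_cons_self
    have hps := hs p List.mem_cons_self
    rw [List.foldl_cons]
    set s' := iStep T S s p with hs'
    have e2 : s'.2 = s.2 * p := rfl
    have e1 : s'.1 = if (T + S * s.1) % p = 0 then s.1 + s.2 else s.1 := rfl
    have hlt : s'.1 < s'.2 := by
      rw [e1, e2]
      have := hpp.two_le
      split_ifs <;> nlinarith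
    have hs2 : ∀ r ∈ l, ¬ r ∣ s'.2 := by
      intro r hr hd
      rw [e2] at hd
      have hrp := hp r (List.mem_cons_of_mem _ hr)
      rcases (Nat.Prime.dvd_mul hrp).1 hd with hd | hd
      · exact hs r (List.mem_cons_of_mem _ hr) hd
      · rw [Nat.prime_dvd_prime_iff_eq hrp hpp] at hd
        subst hd
        exact hn.1 hr
    obtain ⟨i1, i2, i3, i4⟩ := ih s' hn.2 (fun r hr => hp r (List.mem_cons_of_mem _ hr))
      (fun r hr => hS r (List.mem_cons_of_mem _ hr)) hs2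
      (by rw [e2]; exact Nat.mul_pos h0 hpp.pos) hlt
    have e3 : s.2 * (p :: l).prod = s'.2 * l.prod := by rw [List.prod_cons, e2]; ring
    rw [e3]
    refine ⟨i1, i2, ?_, ?_⟩
    · intro r hr
      rcases List.mem_cons.1 hr with rfl | hr
      · have h5 : (l.foldl (iStep T S) s').1 ≡ s'.1 [MOD r] := i4.of_dvd (by rw [e2]; exact dvd_mul_left _ _)
        have h6 : T + S * (l.foldl (iStep T S) s').1 ≡ T + S * s'.1 [MOD r] := by gcongr
        unfold Nat.ModEq at h6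
        rw [h6, e1]
        split_ifs with hc
        · intro hc'
          have h7 : r ∣ T + S * s.1 := Nat.dvd_of_mod_eq_zero hc
          have h8 : r ∣ T + S * (s.1 + s.2) := Nat.dvd_of_mod_eq_zero hc'
          rw [show T + S * (s.1 + s.2) = (T + S * s.1) + S * s.2 by ring,
            Nat.dvd_add_right h7] at h8
          rcases (Nat.Prime.dvd_mul hpp).1 h8 with h9 | h9
          · exact hpS h9
          · exact hps h9
        · exact hc
      · exact i3 r hr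
    · have h5 : (l.foldl (iStep T S) s').1 ≡ s'.1 [MOD s.2] := i4.of_dvd (by rw [e2]; exact dvd_mul_right _ _)
      refine h5.trans ?_
      rw [e1]
      split_ifs
      · simp [Nat.ModEq]
      · rfl

/-- a quadratic polynomial modulo a prime misses zero at one of three distinct places -/
theorem quad_miss {p : ℕ} (hp : p.Prime) (hp2 : p ≠ 2) {C t x P : ℤ} (ht : ¬ (p : ℤ) ∣ t)
    (hP : ¬ (p : ℤ) ∣ P) (h1 : (p : ℤ) ∣ C - t * x ^ 2) (h2 : (p : ℤ) ∣ C - t * (x + 2 * P) ^ 2)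
    (h3 : (p : ℤ) ∣ C - t * (x + 4 * P) ^ 2) : False := by
  have hpi : Prime (p : ℤ) := Nat.prime_iff_prime_int.1 hp
  have h4 : (p : ℤ) ∣ 8 * t * P ^ 2 := by
    have e : 8 * t * P ^ 2 = -(C - t * x ^ 2) + 2 * (C - t * (x + 2 * P) ^ 2) -
      (C - t * (x + 4 * P) ^ 2) := by ring
    rw [e]
    exact dvd_sub (dvd_add ((dvd_neg).2 h1) (dvd_mul_of_dvd_right h2 _)) h3
  rcases hpi.dvd_or_dvd h4 with h | h
  · rcases hpi.dvd_or_dvd h with h | h
    · have h5 : p ∣ 8 := by exact_mod_cast h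
      have h6 : p ∣ 2 := hp.dvd_of_dvd_pow (show p ∣ 2 ^ 3 by simpa using h5)
      exact hp2 ((Nat.prime_dvd_prime_iff_eq hp Nat.prime_two).1 h6)
    · exact ht h
  · exact hP (hpi.dvd_of_dvd_pow h)

theorem aStep_fold (C t e B : ℕ) (hB : ∀ a, a ≤ B → t * (e + a) ^ 2 ≤ C) :
    ∀ (l : List ℕ) (s : ℕ × ℕ), l.Nodup → (∀ p ∈ l, p.Prime) → (∀ p ∈ l, p ≠ 2) →
    (∀ p ∈ l, ¬ p ∣ t) → (∀ p ∈ l, ¬ p ∣ s.2) → 0 < s.2 → s.1 < 2 * s.2 →
    2 * (s.2 * l.prod) ≤ B → s.1 % 2 = 0 →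
    (l.foldl (aStep C t e) s).2 = s.2 * l.prod ∧
      (l.foldl (aStep C t e) s).1 < 2 * (s.2 * l.prod) ∧ (l.foldl (aStep C t e) s).1 % 2 = 0 ∧
      (∀ p ∈ l, ¬ (p : ℤ) ∣ (C : ℤ) - t * (e + (l.foldl (aStep C t e) s).1 : ℕ) ^ 2) ∧
      (l.foldl (aStep C t e) s).1 ≡ s.1 [MOD s.2] := by
  intro l
  induction l with
  | nil =>
    intro s _ _ _ _ _ _ h _ he
    simp only [List.foldl_nil, List.prod_nil, mul_one, List.not_mem_nil, false_imp_iff,
      implies_true, true_and]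
    exact ⟨h, he, rfl⟩
  | cons p l ih =>
    intro s hn hp hp2 ht hs h0 h hBB he
    rw [List.nodup_cons] at hn
    have hpp := hp p List.mem_cons_self
    have hpp2 := hp2 p List.mem_cons_self
    have hpt := ht p List.mem_cons_self
    have hps := hs p List.mem_cons_self
    have hp3 : 3 ≤ p := by
      have := hpp.two_le
      omega
    rw [List.foldl_cons]
    set s' := aStep C t e s p with hs'
    have e2 : s'.2 = s.2 * p := rfl
    have e3 : s.2 * (p :: l).prod = s'.2 * l.prod := by rw [List.prod_cons, e2]; ring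
    rw [e3] at hBB
    have hl1 : 1 ≤ l.prod := List.prod_pos (fun a ha => (hp a (List.mem_cons_of_mem _ ha)).pos)
    have hs'B : 2 * s'.2 ≤ B := le_trans (by nlinarith [Nat.le_mul_of_pos_right s'.2 hl1]) hBB
    have h6 : 6 * s.2 ≤ 2 * s'.2 := by rw [e2]; nlinarith
    -- the value of the first component
    have e1 : (s'.1 = s.1 ∨ s'.1 = s.1 + 2 * s.2 ∨ s'.1 = s.1 + 4 * s.2) ∧
        ¬ (p : ℤ) ∣ (C : ℤ) - t * (e + s'.1 : ℕ) ^ 2 := by
      have c1 : t * (e + s.1) ^ 2 ≤ C := hB _ (by omega)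
      have c2 : t * (e + (s.1 + 2 * s.2)) ^ 2 ≤ C := hB _ (by omega)
      have c3 : t * (e + (s.1 + 4 * s.2)) ^ 2 ≤ C := hB _ (by omega)
      have k1 : (C - t * (e + s.1) ^ 2) % p = 0 ↔
          (p : ℤ) ∣ (C : ℤ) - t * (e + s.1 : ℕ) ^ 2 := by
        rw [← Nat.dvd_iff_mod_eq_zero, ← Int.natCast_dvd_natCast, Nat.cast_sub c1]
        push_cast; rfl
      have k2 : (C - t * (e + (s.1 + 2 * s.2)) ^ 2) % p = 0 ↔
          (p : ℤ) ∣ (C : ℤ) - t * (e + (s.1 + 2 * s.2) : ℕ) ^ 2 := by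
        rw [← Nat.dvd_iff_mod_eq_zero, ← Int.natCast_dvd_natCast, Nat.cast_sub c2]
        push_cast; rfl
      have es : s'.1 = if ¬ (C - t * (e + s.1) ^ 2) % p = 0 then s.1
        else if ¬ (C - t * (e + (s.1 + 2 * s.2)) ^ 2) % p = 0 then s.1 + 2 * s.2
        else s.1 + 4 * s.2 := rfl
      by_cases d1 : (C - t * (e + s.1) ^ 2) % p = 0
      · by_cases d2 : (C - t * (e + (s.1 + 2 * s.2)) ^ 2) % p = 0
        · have es' : s'.1 = s.1 + 4 * s.2 := by rw [es]; simp [d1, d2]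
          rw [es']; exact ⟨Or.inr (Or.inr rfl), fun hd => by
            apply quad_miss hpp hpp2 (C := C) (t := t) (x := (e + s.1 : ℕ)) (P := s.2)
            · exact_mod_cast hpt
            · exact_mod_cast hps
            · exact k1.1 d1
            · have : ((e + s.1 : ℕ) : ℤ) + 2 * s.2 = ((e + (s.1 + 2 * s.2) : ℕ) : ℤ) := by
                push_cast; ring
              rw [this]; exact k2.1 d2
            · have : ((e + s.1 : ℕ) : ℤ) + 4 * s.2 = ((e + (s.1 + 4 * s.2) : ℕ) : ℤ) := by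
                push_cast; ring
              rw [this]; exact hd⟩
        · have es' : s'.1 = s.1 + 2 * s.2 := by rw [es]; simp [d1, d2]
          rw [es']; exact ⟨Or.inr (Or.inl rfl), fun h => d2 (k2.2 h)⟩
      · have es' : s'.1 = s.1 := by rw [es]; simp [d1]
        rw [es']; exact ⟨Or.inl rfl, fun h => d1 (k1.2 h)⟩
    obtain ⟨e1, e1'⟩ := e1
    have hlt : s'.1 < 2 * s'.2 := by
      rcases e1 with h | h | h <;> omega
    have hs2 : ∀ r ∈ l, ¬ r ∣ s'.2 := by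
      intro r hr hd
      rw [e2] at hd
      have hrp := hp r (List.mem_cons_of_mem _ hr)
      rcases (Nat.Prime.dvd_mul hrp).1 hd with hd | hd
      · exact hs r (List.mem_cons_of_mem _ hr) hd
      · rw [Nat.prime_dvd_prime_iff_eq hrp hpp] at hd
        subst hd
        exact hn.1 hr
    have he' : s'.1 % 2 = 0 := by rcases e1 with h | h | h <;> omega
    obtain ⟨i1, i2, i3, i4, i5⟩ := ih s' hn.2 (fun r hr => hp r (List.mem_cons_of_mem _ hr))
      (fun r hr => hp2 r (List.mem_cons_of_mem _ hr))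
      (fun r hr => ht r (List.mem_cons_of_mem _ hr)) hs2
      (by rw [e2]; exact Nat.mul_pos h0 hpp.pos) hlt hBB he'
    rw [e3]
    refine ⟨i1, i2, i3, ?_, ?_⟩
    · intro r hr
      rcases List.mem_cons.1 hr with rfl | hr
      · have h5 : (l.foldl (aStep C t e) s').1 ≡ s'.1 [MOD r] :=
          i5.of_dvd (by rw [e2]; exact dvd_mul_left _ _)
        have h7 : (((l.foldl (aStep C t e) s').1 : ℕ) : ℤ) ≡ (s'.1 : ℕ) [ZMOD r] :=
          Int.natCast_modEq_iff.2 h5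
        have h8 : (C : ℤ) - t * (e + (l.foldl (aStep C t e) s').1 : ℕ) ^ 2 ≡
            (C : ℤ) - t * (e + s'.1 : ℕ) ^ 2 [ZMOD r] := by
          push_cast
          gcongr
        intro hd
        exact e1' ((Int.ModEq.dvd_iff h8).1 hd)
      · exact i4 r hr
    · have h5 : (l.foldl (aStep C t e) s').1 ≡ s'.1 [MOD s.2] :=
        i5.of_dvd (by rw [e2]; exact dvd_mul_right _ _)
      refine h5.trans ?_
      rcases e1 with h | h | h <;> rw [h] <;> simp [Nat.ModEq]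

end Pool.Agent.H591R2
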