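import Pool.Agent.H591R2.Spec2

/-!
# The deterministic parameters for large `n`
-/

namespace Pool.Agent.H591R2

section

variable {n K : ℕ}

/-- comparison of powers of two -/
theorem pow2_le {a b : ℕ} (h : a ≤ b) : 2 ^ a ≤ 2 ^ b := Nat.pow_le_pow_right (by norm_num) h

theorem pow2_mul {a b c : ℕ} (h : a + b = c) : 2 ^ a * 2 ^ b = 2 ^ c := by rw [← pow_add, h]

/-- the hypothesis that `n` is large, with scale `K` -/
structure Large (n K : ℕ) : Prop where
  eq : scale n = K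
  big : 2 ^ 600 ≤ K

theorem Large.pos (h : Large n K) : 1 ≤ K :=
  le_trans (Nat.one_le_two_pow (n := 600)) h.big

theorem Large.two_thousand (h : Large n K) : 2000 ≤ K := by
  refine le_trans ?_ h.big
  calc 2000 ≤ 2 ^ 11 := by norm_num
    _ ≤ 2 ^ 600 := pow2_le (by norm_num)

theorem scale_lower (n : ℕ) : 1000 * scale n ≤ n.size := by
  unfold scale
  have := Nat.div_mul_le_self n.size 1000
  omega

theorem scale_upper (n : ℕ) : n.size < 1000 * scale n + 1000 := by
  unfold scale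
  omega

theorem n_lower (h : Large n K) : 2 ^ (1000 * K) ≤ 2 * n := by
  have h1 := scale_lower n
  rw [h.eq] at h1
  have h2 := h.pos
  have h3 : 2 ^ (n.size - 1) ≤ n := by
    by_contra hc
    push Not at hc
    have := Nat.size_le.2 hc
    omega
  calc 2 ^ (1000 * K) ≤ 2 ^ (n.size - 1 + 1) := Nat.pow_le_pow_right (by norm_num) (by omega)
    _ = 2 * 2 ^ (n.size - 1) := by rw [pow_succ]; ring
    _ ≤ 2 * n := Nat.mul_le_mul_left _ h3

theorem n_upper (h : Large n K) : n < 2 ^ (1000 * K + 999) := by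
  have h1 := scale_upper n
  rw [h.eq] at h1
  calc n < 2 ^ n.size := Nat.lt_size_self n
    _ ≤ 2 ^ (1000 * K + 999) := Nat.pow_le_pow_right (by norm_num) (by omega)

theorem sOf_eq (K : ℕ) : sOf K = 3 ^ (200 * K) := by
  unfold sOf sig
  rw [← pow_mul]
  congr 1; ring

theorem sOf_le (K : ℕ) : sOf K ≤ 2 ^ (317 * K) := by
  rw [sOf_eq, show 200 * K = 200 * K by rfl, pow_mul, pow_mul 2]
  exact Nat.pow_le_pow_left (by decide +kernel) _

theorem sOf_ge (K : ℕ) : 2 ^ (316 * K) ≤ sOf K := by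
  rw [sOf_eq, pow_mul 2, pow_mul 3]
  exact Nat.pow_le_pow_left (by decide +kernel) _

theorem sOf_pos (K : ℕ) : 0 < sOf K := by rw [sOf_eq]; positivity

theorem three_s_eq (K : ℕ) : 3 * sOf K = 3 ^ (200 * K + 1) := by rw [sOf_eq, pow_succ]; ring

theorem s_cube_le (h : Large n K) : 8 * sOf K ^ 3 ≤ n := by
  have h1 := n_lower h
  have h2 := h.pos
  have h3 := sOf_le K
  have h4 : sOf K ^ 3 ≤ 2 ^ (951 * K) := by
    calc sOf K ^ 3 ≤ (2 ^ (317 * K)) ^ 3 := Nat.pow_le_pow_left h3 3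
      _ = 2 ^ (951 * K) := by rw [← pow_mul]; congr 1; ring
  have h5 : 16 * 2 ^ (951 * K) ≤ 2 ^ (1000 * K) := by
    calc 16 * 2 ^ (951 * K) = 2 ^ (951 * K + 4) := by rw [pow_add]; ring
      _ ≤ 2 ^ (1000 * K) := pow2_le (by omega)
  omega

/-! ### the lower bound for `t` -/

/-- integer cube root of `7 n` -/
def rt (n : ℕ) : ℕ := bs (fun r => decide (r ^ 3 ≤ 7 * n)) n.size.succ.succ.succ

theorem rt_spec (n : ℕ) : rt n ^ 3 ≤ 7 * n ∧ 7 * n < (rt n + 1) ^ 3 := by
  have := bs_spec (fun r => decide (r ^ 3 ≤ 7 * n)) n.size.succ.succ.succ (by simp) (by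
    simp only [decide_eq_false_iff_not, not_le]
    have h1 : n < 2 ^ n.size := Nat.lt_size_self n
    have h2 : 7 * n < 8 * 2 ^ n.size := by omega
    calc 7 * n < 8 * 2 ^ n.size := h2
      _ = 2 ^ n.size.succ.succ.succ := by simp only [pow_succ, Nat.succ_eq_add_one]; ring
      _ = (2 ^ n.size.succ.succ.succ) ^ 1 := (pow_one _).symm
      _ ≤ (2 ^ n.size.succ.succ.succ) ^ 3 := Nat.pow_le_pow_right (by positivity) (by norm_num))
  simp only [decide_eq_true_eq, decide_eq_false_iff_not, not_le] at this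
  exact this

theorem rt_lower (h : Large n K) : 2 ^ (333 * K) ≤ rt n + 1 := by
  obtain ⟨_, h2⟩ := rt_spec n
  have h3 := n_lower h
  have h4 := h.pos
  by_contra hc
  push Not at hc
  have h5 : (rt n + 1) ^ 3 ≤ (2 ^ (333 * K)) ^ 3 := Nat.pow_le_pow_left hc.le 3
  have h6 : (2 ^ (333 * K)) ^ 3 ≤ 2 ^ (1000 * K) := by
    rw [← pow_mul]; exact pow2_le (by omega)
  omega

theorem T1_eq (n K : ℕ) : T1 n K = rt n + 1 + (t0 n (200 * K) + (3 * sOf K - (rt n + 1) % (3 * sOf K)))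
    % (3 * sOf K) := rfl

theorem T1_bounds (n K : ℕ) : rt n + 1 ≤ T1 n K ∧ T1 n K ≤ rt n + 3 * sOf K := by
  rw [T1_eq]
  have := sOf_pos K
  have := Nat.mod_lt (t0 n (200 * K) + (3 * sOf K - (rt n + 1) % (3 * sOf K)))
    (show 3 * sOf K > 0 by omega)
  omega

theorem T1_modEq (n K : ℕ) : T1 n K ≡ t0 n (200 * K) [MOD 3 * sOf K] := by
  rw [T1_eq]
  have h0 := sOf_pos K
  set S := 3 * sOf K
  have hS : 0 < S := by omega
  set r := rt n + 1
  set t := t0 n (200 * K)
  have h1 : r % S ≤ S := (Nat.mod_lt _ hS).le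
  have h2 : (t + (S - r % S)) % S ≡ t + (S - r % S) [MOD S] := Nat.mod_modEq _ _
  have h3 : r ≡ r % S [MOD S] := (Nat.mod_modEq _ _).symm
  calc r + (t + (S - r % S)) % S ≡ r % S + (t + (S - r % S)) [MOD S] := h3.add h2
    _ = t + S := by omega
    _ ≡ t + 0 [MOD S] := Nat.ModEq.add_left _ (by simp [Nat.ModEq])
    _ = t := by ring

theorem not_dvd_three_s {p : ℕ} (hp : p.Prime) (h3 : p ≠ 3) (K : ℕ) : ¬ p ∣ 3 * sOf K := by
  rw [three_s_eq]
  intro h
  exact h3 ((Nat.prime_dvd_prime_iff_eq hp Nat.prime_three).1 (hp.dvd_of_dvd_pow h))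

theorem iW_spec (n K : ℕ) : (iW n K).2 = ((plist (2 * K)).filter (fun p => decide (5 ≤ p))).prod ∧
    (iW n K).1 < (iW n K).2 ∧
    ∀ p, p.Prime → 5 ≤ p → p ≤ 2 * K → ¬ p ∣ T1 n K + 3 * sOf K * (iW n K).1 := by
  have hn : ((plist (2 * K)).filter (fun p => decide (5 ≤ p))).Nodup := (nodup_plist _).filter _
  have hmem : ∀ p, p ∈ (plist (2 * K)).filter (fun p => decide (5 ≤ p)) ↔
      p.Prime ∧ 5 ≤ p ∧ p ≤ 2 * K := by
    intro p
    rw [List.mem_filter, mem_plist, decide_eq_true_eq]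
    tauto
  obtain ⟨h1, h2, h3, _⟩ := iStep_fold (T1 n K) (3 * sOf K) _ (0, 1) hn
    (fun p hp => ((hmem p).1 hp).1)
    (fun p hp => not_dvd_three_s ((hmem p).1 hp).1 (by have := ((hmem p).1 hp).2.1; omega) K)
    (fun p hp => by
      simp only [Nat.dvd_one]
      exact ((hmem p).1 hp).1.one_lt.ne') (by norm_num) (by norm_num)
  simp only [one_mul] at h1 h2
  refine ⟨h1, ?_, ?_⟩
  · unfold iW; rw [h1]; exact h2
  · intro p hp h5 hK hd
    exact h3 p ((hmem p).2 ⟨hp, h5, hK⟩) (Nat.mod_eq_zero_of_dvd hd)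

theorem iW_le (n K : ℕ) : 0 < (iW n K).2 ∧ (iW n K).2 ≤ 2 ^ (4 * K) := by
  obtain ⟨h1, h2, _⟩ := iW_spec n K
  refine ⟨by omega, ?_⟩
  rw [h1]
  refine (prod_le_primorial _ _).trans (le_of_eq ?_)
  rw [show (4 : ℕ) = 2 ^ 2 by norm_num, ← pow_mul]
  congr 1
  rw [show (2 : ℕ) ^ 2 = 4 by norm_num]; ring

theorem iW_dvd {n K p : ℕ} (hp : p.Prime) (h : p ∣ (iW n K).2) : 5 ≤ p ∧ p ≤ 2 * K := by
  rw [(iW_spec n K).1, Prime.dvd_prod_iff hp.prime] at h
  obtain ⟨q, hq, hpq⟩ := h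
  rw [List.mem_filter, mem_plist, decide_eq_true_eq] at hq
  rw [Nat.prime_dvd_prime_iff_eq hp hq.1.2] at hpq
  subst hpq
  exact ⟨hq.2, hq.1.1⟩

/-! ### candidates -/

theorem tCand_modEq (n K g : ℕ) : tCand n K g ≡ t0 n (200 * K) [MOD 3 * sOf K] := by
  unfold tCand
  have : T1 n K + 3 * sOf K * ((iW n K).1 + (iW n K).2 * g) ≡ T1 n K + 0 [MOD 3 * sOf K] := by
    apply Nat.ModEq.add_left
    simp [Nat.ModEq]
  exact this.trans (T1_modEq n K)

theorem tCand_mod_three (n K g : ℕ) : tCand n K g % 3 = 1 := by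
  have h1 : tCand n K g ≡ t0 n (200 * K) [MOD 3] :=
    (tCand_modEq n K g).of_dvd (dvd_mul_right 3 _)
  rw [h1]
  exact (t0_spec n (200 * K)).1

theorem tCand_root (n K g : ℕ) : (3 * sOf K : ℤ) ∣ (tCand n K g : ℤ) ^ 3 - 4 * tCand n K g - 24 * n := by
  have h1 : ((tCand n K g : ℕ) : ℤ) ≡ (t0 n (200 * K) : ℕ) [ZMOD (3 * sOf K : ℕ)] :=
    Int.natCast_modEq_iff.2 (tCand_modEq n K g)
  have h2 : (tCand n K g : ℤ) ^ 3 - 4 * tCand n K g - 24 * n ≡
      (t0 n (200 * K) : ℤ) ^ 3 - 4 * t0 n (200 * K) - 24 * n [ZMOD (3 * sOf K : ℕ)] := by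
    gcongr
  have h3 := (t0_spec n (200 * K)).2
  have h4 : ((3 : ℤ) ^ (200 * K + 1)) = ((3 * sOf K : ℕ) : ℤ) := by
    rw [three_s_eq]; push_cast; rfl
  rw [h4] at h3
  have := (Int.ModEq.dvd_iff h2).2 h3
  push_cast at this
  exact this

theorem tCand_not_dvd {n K g p : ℕ} (hp : p.Prime) (h5 : 5 ≤ p) (hK : p ≤ 2 * K) :
    ¬ p ∣ tCand n K g := by
  obtain ⟨h1, _, h3⟩ := iW_spec n K
  intro hd
  have hP : p ∣ (iW n K).2 := by
    rw [h1]
    apply List.dvd_prod
    rw [List.mem_filter, mem_plist, decide_eq_true_eq]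
    exact ⟨⟨hK, hp⟩, h5⟩
  apply h3 p hp h5 hK
  have e : tCand n K g = (T1 n K + 3 * sOf K * (iW n K).1) + (iW n K).2 * (3 * sOf K * g) := by
    unfold tCand; ring
  rw [e] at hd
  exact (Nat.dvd_add_left (hP.mul_right _)).1 hd

/-- bound for the increment -/
theorem tCand_bounds (h : Large n K) {g : ℕ} (hg : g < 4 * K) :
    rt n + 1 ≤ tCand n K g ∧ 4 * tCand n K g ≤ 5 * rt n := by
  have h1 := T1_bounds n K
  have h2 := iW_spec n K
  have h3 := iW_le n K
  have h4 := rt_lower h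
  have h5 := sOf_le K
  have h6 := h.pos
  have e : tCand n K g = T1 n K + 3 * sOf K * ((iW n K).1 + (iW n K).2 * g) := rfl
  have h7 : (iW n K).1 + (iW n K).2 * g + 1 ≤ 2 ^ (4 * K) * 2 ^ (3 * K) := by
    have h8 : (iW n K).1 + (iW n K).2 * g + 1 ≤ (iW n K).2 * (4 * K) := by
      have : (iW n K).2 * (g + 1) ≤ (iW n K).2 * (4 * K) := Nat.mul_le_mul_left _ hg
      nlinarith [h2.2.1]
    have h9 : 4 * K ≤ 2 ^ (3 * K) := by
      have ha : K < 2 ^ K := Nat.lt_two_pow_self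
      have hb : 2 * 2 ^ K ≤ 2 ^ K * 2 ^ K := Nat.mul_le_mul_right _ (by
        calc 2 = 2 ^ 1 := rfl
          _ ≤ 2 ^ K := pow2_le h6)
      have hc : 2 ^ (3 * K) = 2 ^ K * 2 ^ K * 2 ^ K := by rw [← pow_add, ← pow_add]; congr 1; ring
      rw [hc]
      nlinarith
    exact h8.trans (Nat.mul_le_mul h3.2 h9)
  have h8 : 3 * sOf K * ((iW n K).1 + (iW n K).2 * g + 1) ≤ 4 * 2 ^ (324 * K) := by
    calc 3 * sOf K * ((iW n K).1 + (iW n K).2 * g + 1) ≤
        (4 * 2 ^ (317 * K)) * (2 ^ (4 * K) * 2 ^ (3 * K)) := Nat.mul_le_mul (by omega) h7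
      _ = 4 * 2 ^ (324 * K) := by rw [mul_assoc, ← pow_add, ← pow_add]; congr 2; ring
  have h9 : 64 * 2 ^ (324 * K) ≤ 2 ^ (333 * K) := by
    calc 64 * 2 ^ (324 * K) = 2 ^ (324 * K + 6) := by rw [pow_add]; ring
      _ ≤ 2 ^ (333 * K) := pow2_le (by omega)
  have h10 : 1 ≤ 2 ^ (324 * K) := Nat.one_le_two_pow
  have h11 : 3 * sOf K * ((iW n K).1 + (iW n K).2 * g + 1) =
    3 * sOf K * ((iW n K).1 + (iW n K).2 * g) + 3 * sOf K := by ring
  rw [e]
  constructor
  · omega
  · omega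

/-! ### the choice of `t` -/

theorem Rof_cast (h : Large n K) :
    (Rof n K : ℤ) = 8 * n - sOf K ^ 3 + 4 * sOf K := by
  have := s_cube_le h
  unfold Rof
  rw [Nat.cast_sub (by omega)]
  push_cast; ring

theorem Rof_odd (h : Large n K) : Rof n K % 2 = 1 := by
  have h1 := Rof_cast h
  have h2 : (sOf K ^ 3) % 2 = 1 := by
    rw [sOf_eq, ← pow_mul, Nat.pow_mod]; simp
  have h3 : ((sOf K : ℤ) ^ 3) % 2 = 1 := by exact_mod_cast h2
  omega

theorem Rof_pos (h : Large n K) : 0 < Rof n K := by have := Rof_odd h; omega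

theorem Rof_lt (h : Large n K) : Rof n K < 2 ^ (1000 * K + 1003) := by
  have h1 := s_cube_le h
  have h2 := n_upper h
  have h3 := sOf_pos K
  have h4 : sOf K ≤ sOf K ^ 3 := by
    calc sOf K = sOf K ^ 1 := (pow_one _).symm
      _ ≤ sOf K ^ 3 := Nat.pow_le_pow_right h3 (by norm_num)
  have h5 : 2 ^ (1000 * K + 1003) = 16 * 2 ^ (1000 * K + 999) := by
    rw [show 1000 * K + 1003 = 1000 * K + 999 + 4 by ring, pow_add _ _ 4]; ring
  unfold Rof
  omega

theorem card_big_primes (h : Large n K) :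
    2 * ((Rof n K).primeFactors.filter (fun p => 2 * K < p)).card < 4 * K := by
  set Q := (Rof n K).primeFactors.filter (fun p => 2 * K < p) with hQ
  have hL : 2 ^ 600 ≤ K := h.big
  have h1 : (2 ^ 600) ^ Q.card ≤ ∏ p ∈ Q, p := by
    apply Finset.pow_card_le_prod
    intro p hp
    rw [Finset.mem_filter] at hp
    exact hL.trans (by omega)
  have h2 : ∏ p ∈ Q, p ≤ Rof n K := by
    apply Nat.le_of_dvd (Rof_pos h)
    refine (Finset.prod_dvd_prod_of_subset _ _ _ (Finset.filter_subset _ _)).trans ?_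
    exact Nat.prod_primeFactors_dvd _
  have h3 := Rof_lt h
  have h4 : 2 ^ (600 * Q.card) < 2 ^ (1000 * K + 1003) := by
    rw [pow_mul]; exact (h1.trans h2).trans_lt h3
  have h5 := (Nat.pow_lt_pow_iff_right (by norm_num : 1 < 2)).1 h4
  have h6 := h.two_thousand
  omega

theorem exists_g (h : Large n K) : ∃ g < 4 * K,
    Nat.gcd (tCand n K g) (Rof n K) = 1 := by
  classical
  by_contra hc
  push Not at hc
  set Q := (Rof n K).primeFactors.filter (fun p => 2 * K < p) with hQ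
  have hcard := card_big_primes h
  rw [← hQ] at hcard
  have hbad : ∀ g < 4 * K, ∃ p ∈ Q, p ∣ tCand n K g := by
    intro g hg
    obtain ⟨p, hp, hpd⟩ := Nat.exists_prime_and_dvd (hc g hg)
    have hp1 : p ∣ tCand n K g := hpd.trans (Nat.gcd_dvd_left _ _)
    have hp2 : p ∣ Rof n K := hpd.trans (Nat.gcd_dvd_right _ _)
    refine ⟨p, ?_, hp1⟩
    rw [hQ, Finset.mem_filter, Nat.mem_primeFactors]
    refine ⟨⟨hp, hp2, (Rof_pos h).ne'⟩, ?_⟩
    by_contra hle
    push Not at hle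
    have h2 : p ≠ 2 := by
      rintro rfl
      have := Rof_odd h
      omega
    have h3 : p ≠ 3 := by
      rintro rfl
      have := tCand_mod_three n K g
      omega
    have h5 : 5 ≤ p := by
      have := hp.two_le
      have h4 : p ≠ 4 := by rintro rfl; revert hp; decide
      omega
    exact tCand_not_dvd hp h5 hle hp1
  choose! f hf1 hf2 using hbad
  have hinj : Set.InjOn (fun g => (f g, g / (2 * K))) (Finset.range (4 * K) : Set ℕ) := by
    intro g hg g' hg' e
    rw [Finset.coe_range, Set.mem_Iio] at hg hg'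
    simp only [Prod.mk.injEq] at e
    obtain ⟨e1, e2⟩ := e
    have hq := hf1 g hg
    rw [hQ, Finset.mem_filter, Nat.mem_primeFactors] at hq
    obtain ⟨⟨hp, _, _⟩, hbig⟩ := hq
    have d1 := hf2 g hg
    have d2 := hf2 g' hg'
    rw [← e1] at d2
    set p := f g
    have hKpos := h.two_thousand
    -- difference
    have key : ∀ a b : ℕ, a ≤ b → p ∣ tCand n K a → p ∣ tCand n K b → b < a + 2 * K → a = b := by
      intro a b hab ha hb hlt
      obtain ⟨c, rfl⟩ := Nat.exists_eq_add_of_le hab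
      have e : tCand n K (a + c) = tCand n K a + 3 * sOf K * ((iW n K).2 * c) := by
        unfold tCand; ring
      rw [e, Nat.dvd_add_right ha] at hb
      rcases (Nat.Prime.dvd_mul hp).1 hb with hb | hb
      · exact absurd hb (not_dvd_three_s hp (by omega) K)
      · rcases (Nat.Prime.dvd_mul hp).1 hb with hb | hb
        · have := iW_dvd hp hb
          omega
        · have : c = 0 := by
            by_contra hc0
            have := Nat.le_of_dvd (by omega) hb
            omega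
          omega
    have hd1 := Nat.div_add_mod g (2 * K)
    have hd2 := Nat.div_add_mod g' (2 * K)
    have hm1 := Nat.mod_lt g (show 2 * K > 0 by omega)
    have hm2 := Nat.mod_lt g' (show 2 * K > 0 by omega)
    rw [e2] at hd1
    rcases le_total g g' with hle | hle
    · exact key g g' hle d1 d2 (by omega)
    · exact (key g' g hle d2 d1 (by omega)).symm
  have hsub : ∀ g ∈ Finset.range (4 * K), (fun g => (f g, g / (2 * K))) g ∈ Q ×ˢ Finset.range 2 := by
    intro g hg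
    rw [Finset.mem_range] at hg
    rw [Finset.mem_product, Finset.mem_range]
    refine ⟨hf1 g hg, ?_⟩
    have hKpos := h.pos
    rw [Nat.div_lt_iff_lt_mul (by omega)]
    omega
  have := Finset.card_le_card_of_injOn _ hsub hinj
  rw [Finset.card_range, Finset.card_product, Finset.card_range] at this
  omega

theorem tOf_spec (h : Large n K) : ∃ g < 4 * K, tOf n K = tCand n K g ∧
    Nat.gcd (tOf n K) (Rof n K) = 1 := by
  obtain ⟨g, hg, hgcd⟩ := exists_g h
  have hpos : ∀ g, 0 < tCand n K g := fun g => by have := tCand_mod_three n K g; omega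
  have hmem : ∀ g, g ∈ (List.range (4 * K)).filter (fun g => decide ((eg (tCand n K g) (Rof n K)).1 = 1))
      ↔ g < 4 * K ∧ Nat.gcd (tCand n K g) (Rof n K) = 1 := by
    intro g
    rw [List.mem_filter, List.mem_range, decide_eq_true_eq, (eg_spec (hpos g)).1]
  unfold tOf
  cases hl : (List.range (4 * K)).filter (fun g => decide ((eg (tCand n K g) (Rof n K)).1 = 1)) with
  | nil =>
    have := (hmem g).2 ⟨hg, hgcd⟩
    rw [hl] at this
    simp at this
  | cons a l =>
    have := (hmem a).1 (by rw [hl]; simp)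
    exact ⟨a, this.1, rfl, this.2⟩

end

end Pool.Agent.H591R2
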