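import Pool.Agent.H591R2.Spec3

/-!
# The deterministic parameters for large `n`, continued
-/

namespace Pool.Agent.H591R2

section

variable {n K : ℕ}

theorem pow_cube_le {a b : ℕ} (h : a ^ 3 ≤ b ^ 3) : a ≤ b := by
  by_contra hc
  push Not at hc
  have := Nat.pow_lt_pow_left hc (show 3 ≠ 0 by norm_num)
  omega

theorem pow_sq_le {a b : ℕ} (h : a ^ 2 ≤ b ^ 2) : a ≤ b := by
  by_contra hc
  push Not at hc
  have := Nat.pow_lt_pow_left hc (show 2 ≠ 0 by norm_num)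
  omega

/-- properties of the parameter `t` -/
structure TSpec (n K t : ℕ) : Prop where
  cube_ge : 7 * n ≤ t ^ 3
  cube_le : t ^ 3 ≤ 14 * n
  lower : 2 ^ (333 * K) ≤ t
  upper : t ≤ 2 ^ (334 * K)
  le_n : t ≤ n
  root : (3 * sOf K : ℤ) ∣ (t : ℤ) ^ 3 - 4 * t - 24 * n
  mod3 : t % 3 = 1
  cop : ∀ p, p.Prime → 3 ≤ p → p ≤ 2 * K → ¬ p ∣ t
  gcd : Nat.gcd t (Rof n K) = 1

theorem tOf_TSpec (h : Large n K) : TSpec n K (tOf n K) := by
  obtain ⟨g, hg, hgt, hgcd⟩ := tOf_spec h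
  obtain ⟨b1, b2⟩ := tCand_bounds h hg
  obtain ⟨r1, r2⟩ := rt_spec n
  have hr := rt_lower h
  have hn := n_lower h
  have hn' := n_upper h
  have hK := h.two_thousand
  rw [← hgt] at b1 b2
  have hroot := tCand_root n K g
  have h3 := tCand_mod_three n K g
  have hcop : ∀ p, p.Prime → 5 ≤ p → p ≤ 2 * K → ¬ p ∣ tCand n K g :=
    fun p hp h5 hpK => tCand_not_dvd hp h5 hpK
  rw [← hgt] at hroot h3 hcop
  set t := tOf n K
  have c1 : 7 * n ≤ t ^ 3 := r2.le.trans (Nat.pow_le_pow_left b1 3)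
  have c2 : t ^ 3 ≤ 14 * n := by
    have h4 : (4 * t) ^ 3 ≤ (5 * rt n) ^ 3 := Nat.pow_le_pow_left b2 3
    have e1 : (4 * t) ^ 3 = 64 * t ^ 3 := by ring
    have e2 : (5 * rt n) ^ 3 = 125 * rt n ^ 3 := by ring
    rw [e1, e2] at h4
    omega
  have c3 : 2 ^ (333 * K) ≤ t := hr.trans b1
  have c4 : t ≤ 2 ^ (334 * K) := by
    apply pow_cube_le
    calc t ^ 3 ≤ 14 * n := c2
      _ ≤ 2 ^ 4 * 2 ^ (1000 * K + 999) := Nat.mul_le_mul (by norm_num) hn'.le
      _ = 2 ^ (1000 * K + 1003) := pow2_mul (by omega)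
      _ ≤ 2 ^ (334 * K * 3) := pow2_le (by omega)
      _ = (2 ^ (334 * K)) ^ 3 := by rw [pow_mul]
  have c5 : t ≤ n := by
    have h4 : 2 ^ (334 * K + 1) ≤ 2 ^ (1000 * K) := pow2_le (by omega)
    rw [pow_succ] at h4
    omega
  refine ⟨c1, c2, c3, c4, c5, hroot, h3, ?_, hgcd⟩
  intro p hp hp3 hpK
  by_cases h5 : 5 ≤ p
  · exact hcop p hp h5 hpK
  · have : p = 3 := by
      have h4 : p ≠ 4 := by rintro rfl; revert hp; decide
      omega
    subst this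
    omega

/-- properties of the parameter `C` -/
structure CSpec (n K t C : ℕ) : Prop where
  eq : (3 : ℤ) * sOf K * (sOf K ^ 2 - 4 + C) = 24 * n - t ^ 3 + 4 * t
  lower : n ≤ sOf K * C
  upper : sOf K * C ≤ 8 * n

theorem COf_CSpec (h : Large n K) : CSpec n K (tOf n K) (COf n K) := by
  obtain ⟨c1, c2, c3, c4, c5, c6, c7, c8, c9⟩ := tOf_TSpec h
  have hs3 := s_cube_le h
  have hs0 := sOf_pos K
  have e : COf n K = (24 * n + 4 * tOf n K - tOf n K ^ 3) / (3 * sOf K) + 4 - sOf K ^ 2 := rfl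
  rw [e]
  set t := tOf n K
  set s := sOf K
  obtain ⟨D, hD⟩ : ∃ D, 24 * n + 4 * t - t ^ 3 = 3 * s * D := by
    have : (3 * s : ℕ) ∣ 24 * n + 4 * t - t ^ 3 := by
      rw [← Int.natCast_dvd_natCast, Nat.cast_sub (by omega)]
      push_cast
      have e2 : (24 : ℤ) * n + 4 * t - t ^ 3 = -((t : ℤ) ^ 3 - 4 * t - 24 * n) := by ring
      rw [e2]
      exact (dvd_neg).2 c6
    exact this
  rw [hD, Nat.mul_div_cancel_left _ (by omega : 0 < 3 * s)]
  have hs1 : s ≤ s ^ 3 := by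
    calc s = s ^ 1 := (pow_one _).symm
      _ ≤ s ^ 3 := Nat.pow_le_pow_right hs0 (by norm_num)
  have hD2 : s ^ 2 ≤ D + 4 := by
    by_contra hc
    push Not at hc
    have : 3 * s * (D + 4) ≤ 3 * s * s ^ 2 := Nat.mul_le_mul_left _ hc.le
    have e3 : 3 * s * s ^ 2 = 3 * s ^ 3 := by ring
    have e4 : 3 * s * (D + 4) = 3 * s * D + 12 * s := by ring
    omega
  have hcast : ((D + 4 - s ^ 2 : ℕ) : ℤ) = D + 4 - s ^ 2 := by
    rw [Nat.cast_sub hD2]; push_cast; ring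
  have hDz : (24 : ℤ) * n + 4 * t - t ^ 3 = 3 * s * D := by
    have : ((24 * n + 4 * t - t ^ 3 : ℕ) : ℤ) = (3 * s * D : ℕ) := by rw [hD]
    rw [Nat.cast_sub (by omega)] at this
    push_cast at this
    exact this
  have hS : 3 * (s * (D + 4 - s ^ 2)) + 3 * s ^ 3 = 3 * s * D + 12 * s := by
    zify [hD2]
    ring
  refine ⟨?_, ?_, ?_⟩
  · rw [hcast]
    linear_combination -hDz
  · change n ≤ s * (D + 4 - s ^ 2)
    omega
  · change s * (D + 4 - s ^ 2) ≤ 8 * n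
    omega

theorem W2_le (K : ℕ) : 0 < W2 K ∧ W2 K ≤ 2 ^ (4 * K) := by
  constructor
  · unfold W2
    apply List.prod_pos
    intro p hp
    rw [List.mem_filter, mem_plist] at hp
    exact hp.1.2.pos
  · unfold W2
    refine (prod_le_primorial _ _).trans (le_of_eq ?_)
    rw [show (4 : ℕ) = 2 ^ 2 by norm_num, ← pow_mul]
    congr 1
    rw [show (2 : ℕ) ^ 2 = 4 by norm_num]; ring

theorem W2_dvd {K p : ℕ} (hp : p.Prime) (h : p ∣ W2 K) : 3 ≤ p ∧ p ≤ 2 * K := by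
  rw [W2, Prime.dvd_prod_iff hp.prime] at h
  obtain ⟨q, hq, hpq⟩ := h
  rw [List.mem_filter, mem_plist, decide_eq_true_eq] at hq
  rw [Nat.prime_dvd_prime_iff_eq hp hq.1.2] at hpq
  subst hpq
  exact ⟨hq.2, hq.1.1⟩

theorem dvd_W2 {K p : ℕ} (hp : p.Prime) (h : 3 ≤ p) (h' : p ≤ 2 * K) : p ∣ W2 K := by
  unfold W2
  apply List.dvd_prod
  rw [List.mem_filter, mem_plist, decide_eq_true_eq]
  exact ⟨⟨h', hp⟩, h⟩

/-- the square root of `C / t` -/
def Ee (n K : ℕ) : ℕ := bs (fun e => decide (tOf n K * e ^ 2 < COf n K)) n.size.succ.succ.succ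

theorem E1_eq (n K : ℕ) : E1 n K = (Ee n K - 2 * W2 K * (2 ^ (100 * K) + 1)) -
    ((Ee n K - 2 * W2 K * (2 ^ (100 * K) + 1)) + tOf n K) % 2 := rfl

theorem Ee_spec (h : Large n K) : tOf n K * Ee n K ^ 2 < COf n K ∧
    COf n K ≤ tOf n K * (Ee n K + 1) ^ 2 ∧ 2 ^ (174 * K) ≤ Ee n K + 1 ∧ Ee n K + 1 ≤ 2 ^ (176 * K) := by
  obtain ⟨c1, c2, c3, c4, c5, c6, c7, c8, c9⟩ := tOf_TSpec h
  obtain ⟨d1, d2, d3⟩ := COf_CSpec h
  have hn := n_lower h
  have hn' := n_upper h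
  have hK := h.two_thousand
  have hs0 := sOf_pos K
  have hn0 : 0 < n := by
    have : 0 < 2 ^ (1000 * K) := by positivity
    omega
  have ht1 : 1 ≤ tOf n K := by omega
  have hC0 : 0 < COf n K := by
    rcases Nat.eq_zero_or_pos (COf n K) with h0 | h0
    · rw [h0] at d2; omega
    · exact h0
  have hbs := bs_spec (fun e => decide (tOf n K * e ^ 2 < COf n K)) n.size.succ.succ.succ
    (by simpa using hC0) (by
      simp only [decide_eq_false_iff_not, not_lt]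
      have h1 : n < 2 ^ n.size := Nat.lt_size_self n
      calc COf n K ≤ sOf K * COf n K := Nat.le_mul_of_pos_left _ hs0
        _ ≤ 8 * n := d3
        _ ≤ 8 * 2 ^ n.size := by omega
        _ = 2 ^ n.size.succ.succ.succ := by simp only [pow_succ, Nat.succ_eq_add_one]; ring
        _ = (2 ^ n.size.succ.succ.succ) ^ 1 := (pow_one _).symm
        _ ≤ (2 ^ n.size.succ.succ.succ) ^ 2 := Nat.pow_le_pow_right (by positivity) (by norm_num)
        _ ≤ tOf n K * (2 ^ n.size.succ.succ.succ) ^ 2 := Nat.le_mul_of_pos_left _ ht1)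
  simp only [decide_eq_true_eq, decide_eq_false_iff_not, not_lt] at hbs
  obtain ⟨e1, e2⟩ := hbs
  change tOf n K * Ee n K ^ 2 < COf n K at e1
  change COf n K ≤ tOf n K * (Ee n K + 1) ^ 2 at e2
  refine ⟨e1, e2, ?_, ?_⟩
  · apply pow_sq_le
    have h1 : 2 ^ (1000 * K) ≤ 2 * (sOf K * (tOf n K * (Ee n K + 1) ^ 2)) := by
      have := Nat.mul_le_mul_left (sOf K) e2
      omega
    have h2 : sOf K * tOf n K ≤ 2 ^ (651 * K) := by
      calc sOf K * tOf n K ≤ 2 ^ (317 * K) * 2 ^ (334 * K) := Nat.mul_le_mul (sOf_le K) c4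
        _ = 2 ^ (651 * K) := by rw [← pow_add]; congr 1; ring
    have h3 : 2 ^ (651 * K + 1) * 2 ^ (348 * K) ≤ 2 ^ (651 * K + 1) * (Ee n K + 1) ^ 2 := by
      calc 2 ^ (651 * K + 1) * 2 ^ (348 * K) = 2 ^ (999 * K + 1) := by
            rw [← pow_add]; congr 1; ring
        _ ≤ 2 ^ (1000 * K) := pow2_le (by omega)
        _ ≤ 2 * (sOf K * (tOf n K * (Ee n K + 1) ^ 2)) := h1
        _ = (2 * (sOf K * tOf n K)) * (Ee n K + 1) ^ 2 := by ring
        _ ≤ (2 * 2 ^ (651 * K)) * (Ee n K + 1) ^ 2 :=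
            Nat.mul_le_mul_right _ (Nat.mul_le_mul_left _ h2)
        _ = _ := by rw [pow_succ]; ring
    have h4 := Nat.le_of_mul_le_mul_left h3 (by positivity)
    calc (2 ^ (174 * K)) ^ 2 = 2 ^ (348 * K) := by rw [← pow_mul]; congr 1; ring
      _ ≤ _ := h4
  · have h5 : Ee n K < 2 ^ (176 * K) := by
      by_contra hc
      push Not at hc
      have h1 : (2 ^ (176 * K)) ^ 2 ≤ Ee n K ^ 2 := Nat.pow_le_pow_left hc 2
      have h2 : sOf K * (tOf n K * Ee n K ^ 2) < 2 ^ (1001 * K) := by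
        calc sOf K * (tOf n K * Ee n K ^ 2) < sOf K * COf n K :=
              Nat.mul_lt_mul_of_pos_left e1 hs0
          _ ≤ 8 * n := d3
          _ ≤ 2 ^ 3 * 2 ^ (1000 * K + 999) := Nat.mul_le_mul (by norm_num) hn'.le
          _ = 2 ^ (1000 * K + 1002) := pow2_mul (by omega)
          _ ≤ 2 ^ (1001 * K) := pow2_le (by omega)
      have h3 : 2 ^ (1001 * K) ≤ sOf K * (tOf n K * Ee n K ^ 2) := by
        calc 2 ^ (1001 * K) = 2 ^ (316 * K) * (2 ^ (333 * K) * (2 ^ (176 * K)) ^ 2) := by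
              rw [← pow_mul, ← pow_add, ← pow_add]; congr 1; ring
          _ ≤ _ := Nat.mul_le_mul (sOf_ge K) (Nat.mul_le_mul c3 h1)
      omega
    omega

/-- the size of the interval of values of `e` -/
theorem width_le (h : Large n K) : 2 * W2 K * (2 ^ (100 * K) + 1) + 2 ≤ 2 ^ (105 * K) := by
  have h1 := (W2_le K).2
  have hK := h.two_thousand
  have h2 : 1 ≤ 2 ^ (100 * K) := Nat.one_le_two_pow
  have h3 : 1 ≤ 2 ^ (104 * K) := Nat.one_le_two_pow
  calc 2 * W2 K * (2 ^ (100 * K) + 1) + 2 ≤ 2 * 2 ^ (4 * K) * (2 * 2 ^ (100 * K)) + 2 :=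
        Nat.add_le_add_right (Nat.mul_le_mul (Nat.mul_le_mul_left _ h1) (by omega)) _
    _ = 4 * 2 ^ (104 * K) + 2 := by
        rw [show 104 * K = 4 * K + 100 * K by ring, pow_add]; ring
    _ ≤ 8 * 2 ^ (104 * K) := by omega
    _ = 2 ^ (104 * K + 3) := by rw [pow_add]; ring
    _ ≤ 2 ^ (105 * K) := pow2_le (by omega)

/-- properties of the parameter `e₀` -/
structure ESpec (n K t C e₀ : ℕ) : Prop where
  par : ∀ f, (e₀ + 2 * W2 K * f) % 2 = t % 2
  lt : ∀ f < 2 ^ (100 * K), t * (e₀ + 2 * W2 K * f) ^ 2 < C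
  le : ∀ f < 2 ^ (100 * K), C ≤ t * (e₀ + 2 * W2 K * f) ^ 2 + 2 ^ (616 * K)
  small : ∀ p, p.Prime → 3 ≤ p → p ≤ 2 * K →
    ∀ f : ℕ, ¬ (p : ℤ) ∣ (C : ℤ) - t * (e₀ + 2 * W2 K * f : ℕ) ^ 2

theorem E0_ESpec (h : Large n K) : ESpec n K (tOf n K) (COf n K) (E0 n K) := by
  obtain ⟨c1, c2, c3, c4, c5, c6, c7, c8, c9⟩ := tOf_TSpec h
  obtain ⟨f1, f2, f3, f4⟩ := Ee_spec h
  have hw := width_le h
  have hE1 := E1_eq n K
  have hW := W2_le K
  have hK := h.two_thousand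
  have h174 : 2 ^ (105 * K + 1) ≤ 2 ^ (174 * K) := pow2_le (by omega)
  rw [pow_succ] at h174
  set E := Ee n K with hE
  set V := 2 * W2 K * (2 ^ (100 * K) + 1) with hV
  set t := tOf n K with ht
  have hVexp : V = 2 * W2 K * 2 ^ (100 * K) + 2 * W2 K := by rw [hV]; ring
  have g1 : E1 n K + V ≤ E := by omega
  have g2 : E ≤ E1 n K + V + 1 := by omega
  have g3 : E1 n K % 2 = t % 2 := by omega
  have hn : ((plist (2 * K)).filter (fun p => decide (3 ≤ p))).Nodup := (nodup_plist _).filter _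
  have hmem : ∀ p, p ∈ (plist (2 * K)).filter (fun p => decide (3 ≤ p)) ↔
      p.Prime ∧ 3 ≤ p ∧ p ≤ 2 * K := by
    intro p
    rw [List.mem_filter, mem_plist, decide_eq_true_eq]
    tauto
  have hmono : ∀ e, e ≤ E → t * e ^ 2 < COf n K := fun e he =>
    lt_of_le_of_lt (Nat.mul_le_mul_left _ (Nat.pow_le_pow_left he 2)) f1
  obtain ⟨i1, i2, i3, i4, _⟩ := aStep_fold (COf n K) t (E1 n K) V
    (fun a ha => (hmono _ (by omega)).le)
    _ (0, 1) hn
    (fun p hp => ((hmem p).1 hp).1)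
    (fun p hp => by have := ((hmem p).1 hp).2.1; omega)
    (fun p hp => c8 p ((hmem p).1 hp).1 ((hmem p).1 hp).2.1 ((hmem p).1 hp).2.2)
    (fun p hp => by
      simp only [Nat.dvd_one]
      exact ((hmem p).1 hp).1.one_lt.ne') (by norm_num) (by norm_num)
    (by
      change 2 * (1 * W2 K) ≤ V
      have : 1 ≤ 2 ^ (100 * K) + 1 := Nat.le_add_left _ _
      rw [hV]
      nlinarith [hW.1]) (by norm_num)
  have hE0 : E0 n K = E1 n K + ((((plist (2 * K)).filter (fun p => decide (3 ≤ p))).foldl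
    (aStep (COf n K) t (E1 n K)) (0, 1))).1 := rfl
  set a := ((((plist (2 * K)).filter (fun p => decide (3 ≤ p))).foldl
    (aStep (COf n K) t (E1 n K)) (0, 1))).1
  change a < 2 * (1 * W2 K) at i2
  rw [hE0]
  have hf : ∀ f < 2 ^ (100 * K), E1 n K + a + 2 * W2 K * f ≤ E := by
    intro f hf
    have h1 : 2 * W2 K * (f + 1) ≤ 2 * W2 K * 2 ^ (100 * K) := Nat.mul_le_mul_left _ hf
    have h2 : 2 * W2 K * (f + 1) = 2 * W2 K * f + 2 * W2 K := by ring
    omega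
  refine ⟨?_, ?_, ?_, ?_⟩
  · intro f
    have : 2 * W2 K * f = 2 * (W2 K * f) := by ring
    omega
  · exact fun f hf' => hmono _ (hf f hf')
  · intro f hf'
    have h0 := hf f hf'
    set e := E1 n K + a + 2 * W2 K * f with he
    have h1 : E + 1 ≤ e + 2 ^ (105 * K) := by omega
    have h2 : (E + 1) ^ 2 ≤ e ^ 2 + 2 ^ (105 * K) * (2 * 2 ^ (176 * K)) := by
      obtain ⟨w, hw⟩ := Nat.exists_eq_add_of_le (show e ≤ E + 1 by omega)
      have hw' : w ≤ 2 ^ (105 * K) := by omega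
      have h3 : e + (E + 1) ≤ 2 * 2 ^ (176 * K) := by omega
      calc (E + 1) ^ 2 = e ^ 2 + w * (e + (E + 1)) := by rw [hw]; ring
        _ ≤ e ^ 2 + 2 ^ (105 * K) * (2 * 2 ^ (176 * K)) :=
            Nat.add_le_add_left (Nat.mul_le_mul hw' h3) _
    calc COf n K ≤ t * (E + 1) ^ 2 := f2
      _ ≤ t * (e ^ 2 + 2 ^ (105 * K) * (2 * 2 ^ (176 * K))) := Nat.mul_le_mul_left _ h2
      _ = t * e ^ 2 + t * (2 ^ (105 * K) * (2 * 2 ^ (176 * K))) := by ring
      _ ≤ t * e ^ 2 + 2 ^ (334 * K) * (2 ^ (105 * K) * (2 * 2 ^ (176 * K))) :=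
          Nat.add_le_add_left (Nat.mul_le_mul_right _ c4) _
      _ = t * e ^ 2 + 2 ^ (615 * K + 1) := by
          congr 1
          rw [show 615 * K + 1 = 334 * K + (105 * K + (1 + 176 * K)) by ring, pow_add, pow_add,
            pow_add 2 1]
          norm_num
      _ ≤ t * e ^ 2 + 2 ^ (616 * K) := Nat.add_le_add_left (pow2_le (by omega)) _
  · intro p hp h3 hpK f hd
    apply i4 p ((hmem p).2 ⟨hp, h3, hpK⟩)
    obtain ⟨w, hw⟩ := dvd_W2 hp h3 hpK
    have h5 : ((E1 n K + a + 2 * W2 K * f : ℕ) : ℤ) ≡ ((E1 n K + a : ℕ) : ℤ) [ZMOD p] := by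
      rw [Int.natCast_modEq_iff]
      have : E1 n K + a + 2 * W2 K * f ≡ E1 n K + a + 0 [MOD p] := by
        apply Nat.ModEq.add_left
        rw [Nat.modEq_zero_iff_dvd, hw]
        exact ⟨2 * w * f, by ring⟩
      simpa using this
    have h6 : (COf n K : ℤ) - t * (E1 n K + a + 2 * W2 K * f : ℕ) ^ 2 ≡
        (COf n K : ℤ) - t * (E1 n K + a : ℕ) ^ 2 [ZMOD p] := by
      gcongr
    exact (Int.ModEq.dvd_iff h6).1 hd

theorem coprime_t (h : Large n K) (e : ℤ) :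
    IsCoprime (tOf n K : ℤ) ((COf n K : ℤ) - tOf n K * e ^ 2) := by
  obtain ⟨c1, c2, c3, c4, c5, c6, c7, c8, c9⟩ := tOf_TSpec h
  obtain ⟨d1, d2, d3⟩ := COf_CSpec h
  have hR := Rof_cast h
  set t := tOf n K
  have h1 : IsCoprime (t : ℤ) (Rof n K : ℤ) := Nat.isCoprime_iff_coprime.2 c9
  have h2 : IsCoprime (t : ℤ) 3 := by
    have : Nat.Coprime t 3 := by
      rw [Nat.coprime_comm, Nat.Prime.coprime_iff_not_dvd Nat.prime_three]
      omega
    exact_mod_cast Nat.isCoprime_iff_coprime.2 this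
  have h3 : IsCoprime (t : ℤ) (3 * sOf K * ((COf n K : ℤ) - t * e ^ 2)) := by
    have e1 : 3 * sOf K * ((COf n K : ℤ) - t * e ^ 2) =
        3 * (Rof n K : ℤ) + t * (-t ^ 2 + 4 - 3 * sOf K * e ^ 2) := by
      rw [hR]
      linear_combination d1
    rw [e1]
    exact (IsCoprime.add_mul_left_right_iff).2 (h2.mul_right h1)
  exact h3.of_mul_right_right

end

end Pool.Agent.H591R2
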