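import Mathlib

/-!
# Reduction of positive definite ternary forms of determinant one

A state consists of the Gram matrix of a basis of a three-dimensional lattice of determinant one
together with the values `z₁, z₂, z₃` of a linear form `v ↦ ⟨v, w⟩` on the basis vectors, where `w` is
a vector of norm `m`.  Reducing the basis to an orthonormal one writes `m` as a sum of three
squares.
-/

namespace Pool.Agent.H591R2

/-- A Gram matrix `[[a,b,c],[b,d,e],[c,e,f]]` and a linear form `(x,y,z)`. -/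
structure St where
  a : ℤ
  b : ℤ
  c : ℤ
  d : ℤ
  e : ℤ
  f : ℤ
  x : ℤ
  y : ℤ
  z : ℤ
  deriving DecidableEq

namespace St

/-- second principal minor -/
def D2 (s : St) : ℤ := s.a * s.d - s.b ^ 2

/-- determinant -/
def det (s : St) : ℤ :=
  s.a * s.d * s.f + 2 * s.b * s.c * s.e - s.a * s.e ^ 2 - s.b ^ 2 * s.f - s.c ^ 2 * s.d

/-- the dual form at the linear form -/
def Q (s : St) : ℤ :=
  s.x ^ 2 * (s.d * s.f - s.e ^ 2) + s.y ^ 2 * (s.a * s.f - s.c ^ 2)
    + s.z ^ 2 * (s.a * s.d - s.b ^ 2)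
    + 2 * s.x * s.y * (s.c * s.e - s.b * s.f) + 2 * s.x * s.z * (s.b * s.e - s.c * s.d)
    + 2 * s.y * s.z * (s.b * s.c - s.a * s.e)

/-- nearest integer to `u / v` (for `v > 0`) -/
def rnd (u v : ℤ) : ℤ := (2 * u + v) / (2 * v)

/-- subtract `t` times the first basis vector from the second -/
def red12 (s : St) (t : ℤ) : St :=
  { s with b := s.b - t * s.a, d := s.d - 2 * t * s.b + t ^ 2 * s.a, e := s.e - t * s.c,
           y := s.y - t * s.x }

/-- subtract `t` times the second basis vector from the third -/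
def red23 (s : St) (t : ℤ) : St :=
  { s with c := s.c - t * s.b, e := s.e - t * s.d, f := s.f - 2 * t * s.e + t ^ 2 * s.d,
           z := s.z - t * s.y }

/-- subtract `t` times the first basis vector from the third -/
def red13 (s : St) (t : ℤ) : St :=
  { s with c := s.c - t * s.a, e := s.e - t * s.b, f := s.f - 2 * t * s.c + t ^ 2 * s.a,
           z := s.z - t * s.x }

/-- exchange the first two basis vectors -/
def swap12 (s : St) : St :=
  { a := s.d, b := s.b, c := s.e, d := s.a, e := s.c, f := s.f, x := s.y, y := s.x, z := s.z }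

/-- exchange the last two basis vectors -/
def swap23 (s : St) : St :=
  { a := s.a, b := s.c, c := s.b, d := s.f, e := s.e, f := s.d, x := s.x, y := s.z, z := s.y }

/-- size reduction of the second vector -/
def s1 (s : St) : St := s.red12 (rnd s.b s.a)

/-- size reduction of the third vector -/
def s2 (s : St) : St :=
  let u := s.red23 (rnd (s.e * s.a - s.b * s.c) s.D2)
  u.red13 (rnd u.c u.a)

/-- One step of the reduction (Lenstra–Lenstra–Lovász in dimension three). -/
def step (s : St) : St :=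
  let s' := s.s1
  if 4 * s'.d < 3 * s'.a then s'.swap12
  else
    let s'' := s'.s2
    if 4 * (s''.a * s''.f - s''.c ^ 2) < 3 * s''.D2 then s''.swap23 else s''

/-- The invariant: a basis of a lattice of determinant one, linear form of norm `m`, and all
basis vectors have norm at most `M`. -/
structure Good (m M : ℤ) (s : St) : Prop where
  a_pos : 0 < s.a
  D2_pos : 0 < s.D2
  det_eq : s.det = 1
  Q_eq : s.Q = m
  a_le : s.a ≤ M
  d_le : s.d ≤ M
  f_le : s.f ≤ M

theorem rnd_spec (u v : ℤ) (hv : 0 < v) : |2 * (u - rnd u v * v)| ≤ v := by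
  unfold rnd
  have h1 := Int.mul_ediv_add_emod (2 * u + v) (2 * v)
  have h2 := Int.emod_nonneg (2 * u + v) (show (2 * v : ℤ) ≠ 0 by omega)
  have h3 := Int.emod_lt_of_pos (2 * u + v) (show (0 : ℤ) < 2 * v by omega)
  rw [abs_le]
  set q := (2 * u + v) / (2 * v)
  set r := (2 * u + v) % (2 * v)
  constructor <;> nlinarith

theorem red12_D2 (s : St) (t : ℤ) : (s.red12 t).D2 = s.D2 := by
  simp only [D2, red12]; ring

theorem red12_det (s : St) (t : ℤ) : (s.red12 t).det = s.det := by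
  simp only [det, red12]; ring

theorem red12_Q (s : St) (t : ℤ) : (s.red12 t).Q = s.Q := by
  simp only [Q, red12]; ring

theorem red13_D2 (s : St) (t : ℤ) : (s.red13 t).D2 = s.D2 := by
  simp only [D2, red13]

theorem red13_det (s : St) (t : ℤ) : (s.red13 t).det = s.det := by
  simp only [det, red13]; ring

theorem red13_Q (s : St) (t : ℤ) : (s.red13 t).Q = s.Q := by
  simp only [Q, red13]; ring

theorem red23_D2 (s : St) (t : ℤ) : (s.red23 t).D2 = s.D2 := by
  simp only [D2, red23]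

theorem red23_det (s : St) (t : ℤ) : (s.red23 t).det = s.det := by
  simp only [det, red23]; ring

theorem red23_Q (s : St) (t : ℤ) : (s.red23 t).Q = s.Q := by
  simp only [Q, red23]; ring

theorem swap12_D2 (s : St) : (s.swap12).D2 = s.D2 := by
  simp only [D2, swap12]; ring

theorem swap12_det (s : St) : (s.swap12).det = s.det := by
  simp only [det, swap12]; ring

theorem swap12_Q (s : St) : (s.swap12).Q = s.Q := by
  simp only [Q, swap12]; ring

theorem swap23_det (s : St) : (s.swap23).det = s.det := by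
  simp only [det, swap23]; ring

theorem swap23_Q (s : St) : (s.swap23).Q = s.Q := by
  simp only [Q, swap23]; ring

theorem s1_b (s : St) (h : 0 < s.a) : |2 * s.s1.b| ≤ s.a := by
  have := rnd_spec s.b s.a h
  simpa [s1, red12] using this

theorem s1_a (s : St) : s.s1.a = s.a := rfl
theorem s1_f (s : St) : s.s1.f = s.f := rfl
theorem s1_D2 (s : St) : s.s1.D2 = s.D2 := red12_D2 _ _
theorem s1_det (s : St) : s.s1.det = s.det := red12_det _ _
theorem s1_Q (s : St) : s.s1.Q = s.Q := red12_Q _ _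

/-- nearest integers minimise the distance -/
theorem sq_rnd_le (u v : ℤ) (hv : 0 < v) : (u - rnd u v * v) ^ 2 ≤ u ^ 2 := by
  have h := rnd_spec u v hv
  rw [← sq_abs (u - rnd u v * v), ← sq_abs u]
  have h0 : (0 : ℤ) ≤ |u - rnd u v * v| := abs_nonneg _
  rw [abs_mul, abs_two] at h
  apply pow_le_pow_left₀ h0
  by_contra hc
  push Not at hc
  rcases eq_or_ne (rnd u v) 0 with h0 | h0
  · rw [h0] at hc; simp at hc
  · have h1 : v ≤ |rnd u v * v| := by
      rw [abs_mul, abs_of_pos hv]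
      have : 1 ≤ |rnd u v| := Int.one_le_abs h0
      nlinarith
    have h2 : |rnd u v * v| ≤ |u| + |u - rnd u v * v| := by
      have := abs_sub_abs_le_abs_sub (rnd u v * v) u
      rw [abs_sub_comm] at this
      linarith
    linarith

theorem s1_d_le (s : St) (ha : 0 < s.a) : s.s1.d ≤ s.d := by
  have h1 := s1_D2 s
  simp only [D2] at h1
  rw [s1_a] at h1
  have h2 : s.s1.b ^ 2 ≤ s.b ^ 2 := by
    have := sq_rnd_le s.b s.a ha
    simpa [s1, red12] using this
  have h3 : s.a * s.s1.d ≤ s.a * s.d := by linarith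
  exact le_of_mul_le_mul_left h3 ha

/-- the mixed minor -/
def K (s : St) : ℤ := s.e * s.a - s.b * s.c

theorem s2_a (s : St) : s.s2.a = s.a := rfl
theorem s2_b (s : St) : s.s2.b = s.b := rfl
theorem s2_d (s : St) : s.s2.d = s.d := rfl

theorem s2_D2 (s : St) : s.s2.D2 = s.D2 := by
  unfold s2; simp only; rw [red13_D2, red23_D2]

theorem s2_det (s : St) : s.s2.det = s.det := by
  unfold s2; simp only; rw [red13_det, red23_det]

theorem s2_Q (s : St) : s.s2.Q = s.Q := by
  unfold s2; simp only; rw [red13_Q, red23_Q]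

theorem s2_c (s : St) (h : 0 < s.a) : |2 * s.s2.c| ≤ s.a := by
  have := rnd_spec (s.red23 (rnd (s.e * s.a - s.b * s.c) s.D2)).c s.a h
  simpa [s2, red13, red23] using this

theorem s2_K (s : St) (h : 0 < s.D2) : |2 * s.s2.K| ≤ s.D2 := by
  have := rnd_spec (s.e * s.a - s.b * s.c) s.D2 h
  have e : s.s2.K = s.e * s.a - s.b * s.c - rnd (s.e * s.a - s.b * s.c) s.D2 * s.D2 := by
    simp only [K, s2, red13, red23, D2]; ring
  rwa [e]

theorem schur (s : St) : s.D2 * (s.a * s.f - s.c ^ 2) = s.K ^ 2 + s.a * s.det := by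
  simp only [D2, K, det]; ring

theorem sq_of_abs {u v : ℤ} (h : |2 * u| ≤ v) : 4 * u ^ 2 ≤ v ^ 2 := by
  have h0 := abs_nonneg (2 * u)
  have : |2 * u| ^ 2 ≤ v ^ 2 := pow_le_pow_left₀ h0 h 2
  rw [sq_abs] at this
  linarith [this, mul_pow 2 u 2]

theorem s2_f_le (s : St) (ha : 0 < s.a) (hD : 0 < s.D2) (hdet : s.det = 1) :
    4 * s.s2.f ≤ s.a + s.d + 4 := by
  have h1 := schur s.s2
  rw [s2_D2, s2_det, hdet, s2_a] at h1
  have h2 := sq_of_abs (s2_c s ha)
  have h3 := sq_of_abs (s2_K s hD)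
  have h4 : s.D2 ≤ s.a * s.d := by simp only [D2]; nlinarith [sq_nonneg s.b]
  have h5 : 4 * (s.a * s.D2 * s.s2.f) ≤ s.a ^ 2 * s.D2 + s.D2 ^ 2 + 4 * s.a := by nlinarith
  have h6 : s.D2 ^ 2 ≤ s.a * s.d * s.D2 := by nlinarith
  have h7 : s.a * (4 * (s.D2 * s.s2.f)) ≤ s.a * (s.a * s.D2 + s.d * s.D2 + 4) := by nlinarith
  have h8 := le_of_mul_le_mul_left h7 ha
  have h9 : s.D2 * (4 * s.s2.f) ≤ s.D2 * (s.a + s.d + 4) := by nlinarith
  exact le_of_mul_le_mul_left h9 hD

/-- The potential of the reduction. -/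
def pot (s : St) : ℤ := s.a * s.D2

/-- The reduced state. -/
def Fin (s : St) : Prop := s.a = 1 ∧ s.b = 0 ∧ s.c = 0 ∧ s.d = 1 ∧ s.e = 0 ∧ s.f = 1

theorem d_pos {m M : ℤ} {s : St} (h : Good m M s) : 0 < s.d := by
  have h1 := h.a_pos
  have h2 := h.D2_pos
  simp only [D2] at h2
  by_contra hc
  push Not at hc
  nlinarith [sq_nonneg s.b]

theorem step_spec {m M : ℤ} (hM : 2 ≤ M) {s : St} (h : Good m M s) :
    Good m M s.step ∧ (Fin s.step ∨ 4 * s.step.pot < 3 * s.pot) := by
  have ha := h.a_pos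
  have hd := d_pos h
  have hD := h.D2_pos
  have hb1 := s1_b s ha
  have hd1 := s1_d_le s ha
  have g1 : Good m M s.s1 := ⟨ha, by rw [s1_D2]; exact hD, by rw [s1_det]; exact h.det_eq,
    by rw [s1_Q]; exact h.Q_eq, h.a_le, hd1.trans h.d_le, h.f_le⟩
  have hd1p := d_pos g1
  unfold step
  simp only
  split_ifs with c1 c2
  · refine ⟨⟨hd1p, by rw [swap12_D2]; exact g1.D2_pos, by rw [swap12_det]; exact g1.det_eq,
      by rw [swap12_Q]; exact g1.Q_eq, g1.d_le, g1.a_le, g1.f_le⟩, Or.inr ?_⟩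
    have e : s.s1.swap12.pot = s.s1.d * s.D2 := by
      unfold pot; rw [swap12_D2, s1_D2]; rfl
    rw [e]
    have e2 : s.pot = s.s1.a * s.D2 := rfl
    rw [e2]
    nlinarith
  · have hf := s2_f_le s.s1 ha g1.D2_pos g1.det_eq
    have hsch := schur s.s1.s2
    rw [s2_D2, s2_det, g1.det_eq, s2_a] at hsch
    have hD' : 0 < s.s1.a * s.s1.s2.f - s.s1.s2.c ^ 2 := by
      by_contra hc
      push Not at hc
      have := g1.D2_pos
      have := g1.a_pos
      nlinarith [sq_nonneg s.s1.s2.K]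
    have e3 : s.s1.s2.swap23.D2 = s.s1.a * s.s1.s2.f - s.s1.s2.c ^ 2 := rfl
    refine ⟨⟨ha, ?_, by rw [swap23_det, s2_det]; exact g1.det_eq,
      by rw [swap23_Q, s2_Q]; exact g1.Q_eq, g1.a_le, ?_, ?_⟩, Or.inr ?_⟩
    · rw [e3]; exact hD'
    · have : s.s1.s2.swap23.d = s.s1.s2.f := rfl
      rw [this]
      have := g1.a_le
      have := g1.d_le
      omega
    · exact g1.d_le
    · have e4 : s.s1.s2.swap23.pot = s.a * (s.s1.a * s.s1.s2.f - s.s1.s2.c ^ 2) := rfl
      rw [e4]
      have e5 : s.pot = s.a * s.s1.s2.D2 := by rw [s2_D2, s1_D2]; rfl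
      rw [e5]
      have e6 : s.s1.s2.a = s.s1.a := rfl
      rw [e6] at c2
      nlinarith
  · have hf := s2_f_le s.s1 ha g1.D2_pos g1.det_eq
    refine ⟨⟨ha, by rw [s2_D2]; exact g1.D2_pos, by rw [s2_det]; exact g1.det_eq,
      by rw [s2_Q]; exact g1.Q_eq, g1.a_le, g1.d_le, ?_⟩, Or.inl ?_⟩
    · have := g1.a_le
      have := g1.d_le
      omega
    · have hsch := schur s.s1.s2
      rw [s2_D2, s2_det, g1.det_eq, s2_a] at hsch
      have hK := sq_of_abs (s2_K s.s1 g1.D2_pos)
      have hK' := s2_K s.s1 g1.D2_pos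
      have hc' := s2_c s.s1 ha
      have hb2 := sq_of_abs hb1
      have e6 : s.s1.s2.a = s.s1.a := rfl
      rw [e6, s2_D2] at c2
      have e7 : s.s1.a = s.a := rfl
      have hD1 := g1.D2_pos
      have eD : s.s1.D2 = s.a * s.s1.d - s.s1.b ^ 2 := rfl
      push Not at c1 c2
      rw [e7] at c1 c2 hc' hsch
      set A := s.a
      set D := s.s1.D2
      set d := s.s1.d
      set b := s.s1.b
      set c := s.s1.s2.c
      set f := s.s1.s2.f
      set k := s.s1.s2.K
      have i1 : A ^ 2 ≤ 2 * D := by nlinarith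
      have i2 : D ^ 2 ≤ 2 * A := by nlinarith
      have i3 : A ≤ 2 := by
        by_contra hc
        push Not at hc
        nlinarith [mul_pos ha ha]
      have i4 : D ≤ 2 := by nlinarith
      have hA : A = 1 := by
        rcases (by omega : A = 1 ∨ A = 2) with h | h
        · exact h
        · exfalso
          rw [h] at i1 i2 hb1 c1 eD
          have hD2 : D = 2 := by omega
          rw [abs_le] at hb1
          have : b = -1 ∨ b = 0 ∨ b = 1 := by omega
          rcases this with h | h | h <;> rw [h] at eD <;> omega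
      rw [hA] at i1 i2 hb1 c1 eD hc' hsch
      have hD2 : D = 1 := by nlinarith
      rw [hD2] at eD hsch hK'
      rw [abs_le] at hb1 hc' hK'
      have hb0 : b = 0 := by omega
      have hc0 : c = 0 := by omega
      have hk0 : k = 0 := by omega
      rw [hb0] at eD
      rw [hc0, hk0] at hsch
      have hkdef : k = s.s1.s2.e * s.s1.s2.a - s.s1.s2.b * s.s1.s2.c := rfl
      have ea : s.s1.s2.a = 1 := hA
      have ec : s.s1.s2.c = 0 := hc0
      rw [hk0, ea, ec] at hkdef
      refine ⟨hA, hb0, hc0, ?_, ?_, ?_⟩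
      · change d = 1; omega
      · omega
      · change f = 1; omega

theorem rnd_zero_one : rnd 0 1 = 0 := by decide

theorem fin_step {s : St} (h : Fin s) : s.step = s := by
  obtain ⟨ha, hb, hc, hd, he, hf⟩ := h
  obtain ⟨a, b, c, d, e, f, x, y, z⟩ := s
  simp only at ha hb hc hd he hf
  subst ha hb hc hd he hf
  simp [step, s1, s2, red12, red13, red23, rnd_zero_one, D2, rnd_zero_one]

theorem fin_iter {s : St} (h : Fin s) (N : ℕ) : step^[N] s = s := by
  induction N with
  | zero => rfl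
  | succ N ih => rw [Function.iterate_succ_apply, fin_step h, ih]

theorem iter_spec {m M : ℤ} (hM : 2 ≤ M) (N : ℕ) : ∀ {s : St}, Good m M s →
    s.pot * 3 ^ N < 4 ^ N → Fin (step^[N] s) ∧ Good m M (step^[N] s) := by
  induction N with
  | zero =>
    intro s h hp
    exfalso
    have h1 := h.a_pos
    have h2 := h.D2_pos
    simp [pot] at hp
    nlinarith
  | succ N ih =>
    intro s h hp
    obtain ⟨h1, h2⟩ := step_spec hM h
    rw [Function.iterate_succ_apply]
    rcases h2 with h2 | h2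
    · rw [fin_iter h2]
      exact ⟨h2, h1⟩
    · apply ih h1
      have h3 : (0 : ℤ) < 3 ^ N := by positivity
      have h4 : 4 * (s.step.pot * 3 ^ N) < 4 * 4 ^ N := by
        calc 4 * (s.step.pot * 3 ^ N) = (4 * s.step.pot) * 3 ^ N := by ring
          _ < (3 * s.pot) * 3 ^ N := by nlinarith
          _ = s.pot * 3 ^ (N + 1) := by ring
          _ < 4 ^ (N + 1) := hp
          _ = 4 * 4 ^ N := by ring
      linarith

theorem good_iter {m M : ℤ} (hM : 2 ≤ M) (N : ℕ) : ∀ {s : St}, Good m M s →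
    Good m M (step^[N] s) := by
  induction N with
  | zero => exact fun h => h
  | succ N ih =>
    intro s h
    rw [Function.iterate_succ_apply]
    exact ih (step_spec hM h).1

theorem fin_sq {m M : ℤ} {s : St} (h : Fin s) (hg : Good m M s) :
    s.x ^ 2 + s.y ^ 2 + s.z ^ 2 = m := by
  have := hg.Q_eq
  obtain ⟨ha, hb, hc, hd, he, hf⟩ := h
  simp only [Q, ha, hb, hc, hd, he, hf] at this
  linarith

/-- Existence form: any good state writes `m` as a sum of three squares. -/
theorem exists_sq {m M : ℤ} {s : St} (hg : Good m M s) :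
    ∃ x y z : ℤ, x ^ 2 + y ^ 2 + z ^ 2 = m := by
  have hg' : Good m (max M 2) s := ⟨hg.a_pos, hg.D2_pos, hg.det_eq, hg.Q_eq,
    hg.a_le.trans (le_max_left _ _), hg.d_le.trans (le_max_left _ _),
    hg.f_le.trans (le_max_left _ _)⟩
  obtain ⟨N, hN⟩ : ∃ N : ℕ, s.pot * 3 ^ N < 4 ^ N := by
    obtain ⟨N, hN⟩ := pow_unbounded_of_one_lt ((s.pot : ℚ)) (show (1 : ℚ) < 4 / 3 by norm_num)
    refine ⟨N, ?_⟩
    rw [div_pow, lt_div_iff₀ (by positivity)] at hN
    exact_mod_cast hN
  obtain ⟨h1, h2⟩ := iter_spec (le_max_right _ _) N hg' hN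
  exact ⟨_, _, _, fin_sq h1 h2⟩

/-! ### bounds for all entries of a good state -/

theorem b_sq_le {m M : ℤ} {s : St} (h : Good m M s) : s.b ^ 2 ≤ M ^ 2 := by
  have h1 := h.D2_pos
  have h2 := d_pos h
  simp only [D2] at h1
  have := h.a_le
  have := h.d_le
  have := h.a_pos
  nlinarith

theorem x_sq_le {m M : ℤ} {s : St} (h : Good m M s) : s.x ^ 2 ≤ s.a * m := by
  have e : s.D2 * (s.a ^ 2 * s.Q) = s.D2 * (s.a * s.det * s.x ^ 2)
      + (s.D2 * (s.a * s.z - s.c * s.x) - s.K * (s.a * s.y - s.b * s.x)) ^ 2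
      + s.a * s.det * (s.a * s.y - s.b * s.x) ^ 2 := by
    simp only [D2, Q, K, det]; ring
  rw [h.det_eq, h.Q_eq] at e
  have h1 := h.a_pos
  have h2 := h.D2_pos
  have h3 : s.D2 * (s.a * s.x ^ 2) ≤ s.D2 * (s.a * (s.a * m)) := by
    nlinarith [sq_nonneg (s.D2 * (s.a * s.z - s.c * s.x) - s.K * (s.a * s.y - s.b * s.x)),
      mul_nonneg h1.le (sq_nonneg (s.a * s.y - s.b * s.x))]
  exact le_of_mul_le_mul_left (le_of_mul_le_mul_left h3 h2) h1

theorem good_swap12 {m M : ℤ} {s : St} (h : Good m M s) : Good m M s.swap12 :=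
  ⟨d_pos h, by rw [swap12_D2]; exact h.D2_pos, by rw [swap12_det]; exact h.det_eq,
      by rw [swap12_Q]; exact h.Q_eq, h.d_le, h.a_le, h.f_le⟩

theorem c_sq_lt {m M : ℤ} {s : St} (h : Good m M s) : 0 < s.a * s.f - s.c ^ 2 := by
  have h1 := h.a_pos
  have h2 := h.D2_pos
  have h3 := schur s
  rw [h.det_eq] at h3
  by_contra hc
  push Not at hc
  nlinarith [sq_nonneg s.K]

theorem good_swap23 {m M : ℤ} {s : St} (h : Good m M s) : Good m M s.swap23 :=
  ⟨h.a_pos, c_sq_lt h, by rw [swap23_det]; exact h.det_eq,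
      by rw [swap23_Q]; exact h.Q_eq, h.a_le, h.f_le, h.d_le⟩

theorem bounds {m M : ℤ} {s : St} (h : Good m M s) :
    (0 < s.a ∧ s.a ≤ M) ∧ (0 < s.d ∧ s.d ≤ M) ∧ (0 < s.f ∧ s.f ≤ M) ∧ s.b ^ 2 ≤ M ^ 2 ∧
    s.c ^ 2 ≤ M ^ 2 ∧ s.e ^ 2 ≤ M ^ 2 ∧ s.x ^ 2 ≤ s.a * m ∧ s.y ^ 2 ≤ s.d * m ∧
    s.z ^ 2 ≤ s.f * m :=
  ⟨⟨h.a_pos, h.a_le⟩, ⟨d_pos h, h.d_le⟩, ⟨d_pos (good_swap23 h), h.f_le⟩, b_sq_le h,
    b_sq_le (good_swap23 h), b_sq_le (good_swap23 (good_swap12 h)), x_sq_le h,
    x_sq_le (good_swap12 h), x_sq_le (good_swap12 (good_swap23 h))⟩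

end St

end Pool.Agent.H591R2
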