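import Pool.Agent.H591R2.Tet0

namespace Pool.Agent.H591R2

set_option maxRecDepth 100000 in
theorem tetFullW2 : full (tetWin 195 270875 93 153 2229125 1666650) 0 1500000 = true := by
  decide +kernel

end Pool.Agent.H591R2
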