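import Pool.Agent.H591R2.TetW0
import Pool.Agent.H591R2.TetW1
import Pool.Agent.H591R2.TetW2
import Pool.Agent.H591R2.TetW3
import Pool.Agent.H591R2.TetW4
import Pool.Agent.H591R2.TetW5

/-!
# Tetrahedral numbers and their representations; small cases by a sieve and a greedy argument
-/

namespace Pool.Agent.H591R2

/-- all numbers from 343868 to `hi` are sums of `k` tetrahedral numbers (zero allowed) -/
def Cov (k hi : ℕ) : Prop :=
  ∀ n, 343868 ≤ n → n ≤ hi → ∃ L : List ℕ, L.length = k ∧ (L.map tet).sum = n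

theorem cov4 : Cov 4 10000000 := by
  intro n h1 h2
  rcases Nat.lt_or_ge n 1000000 with h | h
  · exact testBit_sums _ _ _ (testBit_of_full full4 h1 (by omega))
  rcases Nat.lt_or_ge n 2500000 with h' | h'
  · exact tetWin_rep tetFullW2 (by omega) (by omega)
  rcases Nat.lt_or_ge n 5000000 with h'' | h''
  · exact tetWin_rep tetFullW3 (by omega) (by omega)
  rcases Nat.lt_or_ge n 7500000 with h3 | h3
  · exact tetWin_rep tetFullW4 (by omega) (by omega)
  · exact tetWin_rep tetFullW5 (by omega) (by omega)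

theorem tet_succ (x : ℕ) : tet (x + 1) = tet x + (x + 1) * (x + 2) / 2 := by
  have h1 := six_tet x
  have h2 := six_tet (x + 1)
  have h3 : 2 ∣ (x + 1) * (x + 2) := (Nat.even_mul_succ_self (x + 1)).two_dvd
  obtain ⟨y, hy⟩ := h3
  rw [hy, Nat.mul_div_cancel_left _ (by norm_num)]
  nlinarith

theorem tet_mono {x y : ℕ} (h : x ≤ y) : tet x ≤ tet y := by
  unfold tet
  exact Nat.div_le_div_right (by gcongr)

theorem le_tet (x : ℕ) : x ≤ tet x := by
  have := six_tet x
  nlinarith [Nat.zero_le (x * x * x), Nat.zero_le (x * x)]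

theorem tet_lt_succ (x : ℕ) : tet x < tet (x + 1) := by
  have h1 := six_tet x
  have h2 := six_tet (x + 1)
  nlinarith

theorem exists_tet_le (n : ℕ) : ∃ x, tet x ≤ n ∧ n < tet (x + 1) := by
  have h : ∃ x, n < tet (x + 1) := ⟨n, lt_of_lt_of_le (Nat.lt_succ_self n) (le_tet (n + 1))⟩
  refine ⟨Nat.find h, ?_, Nat.find_spec h⟩
  rcases Nat.eq_zero_or_pos (Nat.find h) with h0 | h0
  · rw [h0]; simp [tet]
  · have := Nat.find_min h (m := Nat.find h - 1) (by omega)
    rw [not_lt] at this
    convert! this using 2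
    omega

theorem cov_step {k hi : ℕ} (h : Cov k hi) (X : ℕ) (hX : (X + 1) * (X + 2) / 2 + 343868 ≤ hi) :
    Cov (k + 1) (343867 + tet (X + 1)) := by
  intro n h1 h2
  obtain ⟨x, hx1, hx2⟩ := exists_tet_le (n - 343868)
  have hxX : x ≤ X := by
    by_contra hc
    push Not at hc
    have := tet_mono (show X + 1 ≤ x by omega)
    omega
  have h3 : (x + 1) * (x + 2) / 2 ≤ (X + 1) * (X + 2) / 2 := Nat.div_le_div_right (by gcongr)
  have h4 := tet_succ x
  obtain ⟨L, hL, hs⟩ := h (n - tet x) (by omega) (by omega)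
  exact ⟨x :: L, by simp [hL], by simp [hs]; omega⟩

theorem cov8 : Cov 8 (10 ^ 32) := by
  have h5 := cov_step cov4 4393 (by norm_num)
  have h6 := cov_step h5 168218 (by norm_num [tet])
  have h7 := cov_step h6 39834172 (by norm_num [tet])
  have h8 := cov_step h7 145152024248 (by norm_num [tet])
  intro n h1 h2
  exact h8 n h1 (h2.trans (by norm_num [tet]))

/-- Every positive integer up to `10 ^ 32` has a representation. -/
theorem rep_small {n : ℕ} (h1 : 1 ≤ n) (h2 : n ≤ 10 ^ 32) : ∃ L, IsRep n L := by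
  rcases lt_or_ge n 343868 with h | h
  · obtain ⟨L, hL, hs⟩ := testBit_sums _ _ _ (testBit_of_full full5 (Nat.zero_le n) (by omega))
    exact ⟨_, isRep_filter h1 (by omega) hs⟩
  · obtain ⟨L, hL, hs⟩ := cov8 n h h2
    exact ⟨_, isRep_filter h1 (by omega) hs⟩

end Pool.Agent.H591R2
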