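import Pool.Agent.H591R2.Defs

/-!
# Tetrahedral numbers and their representations; the sieve used for the small cases
-/

namespace Pool.Agent.H591R2

theorem six_tet (m : ℕ) : 6 * tet m = m * (m + 1) * (m + 2) := by
  unfold tet
  apply Nat.mul_div_cancel'
  have h2 : 2 ∣ m * (m + 1) * (m + 2) := (Nat.even_mul_succ_self m).two_dvd.mul_right _
  have h3 : 3 ∣ m * (m + 1) * (m + 2) := by
    have : m % 3 = 0 ∨ m % 3 = 1 ∨ m % 3 = 2 := by omega
    rcases this with h | h | h
    · exact ((Nat.dvd_of_mod_eq_zero h).mul_right _).mul_right _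
    · exact (Nat.dvd_of_mod_eq_zero (by omega : (m + 2) % 3 = 0)).mul_left _
    · exact ((Nat.dvd_of_mod_eq_zero (by omega : (m + 1) % 3 = 0)).mul_left _).mul_right _
  exact Nat.Coprime.mul_dvd_of_dvd_of_dvd (by norm_num) h2 h3

theorem six_tet_pred (x : ℕ) : (6 : ℤ) * tet (x - 1) = (x : ℤ) ^ 3 - x := by
  cases x with
  | zero => simp [tet]
  | succ x =>
    have := six_tet x
    simp only [Nat.add_sub_cancel]
    have h : ((6 * tet x : ℕ) : ℤ) = ((x * (x + 1) * (x + 2) : ℕ) : ℤ) := by rw [this]
    push_cast at h ⊢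
    rw [h]; ring

theorem sum_filter_tet (L : List ℕ) :
    ((L.filter (fun m => 1 ≤ m)).map tet).sum = (L.map tet).sum := by
  induction L with
  | nil => rfl
  | cons a L ih =>
    by_cases h : 1 ≤ a
    · simp [List.filter_cons, h, ih]
    · have : a = 0 := by omega
      subst this
      simp [List.filter_cons, ih, tet]

theorem isRep_filter {n : ℕ} (hn : 1 ≤ n) {L : List ℕ} (hL : L.length ≤ 8)
    (hs : (L.map tet).sum = n) : IsRep n (L.filter (fun m => 1 ≤ m)) := by
  refine ⟨?_, (List.length_filter_le _ _).trans hL, fun m hm => by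
    have := (List.mem_filter.1 hm).2
    simpa using this, ?_⟩
  · rw [Nat.one_le_iff_ne_zero]
    intro h
    rw [List.length_eq_zero_iff] at h
    have := sum_filter_tet L
    rw [h] at this
    simp at this
    omega
  · rw [sum_filter_tet, hs]

/-! ### sums of `k` tetrahedral numbers as bits -/

/-- the bits of `S` shifted by tetrahedral numbers -/
def shiftOr (S : ℕ) (xs : List ℕ) : ℕ := xs.foldl (fun acc x => acc ||| (S <<< tet x)) 0

theorem testBit_shiftOr (S : ℕ) (n : ℕ) (xs : List ℕ) : (shiftOr S xs).testBit n = true →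
    ∃ x, tet x ≤ n ∧ S.testBit (n - tet x) = true := by
  have key : ∀ (xs : List ℕ) (acc : ℕ),
      (xs.foldl (fun acc x => acc ||| (S <<< tet x)) acc).testBit n = true →
      acc.testBit n = true ∨ ∃ x, tet x ≤ n ∧ S.testBit (n - tet x) = true := by
    intro xs
    induction xs with
    | nil => intro acc h; exact Or.inl h
    | cons x xs ih =>
      intro acc h
      rcases ih _ h with h | h
      · rw [Nat.testBit_or, Bool.or_eq_true] at h
        rcases h with h | h
        · exact Or.inl h
        · rw [Nat.testBit_shiftLeft, Bool.and_eq_true, decide_eq_true_eq] at h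
          exact Or.inr ⟨x, h.1, h.2⟩
      · exact Or.inr h
  intro h
  rcases key xs 0 h with h | h
  · simp at h
  · exact h

/-- iterated sums -/
def sums : ℕ → List ℕ → ℕ
  | 0, _ => 1
  | k + 1, xs => shiftOr (sums k xs) xs

theorem testBit_sums (xs : List ℕ) : ∀ (k n : ℕ), (sums k xs).testBit n = true →
    ∃ L : List ℕ, L.length = k ∧ (L.map tet).sum = n := by
  intro k
  induction k with
  | zero =>
    intro n h
    refine ⟨[], rfl, ?_⟩
    rcases Nat.eq_zero_or_pos n with h0 | h0
    · simp [h0]
    · obtain ⟨j, rfl⟩ := Nat.exists_eq_succ_of_ne_zero h0.ne'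
      simp [sums, Nat.testBit_succ] at h
  | succ k ih =>
    intro n h
    obtain ⟨x, hx, h⟩ := testBit_shiftOr _ _ _ h
    obtain ⟨L, hL, hs⟩ := ih _ h
    exact ⟨x :: L, by simp [hL], by simp [hs]; omega⟩

/-- all bits of `S` from `lo` to `lo + len - 1` are set -/
def full (S lo len : ℕ) : Bool := ((S >>> lo) &&& (2 ^ len - 1)) == 2 ^ len - 1

theorem testBit_of_full {S lo len : ℕ} (h : full S lo len = true) {n : ℕ} (h1 : lo ≤ n)
    (h2 : n < lo + len) : S.testBit n = true := by
  unfold full at h
  have h3 : ((S >>> lo) &&& (2 ^ len - 1)).testBit (n - lo) = (2 ^ len - 1).testBit (n - lo) := by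
    rw [eq_of_beq h]
  rw [Nat.testBit_two_pow_sub_one, Nat.testBit_and, Nat.testBit_two_pow_sub_one,
    Nat.testBit_shiftRight] at h3
  have h4 : n - lo < len := by omega
  simp only [h4, decide_true, Bool.and_true] at h3
  rwa [Nat.add_sub_cancel' h1] at h3

/-! ### sets of sums in a window -/

/-- every set bit `i` of `S` gives a sum `lo + i` of `k` tetrahedral numbers -/
def TetGood (k lo S : ℕ) : Prop :=
  ∀ i, S.testBit i = true → ∃ L : List ℕ, L.length = k ∧ (L.map tet).sum = lo + i

/-- the set `S` shifted by the tetrahedral numbers of `xs` and moved down by `d` -/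
def tetComb (S d : ℕ) (xs : List ℕ) : ℕ :=
  xs.foldl (fun acc x => acc |||
    (bif Nat.ble (tet x) d then S >>> (d - tet x) else S <<< (tet x - d))) 0

theorem tetGood_one : TetGood 0 0 1 := by
  intro n h
  refine ⟨[], rfl, ?_⟩
  rcases Nat.eq_zero_or_pos n with h0 | h0
  · simp [h0]
  · obtain ⟨j, rfl⟩ := Nat.exists_eq_succ_of_ne_zero h0.ne'
    simp [Nat.testBit_succ] at h

theorem tetGood_comb {k lo S : ℕ} (hS : TetGood k lo S) (d : ℕ) (xs : List ℕ) :
    TetGood (k + 1) (lo + d) (tetComb S d xs) := by
  have key : ∀ (xs : List ℕ) (acc : ℕ), TetGood (k + 1) (lo + d) acc →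
      TetGood (k + 1) (lo + d) (xs.foldl (fun acc x => acc |||
        (bif Nat.ble (tet x) d then S >>> (d - tet x) else S <<< (tet x - d))) acc) := by
    intro xs
    induction xs with
    | nil => intro acc h; exact h
    | cons x xs ih =>
      intro acc h
      refine ih _ ?_
      intro i hi
      rw [Nat.testBit_or, Bool.or_eq_true] at hi
      rcases hi with hi | hi
      · exact h i hi
      · by_cases hx : tet x ≤ d
        · rw [show Nat.ble (tet x) d = true from Nat.ble_eq_true_of_le hx, cond_true,
            Nat.testBit_shiftRight] at hi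
          obtain ⟨L, hL, hs⟩ := hS _ hi
          exact ⟨x :: L, by simp [hL], by simp only [List.map_cons, List.sum_cons, hs]; omega⟩
        · rw [show Nat.ble (tet x) d = false from by
              rw [Bool.eq_false_iff]; exact fun hc => hx (Nat.le_of_ble_eq_true hc), cond_false,
            Nat.testBit_shiftLeft, Bool.and_eq_true, decide_eq_true_eq] at hi
          obtain ⟨L, hL, hs⟩ := hS _ hi.2
          exact ⟨x :: L, by simp [hL], by
            have := hi.1
            simp only [List.map_cons, List.sum_cons, hs]; omega⟩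
  exact key xs 0 (fun i hi => by simp at hi)

theorem tetGood_mod {k lo S : ℕ} (hS : TetGood k lo S) (w : ℕ) : TetGood k lo (S % 2 ^ w) := by
  intro i hi
  rw [Nat.testBit_mod_two_pow, Bool.and_eq_true] at hi
  exact hS i hi.2

/-- sums of four tetrahedral numbers in the window that starts at `d + 729125` -/
def tetWin (n d y0 ny w2 w3 : ℕ) : ℕ :=
  tetComb (tetComb (tetComb (tetComb 1 0 (List.range n)) d (List.range' y0 ny) % 2 ^ w2) 562475
    (List.range 150) % 2 ^ w3) 166650 (List.range 100)

theorem tetGood_win (n d y0 ny w2 w3 : ℕ) : TetGood 4 (d + 729125) (tetWin n d y0 ny w2 w3) := by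
  have h := tetGood_comb (tetGood_mod (tetGood_comb (tetGood_mod (tetGood_comb (tetGood_comb tetGood_one 0
    (List.range n)) d (List.range' y0 ny)) w2) 562475 (List.range 150)) w3) 166650 (List.range 100)
  have e : 0 + 0 + d + 562475 + 166650 = d + 729125 := by omega
  rw [e] at h
  exact h

theorem tetWin_rep {n d y0 ny w2 w3 len : ℕ} (h : full (tetWin n d y0 ny w2 w3) 0 len = true) {m : ℕ}
    (h1 : d + 729125 ≤ m) (h2 : m < d + 729125 + len) :
    ∃ L : List ℕ, L.length = 4 ∧ (L.map tet).sum = m := by
  obtain ⟨L, hL, hs⟩ := tetGood_win n d y0 ny w2 w3 (m - (d + 729125))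
    (testBit_of_full h (Nat.zero_le _) (by omega))
  exact ⟨L, hL, by omega⟩

end Pool.Agent.H591R2
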