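import Pool.Agent.H591R2.Root

/-!
# Correctness of one trial with good random choices
-/

namespace Pool.Agent.H591R2

open St

theorem qOf_dvd {m u : ℕ} (hm : m % 2 = 1) (y : ℕ) : (m : ℤ) ∣ (u : ℤ) ^ 2 + 2 * qOf m u y := by
  have hm0 : 0 < m := by omega
  have h1 : u * u * ((m + 1) / 2) % m ≤ m := (Nat.mod_lt _ hm0).le
  have h2 : (qOf m u y : ZMod m) = -((u : ZMod m) * u * ((m + 1) / 2 : ℕ)) := by
    unfold qOf
    rw [Nat.cast_add, Nat.cast_mul, ZMod.natCast_mod, Nat.cast_sub h1, ZMod.natCast_mod,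
      ZMod.natCast_self]
    push_cast; ring
  have h3 : (2 : ZMod m) * ((m + 1) / 2 : ℕ) = 1 := by
    have : 2 * ((m + 1) / 2) = m + 1 := by omega
    have h4 : ((2 * ((m + 1) / 2) : ℕ) : ZMod m) = ((m + 1 : ℕ) : ZMod m) := by rw [this]
    push_cast at h4
    rw [ZMod.natCast_self, zero_add] at h4
    exact h4
  rw [← ZMod.intCast_zmod_eq_zero_iff_dvd, Int.cast_add, Int.cast_pow, Int.cast_mul,
    Int.cast_natCast, Int.cast_natCast, h2, Int.cast_ofNat]
  linear_combination (-(u : ZMod m) ^ 2) * h3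

/-- all iterates stay below the cap -/
theorem cap_true {m M : ℤ} {s : St} (h : Good m M s) (hmM : m ≤ M) (M' : ℕ) (hM' : (M' : ℤ) = M) :
    St.cap M' s = true := by
  obtain ⟨⟨a1, a2⟩, ⟨d1, d2⟩, ⟨f1, f2⟩, b1, c1, e1, x1, y1, z1⟩ := bounds h
  have hM0 : (0 : ℤ) ≤ M := by omega
  have key : ∀ v : ℤ, v ^ 2 ≤ M ^ 2 → v.natAbs ≤ M' := by
    intro v hv
    have := abs_le_of_sq_le_sq hv hM0
    rw [Int.abs_eq_natAbs, ← hM'] at this
    exact_mod_cast this
  have key2 : ∀ v w : ℤ, 0 < w → w ≤ M → v ^ 2 ≤ w * m → v.natAbs ≤ M' := by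
    intro v w hw hwM hv
    apply key
    have hm0 : 0 ≤ m := by
      by_contra hc
      push Not at hc
      nlinarith [sq_nonneg v]
    nlinarith
  have key3 : ∀ v : ℤ, 0 < v → v ≤ M → v.natAbs ≤ M' := by
    intro v hv hvM
    omega
  unfold St.cap
  simp only [Bool.and_eq_true, decide_eq_true_eq]
  exact ⟨⟨⟨⟨⟨⟨⟨⟨key3 _ a1 a2, key _ b1⟩, key _ c1⟩, key3 _ d1 d2⟩, key _ e1⟩, key3 _ f1 f2⟩,
    key2 _ _ a1 a2 x1⟩, key2 _ _ d1 d2 y1⟩, key2 _ _ f1 f2 z1⟩

theorem cstep_iter {m M : ℤ} (hM : 2 ≤ M) (hmM : m ≤ M) (M' : ℕ) (hM' : (M' : ℤ) = M) (N : ℕ) :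
    ∀ {s : St}, Good m M s → (St.cstep M')^[N] s = step^[N] s := by
  induction N with
  | zero => intro s _; rfl
  | succ N ih =>
    intro s h
    have h1 := (step_spec hM h).1
    rw [Function.iterate_succ_apply, Function.iterate_succ_apply]
    have e : St.cstep M' s = s.step := by
      unfold St.cstep
      rw [if_pos (cap_true h1 hmM M' hM')]
    rw [e]
    exact ih h1

theorem four_three (K : ℕ) (hK : 1 ≤ K) : 2 ^ (2640 * K + 1) * 3 ^ (7000 * K) < 4 ^ (7000 * K) := by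
  have h1 : (4 * 3 ^ 5) ^ (1400 * K) ≤ (4 ^ 5) ^ (1400 * K) := Nat.pow_le_pow_left (by norm_num) _
  rw [mul_pow, ← pow_mul, ← pow_mul] at h1
  have e1 : 5 * (1400 * K) = 7000 * K := by ring
  rw [e1] at h1
  have h2 : 2 ^ (2640 * K + 1) < 4 ^ (1400 * K) := by
    rw [show (4 : ℕ) = 2 ^ 2 by norm_num, ← pow_mul]
    exact Nat.pow_lt_pow_right (by norm_num) (by omega)
  exact lt_of_lt_of_le (Nat.mul_lt_mul_of_pos_right h2 (by positivity)) h1

/-- with a good auxiliary prime and a good root, the reduction finds three squares -/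
theorem three_spec {K m u y w : ℕ} (hK : 1 ≤ K) (hm : m % 8 = 3) (hmK : m ≤ 2 ^ (640 * K))
    (hq : (qOf m u y).Prime) (hq1 : 2 ^ (640 * K) < qOf m u y) (hq2 : qOf m u y < 2 ^ (2000 * K))
    (hw : GoodRoot m (qOf m u y) w) :
    ∃ a b c : ℤ, a ^ 2 + b ^ 2 + c ^ 2 = m ∧ three K m u y w = (a.natAbs, b.natAbs, c.natAbs) := by
  have hdvd := qOf_dvd (m := m) (u := u) (by omega) y
  have hthree : three K m u y w = (((St.cstep (2 ^ (3000 * K)))^[7000 * K] (iniSt m (qOf m u y)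
    (rootOf m (qOf m u y) w) (eg m u).2)).x.natAbs, ((St.cstep (2 ^ (3000 * K)))^[7000 * K] (iniSt m
    (qOf m u y) (rootOf m (qOf m u y) w) (eg m u).2)).y.natAbs, ((St.cstep
    (2 ^ (3000 * K)))^[7000 * K] (iniSt m (qOf m u y) (rootOf m (qOf m u y) w)
    (eg m u).2)).z.natAbs) := rfl
  rw [hthree]
  set q := qOf m u y
  have hm0 : 0 < m := by omega
  have hq0 := hq.pos
  have hqne2 : q ≠ 2 := by
    have : 2 ^ 1 ≤ 2 ^ (640 * K) := pow2_le (by omega)
    omega
  have hqodd : q % 2 = 1 := Nat.odd_iff.1 (hq.odd_of_ne_two hqne2)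
  have hqm : m < q := by omega
  have hcop : Nat.Coprime q m := (Nat.Prime.coprime_iff_not_dvd hq).2 fun h => by
    have := Nat.le_of_dvd hm0 h
    omega
  -- the inverse of `u`
  have hucop : Nat.gcd m u = 1 := by
    by_contra hc
    obtain ⟨p, hp, hpd⟩ := Nat.exists_prime_and_dvd hc
    have hp1 : p ∣ m := hpd.trans (Nat.gcd_dvd_left _ _)
    have hp2 : p ∣ u := hpd.trans (Nat.gcd_dvd_right _ _)
    have hp3 : (p : ℤ) ∣ 2 * q := by
      have h1 : (p : ℤ) ∣ (u : ℤ) ^ 2 + 2 * q := (Int.natCast_dvd_natCast.2 hp1).trans hdvd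
      have h2 : (p : ℤ) ∣ (u : ℤ) ^ 2 := dvd_pow (Int.natCast_dvd_natCast.2 hp2) (by norm_num)
      exact (dvd_add_right h2).1 h1
    have hp4 : p ∣ 2 * q := by exact_mod_cast hp3
    rcases (Nat.Prime.dvd_mul hp).1 hp4 with h | h
    · have := (Nat.prime_dvd_prime_iff_eq hp Nat.prime_two).1 h
      subst this
      omega
    · have := (Nat.prime_dvd_prime_iff_eq hp hq).1 h
      subst this
      exact absurd (Nat.le_of_dvd hm0 hp1) (by omega)
  obtain ⟨_, k2, k3⟩ := eg_spec (m := m) (u := u) hm0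
  rw [hucop] at k3
  set k := (eg m u).2
  obtain ⟨b1, b2, b3⟩ := hw
  set b := rootOf m q w
  -- the integers `c` and `l`
  have hc : 2 * q ∣ b * b + m := by
    apply Nat.Coprime.mul_dvd_of_dvd_of_dvd
    · exact (Nat.coprime_two_left.2 (hq.odd_of_ne_two hqne2))
    · have : (b * b) % 2 = 1 := by rw [Nat.mul_mod, b2]
      omega
    · rw [← pow_two]; exact b1
  have hl : m ∣ 2 * q * k * k + 1 := by
    rw [← ZMod.natCast_eq_zero_iff]
    have h1 : (((u : ℤ) ^ 2 + 2 * q : ℤ) : ZMod m) = 0 :=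
      (ZMod.intCast_zmod_eq_zero_iff_dvd _ _).2 hdvd
    push_cast at h1 k3 ⊢
    linear_combination (k : ZMod m) ^ 2 * h1 - (k * u + 1 : ZMod m) * k3
  obtain ⟨c, hc⟩ := hc
  obtain ⟨l, hl⟩ := hl
  have hc' : (b * b + m) / (2 * q) = c := by
    rw [hc]; exact Nat.mul_div_cancel_left _ (by omega)
  have hl' : (2 * q * k * k + 1) / m = l := by
    rw [hl]; exact Nat.mul_div_cancel_left _ hm0
  have hini : iniSt m q b k = init q b c k l := by
    unfold iniSt
    rw [← hc', ← hl']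
  have hcle : c ≤ q := by
    by_contra hcc
    push Not at hcc
    have : 2 * q * (q + 1) ≤ 2 * q * c := Nat.mul_le_mul_left _ hcc
    nlinarith
  have hlle : l ≤ 2 * q * m + 1 := by
    by_contra hcc
    push Not at hcc
    have h1 : m * (2 * q * m + 2) ≤ m * l := Nat.mul_le_mul_left _ hcc
    have h2 : k * k ≤ m * m := Nat.mul_le_mul k2.le k2.le
    have h3 : 2 * q * (k * k) ≤ 2 * q * (m * m) := Nat.mul_le_mul_left _ h2
    nlinarith
  set M := 2 ^ (3000 * K) with hMdef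
  have hq_le : q ≤ 2 ^ (2000 * K) := hq2.le
  have hqm_le : q * m ≤ 2 ^ (2640 * K) := by
    calc q * m ≤ 2 ^ (2000 * K) * 2 ^ (640 * K) := Nat.mul_le_mul hq_le hmK
      _ = 2 ^ (2640 * K) := pow2_mul (by ring)
  have hM1 : 2 * 2 ^ (2000 * K) ≤ M := by
    calc 2 * 2 ^ (2000 * K) = 2 ^ (2000 * K + 1) := by rw [pow_succ]; ring
      _ ≤ M := pow2_le (by omega)
  have hM2 : 4 * 2 ^ (2640 * K) ≤ M := by
    calc 4 * 2 ^ (2640 * K) = 2 ^ (2640 * K + 2) := by rw [pow_add]; ring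
      _ ≤ M := pow2_le (by omega)
  have h2640 : 1 ≤ 2 ^ (2640 * K) := Nat.one_le_two_pow
  have hgood : Good (m : ℤ) (M : ℤ) (init q b c k l) := by
    apply init_good
    · exact_mod_cast hm0
    · exact_mod_cast hq0
    · rw [pow_two]; exact_mod_cast hc
    · have : 2 * q * k ^ 2 + 1 = m * l := by rw [← hl]; ring
      exact_mod_cast this
    · exact_mod_cast (show 2 * q ≤ M by omega)
    · exact_mod_cast (show c ≤ M by omega)
    · have : 2 * q * m = 2 * (q * m) := by ring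
      exact_mod_cast (show l ≤ M by omega)
  have hM2' : (2 : ℤ) ≤ M := by exact_mod_cast (show 2 ≤ M by omega)
  have hmM : (m : ℤ) ≤ M := by exact_mod_cast (show m ≤ M by omega)
  have hpot : (init q b c k l).pot = 2 * q * m := by
    unfold St.pot St.D2 init
    simp only
    have : (b : ℤ) * b + m = 2 * q * c := by exact_mod_cast hc
    linear_combination (-(2 * q : ℤ)) * this
  have hpot2 : (init q b c k l).pot * 3 ^ (7000 * K) < 4 ^ (7000 * K) := by
    rw [hpot]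
    have h1 : 2 * q * m * 3 ^ (7000 * K) < 4 ^ (7000 * K) := by
      refine lt_of_le_of_lt (Nat.mul_le_mul_right _ ?_) (four_three K hK)
      calc 2 * q * m = 2 * (q * m) := by ring
        _ ≤ 2 * 2 ^ (2640 * K) := Nat.mul_le_mul_left _ hqm_le
        _ = 2 ^ (2640 * K + 1) := by rw [pow_succ]; ring
    exact_mod_cast h1
  obtain ⟨hf, hg⟩ := iter_spec hM2' (7000 * K) hgood hpot2
  rw [hini, cstep_iter hM2' hmM M rfl (7000 * K) hgood]
  exact ⟨_, _, _, fin_sq hf hg, rfl⟩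

end Pool.Agent.H591R2
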