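import Pool.Agent.H591R2.Family

/-!
# Every positive integer is a sum of at most eight tetrahedral numbers
-/

namespace Pool.Agent.H591R2

theorem exists_cube_root (N : ℕ) : ∃ r, r ^ 3 ≤ N ∧ N < (r + 1) ^ 3 := by
  have h : ∃ x, N < (x + 1) ^ 3 := ⟨N, by nlinarith [Nat.zero_le (N ^ 2), Nat.zero_le (N ^ 3)]⟩
  refine ⟨Nat.find h, ?_, Nat.find_spec h⟩
  rcases Nat.eq_zero_or_pos (Nat.find h) with h0 | h0
  · rw [h0]; simp
  · have := Nat.find_min h (m := Nat.find h - 1) (by omega)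
    rw [not_lt] at this
    convert! this using 2
    omega

theorem exists_sq_root (t C : ℕ) (ht : 1 ≤ t) (hC : 1 ≤ C) :
    ∃ E, t * E ^ 2 < C ∧ C ≤ t * (E + 1) ^ 2 := by
  have h : ∃ x, C ≤ t * (x + 1) ^ 2 := ⟨C, by nlinarith [Nat.zero_le (C ^ 2)]⟩
  refine ⟨Nat.find h, ?_, Nat.find_spec h⟩
  rcases Nat.eq_zero_or_pos (Nat.find h) with h0 | h0
  · rw [h0]; simp; omega
  · have := Nat.find_min h (m := Nat.find h - 1) (by omega)
    rw [not_le] at this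
    convert! this using 3
    omega

theorem cube_ineq (x y : ℤ) (hx : 0 ≤ x) (hy : 0 ≤ y) :
    3600 * (x + y) ^ 3 ≤ 7225 * x ^ 3 + 41616 * y ^ 3 := by
  nlinarith [mul_nonneg (show 0 ≤ 145 * x + 264 * y by linarith) (sq_nonneg (5 * x - 12 * y))]

theorem rep_large {n : ℕ} (hn : 10 ^ 32 < n) : ∃ L, IsRep n L := by
  obtain ⟨j, hj1, hj2⟩ : ∃ j, 53 * 729 ^ j ≤ n ∧ n < 38637 * 729 ^ j := by
    have h0 : n / 53 ≠ 0 := by omega
    refine ⟨Nat.log 729 (n / 53), ?_, ?_⟩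
    · have := Nat.pow_log_le_self 729 h0
      omega
    · have := Nat.lt_pow_succ_log_self (b := 729) (by norm_num) (n / 53)
      rw [pow_succ] at this
      omega
  set σ := 3 ^ j with hσ
  set s := σ ^ 2 with hs
  have hs3 : s ^ 3 = 729 ^ j := by
    rw [hs, hσ, ← pow_mul, ← pow_mul]
    have : (729 : ℕ) = 3 ^ 6 := by norm_num
    rw [this, ← pow_mul]
    congr 1
    ring
  have hσodd : σ % 2 = 1 := by rw [hσ, Nat.pow_mod]; simp
  rw [← hs3] at hj1 hj2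
  have hs0 : 0 < s := by positivity
  have hP : (3 : ℤ) ^ (2 * j + 1) = 3 * s := by
    rw [hs, hσ]; push_cast; rw [pow_succ, pow_mul']; ring
  obtain ⟨t₀, ht₀, hdiv⟩ := hensel (24 * n) (by omega) (2 * j)
  rw [hP] at hdiv
  obtain ⟨r, hr1, hr2⟩ := exists_cube_root (7 * n)
  -- the number `t`
  obtain ⟨t, ht1, ht2, ht3⟩ : ∃ t : ℕ, r + 1 ≤ t ∧ t ≤ r + 3 * s ∧
      (3 * s : ℤ) ∣ 24 * n - (t : ℤ) ^ 3 + 4 * t := by
    have hPpos : (0 : ℤ) < 3 * s := by exact_mod_cast (by omega : 0 < 3 * s)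
    have h1 := Int.emod_nonneg (t₀ - (r + 1)) hPpos.ne'
    have h2 := Int.emod_lt_of_pos (t₀ - (r + 1)) hPpos
    have h3 := Int.mul_ediv_add_emod (t₀ - (r + 1)) (3 * s)
    set δ := (t₀ - (r + 1)) % (3 * s)
    set κ := (t₀ - (r + 1)) / (3 * s)
    refine ⟨(r + 1 + δ).toNat, by omega, by omega, ?_⟩
    have h4 : (((r + 1 + δ).toNat : ℕ) : ℤ) = t₀ - 3 * s * κ := by
      rw [Int.toNat_of_nonneg (by omega)]
      linarith
    rw [h4]
    have e : (24 : ℤ) * n - (t₀ - 3 * s * κ) ^ 3 + 4 * (t₀ - 3 * s * κ)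
      = -(t₀ ^ 3 - 4 * t₀ - 24 * n) + (3 * s) * (κ * (3 * t₀ ^ 2 - 3 * t₀ * (3 * s * κ)
        + (3 * s * κ) ^ 2 - 4)) := by ring
    rw [e]
    exact dvd_add ((dvd_neg).2 hdiv) (dvd_mul_right _ _)
  have ht7 : 7 * n ≤ t ^ 3 := hr2.le.trans (Nat.pow_le_pow_left ht1 3)
  have ht20 : t ^ 3 ≤ 20 * n := by
    have h1 : t ^ 3 ≤ (r + 3 * s) ^ 3 := Nat.pow_le_pow_left ht2 3
    have h2 := cube_ineq r (3 * s) (by positivity) (by positivity)
    have h3 : 3600 * (r + 3 * s) ^ 3 ≤ 7225 * r ^ 3 + 41616 * (3 * s) ^ 3 := by exact_mod_cast h2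
    have h4 : (3 * s) ^ 3 = 27 * s ^ 3 := by ring
    rw [h4] at h3
    omega
  have htn : 4 * t ≤ n := by
    by_contra hc
    push Not at hc
    have h1 : n ^ 3 < (4 * t) ^ 3 := Nat.pow_lt_pow_left hc (by norm_num)
    have h2 : (4 * t) ^ 3 = 64 * t ^ 3 := by ring
    have h3 : n ^ 3 = n * n * n := by ring
    have h4 : 1281 * n ≤ n * n * n := by nlinarith
    omega
  obtain ⟨A, hA⟩ := ht3
  have hsZ : (0 : ℤ) < s := by exact_mod_cast hs0
  have ht7Z : (7 : ℤ) * n ≤ (t : ℤ) ^ 3 := by exact_mod_cast ht7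
  have ht20Z : (t : ℤ) ^ 3 ≤ 20 * n := by exact_mod_cast ht20
  have htnZ : (4 : ℤ) * t ≤ n := by exact_mod_cast htn
  have hj1Z : (53 : ℤ) * s ^ 3 ≤ n := by exact_mod_cast hj1
  have hj2Z : (n : ℤ) < 38637 * s ^ 3 := by exact_mod_cast hj2
  have hnZ : (10 : ℤ) ^ 32 < n := by exact_mod_cast hn
  have ht0 : 0 < t := by
    rcases Nat.eq_zero_or_pos t with h | h
    · rw [h] at ht7; omega
    · exact h
  -- the constant `C`
  have hs_big : (100 : ℤ) ≤ s := by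
    by_contra hc
    push Not at hc
    have : (s : ℤ) ^ 3 ≤ 100 ^ 3 := pow_le_pow_left₀ hsZ.le hc.le 3
    omega
  have hCpos : (t : ℤ) < A - s ^ 2 + 4 := by
    by_contra hc
    push Not at hc
    have h1 : (4 : ℤ) * n ≤ 3 * s * A := by rw [← hA]; linarith
    have h2 : 3 * (s : ℤ) * A ≤ 3 * s * (s ^ 2 + t) := by
      apply mul_le_mul_of_nonneg_left _ (by positivity)
      linarith
    have h3 : 3 * (s : ℤ) * (s ^ 2 + t) = 3 * s ^ 3 + 3 * s * t := by ring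
    have h4 : (3 : ℤ) * s * t ≤ n := by
      -- `s ^ 3 ≤ n / 53`, `t ^ 3 ≤ 20 n`
      by_contra hc
      push Not at hc
      have h5 : (n : ℤ) ^ 3 < (3 * s * t) ^ 3 := pow_lt_pow_left₀ hc (by positivity) (by norm_num)
      have h6 : (3 * s * t : ℤ) ^ 3 = 27 * s ^ 3 * t ^ 3 := by ring
      rw [h6] at h5
      have h7 : (27 : ℤ) * s ^ 3 * t ^ 3 ≤ 27 * n * (20 * n) := by
        have h8 : (s : ℤ) ^ 3 ≤ n := by linarith [pow_pos hsZ 3]
        have h9 : (0 : ℤ) ≤ (s : ℤ) ^ 3 := by positivity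
        have h10 : (0 : ℤ) ≤ (t : ℤ) ^ 3 := by positivity
        have h11 : (27 : ℤ) * s ^ 3 ≤ 27 * n := by linarith
        exact mul_le_mul h11 ht20Z h10 (by positivity)
      have h12 : (540 : ℤ) * (n : ℤ) ^ 2 ≤ n * (n : ℤ) ^ 2 := by
        apply mul_le_mul_of_nonneg_right _ (by positivity)
        linarith
      have h13 : (n : ℤ) * (n : ℤ) ^ 2 = (n : ℤ) ^ 3 := by ring
      have h14 : (27 : ℤ) * n * (20 * n) = 540 * (n : ℤ) ^ 2 := by ring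
      linarith
    linarith
  obtain ⟨C, hC⟩ : ∃ C : ℕ, (C : ℤ) = A - s ^ 2 + 4 :=
    ⟨(A - s ^ 2 + 4).toNat, Int.toNat_of_nonneg (by linarith [(by positivity : (0 : ℤ) ≤ t)])⟩
  rw [← hC] at hCpos
  have hCt : t < C := by exact_mod_cast hCpos
  obtain ⟨E, hE1, hE2⟩ := exists_sq_root t C ht0 (by omega)
  have hE0 : 1 ≤ E := by
    by_contra hc
    have : E = 0 := by omega
    rw [this] at hE2
    omega
  -- `4 t E ≤ s ^ 2`
  have hsC : (s : ℤ) * C ≤ 6 * n := by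
    have h1 : (C : ℤ) ≤ A := by nlinarith
    have h2 : 3 * (s : ℤ) * A ≤ 18 * n := by rw [← hA]; linarith
    nlinarith
  have hsC' : s * C ≤ 6 * n := by exact_mod_cast hsC
  have h96 : 96 * t * n ≤ s ^ 5 := by
    by_contra hc
    push Not at hc
    have h1 : (s ^ 5) ^ 3 < (96 * t * n) ^ 3 := Nat.pow_lt_pow_left hc (by norm_num)
    have h2 : (96 * t * n) ^ 3 = 96 ^ 3 * t ^ 3 * n ^ 3 := by ring
    have h3 : 96 ^ 3 * t ^ 3 * n ^ 3 ≤ 96 ^ 3 * (20 * n) * n ^ 3 := by gcongr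
    have h4 : n ^ 5 ≤ (38637 * s ^ 3) ^ 5 := Nat.pow_le_pow_left hj2.le 5
    have h5 : (38637 * s ^ 3) ^ 5 = 38637 ^ 5 * (s ^ 5) ^ 3 := by ring
    have h6 : n ^ 5 = n * n ^ 4 := by ring
    have h7 : 96 ^ 3 * (20 * n) * n ^ 3 = 96 ^ 3 * 20 * n ^ 4 := by ring
    have h8 : 38637 ^ 5 * (96 ^ 3 * 20) * n ^ 4 ≤ n * n ^ 4 := by
      apply Nat.mul_le_mul_right
      refine le_trans ?_ hn.le
      norm_num
    have h9 : 38637 ^ 5 * (s ^ 5) ^ 3 < 38637 ^ 5 * (96 ^ 3 * 20 * n ^ 4) := by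
      apply Nat.mul_lt_mul_of_pos_left _ (by norm_num)
      omega
    have h10 : 38637 ^ 5 * (96 ^ 3 * 20 * n ^ 4) = 38637 ^ 5 * (96 ^ 3 * 20) * n ^ 4 := by ring
    omega
  have h4tE : 4 * t * E ≤ s ^ 2 := by
    by_contra hc
    push Not at hc
    have h1 : (s ^ 2) ^ 2 < (4 * t * E) ^ 2 := Nat.pow_lt_pow_left hc (by norm_num)
    have h2 : (4 * t * E) ^ 2 = 16 * t * (t * E ^ 2) := by ring
    have h3 : 16 * t * (t * E ^ 2) ≤ 16 * t * C := Nat.mul_le_mul_left _ hE1.le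
    have h4 : s * (s ^ 2) ^ 2 < s * (16 * t * C) := Nat.mul_lt_mul_of_pos_left (by omega) hs0
    have h5 : s * (16 * t * C) = 16 * t * (s * C) := by ring
    have h6 : 16 * t * (s * C) ≤ 16 * t * (6 * n) := Nat.mul_le_mul_left _ hsC'
    have h7 : s * (s ^ 2) ^ 2 = s ^ 5 := by ring
    have h8 : 16 * t * (6 * n) = 96 * t * n := by ring
    omega
  -- the number `e`
  obtain ⟨e, he1, he2, he3⟩ : ∃ e, t % 2 = e % 2 ∧ t * e ^ 2 < C ∧ C ≤ t * e ^ 2 + s ^ 2 := by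
    rcases (by omega : t % 2 = E % 2 ∨ t % 2 = (E - 1) % 2) with h | h
    · refine ⟨E, h, hE1, ?_⟩
      have : t * (E + 1) ^ 2 = t * E ^ 2 + 2 * t * E + t := by ring
      nlinarith
    · refine ⟨E - 1, h, lt_of_le_of_lt (Nat.mul_le_mul_left _ (Nat.pow_le_pow_left (by omega) 2))
        hE1, ?_⟩
      obtain ⟨E', rfl⟩ : ∃ E', E = E' + 1 := ⟨E - 1, by omega⟩
      simp only [Nat.add_sub_cancel]
      have : t * (E' + 1 + 1) ^ 2 = t * E' ^ 2 + 4 * t * (E' + 1) := by ring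
      omega
  -- conclusion
  have he2Z : (t : ℤ) * e ^ 2 < C := by exact_mod_cast he2
  have he3Z : (C : ℤ) ≤ t * e ^ 2 + s ^ 2 := by exact_mod_cast he3
  have hmeq : (3 : ℤ) * s * (s ^ 2 - 4 + (C - t * e ^ 2) + t * e ^ 2) = 24 * n - t ^ 3 + 4 * t := by
    rw [hA, hC]; ring
  have hn1 : 1 ≤ n := by omega
  have hf := fam hn1 hs hσodd hmeq he1 (by linarith) ht7 (by omega)
  obtain ⟨m, hm⟩ : ∃ m : ℕ, (m : ℤ) = C - t * e ^ 2 :=
    ⟨((C : ℤ) - t * e ^ 2).toNat, Int.toNat_of_nonneg (by linarith)⟩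
  rw [← hm] at hf
  obtain ⟨x, y, z, hxyz⟩ := three_squares (m := m) (by omega)
  exact ⟨_, fam_rep hn1 hs hσodd hmeq he1 (by linarith) (by linarith) ht7 (by omega)
    (hxyz.trans hm)⟩

/-- (Watson 1952) Every positive integer is a sum of at most eight tetrahedral numbers. -/
theorem watson {n : ℕ} (hn : 1 ≤ n) : ∃ L, IsRep n L := by
  rcases Nat.lt_or_ge (10 ^ 32) n with h | h
  · exact rep_large h
  · exact rep_small hn h

end Pool.Agent.H591R2
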